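import Pool.Agent.K9.C.E1D

/-! # K9: membership words -/

namespace Pool.Agent.K9.C

set_option maxRecDepth 10000

theorem E1m0 : chkM gE E1L 4034560 E1w 0 37 = true := by decide +kernel

theorem E1m1 : chkM gE E1L 4034560 E1w 37 39 = true := by decide +kernel

theorem E1m2 : chkM gE E1L 4034560 E1w 76 38 = true := by decide +kernel

theorem E1m3 : chkM gE E1L 4034560 E1w 114 34 = true := by decide +kernel

theorem E1m4 : chkM gE E1L 4034560 E1w 148 38 = true := by decide +kernel

theorem E1m5 : chkM gE E1L 4034560 E1w 186 39 = true := by decide +kernel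

theorem E1m6 : chkM gE E1L 4034560 E1w 225 35 = true := by decide +kernel

theorem E1m7 : chkM gE E1L 4034560 E1w 260 38 = true := by decide +kernel

theorem E1m8 : chkM gE E1L 4034560 E1w 298 38 = true := by decide +kernel

end Pool.Agent.K9.C
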