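import Pool.Agent.K9.C.E1D

/-! # K9: membership words -/

namespace Pool.Agent.K9.C

set_option maxRecDepth 10000

theorem E1m9 : chkM gE E1L 4034560 E1w 336 33 = true := by decide +kernel

theorem E1m10 : chkM gE E1L 4034560 E1w 369 38 = true := by decide +kernel

theorem E1m11 : chkM gE E1L 4034560 E1w 407 38 = true := by decide +kernel

theorem E1m12 : chkM gE E1L 4034560 E1w 445 32 = true := by decide +kernel

theorem E1m13 : chkM gE E1L 4034560 E1w 477 36 = true := by decide +kernel

theorem E1m14 : chkM gE E1L 4034560 E1w 513 31 = true := by decide +kernel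

theorem E1m15 : chkM gE E1L 4034560 E1w 544 37 = true := by decide +kernel

theorem E1m16 : chkM gE E1L 4034560 E1w 581 40 = true := by decide +kernel

theorem E1m17 : chkM gE E1L 4034560 E1w 621 35 = true := by decide +kernel

end Pool.Agent.K9.C
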