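import Pool.Agent.K9.C.E1D

/-! # K9: membership words -/

namespace Pool.Agent.K9.C

set_option maxRecDepth 10000

theorem E1m18 : chkM gE E1L 4034560 E1w 656 40 = true := by decide +kernel

theorem E1m19 : chkM gE E1L 4034560 E1w 696 38 = true := by decide +kernel

theorem E1m20 : chkM gE E1L 4034560 E1w 734 31 = true := by decide +kernel

theorem E1m21 : chkM gE E1L 4034560 E1w 765 36 = true := by decide +kernel

theorem E1m22 : chkM gE E1L 4034560 E1w 801 32 = true := by decide +kernel

theorem E1m23 : chkM gE E1L 4034560 E1w 833 37 = true := by decide +kernel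

theorem E1m24 : chkM gE E1L 4034560 E1w 870 37 = true := by decide +kernel

theorem E1m25 : chkM gE E1L 4034560 E1w 907 33 = true := by decide +kernel

theorem E1m26 : chkM gE E1L 4034560 E1w 940 39 = true := by decide +kernel

end Pool.Agent.K9.C
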