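import Pool.Agent.K9.C.E1D

/-! # K9: membership words -/

namespace Pool.Agent.K9.C

set_option maxRecDepth 10000

theorem E1m27 : chkM gE E1L 4034560 E1w 979 40 = true := by decide +kernel

theorem E1m28 : chkM gE E1L 4034560 E1w 1019 41 = true := by decide +kernel

theorem E1m29 : chkM gE E1L 4034560 E1w 1060 37 = true := by decide +kernel

theorem E1m30 : chkM gE E1L 4034560 E1w 1097 40 = true := by decide +kernel

theorem E1m31 : chkM gE E1L 4034560 E1w 1137 40 = true := by decide +kernel

theorem E1m32 : chkM gE E1L 4034560 E1w 1177 40 = true := by decide +kernel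

theorem E1m33 : chkM gE E1L 4034560 E1w 1217 41 = true := by decide +kernel

theorem E1m34 : chkM gE E1L 4034560 E1w 1258 35 = true := by decide +kernel

theorem E1m35 : chkM gE E1L 4034560 E1w 1293 40 = true := by decide +kernel

end Pool.Agent.K9.C
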