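import Pool.Agent.K9.C.E1D

/-! # K9: membership words -/

namespace Pool.Agent.K9.C

set_option maxRecDepth 10000

theorem E1m36 : chkM gE E1L 4034560 E1w 1333 40 = true := by decide +kernel

theorem E1m37 : chkM gE E1L 4034560 E1w 1373 40 = true := by decide +kernel

theorem E1m38 : chkM gE E1L 4034560 E1w 1413 35 = true := by decide +kernel

theorem E1m39 : chkM gE E1L 4034560 E1w 1448 39 = true := by decide +kernel

theorem E1m40 : chkM gE E1L 4034560 E1w 1487 40 = true := by decide +kernel

theorem E1m41 : chkM gE E1L 4034560 E1w 1527 40 = true := by decide +kernel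

theorem E1m42 : chkM gE E1L 4034560 E1w 1567 35 = true := by decide +kernel

theorem E1m43 : chkM gE E1L 4034560 E1w 1602 39 = true := by decide +kernel

theorem E1m44 : chkM gE E1L 4034560 E1w 1641 38 = true := by decide +kernel

end Pool.Agent.K9.C
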