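import Pool.Agent.K9.C.E1D

/-! # K9: membership words -/

namespace Pool.Agent.K9.C

set_option maxRecDepth 10000

theorem E1m45 : chkM gE E1L 4034560 E1w 1679 33 = true := by decide +kernel

theorem E1m46 : chkM gE E1L 4034560 E1w 1712 36 = true := by decide +kernel

theorem E1m47 : chkM gE E1L 4034560 E1w 1748 35 = true := by decide +kernel

theorem E1m48 : chkM gE E1L 4034560 E1w 1783 32 = true := by decide +kernel

theorem E1m49 : chkM gE E1L 4034560 E1w 1815 36 = true := by decide +kernel

theorem E1m50 : chkM gE E1L 4034560 E1w 1851 31 = true := by decide +kernel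

theorem E1m51 : chkM gE E1L 4034560 E1w 1882 35 = true := by decide +kernel

theorem E1m52 : chkM gE E1L 4034560 E1w 1917 31 = true := by decide +kernel

theorem E1m53 : chkM gE E1L 4034560 E1w 1948 36 = true := by decide +kernel

end Pool.Agent.K9.C
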