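import Pool.Agent.K9.C.E1D

/-! # K9: membership words -/

namespace Pool.Agent.K9.C

set_option maxRecDepth 10000

theorem E1m54 : chkM gE E1L 4034560 E1w 1984 32 = true := by decide +kernel

theorem E1m55 : chkM gE E1L 4034560 E1w 2016 36 = true := by decide +kernel

theorem E1m56 : chkM gE E1L 4034560 E1w 2052 32 = true := by decide +kernel

theorem E1m57 : chkM gE E1L 4034560 E1w 2084 34 = true := by decide +kernel

theorem E1m58 : chkM gE E1L 4034560 E1w 2118 31 = true := by decide +kernel

theorem E1m59 : chkM gE E1L 4034560 E1w 2149 35 = true := by decide +kernel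

theorem E1m60 : chkM gE E1L 4034560 E1w 2184 31 = true := by decide +kernel

theorem E1m61 : chkM gE E1L 4034560 E1w 2215 35 = true := by decide +kernel

theorem E1m62 : chkM gE E1L 4034560 E1w 2250 32 = true := by decide +kernel

end Pool.Agent.K9.C
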