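import Pool.Agent.K9.C.E1D

/-! # K9: membership words -/

namespace Pool.Agent.K9.C

set_option maxRecDepth 10000

theorem E1m63 : chkM gE E1L 4034560 E1w 2282 38 = true := by decide +kernel

theorem E1m64 : chkM gE E1L 4034560 E1w 2320 40 = true := by decide +kernel

theorem E1m65 : chkM gE E1L 4034560 E1w 2360 40 = true := by decide +kernel

theorem E1m66 : chkM gE E1L 4034560 E1w 2400 35 = true := by decide +kernel

theorem E1m67 : chkM gE E1L 4034560 E1w 2435 40 = true := by decide +kernel

theorem E1m68 : chkM gE E1L 4034560 E1w 2475 41 = true := by decide +kernel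

theorem E1m69 : chkM gE E1L 4034560 E1w 2516 41 = true := by decide +kernel

theorem E1m70 : chkM gE E1L 4034560 E1w 2557 42 = true := by decide +kernel

theorem E1m71 : chkM gE E1L 4034560 E1w 2599 35 = true := by decide +kernel

theorem E1m72 : chkM gE E1L 4034560 E1w 2634 6 = true := by decide +kernel

end Pool.Agent.K9.C
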