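import Pool.Agent.K9.C.E1D

/-! # K9: peeling of near cells -/

namespace Pool.Agent.K9.C

set_option maxRecDepth 10000

def E1l0 : List (Nat × Tree) :=
  [(1848, (.leaf [(51, 14), (25, 1), (29, 3), (47, 26)])),
    (1870, (.leaf [(28, 46), (49, 4), (4, 29), (21, 46)])),
    (1892, (.leaf [(1, 23), (25, 19), (29, 35), (47, 39)])),
    (1914, (.leaf [(29, 16), (49, 21), (5, 1), (22, 22)])),
    (1936, (.leaf [(2, 9), (25, 43), (30, 4), (48, 36)])),
    (1958, (.leaf [(25, 33), (2, 7), (48, 45), (30, 21)])),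
    (1980, (.leaf [(30, 1), (49, 37), (4, 14), (23, 10)])),
    (2002, (.leaf [(29, 44), (49, 46), (6, 23), (23, 20)])),
    (2024, (.leaf [(26, 46), (32, 3), (49, 45), (3, 40)])),
    (2046, (.leaf [(27, 41), (32, 28), (49, 43), (3, 34)])),
    (2068, (.leaf [(3, 16), (28, 23), (31, 46), (50, 20)])),
    (2090, (.leaf [(3, 26), (29, 17), (32, 26), (50, 45)])),
    (1673, (.leaf [(23, 45), (47, 40), (51, 29), (16, 37)])),
    (1695, (.leaf [(23, 33), (50, 35), (47, 23), (12, 38)])),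
    (1717, (.leaf [(24, 20), (50, 31), (47, 23), (12, 41)])),
    (1739, (.leaf [(50, 18), (22, 17), (27, 32), (45, 39)])),
    (1761, (.leaf [(25, 13), (48, 39), (1, 12), (16, 40)])),
    (1783, (.leaf [(49, 39), (24, 28), (28, 17), (46, 35)])),
    (1805, (.leaf [(0, 20), (23, 15), (28, 30), (47, 38)])),
    (1827, (.leaf [(50, 32), (24, 32), (28, 24), (47, 20)])),
    (1849, (.leaf [(51, 14), (25, 1), (29, 3), (47, 26)])),
    (1871, (.leaf [(28, 46), (49, 4), (4, 29), (21, 46)])),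
    (1893, (.leaf [(1, 23), (25, 19), (29, 35), (47, 39)])),
    (1915, (.leaf [(29, 16), (49, 21), (5, 1), (22, 22)])),
    (1937, (.leaf [(29, 21), (49, 31), (4, 12), (22, 31)])),
    (1959, (.leaf [(4, 32), (49, 17), (29, 33), (22, 44)])),
    (1981, (.leaf [(50, 9), (3, 25), (30, 31), (24, 5)])),
    (2003, (.leaf [(29, 44), (49, 46), (6, 23), (23, 20)])),
    (2025, (.leaf [(26, 46), (32, 3), (49, 45), (3, 40)])),
    (2047, (.leaf [(27, 41), (32, 28), (49, 43), (3, 34)])),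
    (2069, (.leaf [(3, 16), (28, 23), (31, 46), (50, 20)])),
    (2091, (.leaf [(3, 26), (29, 17), (32, 26), (50, 45)])),
    (2113, (.leaf [(4, 8), (29, 20), (32, 36), (51, 24)])),
    (2135, (.leaf [(5, 20), (29, 22), (33, 6), (51, 21)])),
    (2157, (.leaf [(4, 6), (30, 37), (33, 21), (0, 1)])),
    (2179, (.leaf [(8, 23), (28, 38), (33, 9), (0, 26)])),
    (2201, (.leaf [(3, 19), (32, 5), (8, 38), (0, 32)])),
    (2223, (.leaf [(4, 25), (32, 2), (9, 31), (0, 32)])),
    (2245, (.leaf [(3, 33), (32, 24), (27, 21), (10, 25)])),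
    (2267, (.leaf [(11, 36), (29, 6), (34, 40), (3, 1)])),
    (90, (.node 310 (.leaf [(43, 44), (15, 42), (50, 6)]) (.node 2466 (.leaf [(3, 29), (41, 29), (5, 2)]) (.node 2488 (.leaf [(1, 6), (42, 13), (12, 40)]) (.node 2510 (.leaf [(1, 6), (42, 13), (15, 8)]) (.node 2532 (.leaf [(3, 29), (42, 14), (15, 30)]) (.leaf [(1, 34), (14, 25), (42, 42), (49, 18)]))))))),
    (112, (.node 2270 (.leaf [(3, 29), (50, 6)]) (.node 2291 (.leaf [(3, 29), (50, 6)]) (.leaf [(15, 15), (49, 38), (44, 4), (50, 8)]))))]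

theorem E1p0 : chkP gE E1L 4034560 E1w 0 0 2 6 E1l0 = true := by decide +kernel

def E1l1 : List (Nat × Tree) :=
  [(134, (.node 332 (.leaf [(45, 22), (16, 35), (51, 3)]) (.leaf [(48, 23), (16, 6), (44, 30), (49, 27)]))),
    (156, (.leaf [(14, 31), (45, 41), (38, 7), (20, 43)])),
    (178, (.leaf [(42, 35), (49, 23), (18, 41), (11, 27)])),
    (200, (.leaf [(42, 46), (49, 0), (19, 22), (11, 44)])),
    (222, (.node 2599 (.leaf [(14, 46), (40, 35), (16, 25)]) (.leaf [(19, 44), (43, 10), (48, 46), (12, 15)]))),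
    (244, (.leaf [(47, 12), (16, 19), (22, 12), (39, 8)])),
    (266, (.node 465 (.leaf [(48, 46), (47, 41), (24, 8)]) (.leaf [(43, 24), (21, 15), (14, 0), (49, 22)]))),
    (288, (.leaf [(43, 42), (21, 34), (13, 5), (50, 1)])),
    (310, (.leaf [(44, 2), (21, 30), (14, 18), (50, 3)])),
    (332, (.leaf [(45, 20), (21, 28), (15, 1), (50, 23)])),
    (354, (.leaf [(22, 16), (16, 2), (44, 34), (50, 43)])),
    (882, (.node 686 (.leaf [(26, 30), (7, 13), (2, 0)]) (.node 707 (.leaf [(7, 43), (30, 40), (23, 22)]) (.node 1332 (.leaf [(10, 27), (15, 8), (35, 7)]) (.leaf [(10, 20), (31, 3), (35, 1), (2, 4)]))))),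
    (904, (.node 707 (.leaf [(7, 43), (30, 40)]) (.node 729 (.leaf [(8, 0), (30, 41), (2, 46)]) (.leaf [(33, 43), (7, 37), (13, 9), (27, 42)])))),
    (926, (.leaf [(8, 43), (14, 13), (34, 42), (29, 26)])),
    (948, (.node 1146 (.leaf [(36, 20), (13, 24), (7, 22)]) (.node 1168 (.leaf [(13, 24), (36, 20), (8, 17)]) (.node 1190 (.leaf [(13, 24), (36, 20), (8, 17)]) (.node 1212 (.leaf [(13, 24), (36, 20), (8, 17)]) (.node 1213 (.leaf [(13, 24), (36, 20), (32, 7)]) (.leaf [(32, 0), (13, 1), (5, 26), (37, 37)]))))))),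
    (970, (.node 716 (.leaf [(32, 23), (3, 42), (26, 40)]) (.node 1168 (.leaf [(36, 34), (13, 17), (8, 3)]) (.node 1190 (.leaf [(13, 17), (36, 34), (9, 4)]) (.node 1212 (.leaf [(13, 17), (36, 34), (8, 17)]) (.leaf [(32, 9), (13, 8), (5, 38), (39, 16)])))))),
    (992, (.node 1212 (.leaf [(37, 14), (13, 23), (7, 21)]) (.node 1257 (.leaf [(13, 23), (37, 14), (9, 21)]) (.leaf [(32, 40), (13, 27), (6, 12), (39, 38)])))),
    (1014, (.leaf [(37, 7), (8, 44), (15, 34), (30, 19)])),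
    (1036, (.node 839 (.leaf [(9, 46), (31, 31), (10, 11)]) (.leaf [(36, 42), (9, 6), (17, 0), (30, 13)]))),
    (1058, (.leaf [(33, 41), (14, 28), (6, 43), (41, 9)])),
    (1080, (.leaf [(37, 19), (31, 27), (10, 34), (16, 30)])),
    (1102, (.leaf [(37, 23), (12, 23), (19, 6), (31, 9)])),
    (1124, (.leaf [(37, 20), (14, 4), (19, 9), (31, 18)])),
    (1146, (.leaf [(38, 33), (27, 2), (10, 32), (18, 33)])),
    (1168, (.leaf [(38, 22), (11, 9), (12, 11), (19, 13)])),
    (1190, (.leaf [(40, 5), (14, 24), (10, 46), (19, 13)])),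
    (1212, (.leaf [(39, 18), (13, 14), (12, 14), (19, 39)])),
    (1410, (.leaf [(13, 6), (19, 36), (46, 41), (39, 36)])),
    (1432, (.leaf [(44, 13), (19, 41), (12, 19), (23, 11)])),
    (1454, (.leaf [(20, 6), (47, 28), (37, 15), (41, 4)])),
    (1476, (.leaf [(21, 1), (44, 19), (50, 34), (10, 24)])),
    (1498, (.leaf [(47, 5), (18, 7), (24, 25), (39, 28)])),
    (1520, (.leaf [(46, 16), (21, 34), (19, 9), (24, 31)])),
    (1542, (.leaf [(46, 14), (23, 19), (19, 9), (26, 28)])),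
    (1564, (.leaf [(16, 29), (48, 40), (43, 5), (22, 11)])),
    (1586, (.leaf [(21, 25), (47, 19), (25, 34), (16, 11)])),
    (1608, (.leaf [(17, 23), (49, 10), (43, 41), (22, 43)])),
    (1630, (.leaf [(17, 31), (49, 26), (44, 25), (23, 40)])),
    (1652, (.leaf [(49, 3), (20, 39), (26, 35), (43, 37)])),
    (1674, (.leaf [(23, 45), (47, 40), (51, 29), (16, 37)])),
    (1696, (.leaf [(23, 33), (50, 35), (47, 23), (12, 38)])),
    (1718, (.leaf [(24, 20), (50, 31), (47, 23), (12, 41)]))]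

theorem E1p1 : chkP gE E1L 4034560 E1w 2 6 2 79 E1l1 = true := by decide +kernel

def E1l2 : List (Nat × Tree) :=
  [(1740, (.leaf [(50, 18), (22, 17), (27, 32), (45, 39)])),
    (1762, (.leaf [(50, 12), (23, 7), (27, 37), (45, 14)])),
    (1784, (.leaf [(49, 39), (24, 28), (28, 17), (46, 35)])),
    (1806, (.leaf [(0, 20), (23, 15), (28, 30), (47, 38)])),
    (1828, (.leaf [(0, 11), (24, 13), (28, 28), (46, 20)])),
    (1850, (.leaf [(1, 22), (48, 26), (21, 22), (27, 7)])),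
    (1872, (.leaf [(28, 46), (49, 4), (4, 29), (21, 46)])),
    (1894, (.leaf [(1, 23), (25, 19), (29, 35), (47, 39)])),
    (1916, (.leaf [(29, 16), (49, 21), (5, 1), (22, 22)])),
    (1938, (.leaf [(29, 21), (49, 31), (4, 12), (22, 31)])),
    (1960, (.leaf [(4, 32), (49, 17), (29, 33), (22, 44)])),
    (1982, (.leaf [(4, 4), (25, 27), (30, 10), (49, 34)])),
    (2004, (.leaf [(5, 36), (49, 33), (30, 5), (23, 14)])),
    (2026, (.leaf [(51, 15), (5, 15), (31, 4), (24, 37)])),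
    (2048, (.leaf [(51, 26), (30, 22), (24, 45), (7, 5)])),
    (2070, (.leaf [(6, 6), (26, 34), (31, 11), (50, 46)])),
    (2092, (.leaf [(50, 7), (26, 3), (31, 42), (7, 35)])),
    (2114, (.leaf [(4, 8), (29, 20), (32, 36), (51, 24)])),
    (2136, (.leaf [(5, 20), (29, 22), (33, 6), (51, 21)])),
    (2158, (.leaf [(4, 6), (30, 37), (33, 21), (0, 1)])),
    (2180, (.leaf [(8, 23), (28, 38), (33, 9), (0, 26)])),
    (2202, (.leaf [(7, 8), (30, 25), (34, 15), (0, 15)])),
    (2224, (.leaf [(4, 25), (32, 2), (9, 31), (0, 32)])),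
    (2246, (.leaf [(3, 33), (32, 24), (27, 21), (10, 25)])),
    (2268, (.leaf [(11, 36), (29, 6), (34, 40), (3, 1)])),
    (2290, (.leaf [(11, 36), (29, 6), (34, 40), (3, 1)])),
    (2312, (.leaf [(12, 8), (29, 38), (34, 7), (4, 43)])),
    (2334, (.leaf [(12, 37), (30, 9), (34, 19), (5, 14)])),
    (2356, (.leaf [(13, 30), (30, 36), (35, 35), (6, 21)])),
    (2378, (.leaf [(13, 30), (30, 36), (35, 35), (6, 21)])),
    (2400, (.leaf [(34, 40), (8, 23), (32, 28), (13, 38)])),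
    (2422, (.leaf [(14, 29), (31, 34), (36, 7), (6, 44)])),
    (2444, (.leaf [(35, 7), (10, 2), (3, 29), (5, 2)])),
    (2466, (.leaf [(36, 5), (9, 12), (14, 41), (33, 9)])),
    (2488, (.leaf [(35, 10), (10, 6), (40, 35), (32, 26)])),
    (2510, (.leaf [(14, 23), (35, 2), (40, 13), (7, 12)])),
    (2532, (.leaf [(11, 4), (37, 0), (15, 37), (6, 40)])),
    (3, (.leaf [(40, 35), (13, 38), (16, 25), (36, 43)])),
    (25, (.leaf [(42, 14), (14, 12), (16, 0), (3, 35)])),
    (47, (.leaf [(11, 39), (14, 33), (9, 14), (40, 18)])),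
    (69, (.leaf [(41, 3), (15, 3), (10, 10), (48, 43)])),
    (91, (.leaf [(16, 42), (36, 36), (42, 17), (18, 17)]))]

theorem E1p2 : chkP gE E1L 4034560 E1w 2 79 3 5 E1l2 = true := by decide +kernel

def E1l3 : List (Nat × Tree) :=
  [(113, (.leaf [(17, 13), (40, 32), (43, 39), (18, 28)])),
    (135, (.leaf [(41, 34), (9, 23), (18, 25), (11, 18)])),
    (157, (.leaf [(46, 12), (15, 41), (20, 11), (37, 27)])),
    (179, (.leaf [(15, 22), (44, 44), (37, 0), (20, 17)])),
    (201, (.leaf [(42, 27), (49, 9), (20, 21), (12, 20)])),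
    (223, (.node 817 (.leaf [(48, 43), (36, 25)]) (.leaf [(47, 4), (16, 17), (21, 8), (38, 21)]))),
    (245, (.leaf [(47, 12), (16, 19), (22, 12), (39, 8)])),
    (267, (.leaf [(45, 40), (17, 16), (21, 19), (37, 45)])),
    (289, (.leaf [(47, 27), (17, 24), (23, 24), (39, 32)])),
    (311, (.leaf [(46, 29), (17, 39), (23, 23), (39, 6)])),
    (333, (.leaf [(23, 19), (44, 29), (49, 8), (16, 18)])),
    (355, (.leaf [(22, 16), (16, 2), (44, 34), (50, 43)])),
    (377, (.leaf [(22, 8), (46, 23), (0, 18), (14, 45)])),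
    (399, (.leaf [(22, 26), (47, 24), (0, 3), (15, 23)])),
    (421, (.leaf [(23, 3), (48, 16), (19, 10), (1, 42)])),
    (443, (.leaf [(22, 29), (49, 7), (1, 28), (16, 13)])),
    (465, (.leaf [(49, 40), (23, 0), (1, 28), (9, 23)])),
    (487, (.leaf [(49, 40), (22, 38), (1, 28), (20, 2)])),
    (509, (.leaf [(51, 6), (24, 27), (3, 13), (3, 2)])),
    (531, (.leaf [(11, 46), (19, 29), (23, 17), (50, 40)])),
    (553, (.leaf [(19, 33), (18, 11), (21, 21), (51, 19)])),
    (707, (.leaf [(5, 6), (30, 42), (23, 43), (1, 25)])),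
    (729, (.leaf [(32, 42), (49, 32), (5, 10), (26, 15)])),
    (751, (.leaf [(30, 15), (2, 1), (8, 1), (25, 7)])),
    (773, (.leaf [(4, 44), (30, 0), (30, 29), (1, 11)])),
    (795, (.leaf [(31, 19), (2, 37), (9, 21), (25, 31)])),
    (817, (.leaf [(32, 7), (3, 9), (9, 40), (26, 2)])),
    (839, (.leaf [(6, 28), (31, 10), (33, 40), (2, 21)])),
    (861, (.leaf [(33, 37), (4, 30), (10, 27), (27, 15)])),
    (883, (.leaf [(29, 40), (9, 10), (1, 25), (35, 29)])),
    (905, (.leaf [(7, 0), (11, 42), (34, 44), (29, 4)])),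
    (927, (.leaf [(9, 18), (32, 13), (36, 35), (3, 15)])),
    (949, (.leaf [(10, 6), (32, 41), (37, 36), (3, 41)])),
    (971, (.node 657 (.leaf [(33, 17), (4, 21), (28, 9)]) (.node 1411 (.leaf [(16, 34), (36, 40), (4, 16)]) (.node 1720 (.leaf [(29, 30), (26, 28), (40, 35)]) (.node 1743 (.leaf [(3, 37), (24, 8)]) (.leaf [(10, 40), (32, 45), (38, 27), (4, 21)])))))),
    (993, (.leaf [(32, 12), (12, 33), (6, 5), (39, 20)])),
    (1015, (.leaf [(32, 34), (13, 12), (6, 22), (39, 34)])),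
    (1037, (.leaf [(11, 16), (34, 4), (39, 42), (5, 13)])),
    (1059, (.leaf [(33, 22), (13, 40), (6, 37), (40, 36)])),
    (1081, (.leaf [(34, 2), (14, 16), (7, 6), (41, 10)])),
    (1103, (.leaf [(12, 9), (35, 24), (42, 8), (6, 26)])),
    (1125, (.leaf [(38, 19), (11, 28), (18, 27), (31, 20)])),
    (1147, (.leaf [(38, 33), (27, 2), (10, 32), (18, 33)]))]

theorem E1p3 : chkP gE E1L 4034560 E1w 3 5 3 53 E1l3 = true := by decide +kernel

def E1l4 : List (Nat × Tree) :=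
  [(1169, (.leaf [(40, 21), (20, 4), (8, 25), (16, 41)])),
    (1191, (.leaf [(40, 5), (14, 24), (10, 46), (19, 13)])),
    (1213, (.leaf [(13, 42), (42, 31), (38, 23), (6, 38)])),
    (1235, (.leaf [(14, 38), (0, 43), (39, 12), (7, 9)])),
    (1257, (.leaf [(15, 20), (46, 38), (39, 35), (8, 27)])),
    (1279, (.leaf [(15, 45), (46, 15), (40, 4), (8, 12)])),
    (1301, (.leaf [(15, 27), (48, 38), (41, 19), (8, 32)])),
    (1323, (.leaf [(16, 5), (46, 9), (41, 42), (9, 3)])),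
    (1345, (.leaf [(16, 31), (46, 4), (42, 21), (10, 7)])),
    (1367, (.leaf [(17, 11), (45, 34), (42, 29), (10, 8)])),
    (1389, (.leaf [(12, 17), (19, 3), (46, 31), (38, 45)])),
    (1411, (.leaf [(13, 6), (19, 36), (46, 41), (39, 36)])),
    (1433, (.leaf [(44, 13), (19, 41), (12, 19), (23, 11)])),
    (1455, (.leaf [(20, 6), (47, 28), (37, 15), (41, 4)])),
    (1477, (.leaf [(17, 22), (23, 5), (47, 0), (40, 3)])),
    (1499, (.leaf [(47, 5), (18, 7), (24, 25), (39, 28)])),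
    (1521, (.leaf [(46, 16), (21, 34), (19, 9), (24, 31)])),
    (1543, (.leaf [(47, 33), (18, 40), (24, 40), (10, 26)])),
    (1565, (.leaf [(16, 29), (48, 40), (43, 5), (22, 11)])),
    (1587, (.leaf [(21, 25), (47, 19), (25, 34), (16, 11)])),
    (1609, (.leaf [(17, 23), (49, 10), (43, 41), (22, 43)])),
    (1631, (.leaf [(49, 44), (18, 4), (24, 9), (44, 38)])),
    (1653, (.leaf [(49, 3), (20, 39), (26, 35), (43, 37)])),
    (1675, (.leaf [(48, 34), (21, 16), (27, 13), (42, 40)])),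
    (1697, (.leaf [(23, 33), (50, 35), (47, 23), (12, 38)])),
    (1719, (.leaf [(47, 35), (17, 35), (26, 20), (1, 14)])),
    (1741, (.leaf [(50, 18), (22, 17), (27, 32), (45, 39)])),
    (1763, (.leaf [(50, 12), (23, 7), (27, 37), (45, 14)])),
    (1785, (.leaf [(0, 4), (47, 42), (18, 34), (25, 32)])),
    (1807, (.leaf [(0, 20), (23, 15), (28, 30), (47, 38)])),
    (1829, (.leaf [(0, 11), (24, 13), (28, 28), (46, 20)])),
    (1851, (.leaf [(1, 22), (48, 26), (21, 22), (27, 7)])),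
    (1873, (.leaf [(28, 46), (49, 4), (4, 29), (21, 46)])),
    (1895, (.leaf [(49, 30), (22, 6), (28, 41), (4, 26)])),
    (1917, (.leaf [(29, 16), (49, 21), (5, 1), (22, 22)])),
    (1939, (.leaf [(29, 21), (49, 31), (4, 12), (22, 31)])),
    (1961, (.leaf [(4, 32), (49, 17), (29, 33), (22, 44)])),
    (1983, (.leaf [(4, 4), (25, 27), (30, 10), (49, 34)])),
    (2005, (.leaf [(5, 36), (49, 33), (30, 5), (23, 14)])),
    (2027, (.leaf [(51, 15), (5, 15), (31, 4), (24, 37)])),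
    (2049, (.leaf [(51, 26), (30, 22), (24, 45), (7, 5)])),
    (2071, (.leaf [(6, 6), (26, 34), (31, 11), (50, 46)]))]

theorem E1p4 : chkP gE E1L 4034560 E1w 3 53 3 95 E1l4 = true := by decide +kernel

def E1l5 : List (Nat × Tree) :=
  [(2093, (.leaf [(50, 7), (26, 3), (31, 42), (7, 35)])),
    (2115, (.leaf [(7, 7), (27, 25), (31, 26), (51, 41)])),
    (2137, (.leaf [(5, 20), (29, 22), (33, 6), (51, 21)])),
    (2159, (.leaf [(9, 28), (28, 5), (32, 46), (0, 42)])),
    (2181, (.leaf [(8, 23), (28, 38), (33, 9), (0, 26)])),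
    (2203, (.leaf [(7, 8), (30, 25), (34, 15), (0, 15)])),
    (2225, (.leaf [(11, 3), (28, 26), (33, 20), (3, 10)])),
    (2247, (.leaf [(3, 33), (32, 24), (27, 21), (10, 25)])),
    (2269, (.leaf [(11, 36), (29, 6), (34, 40), (3, 1)])),
    (2291, (.leaf [(11, 36), (29, 6), (34, 40), (3, 1)])),
    (2313, (.leaf [(12, 8), (29, 38), (34, 7), (4, 43)])),
    (2335, (.leaf [(31, 40), (11, 2), (2, 44), (34, 35)])),
    (2357, (.leaf [(13, 30), (30, 36), (35, 35), (6, 21)])),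
    (2379, (.leaf [(13, 30), (30, 36), (35, 35), (6, 21)])),
    (2401, (.leaf [(34, 40), (10, 2), (12, 46), (32, 3)])),
    (2423, (.leaf [(14, 29), (31, 34), (36, 7), (6, 44)])),
    (2445, (.leaf [(35, 7), (10, 2), (3, 29), (5, 2)])),
    (2467, (.leaf [(36, 5), (9, 12), (14, 41), (33, 9)])),
    (2489, (.leaf [(14, 14), (34, 22), (37, 1), (7, 20)])),
    (2511, (.leaf [(14, 23), (35, 2), (40, 13), (7, 12)])),
    (2533, (.leaf [(11, 4), (37, 0), (15, 37), (6, 40)])),
    (2555, (.leaf [(39, 5), (33, 8), (17, 29), (10, 7)])),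
    (2577, (.leaf [(39, 7), (33, 14), (17, 44), (10, 16)])),
    (2599, (.leaf [(40, 6), (33, 35), (18, 26), (10, 39)])),
    (2621, (.leaf [(13, 26), (14, 25), (37, 19), (3, 35)])),
    (4, (.leaf [(40, 35), (13, 38), (16, 25), (36, 43)])),
    (26, (.leaf [(40, 9), (14, 41), (17, 28), (11, 0)])),
    (48, (.leaf [(40, 31), (15, 11), (18, 12), (10, 36)])),
    (70, (.leaf [(40, 43), (15, 37), (18, 9), (11, 35)])),
    (92, (.leaf [(16, 42), (36, 36), (42, 17), (18, 17)])),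
    (114, (.leaf [(39, 22), (1, 19), (20, 25), (12, 0)])),
    (136, (.leaf [(40, 27), (12, 24), (20, 30), (12, 0)])),
    (158, (.leaf [(46, 12), (15, 41), (20, 11), (37, 27)])),
    (180, (.leaf [(15, 22), (44, 44), (37, 0), (20, 17)])),
    (202, (.leaf [(40, 17), (47, 41), (23, 8), (14, 40)])),
    (224, (.leaf [(45, 17), (17, 37), (21, 43), (37, 45)])),
    (246, (.leaf [(47, 12), (16, 19), (22, 12), (39, 8)])),
    (268, (.leaf [(18, 16), (22, 37), (47, 3), (39, 36)])),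
    (290, (.leaf [(47, 27), (17, 24), (23, 24), (39, 32)])),
    (312, (.leaf [(46, 29), (17, 39), (23, 23), (39, 6)])),
    (334, (.leaf [(23, 19), (44, 29), (49, 8), (16, 18)])),
    (356, (.leaf [(44, 5), (49, 19), (26, 13), (18, 35)]))]

theorem E1p5 : chkP gE E1L 4034560 E1w 3 95 4 17 E1l5 = true := by decide +kernel

def E1l6 : List (Nat × Tree) :=
  [(378, (.leaf [(24, 36), (45, 32), (49, 24), (18, 42)])),
    (400, (.leaf [(45, 11), (50, 5), (27, 1), (19, 35)])),
    (422, (.leaf [(21, 27), (26, 18), (45, 4), (51, 13)])),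
    (444, (.leaf [(20, 3), (45, 46), (51, 10), (26, 27)])),
    (466, (.leaf [(49, 28), (27, 29), (20, 42), (43, 35)])),
    (488, (.leaf [(20, 36), (44, 43), (51, 38), (27, 9)])),
    (510, (.leaf [(51, 6), (24, 27), (3, 13), (3, 2)])),
    (532, (.leaf [(11, 46), (19, 29), (23, 17), (50, 40)])),
    (554, (.leaf [(19, 33), (18, 11), (21, 21), (51, 19)])),
    (576, (.leaf [(29, 36), (47, 13), (0, 19), (23, 36)])),
    (598, (.leaf [(30, 6), (48, 2), (0, 33), (24, 12)])),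
    (620, (.leaf [(30, 27), (48, 8), (1, 1), (24, 10)])),
    (642, (.leaf [(30, 39), (48, 21), (1, 29), (24, 39)])),
    (664, (.leaf [(48, 42), (31, 12), (25, 46), (3, 14)])),
    (686, (.leaf [(31, 29), (49, 2), (2, 38), (25, 25)])),
    (708, (.leaf [(5, 6), (30, 42), (23, 43), (1, 25)])),
    (730, (.leaf [(32, 42), (49, 32), (5, 10), (26, 15)])),
    (752, (.leaf [(30, 15), (2, 1), (8, 1), (25, 7)])),
    (774, (.leaf [(4, 44), (30, 0), (30, 29), (1, 11)])),
    (796, (.leaf [(31, 19), (2, 37), (9, 21), (25, 31)])),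
    (818, (.leaf [(32, 7), (3, 9), (9, 40), (26, 2)])),
    (840, (.leaf [(6, 28), (31, 10), (33, 40), (2, 21)])),
    (862, (.leaf [(33, 37), (4, 30), (10, 27), (27, 15)])),
    (884, (.leaf [(29, 40), (9, 10), (1, 25), (35, 29)])),
    (906, (.leaf [(7, 0), (11, 42), (34, 44), (29, 4)])),
    (928, (.leaf [(30, 20), (1, 26), (10, 38), (37, 18)])),
    (950, (.leaf [(10, 6), (32, 41), (37, 36), (3, 41)])),
    (972, (.leaf [(9, 35), (33, 39), (37, 30), (4, 22)])),
    (994, (.leaf [(30, 34), (4, 34), (12, 42), (38, 26)])),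
    (1016, (.leaf [(32, 19), (11, 24), (5, 19), (39, 0)])),
    (1038, (.leaf [(33, 4), (11, 45), (5, 42), (39, 10)])),
    (1060, (.leaf [(33, 22), (13, 40), (6, 37), (40, 36)])),
    (1082, (.leaf [(33, 1), (5, 21), (14, 15), (40, 42)])),
    (1104, (.leaf [(34, 12), (39, 31), (13, 25), (6, 45)])),
    (1126, (.leaf [(38, 5), (10, 2), (16, 12), (31, 15)])),
    (1148, (.leaf [(35, 0), (41, 24), (14, 2), (7, 24)])),
    (1170, (.leaf [(40, 21), (20, 4), (8, 25), (16, 41)])),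
    (1192, (.leaf [(40, 5), (14, 24), (10, 46), (19, 13)])),
    (1214, (.leaf [(13, 42), (42, 31), (38, 23), (6, 38)])),
    (1236, (.leaf [(14, 38), (0, 43), (39, 12), (7, 9)])),
    (1258, (.leaf [(15, 20), (46, 38), (39, 35), (8, 27)])),
    (1280, (.leaf [(15, 45), (46, 15), (40, 4), (8, 12)]))]

theorem E1p6 : chkP gE E1L 4034560 E1w 4 17 4 59 E1l6 = true := by decide +kernel

def E1l7 : List (Nat × Tree) :=
  [(1302, (.leaf [(15, 27), (48, 38), (41, 19), (8, 32)])),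
    (1324, (.leaf [(16, 5), (46, 9), (41, 42), (9, 3)])),
    (1346, (.leaf [(16, 31), (46, 4), (42, 21), (10, 7)])),
    (1368, (.leaf [(17, 11), (45, 34), (42, 29), (10, 8)])),
    (1390, (.leaf [(16, 26), (47, 17), (44, 17), (15, 17)])),
    (1412, (.leaf [(13, 6), (19, 36), (46, 41), (39, 36)])),
    (1434, (.leaf [(44, 13), (19, 41), (12, 19), (23, 11)])),
    (1456, (.leaf [(16, 9), (21, 45), (41, 1), (46, 46)])),
    (1478, (.leaf [(17, 22), (23, 5), (47, 0), (40, 3)])),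
    (1500, (.leaf [(47, 5), (18, 7), (24, 25), (39, 28)])),
    (1522, (.leaf [(47, 8), (18, 31), (24, 2), (39, 40)])),
    (1544, (.leaf [(47, 33), (18, 40), (24, 40), (10, 26)])),
    (1566, (.leaf [(16, 29), (48, 40), (43, 5), (22, 11)])),
    (1588, (.leaf [(21, 25), (47, 19), (25, 34), (16, 11)])),
    (1610, (.leaf [(17, 31), (49, 26), (44, 25), (23, 40)])),
    (1632, (.leaf [(49, 44), (18, 4), (24, 9), (44, 38)])),
    (1654, (.leaf [(49, 3), (20, 39), (26, 35), (43, 37)])),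
    (1676, (.leaf [(48, 34), (21, 16), (27, 13), (42, 40)])),
    (1698, (.leaf [(50, 22), (20, 16), (22, 46), (45, 28)])),
    (1720, (.leaf [(47, 35), (17, 35), (26, 20), (1, 14)])),
    (1742, (.leaf [(50, 18), (22, 17), (27, 32), (45, 39)])),
    (1764, (.leaf [(50, 12), (23, 7), (27, 37), (45, 14)])),
    (1786, (.leaf [(0, 4), (47, 42), (18, 34), (25, 32)])),
    (1808, (.leaf [(0, 20), (23, 15), (28, 30), (47, 38)])),
    (1830, (.leaf [(0, 11), (24, 13), (28, 28), (46, 20)])),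
    (1852, (.leaf [(1, 22), (48, 26), (21, 22), (27, 7)])),
    (1874, (.leaf [(28, 46), (49, 4), (4, 29), (21, 46)])),
    (1896, (.leaf [(49, 30), (22, 6), (28, 41), (4, 26)])),
    (1918, (.leaf [(29, 16), (49, 21), (5, 1), (22, 22)])),
    (1940, (.leaf [(24, 3), (29, 14), (5, 33), (49, 41)])),
    (1962, (.leaf [(4, 32), (49, 17), (29, 33), (22, 44)])),
    (1984, (.leaf [(6, 18), (24, 24), (28, 0), (51, 4)])),
    (2006, (.leaf [(5, 36), (49, 33), (30, 5), (23, 14)])),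
    (2028, (.leaf [(51, 15), (5, 15), (31, 4), (24, 37)])),
    (2050, (.leaf [(51, 26), (30, 22), (24, 45), (7, 5)])),
    (2072, (.leaf [(6, 6), (26, 34), (31, 11), (50, 46)])),
    (2094, (.leaf [(50, 7), (26, 3), (31, 42), (7, 35)])),
    (2116, (.leaf [(7, 7), (27, 25), (31, 26), (51, 41)])),
    (2138, (.leaf [(9, 12), (27, 11), (32, 30), (1, 20)])),
    (2160, (.leaf [(9, 28), (28, 5), (32, 46), (0, 42)])),
    (2182, (.leaf [(8, 23), (28, 38), (33, 9), (0, 26)])),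
    (2204, (.leaf [(7, 8), (30, 25), (34, 15), (0, 15)]))]

theorem E1p7 : chkP gE E1L 4034560 E1w 4 59 4 101 E1l7 = true := by decide +kernel

def E1l8 : List (Nat × Tree) :=
  [(2226, (.leaf [(11, 3), (28, 26), (33, 20), (3, 10)])),
    (2248, (.leaf [(3, 33), (32, 24), (27, 21), (10, 25)])),
    (2270, (.leaf [(11, 36), (29, 6), (34, 40), (3, 1)])),
    (2292, (.leaf [(11, 36), (29, 6), (34, 40), (3, 1)])),
    (2314, (.leaf [(31, 0), (35, 10), (11, 6), (4, 26)])),
    (2336, (.leaf [(31, 40), (11, 2), (2, 44), (34, 35)])),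
    (2358, (.leaf [(13, 30), (30, 36), (35, 35), (6, 21)])),
    (2380, (.leaf [(13, 30), (30, 36), (35, 35), (6, 21)])),
    (2402, (.leaf [(34, 40), (10, 2), (12, 46), (32, 3)])),
    (2424, (.leaf [(14, 29), (31, 34), (36, 7), (6, 44)])),
    (2446, (.leaf [(13, 36), (33, 32), (35, 45), (6, 25)])),
    (2468, (.leaf [(14, 7), (33, 46), (36, 28), (7, 29)])),
    (2490, (.leaf [(14, 14), (34, 22), (37, 1), (7, 20)])),
    (2512, (.leaf [(14, 23), (35, 2), (40, 13), (7, 12)])),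
    (2534, (.leaf [(13, 43), (35, 25), (7, 3), (5, 12)])),
    (2556, (.leaf [(39, 5), (33, 8), (17, 29), (10, 7)])),
    (2578, (.leaf [(39, 7), (33, 14), (17, 44), (10, 16)])),
    (2600, (.leaf [(40, 6), (33, 35), (18, 26), (10, 39)])),
    (2622, (.leaf [(13, 26), (14, 25), (37, 19), (3, 35)])),
    (5, (.leaf [(40, 35), (13, 38), (16, 25), (36, 43)])),
    (27, (.leaf [(40, 9), (14, 41), (17, 28), (11, 0)])),
    (49, (.leaf [(40, 31), (15, 11), (18, 12), (10, 36)])),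
    (71, (.leaf [(40, 43), (15, 37), (18, 9), (11, 35)])),
    (93, (.leaf [(38, 20), (49, 25), (20, 28), (11, 31)])),
    (115, (.leaf [(39, 22), (1, 19), (20, 25), (12, 0)])),
    (137, (.leaf [(40, 27), (12, 24), (20, 30), (12, 0)])),
    (159, (.leaf [(22, 38), (38, 31), (46, 3), (14, 27)])),
    (181, (.leaf [(23, 0), (15, 12), (37, 31), (46, 27)])),
    (203, (.leaf [(40, 17), (47, 41), (23, 8), (14, 40)])),
    (225, (.leaf [(45, 17), (17, 37), (21, 43), (37, 45)])),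
    (247, (.leaf [(41, 26), (48, 27), (23, 31), (15, 13)])),
    (269, (.leaf [(18, 16), (22, 37), (47, 3), (39, 36)])),
    (291, (.leaf [(47, 27), (17, 24), (23, 24), (39, 32)])),
    (313, (.leaf [(25, 18), (42, 16), (48, 1), (17, 40)])),
    (335, (.leaf [(25, 29), (43, 13), (48, 6), (18, 5)])),
    (357, (.leaf [(44, 5), (49, 19), (26, 13), (18, 35)])),
    (379, (.leaf [(24, 36), (45, 32), (49, 24), (18, 42)])),
    (401, (.leaf [(45, 11), (50, 5), (27, 1), (19, 35)])),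
    (423, (.leaf [(21, 27), (26, 18), (45, 4), (51, 13)])),
    (445, (.leaf [(20, 3), (45, 46), (51, 10), (26, 27)])),
    (467, (.leaf [(49, 28), (27, 29), (20, 42), (43, 35)])),
    (489, (.leaf [(20, 36), (44, 43), (51, 38), (27, 9)]))]

theorem E1p8 : chkP gE E1L 4034560 E1w 4 101 5 23 E1l8 = true := by decide +kernel

end Pool.Agent.K9.C
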