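import Pool.Agent.K9.C.E1D

/-! # K9: peeling of near cells -/

namespace Pool.Agent.K9.C

set_option maxRecDepth 10000

def E1l9 : List (Nat × Tree) :=
  [(511, (.leaf [(47, 21), (27, 43), (23, 9), (1, 3)])),
    (533, (.leaf [(51, 28), (48, 0), (28, 13), (22, 7)])),
    (555, (.leaf [(0, 8), (48, 11), (28, 33), (22, 28)])),
    (577, (.leaf [(29, 36), (47, 13), (0, 19), (23, 36)])),
    (599, (.leaf [(30, 6), (48, 2), (0, 33), (24, 12)])),
    (621, (.leaf [(30, 27), (48, 8), (1, 1), (24, 10)])),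
    (643, (.leaf [(30, 39), (48, 21), (1, 29), (24, 39)])),
    (665, (.leaf [(48, 42), (31, 12), (25, 46), (3, 14)])),
    (687, (.leaf [(31, 29), (49, 2), (2, 38), (25, 25)])),
    (709, (.leaf [(5, 6), (30, 42), (23, 43), (1, 25)])),
    (731, (.leaf [(32, 42), (49, 32), (5, 10), (26, 15)])),
    (753, (.leaf [(30, 15), (2, 1), (8, 1), (25, 7)])),
    (775, (.leaf [(4, 44), (30, 0), (30, 29), (1, 11)])),
    (797, (.leaf [(31, 19), (2, 37), (9, 21), (25, 31)])),
    (819, (.leaf [(32, 7), (3, 9), (9, 40), (26, 2)])),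
    (841, (.leaf [(6, 28), (31, 10), (33, 40), (2, 21)])),
    (863, (.leaf [(33, 37), (4, 30), (10, 27), (27, 15)])),
    (885, (.leaf [(29, 40), (9, 10), (1, 25), (35, 29)])),
    (907, (.leaf [(36, 24), (2, 23), (9, 36), (29, 5)])),
    (929, (.leaf [(30, 20), (1, 26), (10, 38), (37, 18)])),
    (951, (.leaf [(10, 6), (32, 41), (37, 36), (3, 41)])),
    (973, (.leaf [(37, 44), (5, 24), (9, 30), (29, 41)])),
    (995, (.leaf [(30, 34), (4, 34), (12, 42), (38, 26)])),
    (1017, (.leaf [(32, 19), (11, 24), (5, 19), (39, 0)])),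
    (1039, (.leaf [(33, 4), (11, 45), (5, 42), (39, 10)])),
    (1061, (.leaf [(40, 26), (6, 29), (12, 10), (32, 4)])),
    (1083, (.leaf [(33, 1), (5, 21), (14, 15), (40, 42)])),
    (1105, (.leaf [(34, 12), (39, 31), (13, 25), (6, 45)])),
    (1127, (.leaf [(9, 7), (17, 5), (41, 27), (33, 15)])),
    (1149, (.leaf [(35, 0), (41, 24), (14, 2), (7, 24)])),
    (1171, (.leaf [(40, 21), (20, 4), (8, 25), (16, 41)])),
    (1193, (.leaf [(43, 8), (34, 39), (6, 34), (15, 28)])),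
    (1215, (.leaf [(43, 23), (35, 15), (7, 25), (15, 43)])),
    (1237, (.leaf [(43, 36), (35, 18), (7, 19), (16, 15)])),
    (1259, (.leaf [(44, 9), (35, 23), (8, 7), (16, 43)])),
    (1281, (.leaf [(44, 37), (36, 21), (8, 36), (17, 25)])),
    (1303, (.leaf [(15, 27), (48, 38), (41, 19), (8, 32)])),
    (1325, (.leaf [(16, 5), (46, 9), (41, 42), (9, 3)])),
    (1347, (.leaf [(16, 31), (46, 4), (42, 21), (10, 7)])),
    (1369, (.leaf [(17, 11), (45, 34), (42, 29), (10, 8)])),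
    (1391, (.leaf [(16, 26), (47, 17), (44, 17), (15, 17)])),
    (1413, (.leaf [(13, 6), (19, 36), (46, 41), (39, 36)]))]

theorem E1p9 : chkP gE E1L 4034560 E1w 5 23 5 65 E1l9 = true := by decide +kernel

def E1l10 : List (Nat × Tree) :=
  [(1435, (.leaf [(15, 7), (20, 33), (40, 38), (46, 40)])),
    (1457, (.leaf [(16, 9), (21, 45), (41, 1), (46, 46)])),
    (1479, (.leaf [(17, 22), (23, 5), (47, 0), (40, 3)])),
    (1501, (.leaf [(47, 5), (18, 7), (24, 25), (39, 28)])),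
    (1523, (.leaf [(47, 8), (18, 31), (24, 2), (39, 40)])),
    (1545, (.leaf [(47, 33), (18, 40), (24, 40), (10, 26)])),
    (1567, (.leaf [(16, 29), (48, 40), (43, 5), (22, 11)])),
    (1589, (.leaf [(17, 23), (49, 10), (43, 41), (22, 43)])),
    (1611, (.leaf [(17, 31), (49, 26), (44, 25), (23, 40)])),
    (1633, (.leaf [(49, 44), (18, 4), (24, 9), (44, 38)])),
    (1655, (.leaf [(49, 3), (20, 39), (26, 35), (43, 37)])),
    (1677, (.leaf [(48, 34), (21, 16), (27, 13), (42, 40)])),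
    (1699, (.leaf [(50, 22), (20, 16), (22, 46), (45, 28)])),
    (1721, (.leaf [(47, 35), (17, 35), (26, 20), (1, 14)])),
    (1743, (.leaf [(50, 18), (22, 17), (27, 32), (45, 39)])),
    (1765, (.leaf [(0, 16), (21, 7), (25, 10), (47, 37)])),
    (1787, (.leaf [(0, 4), (47, 42), (18, 34), (25, 32)])),
    (1809, (.leaf [(0, 20), (23, 15), (28, 30), (47, 38)])),
    (1831, (.leaf [(1, 37), (22, 9), (26, 19), (48, 28)])),
    (1853, (.leaf [(1, 22), (48, 26), (21, 22), (27, 7)])),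
    (1875, (.leaf [(28, 46), (49, 4), (4, 29), (21, 46)])),
    (1897, (.leaf [(49, 30), (22, 6), (28, 41), (4, 26)])),
    (1919, (.leaf [(29, 16), (49, 21), (5, 1), (22, 22)])),
    (1941, (.leaf [(24, 3), (29, 14), (5, 33), (49, 41)])),
    (1963, (.leaf [(4, 32), (49, 17), (29, 33), (22, 44)])),
    (1985, (.leaf [(6, 18), (24, 24), (28, 0), (51, 4)])),
    (2007, (.leaf [(5, 36), (49, 33), (30, 5), (23, 14)])),
    (2029, (.leaf [(7, 18), (25, 3), (29, 25), (50, 44)])),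
    (2051, (.leaf [(51, 26), (30, 22), (24, 45), (7, 5)])),
    (2073, (.leaf [(8, 20), (25, 36), (29, 34), (0, 5)])),
    (2095, (.leaf [(50, 7), (26, 3), (31, 42), (7, 35)])),
    (2117, (.leaf [(7, 7), (27, 25), (31, 26), (51, 41)])),
    (2139, (.leaf [(9, 12), (27, 11), (32, 30), (1, 20)])),
    (2161, (.leaf [(9, 28), (28, 5), (32, 46), (0, 42)])),
    (2183, (.leaf [(8, 23), (28, 38), (33, 9), (0, 26)])),
    (2205, (.leaf [(9, 38), (28, 31), (32, 31), (3, 4)])),
    (2227, (.leaf [(11, 3), (28, 26), (33, 20), (3, 10)])),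
    (2249, (.leaf [(3, 33), (32, 24), (27, 21), (10, 25)])),
    (2271, (.leaf [(11, 36), (29, 6), (34, 40), (3, 1)])),
    (2293, (.leaf [(11, 36), (29, 6), (34, 40), (3, 1)])),
    (2315, (.leaf [(31, 0), (35, 10), (11, 6), (4, 26)])),
    (2337, (.leaf [(31, 40), (11, 2), (2, 44), (34, 35)]))]

theorem E1p10 : chkP gE E1L 4034560 E1w 5 65 5 107 E1l10 = true := by decide +kernel

def E1l11 : List (Nat × Tree) :=
  [(2359, (.leaf [(13, 30), (30, 36), (35, 35), (6, 21)])),
    (2381, (.leaf [(13, 30), (30, 36), (35, 35), (6, 21)])),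
    (2403, (.leaf [(34, 40), (10, 2), (12, 46), (32, 3)])),
    (2425, (.leaf [(13, 31), (33, 0), (35, 31), (6, 30)])),
    (2447, (.leaf [(13, 36), (33, 32), (35, 45), (6, 25)])),
    (2469, (.leaf [(14, 7), (33, 46), (36, 28), (7, 29)])),
    (2491, (.leaf [(14, 14), (34, 22), (37, 1), (7, 20)])),
    (2513, (.leaf [(14, 23), (35, 2), (40, 13), (7, 12)])),
    (2535, (.leaf [(13, 43), (35, 25), (7, 3), (5, 12)])),
    (2557, (.leaf [(15, 4), (35, 30), (38, 46), (8, 14)])),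
    (2579, (.leaf [(15, 32), (36, 0), (39, 26), (8, 41)])),
    (2601, (.leaf [(16, 16), (36, 17), (40, 11), (9, 13)])),
    (2623, (.leaf [(17, 14), (36, 31), (41, 2), (9, 22)])),
    (6, (.leaf [(18, 29), (36, 25), (43, 16), (10, 35)])),
    (28, (.leaf [(19, 11), (36, 39), (44, 11), (11, 14)])),
    (50, (.leaf [(19, 32), (37, 17), (44, 31), (11, 12)])),
    (72, (.leaf [(20, 8), (37, 39), (45, 15), (11, 19)])),
    (94, (.leaf [(38, 20), (49, 25), (20, 28), (11, 31)])),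
    (116, (.leaf [(39, 22), (1, 19), (20, 25), (12, 0)])),
    (138, (.leaf [(22, 19), (38, 15), (45, 35), (14, 8)])),
    (160, (.leaf [(22, 38), (38, 31), (46, 3), (14, 27)])),
    (182, (.leaf [(23, 0), (15, 12), (37, 31), (46, 27)])),
    (204, (.leaf [(40, 17), (47, 41), (23, 8), (14, 40)])),
    (226, (.leaf [(23, 29), (40, 45), (46, 19), (14, 36)])),
    (248, (.leaf [(41, 26), (48, 27), (23, 31), (15, 13)])),
    (270, (.leaf [(18, 16), (22, 37), (47, 3), (39, 36)])),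
    (292, (.leaf [(41, 32), (25, 11), (17, 30), (48, 20)])),
    (314, (.leaf [(25, 18), (42, 16), (48, 1), (17, 40)])),
    (336, (.leaf [(25, 29), (43, 13), (48, 6), (18, 5)])),
    (358, (.leaf [(44, 5), (49, 19), (26, 13), (18, 35)])),
    (380, (.leaf [(24, 36), (45, 32), (49, 24), (18, 42)])),
    (402, (.leaf [(45, 11), (50, 5), (27, 1), (19, 35)])),
    (424, (.leaf [(21, 27), (26, 18), (45, 4), (51, 13)])),
    (446, (.leaf [(20, 3), (45, 46), (51, 10), (26, 27)])),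
    (468, (.leaf [(49, 28), (27, 29), (20, 42), (43, 35)])),
    (490, (.leaf [(20, 36), (44, 43), (51, 38), (27, 9)])),
    (512, (.leaf [(47, 21), (27, 43), (23, 9), (1, 3)])),
    (534, (.leaf [(51, 28), (48, 0), (28, 13), (22, 7)])),
    (556, (.leaf [(0, 8), (48, 11), (28, 33), (22, 28)])),
    (578, (.leaf [(30, 6), (48, 2), (0, 33), (24, 12)])),
    (600, (.leaf [(30, 6), (48, 2), (0, 33), (24, 12)])),
    (622, (.leaf [(30, 27), (48, 8), (1, 1), (24, 10)]))]

theorem E1p11 : chkP gE E1L 4034560 E1w 5 107 6 29 E1l11 = true := by decide +kernel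

def E1l12 : List (Nat × Tree) :=
  [(644, (.leaf [(30, 39), (48, 21), (1, 29), (24, 39)])),
    (666, (.leaf [(48, 42), (31, 12), (25, 46), (3, 14)])),
    (688, (.leaf [(31, 29), (49, 2), (2, 38), (25, 25)])),
    (710, (.leaf [(31, 33), (50, 14), (3, 0), (25, 39)])),
    (732, (.leaf [(32, 42), (49, 32), (5, 10), (26, 15)])),
    (754, (.leaf [(33, 3), (51, 7), (5, 23), (26, 21)])),
    (776, (.leaf [(33, 25), (51, 31), (6, 16), (26, 38)])),
    (798, (.leaf [(34, 10), (51, 37), (7, 16), (27, 3)])),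
    (820, (.leaf [(34, 38), (0, 21), (8, 2), (27, 23)])),
    (842, (.leaf [(35, 9), (0, 41), (8, 17), (28, 6)])),
    (864, (.leaf [(35, 44), (0, 45), (9, 4), (28, 40)])),
    (886, (.leaf [(36, 13), (1, 24), (9, 15), (28, 44)])),
    (908, (.leaf [(36, 24), (2, 23), (9, 36), (29, 5)])),
    (930, (.leaf [(30, 20), (1, 26), (10, 38), (37, 18)])),
    (952, (.leaf [(37, 25), (4, 0), (11, 7), (29, 32)])),
    (974, (.leaf [(37, 44), (5, 24), (9, 30), (29, 41)])),
    (996, (.leaf [(30, 34), (4, 34), (12, 42), (38, 26)])),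
    (1018, (.leaf [(39, 45), (4, 33), (11, 11), (31, 24)])),
    (1040, (.leaf [(40, 10), (5, 29), (11, 33), (31, 36)])),
    (1062, (.leaf [(40, 26), (6, 29), (12, 10), (32, 4)])),
    (1084, (.leaf [(33, 1), (5, 21), (14, 15), (40, 42)])),
    (1106, (.leaf [(8, 10), (15, 46), (41, 8), (32, 20)])),
    (1128, (.leaf [(9, 7), (17, 5), (41, 27), (33, 15)])),
    (1150, (.leaf [(35, 0), (41, 24), (14, 2), (7, 24)])),
    (1172, (.leaf [(42, 26), (34, 32), (6, 27), (14, 34)])),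
    (1194, (.leaf [(43, 8), (34, 39), (6, 34), (15, 28)])),
    (1216, (.leaf [(43, 23), (35, 15), (7, 25), (15, 43)])),
    (1238, (.leaf [(43, 36), (35, 18), (7, 19), (16, 15)])),
    (1260, (.leaf [(44, 9), (35, 23), (8, 7), (16, 43)])),
    (1282, (.leaf [(44, 37), (36, 21), (8, 36), (17, 25)])),
    (1304, (.leaf [(45, 13), (11, 29), (17, 8), (36, 38)])),
    (1326, (.leaf [(45, 37), (11, 41), (17, 34), (37, 16)])),
    (1348, (.leaf [(12, 27), (46, 2), (38, 37), (18, 15)])),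
    (1370, (.leaf [(12, 39), (19, 2), (40, 8), (46, 16)])),
    (1392, (.leaf [(16, 26), (47, 17), (44, 17), (15, 17)])),
    (1414, (.leaf [(14, 11), (46, 37), (39, 15), (19, 28)])),
    (1436, (.leaf [(15, 7), (20, 33), (40, 38), (46, 40)])),
    (1458, (.leaf [(16, 9), (21, 45), (41, 1), (46, 46)])),
    (1480, (.leaf [(17, 22), (23, 5), (47, 0), (40, 3)])),
    (1502, (.leaf [(47, 5), (18, 7), (24, 25), (39, 28)])),
    (1524, (.leaf [(47, 8), (18, 31), (24, 2), (39, 40)])),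
    (1546, (.leaf [(47, 33), (18, 40), (24, 40), (10, 26)]))]

theorem E1p12 : chkP gE E1L 4034560 E1w 6 29 6 71 E1l12 = true := by decide +kernel

def E1l13 : List (Nat × Tree) :=
  [(1568, (.leaf [(48, 41), (17, 19), (22, 18), (43, 4)])),
    (1590, (.leaf [(17, 23), (49, 10), (43, 41), (22, 43)])),
    (1612, (.leaf [(17, 31), (49, 26), (44, 25), (23, 40)])),
    (1634, (.leaf [(49, 44), (18, 4), (24, 9), (44, 38)])),
    (1656, (.leaf [(49, 3), (20, 39), (26, 35), (43, 37)])),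
    (1678, (.leaf [(50, 16), (19, 19), (24, 23), (45, 26)])),
    (1700, (.leaf [(50, 22), (20, 16), (22, 46), (45, 28)])),
    (1722, (.leaf [(47, 35), (17, 35), (26, 20), (1, 14)])),
    (1744, (.leaf [(50, 18), (22, 17), (27, 32), (45, 39)])),
    (1766, (.leaf [(0, 16), (21, 7), (25, 10), (47, 37)])),
    (1788, (.leaf [(0, 4), (47, 42), (18, 34), (25, 32)])),
    (1810, (.leaf [(0, 20), (23, 15), (28, 30), (47, 38)])),
    (1832, (.leaf [(1, 37), (22, 9), (26, 19), (48, 28)])),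
    (1854, (.leaf [(1, 22), (48, 26), (21, 22), (27, 7)])),
    (1876, (.leaf [(3, 22), (22, 20), (26, 45), (49, 13)])),
    (1898, (.leaf [(49, 30), (22, 6), (28, 41), (4, 26)])),
    (1920, (.leaf [(5, 3), (23, 2), (27, 39), (49, 35)])),
    (1942, (.leaf [(24, 3), (29, 14), (5, 33), (49, 41)])),
    (1964, (.leaf [(4, 32), (49, 17), (29, 33), (22, 44)])),
    (1986, (.leaf [(6, 18), (24, 24), (28, 0), (51, 4)])),
    (2008, (.leaf [(5, 36), (49, 33), (30, 5), (23, 14)])),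
    (2030, (.leaf [(7, 18), (25, 3), (29, 25), (50, 44)])),
    (2052, (.leaf [(51, 26), (30, 22), (24, 45), (7, 5)])),
    (2074, (.leaf [(8, 20), (25, 36), (29, 34), (0, 5)])),
    (2096, (.leaf [(50, 7), (26, 3), (31, 42), (7, 35)])),
    (2118, (.leaf [(1, 17), (24, 46), (31, 41), (8, 39)])),
    (2140, (.leaf [(9, 12), (27, 11), (32, 30), (1, 20)])),
    (2162, (.leaf [(9, 28), (28, 5), (32, 46), (0, 42)])),
    (2184, (.leaf [(8, 23), (28, 38), (33, 9), (0, 26)])),
    (2206, (.leaf [(9, 38), (28, 31), (32, 31), (3, 4)])),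
    (2228, (.leaf [(11, 3), (28, 26), (33, 20), (3, 10)])),
    (2250, (.leaf [(3, 33), (32, 24), (27, 21), (10, 25)])),
    (2272, (.leaf [(11, 36), (29, 6), (34, 40), (3, 1)])),
    (2294, (.leaf [(11, 36), (29, 6), (34, 40), (3, 1)])),
    (2316, (.leaf [(31, 0), (35, 10), (11, 6), (4, 26)])),
    (2338, (.leaf [(31, 40), (11, 2), (2, 44), (34, 35)])),
    (2360, (.leaf [(13, 30), (30, 36), (35, 35), (6, 21)])),
    (2382, (.leaf [(13, 30), (30, 36), (35, 35), (6, 21)])),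
    (2404, (.leaf [(14, 29), (31, 34), (36, 7), (6, 44)])),
    (2426, (.leaf [(13, 31), (33, 0), (35, 31), (6, 30)])),
    (2448, (.leaf [(13, 36), (33, 32), (35, 45), (6, 25)])),
    (2470, (.leaf [(14, 7), (33, 46), (36, 28), (7, 29)]))]

theorem E1p13 : chkP gE E1L 4034560 E1w 6 71 6 113 E1l13 = true := by decide +kernel

def E1l14 : List (Nat × Tree) :=
  [(2492, (.leaf [(14, 14), (34, 22), (37, 1), (7, 20)])),
    (2514, (.leaf [(14, 23), (35, 2), (40, 13), (7, 12)])),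
    (2536, (.leaf [(13, 43), (35, 25), (7, 3), (5, 12)])),
    (2558, (.leaf [(15, 4), (35, 30), (38, 46), (8, 14)])),
    (2580, (.leaf [(15, 32), (36, 0), (39, 26), (8, 41)])),
    (2602, (.leaf [(16, 16), (36, 17), (40, 11), (9, 13)])),
    (2624, (.leaf [(17, 14), (36, 31), (41, 2), (9, 22)])),
    (7, (.leaf [(18, 29), (36, 25), (43, 16), (10, 35)])),
    (29, (.leaf [(19, 11), (36, 39), (44, 11), (11, 14)])),
    (51, (.leaf [(19, 32), (37, 17), (44, 31), (11, 12)])),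
    (73, (.leaf [(20, 8), (37, 39), (45, 15), (11, 19)])),
    (95, (.leaf [(38, 20), (49, 25), (20, 28), (11, 31)])),
    (117, (.leaf [(21, 23), (38, 12), (44, 35), (13, 21)])),
    (139, (.leaf [(22, 19), (38, 15), (45, 35), (14, 8)])),
    (161, (.leaf [(22, 38), (38, 31), (46, 3), (14, 27)])),
    (183, (.leaf [(23, 0), (15, 12), (37, 31), (46, 27)])),
    (205, (.leaf [(40, 17), (47, 41), (23, 8), (14, 40)])),
    (227, (.leaf [(23, 29), (40, 45), (46, 19), (14, 36)])),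
    (249, (.leaf [(41, 26), (48, 27), (23, 31), (15, 13)])),
    (271, (.leaf [(24, 22), (41, 33), (47, 22), (16, 20)])),
    (293, (.leaf [(41, 32), (25, 11), (17, 30), (48, 20)])),
    (315, (.leaf [(25, 18), (42, 16), (48, 1), (17, 40)])),
    (337, (.leaf [(25, 29), (43, 13), (48, 6), (18, 5)])),
    (359, (.leaf [(44, 5), (49, 19), (26, 13), (18, 35)])),
    (381, (.leaf [(26, 6), (44, 18), (48, 32), (18, 23)])),
    (403, (.leaf [(45, 11), (50, 5), (27, 1), (19, 35)])),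
    (425, (.leaf [(21, 27), (26, 18), (45, 4), (51, 13)])),
    (447, (.leaf [(20, 3), (45, 46), (51, 10), (26, 27)])),
    (469, (.leaf [(49, 28), (27, 29), (20, 42), (43, 35)])),
    (491, (.leaf [(20, 36), (44, 43), (51, 38), (27, 9)])),
    (513, (.leaf [(47, 21), (27, 43), (23, 9), (1, 3)])),
    (535, (.leaf [(51, 28), (48, 0), (28, 13), (22, 7)])),
    (557, (.leaf [(0, 8), (48, 11), (28, 33), (22, 28)])),
    (579, (.leaf [(30, 6), (48, 2), (0, 33), (24, 12)])),
    (601, (.leaf [(48, 25), (29, 46), (25, 0), (2, 18)])),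
    (623, (.leaf [(30, 27), (48, 8), (1, 1), (24, 10)])),
    (645, (.leaf [(30, 39), (48, 21), (1, 29), (24, 39)])),
    (667, (.leaf [(48, 42), (31, 12), (25, 46), (3, 14)])),
    (689, (.leaf [(31, 29), (49, 2), (2, 38), (25, 25)])),
    (711, (.leaf [(31, 33), (50, 14), (3, 0), (25, 39)])),
    (733, (.leaf [(32, 42), (49, 32), (5, 10), (26, 15)])),
    (755, (.leaf [(33, 3), (51, 7), (5, 23), (26, 21)]))]

theorem E1p14 : chkP gE E1L 4034560 E1w 6 113 7 35 E1l14 = true := by decide +kernel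

def E1l15 : List (Nat × Tree) :=
  [(777, (.leaf [(33, 25), (51, 31), (6, 16), (26, 38)])),
    (799, (.leaf [(34, 10), (51, 37), (7, 16), (27, 3)])),
    (821, (.leaf [(34, 38), (0, 21), (8, 2), (27, 23)])),
    (843, (.leaf [(35, 9), (0, 41), (8, 17), (28, 6)])),
    (865, (.leaf [(35, 44), (0, 45), (9, 4), (28, 40)])),
    (887, (.leaf [(36, 13), (1, 24), (9, 15), (28, 44)])),
    (909, (.leaf [(36, 24), (2, 23), (9, 36), (29, 5)])),
    (931, (.leaf [(30, 20), (1, 26), (10, 38), (37, 18)])),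
    (953, (.leaf [(37, 25), (4, 0), (11, 7), (29, 32)])),
    (975, (.leaf [(37, 44), (5, 24), (9, 30), (29, 41)])),
    (997, (.leaf [(13, 4), (38, 40), (31, 1), (3, 24)])),
    (1019, (.leaf [(39, 45), (4, 33), (11, 11), (31, 24)])),
    (1041, (.leaf [(40, 10), (5, 29), (11, 33), (31, 36)])),
    (1063, (.leaf [(40, 26), (6, 29), (12, 10), (32, 4)])),
    (1085, (.leaf [(33, 1), (5, 21), (14, 15), (40, 42)])),
    (1107, (.leaf [(8, 10), (15, 46), (41, 8), (32, 20)])),
    (1129, (.leaf [(9, 7), (17, 5), (41, 27), (33, 15)])),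
    (1151, (.leaf [(12, 26), (42, 24), (33, 31), (5, 30)])),
    (1173, (.leaf [(42, 26), (34, 32), (6, 27), (14, 34)])),
    (1195, (.leaf [(43, 8), (34, 39), (6, 34), (15, 28)])),
    (1217, (.leaf [(43, 23), (35, 15), (7, 25), (15, 43)])),
    (1239, (.leaf [(43, 36), (35, 18), (7, 19), (16, 15)])),
    (1261, (.leaf [(44, 9), (35, 23), (8, 7), (16, 43)])),
    (1283, (.leaf [(44, 37), (36, 21), (8, 36), (17, 25)])),
    (1305, (.leaf [(45, 13), (11, 29), (17, 8), (36, 38)])),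
    (1327, (.leaf [(45, 37), (11, 41), (17, 34), (37, 16)])),
    (1349, (.leaf [(12, 27), (46, 2), (38, 37), (18, 15)])),
    (1371, (.leaf [(12, 39), (19, 2), (40, 8), (46, 16)])),
    (1393, (.leaf [(13, 7), (18, 39), (40, 24), (46, 26)])),
    (1415, (.leaf [(14, 11), (46, 37), (39, 15), (19, 28)])),
    (1437, (.leaf [(15, 7), (20, 33), (40, 38), (46, 40)])),
    (1459, (.leaf [(16, 9), (21, 45), (41, 1), (46, 46)])),
    (1481, (.leaf [(17, 22), (23, 5), (47, 0), (40, 3)])),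
    (1503, (.leaf [(47, 5), (18, 7), (24, 25), (39, 28)])),
    (1525, (.leaf [(48, 22), (15, 36), (20, 29), (42, 15)])),
    (1547, (.leaf [(16, 29), (48, 40), (43, 5), (22, 11)])),
    (1569, (.leaf [(48, 41), (17, 19), (22, 18), (43, 4)])),
    (1591, (.leaf [(17, 23), (49, 10), (43, 41), (22, 43)])),
    (1613, (.leaf [(17, 31), (49, 26), (44, 25), (23, 40)])),
    (1635, (.leaf [(49, 44), (18, 4), (24, 9), (44, 38)])),
    (1657, (.leaf [(49, 3), (20, 39), (26, 35), (43, 37)])),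
    (1679, (.leaf [(50, 16), (19, 19), (24, 23), (45, 26)]))]

theorem E1p15 : chkP gE E1L 4034560 E1w 7 35 7 77 E1l15 = true := by decide +kernel

def E1l16 : List (Nat × Tree) :=
  [(1701, (.leaf [(50, 22), (20, 16), (22, 46), (45, 28)])),
    (1723, (.leaf [(47, 35), (17, 35), (26, 20), (1, 14)])),
    (1745, (.leaf [(0, 9), (20, 7), (25, 2), (47, 45)])),
    (1767, (.leaf [(0, 16), (21, 7), (25, 10), (47, 37)])),
    (1789, (.leaf [(0, 4), (47, 42), (18, 34), (25, 32)])),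
    (1811, (.leaf [(1, 36), (21, 4), (26, 11), (48, 30)])),
    (1833, (.leaf [(1, 37), (22, 9), (26, 19), (48, 28)])),
    (1855, (.leaf [(1, 22), (48, 26), (21, 22), (27, 7)])),
    (1877, (.leaf [(3, 22), (22, 20), (26, 45), (49, 13)])),
    (1899, (.leaf [(49, 30), (22, 6), (28, 41), (4, 26)])),
    (1921, (.leaf [(5, 3), (23, 2), (27, 39), (49, 35)])),
    (1943, (.leaf [(24, 3), (29, 14), (5, 33), (49, 41)])),
    (1965, (.leaf [(5, 44), (23, 32), (27, 28), (50, 10)])),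
    (1987, (.leaf [(6, 18), (24, 24), (28, 0), (51, 4)])),
    (2009, (.leaf [(5, 36), (49, 33), (30, 5), (23, 14)])),
    (2031, (.leaf [(7, 18), (25, 3), (29, 25), (50, 44)])),
    (2053, (.leaf [(51, 26), (30, 22), (24, 45), (7, 5)])),
    (2075, (.leaf [(8, 20), (25, 36), (29, 34), (0, 5)])),
    (2097, (.leaf [(50, 7), (26, 3), (31, 42), (7, 35)])),
    (2119, (.leaf [(1, 17), (24, 46), (31, 41), (8, 39)])),
    (2141, (.leaf [(9, 12), (27, 11), (32, 30), (1, 20)])),
    (2163, (.leaf [(9, 28), (28, 5), (32, 46), (0, 42)])),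
    (2185, (.leaf [(27, 8), (9, 45), (2, 35), (31, 45)])),
    (2207, (.leaf [(9, 38), (28, 31), (32, 31), (3, 4)])),
    (2229, (.leaf [(11, 3), (28, 26), (33, 20), (3, 10)])),
    (2251, (.leaf [(10, 42), (28, 42), (32, 44), (3, 43)])),
    (2273, (.leaf [(11, 36), (29, 6), (34, 40), (3, 1)])),
    (2295, (.leaf [(11, 36), (29, 6), (34, 40), (3, 1)])),
    (2317, (.leaf [(31, 0), (35, 10), (11, 6), (4, 26)])),
    (2339, (.leaf [(31, 40), (11, 2), (2, 44), (34, 35)])),
    (2361, (.leaf [(13, 30), (30, 36), (35, 35), (6, 21)])),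
    (2383, (.leaf [(13, 34), (31, 21), (35, 19), (5, 40)])),
    (2405, (.leaf [(14, 29), (31, 34), (36, 7), (6, 44)])),
    (2427, (.leaf [(13, 31), (33, 0), (35, 31), (6, 30)])),
    (2449, (.leaf [(13, 36), (33, 32), (35, 45), (6, 25)])),
    (2471, (.leaf [(14, 7), (33, 46), (36, 28), (7, 29)])),
    (2493, (.leaf [(14, 14), (34, 22), (37, 1), (7, 20)])),
    (2515, (.leaf [(14, 23), (35, 2), (40, 13), (7, 12)])),
    (2537, (.leaf [(17, 27), (34, 6), (40, 16), (10, 1)])),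
    (2559, (.leaf [(15, 4), (35, 30), (38, 46), (8, 14)])),
    (2581, (.leaf [(15, 32), (36, 0), (39, 26), (8, 41)])),
    (2603, (.leaf [(16, 16), (36, 17), (40, 11), (9, 13)]))]

theorem E1p16 : chkP gE E1L 4034560 E1w 7 77 7 119 E1l16 = true := by decide +kernel

def E1l17 : List (Nat × Tree) :=
  [(2625, (.leaf [(17, 14), (36, 31), (41, 2), (9, 22)])),
    (8, (.leaf [(18, 29), (36, 25), (43, 16), (10, 35)])),
    (30, (.leaf [(19, 11), (36, 39), (44, 11), (11, 14)])),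
    (52, (.leaf [(19, 32), (37, 17), (44, 31), (11, 12)])),
    (74, (.leaf [(20, 8), (37, 39), (45, 15), (11, 19)])),
    (96, (.leaf [(21, 13), (37, 26), (44, 28), (13, 21)])),
    (118, (.leaf [(21, 23), (38, 12), (44, 35), (13, 21)])),
    (140, (.leaf [(22, 19), (38, 15), (45, 35), (14, 8)])),
    (162, (.leaf [(22, 38), (38, 31), (46, 3), (14, 27)])),
    (184, (.leaf [(23, 0), (15, 12), (37, 31), (46, 27)])),
    (206, (.leaf [(40, 17), (47, 41), (23, 8), (14, 40)])),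
    (228, (.leaf [(23, 29), (40, 45), (46, 19), (14, 36)])),
    (250, (.leaf [(24, 11), (40, 34), (46, 43), (16, 36)])),
    (272, (.leaf [(24, 22), (41, 33), (47, 22), (16, 20)])),
    (294, (.leaf [(41, 32), (25, 11), (17, 30), (48, 20)])),
    (316, (.leaf [(25, 18), (42, 16), (48, 1), (17, 40)])),
    (338, (.leaf [(25, 29), (43, 13), (48, 6), (18, 5)])),
    (360, (.leaf [(44, 5), (49, 19), (26, 13), (18, 35)])),
    (382, (.leaf [(26, 6), (44, 18), (48, 32), (18, 23)])),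
    (404, (.leaf [(45, 11), (50, 5), (27, 1), (19, 35)])),
    (426, (.leaf [(21, 27), (26, 18), (45, 4), (51, 13)])),
    (448, (.leaf [(20, 3), (45, 46), (51, 10), (26, 27)])),
    (470, (.leaf [(49, 28), (27, 29), (20, 42), (43, 35)])),
    (492, (.leaf [(20, 36), (44, 43), (51, 38), (27, 9)])),
    (514, (.leaf [(47, 21), (27, 43), (23, 9), (1, 3)])),
    (536, (.leaf [(51, 28), (48, 0), (28, 13), (22, 7)])),
    (558, (.leaf [(0, 8), (48, 11), (28, 33), (22, 28)])),
    (580, (.leaf [(30, 6), (48, 2), (0, 33), (24, 12)])),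
    (602, (.leaf [(48, 25), (29, 46), (25, 0), (2, 18)])),
    (624, (.leaf [(48, 24), (30, 43), (24, 14), (2, 25)])),
    (646, (.leaf [(30, 39), (48, 21), (1, 29), (24, 39)])),
    (668, (.leaf [(48, 42), (31, 12), (25, 46), (3, 14)])),
    (690, (.leaf [(31, 29), (49, 2), (2, 38), (25, 25)])),
    (712, (.leaf [(31, 33), (50, 14), (3, 0), (25, 39)])),
    (734, (.leaf [(32, 42), (49, 32), (5, 10), (26, 15)])),
    (756, (.leaf [(33, 3), (51, 7), (5, 23), (26, 21)])),
    (778, (.leaf [(33, 25), (51, 31), (6, 16), (26, 38)])),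
    (800, (.leaf [(34, 10), (51, 37), (7, 16), (27, 3)])),
    (822, (.leaf [(34, 38), (0, 21), (8, 2), (27, 23)])),
    (844, (.leaf [(35, 9), (0, 41), (8, 17), (28, 6)])),
    (866, (.leaf [(35, 44), (0, 45), (9, 4), (28, 40)])),
    (888, (.leaf [(36, 13), (1, 24), (9, 15), (28, 44)]))]

theorem E1p17 : chkP gE E1L 4034560 E1w 7 119 8 41 E1l17 = true := by decide +kernel

end Pool.Agent.K9.C
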