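import Pool.Agent.K9.C.E1D

/-! # K9: peeling of near cells -/

namespace Pool.Agent.K9.C

set_option maxRecDepth 10000

def E1l18 : List (Nat × Tree) :=
  [(910, (.leaf [(36, 24), (2, 23), (9, 36), (29, 5)])),
    (932, (.leaf [(30, 20), (1, 26), (10, 38), (37, 18)])),
    (954, (.leaf [(37, 25), (4, 0), (11, 7), (29, 32)])),
    (976, (.leaf [(38, 30), (2, 41), (10, 45), (30, 18)])),
    (998, (.leaf [(13, 4), (38, 40), (31, 1), (3, 24)])),
    (1020, (.leaf [(39, 45), (4, 33), (11, 11), (31, 24)])),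
    (1042, (.leaf [(40, 10), (5, 29), (11, 33), (31, 36)])),
    (1064, (.leaf [(40, 26), (6, 29), (12, 10), (32, 4)])),
    (1086, (.leaf [(33, 1), (5, 21), (14, 15), (40, 42)])),
    (1108, (.leaf [(8, 10), (15, 46), (41, 8), (32, 20)])),
    (1130, (.leaf [(41, 43), (7, 27), (13, 15), (33, 5)])),
    (1152, (.leaf [(12, 26), (42, 24), (33, 31), (5, 30)])),
    (1174, (.leaf [(42, 26), (34, 32), (6, 27), (14, 34)])),
    (1196, (.leaf [(43, 8), (34, 39), (6, 34), (15, 28)])),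
    (1218, (.leaf [(43, 23), (35, 15), (7, 25), (15, 43)])),
    (1240, (.leaf [(43, 36), (35, 18), (7, 19), (16, 15)])),
    (1262, (.leaf [(44, 9), (35, 23), (8, 7), (16, 43)])),
    (1284, (.leaf [(44, 37), (36, 21), (8, 36), (17, 25)])),
    (1306, (.leaf [(45, 13), (11, 29), (17, 8), (36, 38)])),
    (1328, (.leaf [(45, 37), (11, 41), (17, 34), (37, 16)])),
    (1350, (.leaf [(12, 27), (46, 2), (38, 37), (18, 15)])),
    (1372, (.leaf [(12, 39), (19, 2), (40, 8), (46, 16)])),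
    (1394, (.leaf [(13, 7), (18, 39), (40, 24), (46, 26)])),
    (1416, (.leaf [(14, 11), (46, 37), (39, 15), (19, 28)])),
    (1438, (.leaf [(15, 7), (20, 33), (40, 38), (46, 40)])),
    (1460, (.leaf [(16, 9), (21, 45), (41, 1), (46, 46)])),
    (1482, (.leaf [(17, 22), (23, 5), (47, 0), (40, 3)])),
    (1504, (.leaf [(48, 12), (15, 2), (20, 9), (42, 5)])),
    (1526, (.leaf [(48, 22), (15, 36), (20, 29), (42, 15)])),
    (1548, (.leaf [(16, 29), (48, 40), (43, 5), (22, 11)])),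
    (1570, (.leaf [(48, 41), (17, 19), (22, 18), (43, 4)])),
    (1592, (.leaf [(17, 23), (49, 10), (43, 41), (22, 43)])),
    (1614, (.leaf [(17, 31), (49, 26), (44, 25), (23, 40)])),
    (1636, (.leaf [(49, 44), (18, 4), (24, 9), (44, 38)])),
    (1658, (.leaf [(50, 30), (18, 20), (24, 0), (45, 19)])),
    (1680, (.leaf [(50, 16), (19, 19), (24, 23), (45, 26)])),
    (1702, (.leaf [(50, 22), (20, 16), (22, 46), (45, 28)])),
    (1724, (.leaf [(47, 35), (17, 35), (26, 20), (1, 14)])),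
    (1746, (.leaf [(0, 9), (20, 7), (25, 2), (47, 45)])),
    (1768, (.leaf [(0, 16), (21, 7), (25, 10), (47, 37)])),
    (1790, (.leaf [(0, 4), (47, 42), (18, 34), (25, 32)])),
    (1812, (.leaf [(1, 36), (21, 4), (26, 11), (48, 30)]))]

theorem E1p18 : chkP gE E1L 4034560 E1w 8 41 8 83 E1l18 = true := by decide +kernel

def E1l19 : List (Nat × Tree) :=
  [(1834, (.leaf [(1, 37), (22, 9), (26, 19), (48, 28)])),
    (1856, (.leaf [(1, 22), (48, 26), (21, 22), (27, 7)])),
    (1878, (.leaf [(3, 22), (22, 20), (26, 45), (49, 13)])),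
    (1900, (.leaf [(49, 30), (22, 6), (28, 41), (4, 26)])),
    (1922, (.leaf [(5, 3), (23, 2), (27, 39), (49, 35)])),
    (1944, (.leaf [(24, 3), (29, 14), (5, 33), (49, 41)])),
    (1966, (.leaf [(5, 44), (23, 32), (27, 28), (50, 10)])),
    (1988, (.leaf [(6, 18), (24, 24), (28, 0), (51, 4)])),
    (2010, (.leaf [(7, 2), (23, 46), (28, 20), (51, 30)])),
    (2032, (.leaf [(7, 18), (25, 3), (29, 25), (50, 44)])),
    (2054, (.leaf [(7, 41), (25, 4), (28, 43), (0, 14)])),
    (2076, (.leaf [(8, 20), (25, 36), (29, 34), (0, 5)])),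
    (2098, (.leaf [(8, 33), (25, 22), (29, 45), (0, 35)])),
    (2120, (.leaf [(1, 17), (24, 46), (31, 41), (8, 39)])),
    (2142, (.leaf [(9, 12), (27, 11), (32, 30), (1, 20)])),
    (2164, (.leaf [(9, 28), (28, 5), (32, 46), (0, 42)])),
    (2186, (.leaf [(27, 8), (9, 45), (2, 35), (31, 45)])),
    (2208, (.leaf [(9, 38), (28, 31), (32, 31), (3, 4)])),
    (2230, (.leaf [(11, 3), (28, 26), (33, 20), (3, 10)])),
    (2252, (.leaf [(10, 42), (28, 42), (32, 44), (3, 43)])),
    (2274, (.leaf [(11, 36), (29, 6), (34, 40), (3, 1)])),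
    (2296, (.leaf [(11, 36), (29, 6), (34, 40), (3, 1)])),
    (2318, (.leaf [(31, 0), (35, 10), (11, 6), (4, 26)])),
    (2340, (.leaf [(31, 40), (11, 2), (2, 44), (34, 35)])),
    (2362, (.leaf [(13, 30), (30, 36), (35, 35), (6, 21)])),
    (2384, (.leaf [(13, 34), (31, 21), (35, 19), (5, 40)])),
    (2406, (.leaf [(14, 29), (31, 34), (36, 7), (6, 44)])),
    (2428, (.leaf [(13, 31), (33, 0), (35, 31), (6, 30)])),
    (2450, (.leaf [(13, 36), (33, 32), (35, 45), (6, 25)])),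
    (2472, (.leaf [(14, 7), (33, 46), (36, 28), (7, 29)])),
    (2494, (.leaf [(14, 14), (34, 22), (37, 1), (7, 20)])),
    (2516, (.leaf [(16, 38), (33, 19), (38, 41), (9, 8)])),
    (2538, (.leaf [(17, 27), (34, 6), (40, 16), (10, 1)])),
    (2560, (.leaf [(17, 45), (34, 20), (40, 29), (10, 15)])),
    (2582, (.leaf [(18, 19), (34, 36), (41, 28), (10, 31)])),
    (2604, (.leaf [(18, 45), (35, 8), (42, 2), (10, 43)])),
    (2626, (.leaf [(19, 25), (35, 20), (42, 20), (11, 22)])),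
    (9, (.leaf [(19, 24), (36, 5), (43, 18), (11, 23)])),
    (31, (.leaf [(20, 2), (36, 16), (43, 22), (12, 0)])),
    (53, (.leaf [(20, 26), (36, 32), (43, 43), (12, 22)])),
    (75, (.leaf [(20, 44), (36, 41), (44, 23), (13, 0)])),
    (97, (.leaf [(21, 13), (37, 26), (44, 28), (13, 21)]))]

theorem E1p19 : chkP gE E1L 4034560 E1w 8 83 9 5 E1l19 = true := by decide +kernel

def E1l20 : List (Nat × Tree) :=
  [(119, (.leaf [(21, 23), (38, 12), (44, 35), (13, 21)])),
    (141, (.leaf [(22, 19), (38, 15), (45, 35), (14, 8)])),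
    (163, (.leaf [(22, 38), (38, 31), (46, 3), (14, 27)])),
    (185, (.leaf [(23, 0), (15, 12), (37, 31), (46, 27)])),
    (207, (.leaf [(40, 17), (47, 41), (23, 8), (14, 40)])),
    (229, (.leaf [(16, 45), (38, 38), (46, 44), (23, 44)])),
    (251, (.leaf [(24, 11), (40, 34), (46, 43), (16, 36)])),
    (273, (.leaf [(24, 22), (41, 33), (47, 22), (16, 20)])),
    (295, (.leaf [(41, 32), (25, 11), (17, 30), (48, 20)])),
    (317, (.leaf [(25, 18), (42, 16), (48, 1), (17, 40)])),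
    (339, (.leaf [(25, 29), (43, 13), (48, 6), (18, 5)])),
    (361, (.leaf [(44, 5), (49, 19), (26, 13), (18, 35)])),
    (383, (.leaf [(26, 6), (44, 18), (48, 32), (18, 23)])),
    (405, (.leaf [(45, 11), (50, 5), (27, 1), (19, 35)])),
    (427, (.leaf [(21, 27), (26, 18), (45, 4), (51, 13)])),
    (449, (.leaf [(20, 3), (45, 46), (51, 10), (26, 27)])),
    (471, (.leaf [(49, 28), (27, 29), (20, 42), (43, 35)])),
    (493, (.leaf [(20, 36), (44, 43), (51, 38), (27, 9)])),
    (515, (.leaf [(47, 21), (27, 43), (23, 9), (1, 3)])),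
    (537, (.leaf [(51, 28), (48, 0), (28, 13), (22, 7)])),
    (559, (.leaf [(0, 8), (48, 11), (28, 33), (22, 28)])),
    (581, (.leaf [(30, 6), (48, 2), (0, 33), (24, 12)])),
    (603, (.leaf [(48, 25), (29, 46), (25, 0), (2, 18)])),
    (625, (.leaf [(48, 24), (30, 43), (24, 14), (2, 25)])),
    (647, (.leaf [(48, 42), (31, 12), (25, 46), (3, 14)])),
    (669, (.leaf [(48, 42), (31, 12), (25, 46), (3, 14)])),
    (691, (.leaf [(31, 29), (49, 2), (2, 38), (25, 25)])),
    (713, (.leaf [(31, 33), (50, 14), (3, 0), (25, 39)])),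
    (735, (.leaf [(32, 42), (49, 32), (5, 10), (26, 15)])),
    (757, (.leaf [(33, 3), (51, 7), (5, 23), (26, 21)])),
    (779, (.leaf [(33, 25), (51, 31), (6, 16), (26, 38)])),
    (801, (.leaf [(34, 10), (51, 37), (7, 16), (27, 3)])),
    (823, (.leaf [(34, 38), (0, 21), (8, 2), (27, 23)])),
    (845, (.leaf [(35, 9), (0, 41), (8, 17), (28, 6)])),
    (867, (.leaf [(35, 44), (0, 45), (9, 4), (28, 40)])),
    (889, (.leaf [(36, 13), (1, 24), (9, 15), (28, 44)])),
    (911, (.leaf [(36, 24), (2, 23), (9, 36), (29, 5)])),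
    (933, (.leaf [(30, 20), (1, 26), (10, 38), (37, 18)])),
    (955, (.leaf [(38, 13), (2, 22), (10, 29), (30, 14)])),
    (977, (.leaf [(38, 30), (2, 41), (10, 45), (30, 18)])),
    (999, (.leaf [(13, 4), (38, 40), (31, 1), (3, 24)])),
    (1021, (.leaf [(39, 45), (4, 33), (11, 11), (31, 24)]))]

theorem E1p20 : chkP gE E1L 4034560 E1w 9 5 9 47 E1l20 = true := by decide +kernel

def E1l21 : List (Nat × Tree) :=
  [(1043, (.leaf [(40, 10), (5, 29), (11, 33), (31, 36)])),
    (1065, (.leaf [(40, 26), (6, 29), (12, 10), (32, 4)])),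
    (1087, (.leaf [(33, 1), (5, 21), (14, 15), (40, 42)])),
    (1109, (.leaf [(12, 12), (41, 45), (33, 2), (4, 46)])),
    (1131, (.leaf [(41, 43), (7, 27), (13, 15), (33, 5)])),
    (1153, (.leaf [(12, 26), (42, 24), (33, 31), (5, 30)])),
    (1175, (.leaf [(42, 26), (34, 32), (6, 27), (14, 34)])),
    (1197, (.leaf [(43, 8), (34, 39), (6, 34), (15, 28)])),
    (1219, (.leaf [(43, 23), (35, 15), (7, 25), (15, 43)])),
    (1241, (.leaf [(43, 36), (35, 18), (7, 19), (16, 15)])),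
    (1263, (.leaf [(44, 9), (35, 23), (8, 7), (16, 43)])),
    (1285, (.leaf [(44, 37), (36, 21), (8, 36), (17, 25)])),
    (1307, (.leaf [(45, 13), (11, 29), (17, 8), (36, 38)])),
    (1329, (.leaf [(45, 37), (11, 41), (17, 34), (37, 16)])),
    (1351, (.leaf [(12, 27), (46, 2), (38, 37), (18, 15)])),
    (1373, (.leaf [(12, 39), (19, 2), (40, 8), (46, 16)])),
    (1395, (.leaf [(13, 7), (18, 39), (40, 24), (46, 26)])),
    (1417, (.leaf [(14, 11), (46, 37), (39, 15), (19, 28)])),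
    (1439, (.leaf [(15, 7), (20, 33), (40, 38), (46, 40)])),
    (1461, (.leaf [(16, 9), (21, 45), (41, 1), (46, 46)])),
    (1483, (.leaf [(48, 7), (14, 6), (19, 43), (41, 20)])),
    (1505, (.leaf [(48, 12), (15, 2), (20, 9), (42, 5)])),
    (1527, (.leaf [(48, 22), (15, 36), (20, 29), (42, 15)])),
    (1549, (.leaf [(16, 29), (48, 40), (43, 5), (22, 11)])),
    (1571, (.leaf [(48, 41), (17, 19), (22, 18), (43, 4)])),
    (1593, (.leaf [(17, 23), (49, 10), (43, 41), (22, 43)])),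
    (1615, (.leaf [(17, 31), (49, 26), (44, 25), (23, 40)])),
    (1637, (.leaf [(49, 44), (18, 4), (24, 9), (44, 38)])),
    (1659, (.leaf [(50, 30), (18, 20), (24, 0), (45, 19)])),
    (1681, (.leaf [(50, 16), (19, 19), (24, 23), (45, 26)])),
    (1703, (.leaf [(50, 22), (20, 16), (22, 46), (45, 28)])),
    (1725, (.leaf [(0, 22), (19, 12), (25, 6), (47, 32)])),
    (1747, (.leaf [(0, 9), (20, 7), (25, 2), (47, 45)])),
    (1769, (.leaf [(0, 16), (21, 7), (25, 10), (47, 37)])),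
    (1791, (.leaf [(1, 38), (20, 10), (25, 9), (48, 18)])),
    (1813, (.leaf [(1, 36), (21, 4), (26, 11), (48, 30)])),
    (1835, (.leaf [(1, 37), (22, 9), (26, 19), (48, 28)])),
    (1857, (.leaf [(2, 42), (21, 20), (26, 9), (49, 5)])),
    (1879, (.leaf [(3, 22), (22, 20), (26, 45), (49, 13)])),
    (1901, (.leaf [(4, 19), (21, 40), (26, 41), (49, 29)])),
    (1923, (.leaf [(5, 3), (23, 2), (27, 39), (49, 35)])),
    (1945, (.leaf [(24, 3), (29, 14), (5, 33), (49, 41)]))]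

theorem E1p21 : chkP gE E1L 4034560 E1w 9 47 9 89 E1l21 = true := by decide +kernel

def E1l22 : List (Nat × Tree) :=
  [(1967, (.leaf [(5, 44), (23, 32), (27, 28), (50, 10)])),
    (1989, (.leaf [(6, 18), (24, 24), (28, 0), (51, 4)])),
    (2011, (.leaf [(7, 2), (23, 46), (28, 20), (51, 30)])),
    (2033, (.leaf [(7, 18), (25, 3), (29, 25), (50, 44)])),
    (2055, (.leaf [(7, 41), (25, 4), (28, 43), (0, 14)])),
    (2077, (.leaf [(8, 20), (25, 36), (29, 34), (0, 5)])),
    (2099, (.leaf [(8, 33), (25, 22), (29, 45), (0, 35)])),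
    (2121, (.leaf [(1, 17), (24, 46), (31, 41), (8, 39)])),
    (2143, (.leaf [(9, 12), (27, 11), (32, 30), (1, 20)])),
    (2165, (.leaf [(26, 4), (9, 43), (2, 6), (31, 38)])),
    (2187, (.leaf [(27, 8), (9, 45), (2, 35), (31, 45)])),
    (2209, (.leaf [(9, 38), (28, 31), (32, 31), (3, 4)])),
    (2231, (.leaf [(11, 3), (28, 26), (33, 20), (3, 10)])),
    (2253, (.leaf [(10, 42), (28, 42), (32, 44), (3, 43)])),
    (2275, (.leaf [(11, 36), (29, 6), (34, 40), (3, 1)])),
    (2297, (.leaf [(11, 36), (29, 6), (34, 40), (3, 1)])),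
    (2319, (.leaf [(31, 0), (35, 10), (11, 6), (4, 26)])),
    (2341, (.leaf [(13, 30), (30, 36), (35, 35), (6, 21)])),
    (2363, (.leaf [(13, 30), (30, 36), (35, 35), (6, 21)])),
    (2385, (.leaf [(13, 34), (31, 21), (35, 19), (5, 40)])),
    (2407, (.leaf [(14, 29), (31, 34), (36, 7), (6, 44)])),
    (2429, (.leaf [(13, 31), (33, 0), (35, 31), (6, 30)])),
    (2451, (.leaf [(13, 36), (33, 32), (35, 45), (6, 25)])),
    (2473, (.leaf [(14, 7), (33, 46), (36, 28), (7, 29)])),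
    (2495, (.leaf [(16, 22), (32, 33), (37, 22), (9, 2)])),
    (2517, (.leaf [(16, 38), (33, 19), (38, 41), (9, 8)])),
    (2539, (.leaf [(17, 27), (34, 6), (40, 16), (10, 1)])),
    (2561, (.leaf [(17, 45), (34, 20), (40, 29), (10, 15)])),
    (2583, (.leaf [(18, 19), (34, 36), (41, 28), (10, 31)])),
    (2605, (.leaf [(18, 45), (35, 8), (42, 2), (10, 43)])),
    (2627, (.leaf [(19, 25), (35, 20), (42, 20), (11, 22)])),
    (10, (.leaf [(19, 24), (36, 5), (43, 18), (11, 23)])),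
    (32, (.leaf [(20, 2), (36, 16), (43, 22), (12, 0)])),
    (54, (.leaf [(20, 26), (36, 32), (43, 43), (12, 22)])),
    (76, (.leaf [(20, 44), (36, 41), (44, 23), (13, 0)])),
    (98, (.leaf [(21, 13), (37, 26), (44, 28), (13, 21)])),
    (120, (.leaf [(21, 24), (38, 0), (44, 36), (13, 33)])),
    (142, (.leaf [(22, 19), (38, 15), (45, 35), (14, 8)])),
    (164, (.leaf [(22, 38), (38, 31), (46, 3), (14, 27)])),
    (186, (.leaf [(23, 0), (15, 12), (37, 31), (46, 27)])),
    (208, (.leaf [(23, 28), (39, 24), (46, 18), (15, 25)])),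
    (230, (.leaf [(16, 45), (38, 38), (46, 44), (23, 44)]))]

theorem E1p22 : chkP gE E1L 4034560 E1w 9 89 10 11 E1l22 = true := by decide +kernel

def E1l23 : List (Nat × Tree) :=
  [(252, (.leaf [(24, 11), (40, 34), (46, 43), (16, 36)])),
    (274, (.leaf [(24, 41), (41, 12), (47, 9), (16, 44)])),
    (296, (.leaf [(41, 32), (25, 11), (17, 30), (48, 20)])),
    (318, (.leaf [(25, 18), (42, 16), (48, 1), (17, 40)])),
    (340, (.leaf [(25, 29), (43, 13), (48, 6), (18, 5)])),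
    (362, (.leaf [(42, 37), (26, 8), (19, 1), (49, 40)])),
    (384, (.leaf [(26, 22), (43, 14), (49, 36), (19, 15)])),
    (406, (.leaf [(43, 33), (26, 36), (20, 0), (50, 29)])),
    (428, (.leaf [(44, 10), (27, 5), (20, 19), (51, 0)])),
    (450, (.leaf [(44, 26), (27, 18), (21, 0), (51, 22)])),
    (472, (.leaf [(27, 35), (45, 18), (51, 32), (20, 34)])),
    (494, (.leaf [(28, 8), (45, 36), (0, 13), (21, 10)])),
    (516, (.leaf [(47, 21), (27, 43), (23, 9), (1, 3)])),
    (538, (.leaf [(51, 28), (48, 0), (28, 13), (22, 7)])),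
    (560, (.leaf [(0, 8), (48, 11), (28, 33), (22, 28)])),
    (582, (.leaf [(30, 6), (48, 2), (0, 33), (24, 12)])),
    (604, (.leaf [(48, 25), (29, 46), (25, 0), (2, 18)])),
    (626, (.leaf [(48, 24), (30, 43), (24, 14), (2, 25)])),
    (648, (.leaf [(48, 42), (31, 12), (25, 46), (3, 14)])),
    (670, (.leaf [(31, 29), (49, 2), (2, 38), (25, 25)])),
    (692, (.leaf [(31, 29), (49, 2), (2, 38), (25, 25)])),
    (714, (.leaf [(31, 33), (50, 14), (3, 0), (25, 39)])),
    (736, (.leaf [(32, 42), (49, 32), (5, 10), (26, 15)])),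
    (758, (.leaf [(33, 3), (51, 7), (5, 23), (26, 21)])),
    (780, (.leaf [(33, 25), (51, 31), (6, 16), (26, 38)])),
    (802, (.leaf [(34, 10), (51, 37), (7, 16), (27, 3)])),
    (824, (.leaf [(34, 38), (0, 21), (8, 2), (27, 23)])),
    (846, (.leaf [(35, 9), (0, 41), (8, 17), (28, 6)])),
    (868, (.leaf [(35, 44), (0, 45), (9, 4), (28, 40)])),
    (890, (.leaf [(36, 13), (1, 24), (9, 15), (28, 44)])),
    (912, (.leaf [(36, 24), (2, 23), (9, 36), (29, 5)])),
    (934, (.leaf [(37, 32), (2, 16), (9, 42), (29, 10)])),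
    (956, (.leaf [(38, 13), (2, 22), (10, 29), (30, 14)])),
    (978, (.leaf [(38, 30), (2, 41), (10, 45), (30, 18)])),
    (1000, (.leaf [(39, 4), (3, 14), (11, 21), (30, 46)])),
    (1022, (.leaf [(39, 45), (4, 33), (11, 11), (31, 24)])),
    (1044, (.leaf [(40, 10), (5, 29), (11, 33), (31, 36)])),
    (1066, (.leaf [(40, 26), (6, 29), (12, 10), (32, 4)])),
    (1088, (.leaf [(41, 6), (5, 11), (12, 1), (32, 6)])),
    (1110, (.leaf [(12, 12), (41, 45), (33, 2), (4, 46)])),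
    (1132, (.leaf [(41, 43), (7, 27), (13, 15), (33, 5)])),
    (1154, (.leaf [(12, 35), (42, 25), (33, 27), (5, 18)]))]

theorem E1p23 : chkP gE E1L 4034560 E1w 10 11 10 53 E1l23 = true := by decide +kernel

def E1l24 : List (Nat × Tree) :=
  [(1176, (.leaf [(42, 26), (34, 32), (6, 27), (14, 34)])),
    (1198, (.leaf [(43, 8), (34, 39), (6, 34), (15, 28)])),
    (1220, (.leaf [(43, 23), (35, 15), (7, 25), (15, 43)])),
    (1242, (.leaf [(43, 36), (35, 18), (7, 19), (16, 15)])),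
    (1264, (.leaf [(44, 9), (35, 23), (8, 7), (16, 43)])),
    (1286, (.leaf [(44, 37), (36, 21), (8, 36), (17, 25)])),
    (1308, (.leaf [(45, 13), (11, 29), (17, 8), (36, 38)])),
    (1330, (.leaf [(45, 37), (11, 41), (17, 34), (37, 16)])),
    (1352, (.leaf [(12, 27), (46, 2), (38, 37), (18, 15)])),
    (1374, (.leaf [(12, 39), (19, 2), (40, 8), (46, 16)])),
    (1396, (.leaf [(13, 7), (18, 39), (40, 24), (46, 26)])),
    (1418, (.leaf [(14, 11), (46, 37), (39, 15), (19, 28)])),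
    (1440, (.leaf [(15, 7), (20, 33), (40, 38), (46, 40)])),
    (1462, (.leaf [(47, 36), (13, 20), (18, 37), (40, 40)])),
    (1484, (.leaf [(48, 7), (14, 6), (19, 43), (41, 20)])),
    (1506, (.leaf [(48, 12), (15, 2), (20, 9), (42, 5)])),
    (1528, (.leaf [(48, 22), (15, 36), (20, 29), (42, 15)])),
    (1550, (.leaf [(16, 29), (48, 40), (43, 5), (22, 11)])),
    (1572, (.leaf [(48, 41), (17, 19), (22, 18), (43, 4)])),
    (1594, (.leaf [(17, 23), (49, 10), (43, 41), (22, 43)])),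
    (1616, (.leaf [(17, 31), (49, 26), (44, 25), (23, 40)])),
    (1638, (.leaf [(49, 44), (18, 4), (24, 9), (44, 38)])),
    (1660, (.leaf [(50, 30), (18, 20), (24, 0), (45, 19)])),
    (1682, (.leaf [(50, 16), (19, 19), (24, 23), (45, 26)])),
    (1704, (.leaf [(50, 22), (20, 16), (22, 46), (45, 28)])),
    (1726, (.leaf [(0, 22), (19, 12), (25, 6), (47, 32)])),
    (1748, (.leaf [(0, 9), (20, 7), (25, 2), (47, 45)])),
    (1770, (.leaf [(0, 16), (21, 7), (25, 10), (47, 37)])),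
    (1792, (.leaf [(1, 38), (20, 10), (25, 9), (48, 18)])),
    (1814, (.leaf [(1, 36), (21, 4), (26, 11), (48, 30)])),
    (1836, (.leaf [(1, 37), (22, 9), (26, 19), (48, 28)])),
    (1858, (.leaf [(2, 42), (21, 20), (26, 9), (49, 5)])),
    (1880, (.leaf [(3, 22), (22, 20), (26, 45), (49, 13)])),
    (1902, (.leaf [(4, 19), (21, 40), (26, 41), (49, 29)])),
    (1924, (.leaf [(5, 3), (23, 2), (27, 39), (49, 35)])),
    (1946, (.leaf [(5, 25), (22, 1), (27, 20), (50, 37)])),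
    (1968, (.leaf [(5, 41), (22, 25), (28, 4), (51, 12)])),
    (1990, (.leaf [(6, 9), (22, 39), (28, 15), (51, 34)])),
    (2012, (.leaf [(7, 2), (23, 46), (28, 20), (51, 30)])),
    (2034, (.leaf [(7, 18), (25, 3), (29, 25), (50, 44)])),
    (2056, (.leaf [(7, 41), (25, 4), (28, 43), (0, 14)])),
    (2078, (.leaf [(8, 20), (25, 36), (29, 34), (0, 5)]))]

theorem E1p24 : chkP gE E1L 4034560 E1w 10 53 10 95 E1l24 = true := by decide +kernel

def E1l25 : List (Nat × Tree) :=
  [(2100, (.leaf [(8, 33), (25, 22), (29, 45), (0, 35)])),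
    (2122, (.leaf [(1, 17), (24, 46), (31, 41), (8, 39)])),
    (2144, (.leaf [(9, 12), (27, 11), (32, 30), (1, 20)])),
    (2166, (.leaf [(26, 4), (9, 43), (2, 6), (31, 38)])),
    (2188, (.leaf [(27, 8), (9, 45), (2, 35), (31, 45)])),
    (2210, (.leaf [(9, 38), (28, 31), (32, 31), (3, 4)])),
    (2232, (.leaf [(11, 3), (28, 26), (33, 20), (3, 10)])),
    (2254, (.leaf [(10, 42), (28, 42), (32, 44), (3, 43)])),
    (2276, (.leaf [(11, 36), (29, 6), (34, 40), (3, 1)])),
    (2298, (.leaf [(11, 36), (29, 6), (34, 40), (3, 1)])),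
    (2320, (.leaf [(12, 37), (30, 9), (34, 19), (5, 14)])),
    (2342, (.leaf [(13, 30), (30, 36), (35, 35), (6, 21)])),
    (2364, (.leaf [(13, 30), (30, 36), (35, 35), (6, 21)])),
    (2386, (.leaf [(13, 34), (31, 21), (35, 19), (5, 40)])),
    (2408, (.leaf [(14, 29), (31, 34), (36, 7), (6, 44)])),
    (2430, (.leaf [(13, 31), (33, 0), (35, 31), (6, 30)])),
    (2452, (.leaf [(15, 0), (31, 30), (36, 19), (7, 28)])),
    (2474, (.leaf [(15, 24), (31, 44), (36, 29), (8, 11)])),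
    (2496, (.leaf [(16, 22), (32, 33), (37, 22), (9, 2)])),
    (2518, (.leaf [(16, 38), (33, 19), (38, 41), (9, 8)])),
    (2540, (.leaf [(17, 27), (34, 6), (40, 16), (10, 1)])),
    (2562, (.leaf [(17, 45), (34, 20), (40, 29), (10, 15)])),
    (2584, (.leaf [(18, 19), (34, 36), (41, 28), (10, 31)])),
    (2606, (.leaf [(18, 45), (35, 8), (42, 2), (10, 43)])),
    (2628, (.leaf [(19, 25), (35, 20), (42, 20), (11, 22)])),
    (11, (.leaf [(19, 24), (36, 5), (43, 18), (11, 23)])),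
    (33, (.leaf [(20, 2), (36, 16), (43, 22), (12, 0)])),
    (55, (.leaf [(20, 26), (36, 32), (43, 43), (12, 22)])),
    (77, (.leaf [(20, 44), (36, 41), (44, 23), (13, 0)])),
    (99, (.leaf [(15, 39), (21, 9), (37, 4), (43, 20)])),
    (121, (.leaf [(16, 14), (21, 35), (37, 29), (43, 31)])),
    (143, (.leaf [(22, 19), (38, 15), (45, 35), (14, 8)])),
    (165, (.leaf [(22, 38), (38, 31), (46, 3), (14, 27)])),
    (187, (.leaf [(18, 1), (23, 6), (38, 29), (45, 0)])),
    (209, (.leaf [(18, 30), (23, 38), (38, 35), (45, 27)])),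
    (231, (.leaf [(16, 45), (38, 38), (46, 44), (23, 44)])),
    (253, (.leaf [(39, 33), (24, 4), (16, 27), (46, 28)])),
    (275, (.leaf [(19, 30), (25, 5), (40, 39), (46, 13)])),
    (297, (.leaf [(41, 32), (25, 11), (17, 30), (48, 20)])),
    (319, (.leaf [(20, 32), (25, 45), (41, 44), (46, 39)])),
    (341, (.leaf [(42, 10), (25, 30), (18, 18), (50, 2)])),
    (363, (.leaf [(42, 37), (26, 8), (19, 1), (49, 40)]))]

theorem E1p25 : chkP gE E1L 4034560 E1w 10 95 11 17 E1l25 = true := by decide +kernel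

def E1l26 : List (Nat × Tree) :=
  [(385, (.leaf [(26, 22), (43, 14), (49, 36), (19, 15)])),
    (407, (.leaf [(43, 33), (26, 36), (20, 0), (50, 29)])),
    (429, (.leaf [(44, 10), (27, 5), (20, 19), (51, 0)])),
    (451, (.leaf [(44, 26), (27, 18), (21, 0), (51, 22)])),
    (473, (.leaf [(27, 35), (45, 18), (51, 32), (20, 34)])),
    (495, (.leaf [(28, 8), (45, 36), (0, 13), (21, 10)])),
    (517, (.leaf [(28, 39), (45, 38), (0, 36), (21, 31)])),
    (539, (.leaf [(29, 8), (46, 11), (1, 7), (22, 0)])),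
    (561, (.leaf [(29, 36), (47, 13), (0, 19), (23, 36)])),
    (583, (.leaf [(30, 6), (48, 2), (0, 33), (24, 12)])),
    (605, (.leaf [(48, 25), (29, 46), (25, 0), (2, 18)])),
    (627, (.leaf [(48, 24), (30, 43), (24, 14), (2, 25)])),
    (649, (.leaf [(48, 42), (31, 12), (25, 46), (3, 14)])),
    (671, (.leaf [(31, 29), (49, 2), (2, 38), (25, 25)])),
    (693, (.leaf [(31, 29), (49, 2), (2, 38), (25, 25)])),
    (715, (.leaf [(31, 33), (50, 14), (3, 0), (25, 39)])),
    (737, (.leaf [(32, 42), (49, 32), (5, 10), (26, 15)])),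
    (759, (.leaf [(33, 3), (51, 7), (5, 23), (26, 21)])),
    (781, (.leaf [(33, 25), (51, 31), (6, 16), (26, 38)])),
    (803, (.leaf [(34, 10), (51, 37), (7, 16), (27, 3)])),
    (825, (.leaf [(34, 38), (0, 21), (8, 2), (27, 23)])),
    (847, (.leaf [(35, 9), (0, 41), (8, 17), (28, 6)])),
    (869, (.leaf [(35, 44), (0, 45), (9, 4), (28, 40)])),
    (891, (.leaf [(36, 13), (1, 24), (9, 15), (28, 44)])),
    (913, (.leaf [(37, 24), (1, 35), (8, 42), (29, 12)])),
    (935, (.leaf [(38, 2), (2, 11), (9, 16), (29, 39)])),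
    (957, (.leaf [(38, 13), (2, 22), (10, 29), (30, 14)])),
    (979, (.leaf [(38, 36), (2, 26), (10, 5), (30, 33)])),
    (1001, (.node 2124 (.leaf [(10, 13), (28, 25), (3, 28)]) (.leaf [(39, 11), (2, 43), (10, 23), (31, 8)]))),
    (1023, (.leaf [(39, 45), (4, 33), (11, 11), (31, 24)])),
    (1045, (.leaf [(40, 10), (5, 29), (11, 33), (31, 36)])),
    (1067, (.leaf [(41, 4), (3, 45), (11, 17), (32, 14)])),
    (1089, (.leaf [(41, 15), (4, 23), (11, 25), (32, 11)])),
    (1111, (.leaf [(12, 12), (41, 45), (33, 2), (4, 46)])),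
    (1133, (.leaf [(42, 11), (5, 39), (12, 16), (33, 11)])),
    (1155, (.leaf [(42, 22), (6, 14), (13, 3), (33, 33)])),
    (1177, (.leaf [(42, 26), (34, 32), (6, 27), (14, 34)])),
    (1199, (.leaf [(43, 8), (34, 39), (6, 34), (15, 28)])),
    (1221, (.leaf [(13, 26), (44, 16), (35, 16), (6, 46)])),
    (1243, (.leaf [(13, 45), (45, 6), (36, 3), (7, 32)])),
    (1265, (.leaf [(44, 22), (37, 6), (8, 9), (14, 21)])),
    (1287, (.leaf [(44, 37), (36, 21), (8, 36), (17, 25)]))]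

theorem E1p26 : chkP gE E1L 4034560 E1w 11 17 11 59 E1l26 = true := by decide +kernel

end Pool.Agent.K9.C
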