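import Pool.Agent.K9.C.E1D

/-! # K9: peeling of near cells -/

namespace Pool.Agent.K9.C

set_option maxRecDepth 10000

def E1l27 : List (Nat × Tree) :=
  [(1309, (.leaf [(45, 13), (11, 29), (17, 8), (36, 38)])),
    (1331, (.leaf [(45, 37), (11, 41), (17, 34), (37, 16)])),
    (1353, (.leaf [(12, 27), (46, 2), (38, 37), (18, 15)])),
    (1375, (.leaf [(12, 39), (19, 2), (40, 8), (46, 16)])),
    (1397, (.leaf [(13, 7), (18, 39), (40, 24), (46, 26)])),
    (1419, (.leaf [(14, 11), (46, 37), (39, 15), (19, 28)])),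
    (1441, (.leaf [(47, 11), (12, 25), (18, 6), (39, 46)])),
    (1463, (.leaf [(47, 36), (13, 20), (18, 37), (40, 40)])),
    (1485, (.leaf [(48, 7), (14, 6), (19, 43), (41, 20)])),
    (1507, (.leaf [(48, 12), (15, 2), (20, 9), (42, 5)])),
    (1529, (.leaf [(48, 22), (15, 36), (20, 29), (42, 15)])),
    (1551, (.leaf [(16, 29), (48, 40), (43, 5), (22, 11)])),
    (1573, (.leaf [(48, 41), (17, 19), (22, 18), (43, 4)])),
    (1595, (.leaf [(17, 23), (49, 10), (43, 41), (22, 43)])),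
    (1617, (.leaf [(17, 31), (49, 26), (44, 25), (23, 40)])),
    (1639, (.leaf [(49, 44), (18, 4), (24, 9), (44, 38)])),
    (1661, (.leaf [(50, 30), (18, 20), (24, 0), (45, 19)])),
    (1683, (.leaf [(50, 16), (19, 19), (24, 23), (45, 26)])),
    (1705, (.leaf [(0, 31), (17, 41), (23, 34), (47, 7)])),
    (1727, (.leaf [(0, 22), (19, 12), (25, 6), (47, 32)])),
    (1749, (.leaf [(0, 9), (20, 7), (25, 2), (47, 45)])),
    (1771, (.leaf [(1, 41), (19, 8), (24, 19), (48, 18)])),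
    (1793, (.leaf [(1, 38), (20, 10), (25, 9), (48, 18)])),
    (1815, (.leaf [(1, 36), (21, 4), (26, 11), (48, 30)])),
    (1837, (.leaf [(3, 5), (19, 37), (25, 44), (48, 37)])),
    (1859, (.leaf [(2, 42), (21, 20), (26, 9), (49, 5)])),
    (1881, (.leaf [(3, 22), (22, 20), (26, 45), (49, 13)])),
    (1903, (.leaf [(4, 19), (21, 40), (26, 41), (49, 29)])),
    (1925, (.leaf [(5, 3), (23, 2), (27, 39), (49, 35)])),
    (1947, (.leaf [(5, 31), (21, 33), (27, 16), (50, 36)])),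
    (1969, (.leaf [(6, 9), (21, 44), (27, 46), (50, 41)])),
    (1991, (.leaf [(6, 20), (22, 14), (28, 10), (51, 23)])),
    (2013, (.leaf [(6, 39), (22, 32), (28, 35), (51, 36)])),
    (2035, (.leaf [(7, 14), (23, 16), (29, 13), (0, 17)])),
    (2057, (.leaf [(7, 38), (23, 39), (29, 31), (0, 38)])),
    (2079, (.leaf [(24, 15), (8, 15), (1, 10), (29, 28)])),
    (2101, (.leaf [(8, 37), (24, 29), (30, 16), (1, 31)])),
    (2123, (.leaf [(1, 17), (24, 46), (31, 41), (8, 39)])),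
    (2145, (.leaf [(8, 45), (25, 8), (30, 24), (2, 12)])),
    (2167, (.leaf [(26, 4), (9, 43), (2, 6), (31, 38)])),
    (2189, (.leaf [(27, 8), (9, 45), (2, 35), (31, 45)])),
    (2211, (.leaf [(10, 19), (26, 24), (31, 43), (3, 31)]))]

theorem E1p27 : chkP gE E1L 4034560 E1w 11 59 11 101 E1l27 = true := by decide +kernel

def E1l28 : List (Nat × Tree) :=
  [(2233, (.leaf [(11, 3), (28, 26), (33, 20), (3, 10)])),
    (2255, (.leaf [(10, 42), (28, 42), (32, 44), (3, 43)])),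
    (2277, (.leaf [(11, 36), (29, 6), (34, 40), (3, 1)])),
    (2299, (.leaf [(12, 8), (29, 38), (34, 7), (4, 43)])),
    (2321, (.leaf [(12, 37), (30, 9), (34, 19), (5, 14)])),
    (2343, (.leaf [(13, 30), (30, 36), (35, 35), (6, 21)])),
    (2365, (.leaf [(13, 30), (30, 36), (35, 35), (6, 21)])),
    (2387, (.leaf [(13, 34), (31, 21), (35, 19), (5, 40)])),
    (2409, (.leaf [(14, 29), (31, 34), (36, 7), (6, 44)])),
    (2431, (.leaf [(14, 44), (30, 38), (36, 4), (7, 10)])),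
    (2453, (.leaf [(15, 0), (31, 30), (36, 19), (7, 28)])),
    (2475, (.leaf [(15, 24), (31, 44), (36, 29), (8, 11)])),
    (2497, (.leaf [(16, 22), (32, 33), (37, 22), (9, 2)])),
    (2519, (.leaf [(16, 38), (33, 19), (38, 41), (9, 8)])),
    (2541, (.leaf [(17, 27), (34, 6), (40, 16), (10, 1)])),
    (2563, (.leaf [(17, 45), (34, 20), (40, 29), (10, 15)])),
    (2585, (.leaf [(18, 19), (34, 36), (41, 28), (10, 31)])),
    (2607, (.leaf [(18, 45), (35, 8), (42, 2), (10, 43)])),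
    (2629, (.leaf [(19, 25), (35, 20), (42, 20), (11, 22)])),
    (12, (.node 2278 (.leaf [(21, 6), (35, 7), (12, 32)]) (.node 2300 (.leaf [(12, 0), (30, 30), (33, 45)]) (.leaf [(19, 21), (34, 26), (42, 9), (11, 12)])))),
    (34, (.node 2300 (.leaf [(19, 34), (36, 5), (12, 0)]) (.node 2322 (.leaf [(12, 18), (31, 17), (34, 31)]) (.leaf [(19, 42), (34, 41), (42, 34), (11, 43)])))),
    (56, (.node 2322 (.leaf [(20, 1), (36, 16), (12, 18)]) (.node 2344 (.leaf [(13, 2), (31, 35), (34, 43)]) (.leaf [(20, 12), (35, 34), (43, 12), (12, 0)])))),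
    (78, (.node 2344 (.leaf [(20, 24), (36, 32), (13, 38)]) (.node 2366 (.leaf [(13, 21), (32, 10), (35, 17)]) (.leaf [(20, 35), (35, 40), (43, 27), (12, 28)])))),
    (100, (.node 2366 (.leaf [(30, 30), (36, 41), (14, 12)]) (.node 2388 (.leaf [(13, 32), (32, 32), (35, 33)]) (.leaf [(21, 5), (36, 30), (44, 6), (13, 16)])))),
    (122, (.node 2410 (.leaf [(32, 32), (37, 17), (15, 39)]) (.leaf [(21, 29), (37, 9), (44, 40), (13, 22)]))),
    (144, (.node 2432 (.leaf [(32, 32), (38, 0), (16, 14)]) (.leaf [(22, 4), (37, 35), (45, 12), (14, 1)]))),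
    (166, (.node 2081 (.leaf [(29, 42), (22, 36), (14, 37)]) (.leaf [(22, 21), (15, 10), (37, 33), (45, 10)]))),
    (188, (.node 2432 (.leaf [(32, 1), (40, 9), (15, 3)]) (.node 2454 (.leaf [(32, 1), (40, 9), (15, 41)]) (.node 2476 (.leaf [(15, 33), (34, 11), (37, 11)]) (.leaf [(22, 45), (38, 9), (45, 31), (14, 46)]))))),
    (210, (.node 562 (.leaf [(23, 21), (42, 6), (46, 17)]) (.leaf [(38, 32), (23, 21), (15, 38), (46, 0)]))),
    (232, (.node 2476 (.leaf [(31, 28), (38, 29), (16, 25)]) (.node 2498 (.leaf [(34, 11), (16, 25), (41, 35)]) (.node 2520 (.leaf [(34, 21), (16, 25), (43, 16)]) (.leaf [(23, 42), (38, 39), (46, 14), (15, 35)]))))),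
    (254, (.node 2520 (.leaf [(34, 21), (16, 25), (43, 16)]) (.node 2542 (.leaf [(17, 17), (35, 21), (40, 1)]) (.leaf [(24, 18), (39, 23), (46, 30), (16, 10)])))),
    (276, (.node 2542 (.leaf [(35, 21), (17, 28), (43, 16)]) (.node 2564 (.leaf [(17, 38), (35, 46), (40, 22)]) (.leaf [(24, 35), (40, 15), (47, 1), (16, 28)])))),
    (298, (.node 650 (.leaf [(25, 41), (43, 3), (47, 31)]) (.node 2586 (.leaf [(18, 28), (41, 3), (43, 16)]) (.leaf [(40, 25), (25, 12), (17, 12), (46, 34)])))),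
    (320, (.node 2608 (.leaf [(19, 22), (42, 17), (42, 9)]) (.leaf [(41, 13), (25, 21), (18, 0), (47, 2)]))),
    (342, (.leaf [(41, 23), (25, 40), (18, 22), (47, 46)])),
    (364, (.leaf [(42, 37), (26, 8), (19, 1), (49, 40)])),
    (386, (.leaf [(26, 22), (43, 14), (49, 36), (19, 15)])),
    (408, (.leaf [(43, 33), (26, 36), (20, 0), (50, 29)])),
    (430, (.leaf [(44, 10), (27, 5), (20, 19), (51, 0)])),
    (452, (.leaf [(44, 26), (27, 18), (21, 0), (51, 22)])),
    (474, (.leaf [(27, 35), (45, 18), (51, 32), (20, 34)])),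
    (496, (.leaf [(28, 8), (45, 36), (0, 13), (21, 10)]))]

theorem E1p28 : chkP gE E1L 4034560 E1w 11 101 12 23 E1l28 = true := by decide +kernel

def E1l29 : List (Nat × Tree) :=
  [(518, (.leaf [(28, 39), (45, 38), (0, 36), (21, 31)])),
    (540, (.leaf [(29, 8), (46, 11), (1, 7), (22, 0)])),
    (562, (.leaf [(29, 36), (47, 13), (0, 19), (23, 36)])),
    (584, (.leaf [(30, 6), (48, 2), (0, 33), (24, 12)])),
    (606, (.leaf [(48, 25), (29, 46), (25, 0), (2, 18)])),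
    (628, (.leaf [(48, 24), (30, 43), (24, 14), (2, 25)])),
    (650, (.leaf [(48, 42), (31, 12), (25, 46), (3, 14)])),
    (672, (.leaf [(31, 29), (49, 2), (2, 38), (25, 25)])),
    (694, (.leaf [(32, 15), (49, 16), (3, 37), (25, 38)])),
    (716, (.leaf [(32, 42), (49, 32), (5, 10), (26, 15)])),
    (738, (.leaf [(33, 7), (49, 42), (4, 3), (26, 25)])),
    (760, (.leaf [(33, 16), (50, 28), (4, 28), (26, 17)])),
    (782, (.leaf [(33, 44), (51, 11), (4, 35), (26, 37)])),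
    (804, (.leaf [(34, 18), (51, 35), (5, 0), (27, 19)])),
    (826, (.leaf [(34, 45), (51, 42), (5, 43), (27, 38)])),
    (848, (.leaf [(35, 38), (0, 34), (6, 7), (28, 12)])),
    (870, (.leaf [(35, 44), (0, 45), (9, 4), (28, 40)])),
    (892, (.node 2014 (.leaf [(7, 26), (27, 22), (1, 40)]) (.leaf [(36, 46), (1, 13), (7, 30), (29, 11)]))),
    (914, (.leaf [(37, 34), (1, 32), (8, 30), (29, 29)])),
    (936, (.node 1288 (.leaf [(9, 40), (38, 17), (36, 43)]) (.leaf [(37, 42), (2, 2), (8, 26), (30, 3)]))),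
    (958, (.node 1310 (.leaf [(10, 27), (44, 27), (36, 10)]) (.node 2080 (.leaf [(9, 11), (29, 0), (2, 34)]) (.leaf [(38, 16), (2, 13), (9, 5), (30, 28)])))),
    (980, (.node 1728 (.leaf [(2, 1), (46, 29), (28, 11)]) (.node 1729 (.leaf [(2, 1), (46, 29), (26, 28)]) (.leaf [(38, 42), (2, 27), (9, 29), (30, 35)])))),
    (1002, (.node 1354 (.leaf [(44, 14), (9, 24), (36, 18)]) (.node 2124 (.leaf [(9, 41), (28, 2), (3, 21)]) (.node 2148 (.leaf [(9, 25), (31, 5), (3, 7)]) (.leaf [(39, 13), (2, 30), (10, 4), (31, 13)]))))),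
    (1024, (.node 1772 (.leaf [(2, 37), (47, 3), (30, 30)]) (.node 1773 (.leaf [(2, 37), (47, 3), (30, 30)]) (.leaf [(40, 2), (2, 45), (10, 17), (31, 32)])))),
    (1046, (.node 1794 (.leaf [(1, 44), (47, 3), (27, 33)]) (.node 1795 (.leaf [(1, 44), (47, 3), (27, 33)]) (.leaf [(40, 30), (3, 18), (10, 33), (31, 37)])))),
    (1068, (.node 1420 (.leaf [(12, 15), (46, 24), (39, 39)]) (.node 2190 (.leaf [(10, 30), (28, 27), (4, 13)]) (.leaf [(40, 44), (3, 32), (11, 4), (32, 22)])))),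
    (1090, (.node 1838 (.leaf [(5, 24), (46, 24), (30, 30)]) (.leaf [(41, 18), (4, 11), (11, 5), (32, 27)]))),
    (1112, (.leaf [(41, 31), (4, 24), (11, 30), (32, 43)])),
    (1134, (.node 1838 (.leaf [(4, 15), (30, 30), (43, 22)]) (.node 1882 (.leaf [(4, 26), (48, 10), (30, 30)]) (.leaf [(42, 18), (5, 7), (12, 2), (33, 18)])))),
    (1156, (.leaf [(42, 30), (5, 35), (12, 6), (33, 29)])),
    (1178, (.leaf [(42, 39), (6, 15), (12, 31), (34, 1)])),
    (1200, (.leaf [(43, 15), (6, 42), (12, 46), (34, 14)])),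
    (1222, (.node 1574 (.leaf [(45, 1), (15, 30), (49, 22)]) (.node 1596 (.leaf [(44, 43), (15, 30), (49, 27)]) (.leaf [(43, 34), (7, 17), (13, 13), (35, 27)])))),
    (1244, (.node 1596 (.leaf [(45, 1), (15, 30), (49, 22)]) (.leaf [(44, 3), (8, 8), (13, 35), (35, 36)]))),
    (1266, (.node 1618 (.leaf [(45, 29), (16, 30), (50, 3)]) (.node 1640 (.leaf [(46, 5), (15, 3), (1, 44)]) (.leaf [(44, 21), (8, 22), (13, 44), (36, 27)])))),
    (1288, (.node 1640 (.leaf [(46, 5), (16, 42), (49, 27)]) (.node 1662 (.leaf [(45, 40), (16, 42), (1, 44)]) (.leaf [(44, 45), (8, 46), (14, 20), (36, 38)])))),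
    (1310, (.node 1662 (.leaf [(49, 1), (14, 35), (43, 40)]) (.leaf [(45, 21), (9, 9), (14, 35), (37, 13)]))),
    (1332, (.leaf [(45, 42), (9, 32), (15, 21), (37, 41)])),
    (1354, (.leaf [(46, 6), (10, 0), (16, 4), (38, 10)])),
    (1376, (.leaf [(12, 39), (19, 2), (40, 8), (46, 16)])),
    (1398, (.leaf [(13, 7), (18, 39), (40, 24), (46, 26)])),
    (1420, (.node 1772 (.leaf [(47, 3), (17, 36), (1, 44)]) (.leaf [(46, 32), (11, 37), (17, 10), (39, 30)])))]

theorem E1p29 : chkP gE E1L 4034560 E1w 12 23 12 65 E1l29 = true := by decide +kernel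

def E1l30 : List (Nat × Tree) :=
  [(1442, (.leaf [(47, 11), (12, 25), (18, 6), (39, 46)])),
    (1464, (.leaf [(47, 36), (13, 20), (18, 37), (40, 40)])),
    (1486, (.leaf [(48, 7), (14, 6), (19, 43), (41, 20)])),
    (1508, (.leaf [(48, 12), (15, 2), (20, 9), (42, 5)])),
    (1530, (.leaf [(48, 22), (15, 36), (20, 29), (42, 15)])),
    (1552, (.leaf [(16, 29), (48, 40), (43, 5), (22, 11)])),
    (1574, (.leaf [(50, 15), (14, 32), (20, 23), (43, 7)])),
    (1596, (.leaf [(17, 23), (49, 10), (43, 41), (22, 43)])),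
    (1618, (.leaf [(17, 31), (49, 26), (44, 25), (23, 40)])),
    (1640, (.leaf [(49, 44), (18, 4), (24, 9), (44, 38)])),
    (1662, (.leaf [(50, 30), (18, 20), (24, 0), (45, 19)])),
    (1684, (.leaf [(0, 28), (17, 4), (22, 30), (45, 8)])),
    (1706, (.leaf [(0, 31), (17, 41), (23, 34), (47, 7)])),
    (1728, (.leaf [(1, 18), (17, 32), (23, 37), (47, 44)])),
    (1750, (.leaf [(0, 9), (20, 7), (25, 2), (47, 45)])),
    (1772, (.leaf [(2, 15), (18, 13), (24, 7), (48, 14)])),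
    (1794, (.leaf [(2, 29), (19, 5), (24, 26), (48, 31)])),
    (1816, (.leaf [(1, 36), (21, 4), (26, 11), (48, 30)])),
    (1838, (.leaf [(3, 5), (19, 37), (25, 44), (48, 37)])),
    (1860, (.leaf [(3, 27), (19, 45), (26, 0), (49, 12)])),
    (1882, (.leaf [(3, 46), (20, 22), (26, 16), (49, 14)])),
    (1904, (.leaf [(4, 37), (20, 41), (26, 33), (50, 19)])),
    (1926, (.leaf [(5, 3), (23, 2), (27, 39), (49, 35)])),
    (1948, (.leaf [(5, 28), (21, 11), (27, 17), (50, 42)])),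
    (1970, (.leaf [(6, 10), (21, 36), (27, 34), (51, 18)])),
    (1992, (.leaf [(6, 24), (21, 39), (27, 45), (51, 40)])),
    (2014, (.leaf [(7, 4), (22, 15), (28, 22), (0, 25)])),
    (2036, (.leaf [(7, 42), (22, 34), (28, 34), (0, 30)])),
    (2058, (.leaf [(8, 6), (23, 12), (29, 2), (1, 0)])),
    (2080, (.leaf [(8, 21), (23, 30), (29, 18), (1, 16)])),
    (2102, (.leaf [(8, 37), (24, 29), (30, 16), (1, 31)])),
    (2124, (.leaf [(9, 17), (24, 34), (30, 7), (2, 8)])),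
    (2146, (.leaf [(9, 27), (24, 42), (30, 32), (2, 32)])),
    (2168, (.leaf [(26, 4), (9, 43), (2, 6), (31, 38)])),
    (2190, (.leaf [(27, 8), (9, 45), (2, 35), (31, 45)])),
    (2212, (.leaf [(10, 19), (26, 24), (31, 43), (3, 31)])),
    (2234, (.leaf [(11, 3), (28, 26), (33, 20), (3, 10)])),
    (2256, (.leaf [(10, 42), (28, 42), (32, 44), (3, 43)])),
    (2278, (.leaf [(11, 36), (29, 6), (34, 40), (3, 1)])),
    (2300, (.leaf [(12, 8), (29, 38), (34, 7), (4, 43)])),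
    (2322, (.leaf [(12, 37), (30, 9), (34, 19), (5, 14)])),
    (2344, (.leaf [(13, 30), (30, 36), (35, 35), (6, 21)]))]

theorem E1p30 : chkP gE E1L 4034560 E1w 12 65 12 107 E1l30 = true := by decide +kernel

def E1l31 : List (Nat × Tree) :=
  [(2366, (.leaf [(13, 30), (30, 36), (35, 35), (6, 21)])),
    (2388, (.leaf [(13, 34), (31, 21), (35, 19), (5, 40)])),
    (2410, (.leaf [(14, 29), (31, 34), (36, 7), (6, 44)])),
    (2432, (.leaf [(14, 44), (30, 38), (36, 4), (7, 10)])),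
    (2454, (.leaf [(15, 0), (31, 30), (36, 19), (7, 28)])),
    (2476, (.leaf [(15, 24), (31, 44), (36, 29), (8, 11)])),
    (2498, (.leaf [(16, 22), (32, 33), (37, 22), (9, 2)])),
    (2520, (.leaf [(16, 38), (33, 19), (38, 41), (9, 8)])),
    (2542, (.leaf [(17, 27), (34, 6), (40, 16), (10, 1)])),
    (2564, (.leaf [(17, 45), (34, 20), (40, 29), (10, 15)])),
    (2586, (.leaf [(18, 19), (34, 36), (41, 28), (10, 31)])),
    (2608, (.leaf [(18, 45), (35, 8), (42, 2), (10, 43)])),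
    (2630, (.leaf [(19, 25), (35, 20), (42, 20), (11, 22)])),
    (13, (.leaf [(19, 34), (34, 13), (41, 35), (11, 43)])),
    (35, (.leaf [(20, 1), (34, 24), (42, 28), (12, 4)])),
    (57, (.leaf [(20, 24), (35, 28), (42, 44), (12, 30)])),
    (79, (.leaf [(20, 46), (35, 32), (42, 45), (13, 16)])),
    (101, (.leaf [(21, 14), (35, 43), (43, 11), (13, 28)])),
    (123, (.leaf [(21, 42), (36, 33), (43, 32), (13, 41)])),
    (145, (.leaf [(22, 10), (37, 12), (44, 41), (14, 19)])),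
    (167, (.node 2433 (.leaf [(14, 44), (32, 1), (36, 22)]) (.leaf [(22, 35), (37, 21), (44, 15), (14, 39)]))),
    (189, (.leaf [(22, 40), (38, 4), (44, 46), (15, 14)])),
    (211, (.node 2477 (.leaf [(32, 1), (40, 9), (16, 25)]) (.leaf [(23, 27), (38, 11), (45, 5), (15, 26)]))),
    (233, (.node 2499 (.leaf [(32, 10), (40, 9), (16, 25)]) (.leaf [(24, 1), (38, 34), (45, 30), (16, 3)]))),
    (255, (.node 2521 (.leaf [(33, 45), (17, 17), (40, 31)]) (.leaf [(24, 30), (38, 43), (45, 45), (16, 24)]))),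
    (277, (.node 2543 (.leaf [(33, 45), (17, 28), (41, 3)]) (.leaf [(24, 44), (39, 17), (46, 8), (16, 39)]))),
    (299, (.node 2565 (.leaf [(34, 31), (18, 12), (43, 16)]) (.leaf [(25, 20), (40, 0), (46, 22), (17, 9)]))),
    (321, (.node 2587 (.leaf [(35, 17), (18, 25), (43, 16)]) (.leaf [(25, 35), (40, 33), (46, 33), (17, 36)]))),
    (343, (.node 2609 (.leaf [(35, 17), (19, 24), (41, 35)]) (.leaf [(26, 1), (41, 0), (47, 6), (18, 14)]))),
    (365, (.node 2631 (.leaf [(35, 14), (19, 21), (41, 35)]) (.leaf [(26, 14), (41, 30), (48, 10), (18, 24)]))),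
    (387, (.leaf [(26, 32), (41, 38), (50, 0), (19, 0)])),
    (409, (.leaf [(26, 43), (42, 32), (50, 21), (19, 16)])),
    (431, (.leaf [(27, 12), (43, 1), (50, 38), (19, 27)])),
    (453, (.leaf [(27, 31), (43, 19), (51, 17), (20, 5)])),
    (475, (.leaf [(28, 3), (44, 1), (0, 0), (20, 27)])),
    (497, (.leaf [(28, 32), (44, 12), (0, 10), (21, 12)])),
    (519, (.leaf [(28, 39), (45, 38), (0, 36), (21, 31)])),
    (541, (.leaf [(29, 8), (46, 11), (1, 7), (22, 0)])),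
    (563, (.leaf [(29, 36), (47, 13), (0, 19), (23, 36)])),
    (585, (.leaf [(30, 6), (48, 2), (0, 33), (24, 12)])),
    (607, (.leaf [(30, 27), (48, 8), (1, 1), (24, 10)])),
    (629, (.leaf [(48, 24), (30, 43), (24, 14), (2, 25)]))]

theorem E1p31 : chkP gE E1L 4034560 E1w 12 107 13 29 E1l31 = true := by decide +kernel

def E1l32 : List (Nat × Tree) :=
  [(651, (.leaf [(48, 42), (31, 12), (25, 46), (3, 14)])),
    (673, (.leaf [(31, 29), (49, 2), (2, 38), (25, 25)])),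
    (695, (.leaf [(32, 15), (49, 16), (3, 37), (25, 38)])),
    (717, (.leaf [(32, 42), (49, 32), (5, 10), (26, 15)])),
    (739, (.leaf [(33, 7), (49, 42), (4, 3), (26, 25)])),
    (761, (.leaf [(33, 30), (50, 26), (4, 20), (26, 31)])),
    (783, (.leaf [(34, 8), (51, 5), (4, 42), (26, 44)])),
    (805, (.leaf [(34, 28), (51, 20), (4, 45), (27, 40)])),
    (827, (.node 1201 (.leaf [(42, 19), (5, 9), (34, 25)]) (.leaf [(35, 5), (51, 39), (5, 27), (28, 14)]))),
    (849, (.node 1223 (.leaf [(42, 7), (5, 32), (34, 29)]) (.leaf [(35, 42), (0, 24), (5, 45), (28, 29)]))),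
    (871, (.node 1245 (.leaf [(43, 25), (6, 3), (35, 13)]) (.leaf [(36, 10), (0, 40), (6, 13), (29, 9)]))),
    (893, (.node 1267 (.leaf [(9, 10), (43, 46), (36, 8)]) (.leaf [(37, 2), (1, 9), (7, 11), (29, 23)]))),
    (915, (.node 1289 (.leaf [(9, 40), (44, 27), (36, 10)]) (.node 1312 (.leaf [(45, 1), (6, 40), (36, 14)]) (.leaf [(37, 38), (1, 21), (7, 36), (29, 43)])))),
    (937, (.node 1311 (.leaf [(9, 18), (45, 1), (37, 45)]) (.leaf [(38, 1), (1, 33), (8, 18), (30, 8)]))),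
    (959, (.node 1333 (.leaf [(10, 27), (45, 1), (38, 12)]) (.node 1356 (.leaf [(45, 43), (8, 4), (37, 46)]) (.leaf [(38, 18), (2, 5), (8, 35), (30, 33)])))),
    (981, (.node 1355 (.leaf [(10, 20), (45, 43), (38, 17)]) (.node 1378 (.leaf [(46, 5), (8, 28), (38, 24)]) (.leaf [(39, 2), (2, 19), (9, 0), (31, 8)])))),
    (1003, (.node 1377 (.leaf [(10, 20), (46, 5), (39, 3)]) (.node 1399 (.leaf [(10, 20), (46, 5), (39, 22)]) (.leaf [(39, 25), (2, 31), (9, 26), (31, 25)])))),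
    (1025, (.node 1399 (.leaf [(10, 40), (46, 5), (39, 22)]) (.node 1421 (.leaf [(46, 24), (9, 34), (39, 9)]) (.node 1422 (.leaf [(46, 25), (9, 34), (39, 14)]) (.leaf [(40, 14), (2, 40), (9, 44), (32, 8)]))))),
    (1047, (.node 1421 (.leaf [(11, 45), (46, 24), (40, 27)]) (.leaf [(40, 19), (3, 12), (10, 9), (32, 17)]))),
    (1069, (.node 1443 (.leaf [(12, 15), (47, 10), (41, 21)]) (.leaf [(40, 46), (3, 30), (10, 21), (32, 21)]))),
    (1091, (.node 1465 (.leaf [(11, 23), (47, 10), (41, 34)]) (.leaf [(41, 11), (3, 44), (11, 1), (32, 37)]))),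
    (1113, (.node 1487 (.leaf [(13, 23), (42, 19), (48, 4)]) (.leaf [(41, 36), (4, 18), (11, 13), (33, 10)]))),
    (1135, (.leaf [(42, 0), (4, 40), (11, 20), (33, 24)])),
    (1157, (.node 1531 (.leaf [(12, 4), (43, 30), (49, 36)]) (.leaf [(42, 38), (5, 8), (11, 26), (34, 5)]))),
    (1179, (.leaf [(42, 43), (5, 34), (12, 21), (34, 14)])),
    (1201, (.leaf [(43, 17), (6, 1), (12, 29), (34, 27)])),
    (1223, (.leaf [(43, 29), (6, 32), (12, 43), (35, 4)])),
    (1245, (.leaf [(44, 8), (7, 33), (13, 19), (35, 37)])),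
    (1267, (.leaf [(44, 20), (7, 46), (13, 37), (35, 39)])),
    (1289, (.leaf [(44, 42), (8, 19), (14, 22), (36, 37)])),
    (1311, (.leaf [(45, 24), (8, 34), (14, 43), (37, 3)])),
    (1333, (.leaf [(45, 42), (9, 32), (15, 21), (37, 41)])),
    (1355, (.leaf [(46, 6), (10, 0), (16, 4), (38, 10)])),
    (1377, (.leaf [(12, 17), (19, 3), (46, 31), (38, 45)])),
    (1399, (.leaf [(13, 6), (19, 36), (46, 41), (39, 36)])),
    (1421, (.leaf [(46, 42), (10, 44), (17, 15), (39, 21)])),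
    (1443, (.leaf [(47, 11), (12, 25), (18, 6), (39, 46)])),
    (1465, (.leaf [(47, 25), (11, 38), (17, 46), (40, 12)])),
    (1487, (.leaf [(48, 7), (14, 6), (19, 43), (41, 20)])),
    (1509, (.leaf [(48, 12), (15, 2), (20, 9), (42, 5)])),
    (1531, (.leaf [(48, 19), (13, 18), (19, 17), (41, 39)])),
    (1553, (.leaf [(16, 29), (48, 40), (43, 5), (22, 11)]))]

theorem E1p32 : chkP gE E1L 4034560 E1w 13 29 13 71 E1l32 = true := by decide +kernel

def E1l33 : List (Nat × Tree) :=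
  [(1575, (.leaf [(50, 15), (14, 32), (20, 23), (43, 7)])),
    (1597, (.leaf [(17, 23), (49, 10), (43, 41), (22, 43)])),
    (1619, (.leaf [(17, 31), (49, 26), (44, 25), (23, 40)])),
    (1641, (.leaf [(49, 44), (18, 4), (24, 9), (44, 38)])),
    (1663, (.leaf [(50, 30), (18, 20), (24, 0), (45, 19)])),
    (1685, (.leaf [(1, 2), (16, 23), (22, 24), (45, 25)])),
    (1707, (.leaf [(0, 31), (17, 41), (23, 34), (47, 7)])),
    (1729, (.leaf [(1, 43), (17, 2), (23, 18), (47, 29)])),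
    (1751, (.leaf [(2, 10), (17, 18), (23, 13), (48, 3)])),
    (1773, (.leaf [(2, 28), (17, 33), (23, 26), (48, 9)])),
    (1795, (.leaf [(2, 39), (18, 21), (24, 6), (48, 17)])),
    (1817, (.leaf [(3, 8), (18, 44), (25, 16), (48, 33)])),
    (1839, (.leaf [(3, 5), (19, 37), (25, 44), (48, 37)])),
    (1861, (.leaf [(4, 7), (19, 18), (25, 26), (49, 6)])),
    (1883, (.leaf [(4, 17), (19, 40), (26, 12), (49, 20)])),
    (1905, (.leaf [(4, 39), (20, 14), (26, 29), (50, 25)])),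
    (1927, (.leaf [(5, 4), (20, 18), (26, 42), (51, 2)])),
    (1949, (.leaf [(5, 37), (20, 31), (27, 14), (51, 16)])),
    (1971, (.leaf [(6, 17), (20, 45), (27, 30), (0, 2)])),
    (1993, (.leaf [(6, 31), (21, 26), (27, 36), (0, 23)])),
    (2015, (.node 1620 (.leaf [(0, 39), (15, 16), (21, 18)]) (.leaf [(7, 23), (21, 38), (28, 7), (0, 39)]))),
    (2037, (.leaf [(7, 42), (22, 34), (28, 34), (0, 30)])),
    (2059, (.leaf [(8, 6), (23, 12), (29, 2), (1, 0)])),
    (2081, (.leaf [(8, 21), (23, 30), (29, 18), (1, 16)])),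
    (2103, (.leaf [(8, 37), (24, 29), (30, 16), (1, 31)])),
    (2125, (.leaf [(9, 17), (24, 34), (30, 7), (2, 8)])),
    (2147, (.leaf [(9, 27), (24, 42), (30, 32), (2, 32)])),
    (2169, (.leaf [(26, 4), (9, 43), (2, 6), (31, 38)])),
    (2191, (.leaf [(10, 12), (25, 17), (31, 7), (4, 1)])),
    (2213, (.leaf [(10, 19), (26, 24), (31, 43), (3, 31)])),
    (2235, (.leaf [(11, 3), (28, 26), (33, 20), (3, 10)])),
    (2257, (.leaf [(11, 36), (29, 6), (34, 40), (3, 1)])),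
    (2279, (.leaf [(11, 36), (29, 6), (34, 40), (3, 1)])),
    (2301, (.leaf [(12, 8), (29, 38), (34, 7), (4, 43)])),
    (2323, (.leaf [(12, 37), (30, 9), (34, 19), (5, 14)])),
    (2345, (.leaf [(13, 30), (30, 36), (35, 35), (6, 21)])),
    (2367, (.leaf [(13, 30), (30, 36), (35, 35), (6, 21)])),
    (2389, (.leaf [(13, 46), (29, 15), (34, 30), (6, 2)])),
    (2411, (.leaf [(14, 29), (31, 34), (36, 7), (6, 44)])),
    (2433, (.leaf [(14, 44), (30, 38), (36, 4), (7, 10)])),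
    (2455, (.leaf [(15, 18), (30, 12), (36, 15), (8, 29)])),
    (2477, (.leaf [(15, 40), (30, 45), (36, 26), (8, 13)]))]

theorem E1p33 : chkP gE E1L 4034560 E1w 13 71 13 113 E1l33 = true := by decide +kernel

def E1l34 : List (Nat × Tree) :=
  [(2499, (.leaf [(16, 22), (32, 33), (37, 22), (9, 2)])),
    (2521, (.leaf [(16, 38), (33, 19), (38, 41), (9, 8)])),
    (2543, (.leaf [(17, 27), (34, 6), (40, 16), (10, 1)])),
    (2565, (.leaf [(17, 45), (34, 20), (40, 29), (10, 15)])),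
    (2587, (.leaf [(18, 19), (34, 36), (41, 28), (10, 31)])),
    (2609, (.leaf [(18, 45), (35, 8), (42, 2), (10, 43)])),
    (2631, (.leaf [(19, 25), (35, 20), (42, 20), (11, 22)])),
    (14, (.leaf [(19, 34), (34, 13), (41, 35), (11, 43)])),
    (36, (.node 2302 (.node 1928 (.node 1554 (.leaf [(19, 31)]) (.leaf [(20, 13), (12, 3)])) (.leaf [(12, 36), (26, 28), (33, 26)])) (.leaf [(20, 13), (34, 9), (41, 40), (12, 7)]))),
    (58, (.node 2324 (.leaf [(13, 10), (28, 11), (34, 21)]) (.leaf [(20, 38), (34, 23), (42, 1), (12, 45)]))),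
    (80, (.leaf [(20, 46), (35, 32), (42, 45), (13, 16)])),
    (102, (.node 2368 (.leaf [(14, 5), (29, 30), (35, 14)]) (.leaf [(21, 17), (35, 12), (42, 36), (13, 29)]))),
    (124, (.node 2390 (.leaf [(14, 30), (30, 2), (35, 22)]) (.leaf [(22, 2), (35, 41), (43, 9), (14, 3)]))),
    (146, (.node 2412 (.leaf [(14, 37), (30, 23), (36, 9)]) (.leaf [(22, 13), (36, 8), (43, 28), (14, 26)]))),
    (168, (.node 2434 (.leaf [(15, 6), (30, 44), (36, 26)]) (.leaf [(22, 41), (36, 45), (44, 7), (14, 42)]))),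
    (190, (.node 2456 (.leaf [(30, 44), (38, 9), (16, 14)]) (.leaf [(23, 4), (37, 28), (44, 33), (15, 19)]))),
    (212, (.node 2478 (.leaf [(16, 8), (31, 28), (37, 10)]) (.leaf [(23, 41), (37, 40), (45, 7), (15, 31)]))),
    (234, (.node 2478 (.leaf [(16, 8), (31, 2), (37, 10)]) (.node 2500 (.leaf [(31, 28), (16, 25), (40, 31)]) (.leaf [(24, 16), (38, 3), (45, 23), (16, 7)])))),
    (256, (.node 2500 (.leaf [(16, 32), (31, 22), (38, 6)]) (.node 2522 (.leaf [(17, 7), (32, 18), (38, 14)]) (.leaf [(24, 43), (38, 17), (45, 33), (16, 33)])))),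
    (278, (.node 2522 (.leaf [(17, 7), (32, 16), (38, 14)]) (.node 2544 (.leaf [(18, 2), (32, 39), (38, 28)]) (.leaf [(25, 15), (39, 3), (46, 1), (16, 46)])))),
    (300, (.node 2544 (.leaf [(18, 2), (32, 25), (38, 28)]) (.node 2566 (.leaf [(18, 8), (33, 12), (39, 1)]) (.leaf [(25, 24), (39, 19), (46, 10), (17, 26)])))),
    (322, (.node 2566 (.leaf [(18, 8), (33, 12), (39, 1)]) (.node 2588 (.node 696 (.leaf [(36, 9), (26, 28)]) (.leaf [(18, 36), (33, 34), (39, 41)])) (.leaf [(25, 42), (39, 39), (46, 21), (17, 43)])))),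
    (344, (.node 2610 (.node 718 (.leaf [(32, 35), (25, 37)]) (.leaf [(19, 7), (34, 3), (40, 7)])) (.leaf [(26, 5), (40, 41), (46, 45), (18, 10)]))),
    (366, (.node 2632 (.leaf [(19, 23), (34, 34), (40, 37)]) (.leaf [(26, 26), (41, 7), (47, 16), (18, 36)]))),
    (388, (.leaf [(26, 39), (41, 37), (50, 4), (19, 7)])),
    (410, (.leaf [(27, 10), (41, 46), (50, 17), (19, 26)])),
    (432, (.leaf [(27, 27), (42, 41), (50, 39), (19, 38)])),
    (454, (.leaf [(28, 1), (43, 0), (51, 8), (20, 20)])),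
    (476, (.leaf [(28, 16), (43, 26), (51, 33), (20, 40)])),
    (498, (.leaf [(28, 32), (44, 12), (0, 10), (21, 12)])),
    (520, (.leaf [(29, 1), (44, 24), (0, 37), (21, 32)])),
    (542, (.leaf [(29, 19), (44, 39), (1, 4), (22, 3)])),
    (564, (.leaf [(29, 36), (47, 13), (0, 19), (23, 36)])),
    (586, (.leaf [(30, 6), (48, 2), (0, 33), (24, 12)])),
    (608, (.leaf [(30, 27), (48, 8), (1, 1), (24, 10)])),
    (630, (.leaf [(30, 39), (48, 21), (1, 29), (24, 39)])),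
    (652, (.leaf [(48, 42), (31, 12), (25, 46), (3, 14)])),
    (674, (.leaf [(31, 29), (49, 2), (2, 38), (25, 25)])),
    (696, (.leaf [(32, 15), (49, 16), (3, 37), (25, 38)])),
    (718, (.leaf [(32, 42), (49, 32), (5, 10), (26, 15)])),
    (740, (.leaf [(33, 7), (49, 42), (4, 3), (26, 25)])),
    (762, (.node 1136 (.leaf [(41, 21), (4, 15), (33, 23)]) (.leaf [(33, 38), (50, 11), (4, 26), (27, 0)])))]

theorem E1p34 : chkP gE E1L 4034560 E1w 13 113 14 35 E1l34 = true := by decide +kernel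

def E1l35 : List (Nat × Tree) :=
  [(784, (.node 1158 (.leaf [(41, 25), (4, 27), (33, 28)]) (.leaf [(34, 17), (50, 33), (4, 26), (27, 24)]))),
    (806, (.node 1180 (.leaf [(42, 4), (4, 36), (33, 42)]) (.leaf [(34, 37), (51, 9), (4, 36), (27, 44)]))),
    (828, (.node 1202 (.leaf [(42, 23), (5, 5), (34, 25)]) (.node 1224 (.leaf [(43, 2), (5, 5), (35, 3)]) (.leaf [(35, 11), (51, 27), (5, 5), (28, 19)])))),
    (850, (.node 1224 (.leaf [(43, 2), (5, 22), (35, 3)]) (.node 1246 (.leaf [(43, 30), (5, 22), (35, 13)]) (.leaf [(36, 2), (0, 6), (5, 22), (28, 37)])))),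
    (872, (.node 1246 (.leaf [(43, 30), (5, 46), (35, 13)]) (.node 1268 (.leaf [(43, 46), (5, 46), (36, 1)]) (.leaf [(36, 11), (0, 29), (6, 0), (29, 9)])))),
    (894, (.node 1268 (.leaf [(9, 21), (43, 46), (35, 42)]) (.node 1290 (.leaf [(44, 27), (6, 11), (36, 12)]) (.leaf [(37, 5), (0, 46), (6, 33), (29, 27)])))),
    (916, (.node 1290 (.leaf [(9, 40), (44, 27), (36, 10)]) (.node 1312 (.leaf [(45, 3), (7, 1), (36, 14)]) (.leaf [(37, 43), (1, 9), (7, 1), (29, 43)])))),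
    (938, (.node 1312 (.leaf [(45, 1), (7, 15), (36, 14)]) (.node 1334 (.leaf [(45, 29), (7, 15), (37, 41)]) (.leaf [(38, 8), (1, 27), (7, 15), (30, 11)])))),
    (960, (.node 1334 (.leaf [(9, 18), (45, 29), (37, 38)]) (.node 1356 (.leaf [(45, 44), (7, 45), (37, 46)]) (.leaf [(38, 25), (1, 39), (7, 45), (30, 35)])))),
    (982, (.node 1356 (.leaf [(10, 38), (45, 43), (38, 8)]) (.node 1378 (.leaf [(46, 7), (8, 16), (38, 24)]) (.leaf [(39, 9), (2, 14), (8, 16), (31, 8)])))),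
    (1004, (.node 1378 (.leaf [(10, 20), (46, 5), (39, 22)]) (.node 1400 (.leaf [(10, 20), (47, 3), (39, 33)]) (.leaf [(39, 27), (2, 24), (8, 40), (31, 16)])))),
    (1026, (.node 1400 (.leaf [(11, 24), (47, 3), (39, 33)]) (.node 1422 (.leaf [(46, 36), (9, 20), (39, 14)]) (.leaf [(39, 43), (2, 36), (9, 20), (31, 39)])))),
    (1048, (.node 1422 (.leaf [(11, 45), (46, 25), (40, 45)]) (.node 1444 (.leaf [(47, 10), (9, 39), (39, 29)]) (.leaf [(40, 23), (3, 6), (9, 39), (32, 17)])))),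
    (1070, (.node 1444 (.leaf [(12, 15), (47, 10), (39, 16)]) (.node 1466 (.leaf [(47, 30), (10, 3), (39, 44)]) (.leaf [(41, 5), (3, 20), (10, 3), (32, 29)])))),
    (1092, (.node 1466 (.leaf [(11, 14), (47, 30), (41, 34)]) (.node 1488 (.leaf [(48, 4), (10, 18), (40, 28)]) (.leaf [(41, 17), (3, 36), (10, 18), (32, 43)])))),
    (1114, (.node 1488 (.leaf [(11, 23), (42, 4), (48, 4)]) (.leaf [(41, 22), (4, 9), (10, 37), (33, 13)]))),
    (1136, (.node 1510 (.leaf [(14, 16), (42, 19), (49, 36)]) (.leaf [(42, 3), (4, 15), (11, 15), (33, 36)]))),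
    (1158, (.node 1532 (.leaf [(48, 15), (11, 32), (41, 16)]) (.leaf [(42, 12), (4, 41), (11, 32), (34, 0)]))),
    (1180, (.node 1554 (.leaf [(43, 30), (12, 30), (49, 22)]) (.leaf [(43, 6), (5, 16), (11, 40), (34, 16)]))),
    (1202, (.node 1576 (.leaf [(43, 46), (12, 45), (50, 3)]) (.leaf [(43, 21), (5, 34), (12, 13), (34, 46)]))),
    (1224, (.node 1598 (.leaf [(50, 24), (12, 44), (42, 33)]) (.leaf [(43, 38), (6, 4), (12, 44), (35, 6)]))),
    (1246, (.leaf [(43, 45), (6, 36), (13, 11), (35, 13)])),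
    (1268, (.node 1642 (.leaf [(0, 12), (13, 39), (44, 0)]) (.leaf [(44, 32), (7, 33), (13, 39), (36, 6)]))),
    (1290, (.node 1664 (.node 2038 (.node 2412 (.leaf [(7, 44)]) (.leaf [(6, 35), (14, 9)])) (.leaf [(6, 35), (14, 17), (45, 9)])) (.leaf [(45, 9), (7, 40), (14, 17), (36, 44)]))),
    (1312, (.leaf [(45, 24), (8, 34), (14, 43), (37, 3)])),
    (1334, (.leaf [(45, 42), (9, 32), (15, 21), (37, 41)])),
    (1356, (.leaf [(46, 6), (10, 0), (16, 4), (38, 10)])),
    (1378, (.leaf [(12, 17), (19, 3), (46, 31), (38, 45)])),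
    (1400, (.leaf [(13, 6), (19, 36), (46, 41), (39, 36)])),
    (1422, (.leaf [(46, 42), (10, 44), (17, 15), (39, 21)])),
    (1444, (.leaf [(47, 15), (11, 10), (17, 6), (39, 37)])),
    (1466, (.leaf [(47, 34), (11, 34), (17, 21), (40, 20)])),
    (1488, (.leaf [(48, 7), (14, 6), (19, 43), (41, 20)])),
    (1510, (.leaf [(48, 13), (12, 5), (18, 38), (41, 14)])),
    (1532, (.leaf [(50, 13), (12, 34), (18, 43), (41, 41)])),
    (1554, (.leaf [(16, 29), (48, 40), (43, 5), (22, 11)])),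
    (1576, (.leaf [(50, 15), (14, 32), (20, 23), (43, 7)])),
    (1598, (.leaf [(17, 23), (49, 10), (43, 41), (22, 43)])),
    (1620, (.leaf [(17, 31), (49, 26), (44, 25), (23, 40)])),
    (1642, (.leaf [(49, 44), (18, 4), (24, 9), (44, 38)])),
    (1664, (.node 2038 (.leaf [(7, 34), (21, 37), (1, 8)]) (.leaf [(1, 5), (15, 9), (21, 37), (45, 2)]))),
    (1686, (.leaf [(1, 15), (15, 29), (21, 41), (45, 16)]))]

theorem E1p35 : chkP gE E1L 4034560 E1w 14 35 14 77 E1l35 = true := by decide +kernel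

def E1l36 : List (Nat × Tree) :=
  [(1708, (.node 2082 (.leaf [(25, 7), (1, 15), (10, 2)]) (.leaf [(1, 45), (16, 1), (22, 27), (47, 14)]))),
    (1730, (.leaf [(1, 46), (16, 21), (22, 33), (47, 18)])),
    (1752, (.leaf [(2, 17), (17, 3), (23, 1), (47, 43)])),
    (1774, (.leaf [(2, 33), (17, 20), (23, 35), (48, 5)])),
    (1796, (.node 2170 (.leaf [(9, 19), (24, 21), (3, 23)]) (.leaf [(3, 3), (17, 42), (24, 21), (48, 29)]))),
    (1818, (.node 2192 (.leaf [(26, 2), (3, 21), (12, 19)]) (.leaf [(3, 17), (18, 3), (24, 33), (48, 35)]))),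
    (1840, (.node 2214 (.leaf [(10, 22), (25, 14), (4, 2)]) (.leaf [(3, 38), (18, 32), (25, 14), (48, 44)]))),
    (1862, (.node 2236 (.leaf [(10, 41), (25, 23), (4, 10)]) (.leaf [(4, 5), (18, 46), (25, 23), (49, 11)]))),
    (1884, (.leaf [(4, 31), (19, 14), (26, 7), (49, 15)])),
    (1906, (.leaf [(4, 38), (19, 20), (26, 10), (50, 27)])),
    (1928, (.leaf [(5, 17), (19, 46), (26, 23), (51, 1)])),
    (1950, (.leaf [(6, 8), (20, 15), (27, 4), (51, 25)])),
    (1972, (.leaf [(6, 19), (20, 37), (27, 6), (0, 7)])),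
    (1994, (.leaf [(6, 41), (21, 3), (27, 26), (0, 27)])),
    (2016, (.leaf [(7, 39), (21, 2), (28, 18), (0, 44)])),
    (2038, (.leaf [(8, 6), (22, 5), (28, 21), (1, 8)])),
    (2060, (.leaf [(8, 5), (22, 23), (28, 36), (1, 30)])),
    (2082, (.leaf [(8, 31), (22, 42), (29, 7), (2, 3)])),
    (2104, (.leaf [(9, 1), (23, 25), (29, 24), (2, 20)])),
    (2126, (.leaf [(9, 17), (24, 34), (30, 7), (2, 8)])),
    (2148, (.leaf [(9, 37), (24, 17), (30, 17), (3, 11)])),
    (2170, (.leaf [(26, 4), (9, 43), (2, 6), (31, 38)])),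
    (2192, (.leaf [(10, 14), (24, 38), (31, 6), (3, 39)])),
    (2214, (.leaf [(10, 28), (25, 28), (31, 23), (4, 2)])),
    (2236, (.leaf [(11, 3), (28, 26), (33, 20), (3, 10)])),
    (2258, (.leaf [(11, 36), (29, 6), (34, 40), (3, 1)])),
    (2280, (.leaf [(11, 36), (29, 6), (34, 40), (3, 1)])),
    (2302, (.leaf [(12, 8), (29, 38), (34, 7), (4, 43)])),
    (2324, (.leaf [(12, 37), (30, 9), (34, 19), (5, 14)])),
    (2346, (.leaf [(13, 30), (30, 36), (35, 35), (6, 21)])),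
    (2368, (.leaf [(13, 30), (30, 36), (35, 35), (6, 21)])),
    (2390, (.leaf [(14, 10), (28, 45), (34, 33), (6, 8)])),
    (2412, (.leaf [(14, 29), (31, 34), (36, 7), (6, 44)])),
    (2434, (.leaf [(15, 5), (29, 37), (35, 26), (7, 31)])),
    (2456, (.leaf [(15, 18), (30, 12), (36, 15), (8, 29)])),
    (2478, (.leaf [(15, 44), (30, 26), (36, 23), (8, 24)])),
    (2500, (.leaf [(16, 22), (32, 33), (37, 22), (9, 2)])),
    (2522, (.leaf [(17, 1), (31, 14), (37, 8), (9, 33)])),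
    (2544, (.leaf [(39, 5), (33, 8), (17, 29), (10, 7)])),
    (2566, (.leaf [(39, 7), (33, 14), (17, 44), (10, 16)])),
    (2588, (.leaf [(40, 6), (33, 35), (18, 26), (10, 39)])),
    (2610, (.leaf [(19, 4), (32, 38), (38, 44), (11, 8)])),
    (2632, (.leaf [(19, 25), (35, 20), (42, 20), (11, 22)]))]

theorem E1p36 : chkP gE E1L 4034560 E1w 14 77 15 0 E1l36 = true := by decide +kernel

end Pool.Agent.K9.C
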