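import Mathlib
import Pool.Agent.K9.Main
import Pool.Agent.K9.C.OKgE
import Pool.Agent.K9.C.E1M0
import Pool.Agent.K9.C.E1M1
import Pool.Agent.K9.C.E1M2
import Pool.Agent.K9.C.E1M3
import Pool.Agent.K9.C.E1M4
import Pool.Agent.K9.C.E1M5
import Pool.Agent.K9.C.E1M6
import Pool.Agent.K9.C.E1M7
import Pool.Agent.K9.C.E1P0
import Pool.Agent.K9.C.E1P1
import Pool.Agent.K9.C.E1P2
import Pool.Agent.K9.C.E1P3

/-! # K9: a box with far outer points -/

namespace Pool.Agent.K9.C

set_option maxRecDepth 10000

theorem E1all : List.all E1L cokB = true := by decide +kernel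

theorem E1mem : MRange gE E1L 4034560 E1w 0 2640 :=
  (MRange.join (MRange.join (MRange.join (MRange.join (MRange.join (MRange.join (MRange.join (MRange.join (MRange.join (MRange.join (MRange.join (MRange.join (MRange.join (MRange.join (MRange.join (MRange.join (MRange.join (MRange.join (MRange.join (MRange.join (MRange.join (MRange.join (MRange.join (MRange.join (MRange.join (MRange.join (MRange.join (MRange.join (MRange.join (MRange.join (MRange.join (MRange.join (MRange.join (MRange.join (MRange.join (MRange.join (MRange.join (MRange.join (MRange.join (MRange.join (MRange.join (MRange.join (MRange.join (MRange.join (MRange.join (MRange.join (MRange.join (MRange.join (MRange.join (MRange.join (MRange.join (MRange.join (MRange.join (MRange.join (MRange.join (MRange.join (MRange.join (MRange.join (MRange.join (MRange.join (MRange.join (MRange.join (MRange.join (MRange.join (MRange.join (MRange.join (MRange.join (MRange.join (MRange.join (MRange.join (MRange.join (MRange.join (mrange_of_chk (b := 37) rfl E1m0)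
    (mrange_of_chk (b := 76) rfl E1m1))
    (mrange_of_chk (b := 114) rfl E1m2))
    (mrange_of_chk (b := 148) rfl E1m3))
    (mrange_of_chk (b := 186) rfl E1m4))
    (mrange_of_chk (b := 225) rfl E1m5))
    (mrange_of_chk (b := 260) rfl E1m6))
    (mrange_of_chk (b := 298) rfl E1m7))
    (mrange_of_chk (b := 336) rfl E1m8))
    (mrange_of_chk (b := 369) rfl E1m9))
    (mrange_of_chk (b := 407) rfl E1m10))
    (mrange_of_chk (b := 445) rfl E1m11))
    (mrange_of_chk (b := 477) rfl E1m12))
    (mrange_of_chk (b := 513) rfl E1m13))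
    (mrange_of_chk (b := 544) rfl E1m14))
    (mrange_of_chk (b := 581) rfl E1m15))
    (mrange_of_chk (b := 621) rfl E1m16))
    (mrange_of_chk (b := 656) rfl E1m17))
    (mrange_of_chk (b := 696) rfl E1m18))
    (mrange_of_chk (b := 734) rfl E1m19))
    (mrange_of_chk (b := 765) rfl E1m20))
    (mrange_of_chk (b := 801) rfl E1m21))
    (mrange_of_chk (b := 833) rfl E1m22))
    (mrange_of_chk (b := 870) rfl E1m23))
    (mrange_of_chk (b := 907) rfl E1m24))
    (mrange_of_chk (b := 940) rfl E1m25))
    (mrange_of_chk (b := 979) rfl E1m26))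
    (mrange_of_chk (b := 1019) rfl E1m27))
    (mrange_of_chk (b := 1060) rfl E1m28))
    (mrange_of_chk (b := 1097) rfl E1m29))
    (mrange_of_chk (b := 1137) rfl E1m30))
    (mrange_of_chk (b := 1177) rfl E1m31))
    (mrange_of_chk (b := 1217) rfl E1m32))
    (mrange_of_chk (b := 1258) rfl E1m33))
    (mrange_of_chk (b := 1293) rfl E1m34))
    (mrange_of_chk (b := 1333) rfl E1m35))
    (mrange_of_chk (b := 1373) rfl E1m36))
    (mrange_of_chk (b := 1413) rfl E1m37))
    (mrange_of_chk (b := 1448) rfl E1m38))
    (mrange_of_chk (b := 1487) rfl E1m39))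
    (mrange_of_chk (b := 1527) rfl E1m40))
    (mrange_of_chk (b := 1567) rfl E1m41))
    (mrange_of_chk (b := 1602) rfl E1m42))
    (mrange_of_chk (b := 1641) rfl E1m43))
    (mrange_of_chk (b := 1679) rfl E1m44))
    (mrange_of_chk (b := 1712) rfl E1m45))
    (mrange_of_chk (b := 1748) rfl E1m46))
    (mrange_of_chk (b := 1783) rfl E1m47))
    (mrange_of_chk (b := 1815) rfl E1m48))
    (mrange_of_chk (b := 1851) rfl E1m49))
    (mrange_of_chk (b := 1882) rfl E1m50))
    (mrange_of_chk (b := 1917) rfl E1m51))
    (mrange_of_chk (b := 1948) rfl E1m52))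
    (mrange_of_chk (b := 1984) rfl E1m53))
    (mrange_of_chk (b := 2016) rfl E1m54))
    (mrange_of_chk (b := 2052) rfl E1m55))
    (mrange_of_chk (b := 2084) rfl E1m56))
    (mrange_of_chk (b := 2118) rfl E1m57))
    (mrange_of_chk (b := 2149) rfl E1m58))
    (mrange_of_chk (b := 2184) rfl E1m59))
    (mrange_of_chk (b := 2215) rfl E1m60))
    (mrange_of_chk (b := 2250) rfl E1m61))
    (mrange_of_chk (b := 2282) rfl E1m62))
    (mrange_of_chk (b := 2320) rfl E1m63))
    (mrange_of_chk (b := 2360) rfl E1m64))
    (mrange_of_chk (b := 2400) rfl E1m65))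
    (mrange_of_chk (b := 2435) rfl E1m66))
    (mrange_of_chk (b := 2475) rfl E1m67))
    (mrange_of_chk (b := 2516) rfl E1m68))
    (mrange_of_chk (b := 2557) rfl E1m69))
    (mrange_of_chk (b := 2599) rfl E1m70))
    (mrange_of_chk (b := 2634) rfl E1m71))
    (mrange_of_chk (b := 2640) rfl E1m72))

theorem E1peel : Peel gE E1L 4034560 E1w 0 0 15 0 :=
  (Peel.trans (Peel.trans (Peel.trans (Peel.trans (Peel.trans (Peel.trans (Peel.trans (Peel.trans (Peel.trans (Peel.trans (Peel.trans (Peel.trans (Peel.trans (Peel.trans (Peel.trans (Peel.trans (Peel.trans (Peel.trans (Peel.trans (Peel.trans (Peel.trans (Peel.trans (Peel.trans (Peel.trans (Peel.trans (Peel.trans (Peel.trans (Peel.trans (Peel.trans (Peel.trans (Peel.trans (Peel.trans (Peel.trans (Peel.trans (Peel.trans (Peel.trans (peel_of_chk gE_ok E1all (by norm_num) (by decide) (by decide) E1p0)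
    (peel_of_chk gE_ok E1all (by norm_num) (by decide) (by decide) E1p1))
    (peel_of_chk gE_ok E1all (by norm_num) (by decide) (by decide) E1p2))
    (peel_of_chk gE_ok E1all (by norm_num) (by decide) (by decide) E1p3))
    (peel_of_chk gE_ok E1all (by norm_num) (by decide) (by decide) E1p4))
    (peel_of_chk gE_ok E1all (by norm_num) (by decide) (by decide) E1p5))
    (peel_of_chk gE_ok E1all (by norm_num) (by decide) (by decide) E1p6))
    (peel_of_chk gE_ok E1all (by norm_num) (by decide) (by decide) E1p7))
    (peel_of_chk gE_ok E1all (by norm_num) (by decide) (by decide) E1p8))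
    (peel_of_chk gE_ok E1all (by norm_num) (by decide) (by decide) E1p9))
    (peel_of_chk gE_ok E1all (by norm_num) (by decide) (by decide) E1p10))
    (peel_of_chk gE_ok E1all (by norm_num) (by decide) (by decide) E1p11))
    (peel_of_chk gE_ok E1all (by norm_num) (by decide) (by decide) E1p12))
    (peel_of_chk gE_ok E1all (by norm_num) (by decide) (by decide) E1p13))
    (peel_of_chk gE_ok E1all (by norm_num) (by decide) (by decide) E1p14))
    (peel_of_chk gE_ok E1all (by norm_num) (by decide) (by decide) E1p15))
    (peel_of_chk gE_ok E1all (by norm_num) (by decide) (by decide) E1p16))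
    (peel_of_chk gE_ok E1all (by norm_num) (by decide) (by decide) E1p17))
    (peel_of_chk gE_ok E1all (by norm_num) (by decide) (by decide) E1p18))
    (peel_of_chk gE_ok E1all (by norm_num) (by decide) (by decide) E1p19))
    (peel_of_chk gE_ok E1all (by norm_num) (by decide) (by decide) E1p20))
    (peel_of_chk gE_ok E1all (by norm_num) (by decide) (by decide) E1p21))
    (peel_of_chk gE_ok E1all (by norm_num) (by decide) (by decide) E1p22))
    (peel_of_chk gE_ok E1all (by norm_num) (by decide) (by decide) E1p23))
    (peel_of_chk gE_ok E1all (by norm_num) (by decide) (by decide) E1p24))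
    (peel_of_chk gE_ok E1all (by norm_num) (by decide) (by decide) E1p25))
    (peel_of_chk gE_ok E1all (by norm_num) (by decide) (by decide) E1p26))
    (peel_of_chk gE_ok E1all (by norm_num) (by decide) (by decide) E1p27))
    (peel_of_chk gE_ok E1all (by norm_num) (by decide) (by decide) E1p28))
    (peel_of_chk gE_ok E1all (by norm_num) (by decide) (by decide) E1p29))
    (peel_of_chk gE_ok E1all (by norm_num) (by decide) (by decide) E1p30))
    (peel_of_chk gE_ok E1all (by norm_num) (by decide) (by decide) E1p31))
    (peel_of_chk gE_ok E1all (by norm_num) (by decide) (by decide) E1p32))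
    (peel_of_chk gE_ok E1all (by norm_num) (by decide) (by decide) E1p33))
    (peel_of_chk gE_ok E1all (by norm_num) (by decide) (by decide) E1p34))
    (peel_of_chk gE_ok E1all (by norm_num) (by decide) (by decide) E1p35))
    (peel_of_chk gE_ok E1all (by norm_num) (by decide) (by decide) E1p36))

theorem badE1 : Bad 0 288 1728 1984 :=
  bad_of_peel gE_ok (by decide +kernel) (by norm_num) (by norm_num) (by norm_num) (by norm_num)
    (by norm_num) (N := 2640) (kf := 15) (by decide) (by decide +kernel) E1mem E1peel

end Pool.Agent.K9.C
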