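import Pool.Agent.K9.C.E2D

/-! # K9: membership words -/

namespace Pool.Agent.K9.C

set_option maxRecDepth 10000

theorem E2m0 : chkM gE E2L 4707328 E2w 0 57 = true := by decide +kernel

theorem E2m1 : chkM gE E2L 4707328 E2w 57 57 = true := by decide +kernel

theorem E2m2 : chkM gE E2L 4707328 E2w 114 51 = true := by decide +kernel

theorem E2m3 : chkM gE E2L 4707328 E2w 165 52 = true := by decide +kernel

theorem E2m4 : chkM gE E2L 4707328 E2w 217 57 = true := by decide +kernel

theorem E2m5 : chkM gE E2L 4707328 E2w 274 294 = true := by decide +kernel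

theorem E2m6 : chkM gE E2L 4707328 E2w 568 63 = true := by decide +kernel

theorem E2m7 : chkM gE E2L 4707328 E2w 631 62 = true := by decide +kernel

theorem E2m8 : chkM gE E2L 4707328 E2w 693 61 = true := by decide +kernel

end Pool.Agent.K9.C
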