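import Pool.Agent.K9.C.E2D

/-! # K9: membership words -/

namespace Pool.Agent.K9.C

set_option maxRecDepth 10000

theorem E2m9 : chkM gE E2L 4707328 E2w 754 57 = true := by decide +kernel

theorem E2m10 : chkM gE E2L 4707328 E2w 811 57 = true := by decide +kernel

theorem E2m11 : chkM gE E2L 4707328 E2w 868 53 = true := by decide +kernel

theorem E2m12 : chkM gE E2L 4707328 E2w 921 55 = true := by decide +kernel

theorem E2m13 : chkM gE E2L 4707328 E2w 976 53 = true := by decide +kernel

theorem E2m14 : chkM gE E2L 4707328 E2w 1029 57 = true := by decide +kernel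

theorem E2m15 : chkM gE E2L 4707328 E2w 1086 52 = true := by decide +kernel

theorem E2m16 : chkM gE E2L 4707328 E2w 1138 57 = true := by decide +kernel

theorem E2m17 : chkM gE E2L 4707328 E2w 1195 56 = true := by decide +kernel

end Pool.Agent.K9.C
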