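import Pool.Agent.K9.C.E2D

/-! # K9: membership words -/

namespace Pool.Agent.K9.C

set_option maxRecDepth 10000

theorem E2m18 : chkM gE E2L 4707328 E2w 1251 60 = true := by decide +kernel

theorem E2m19 : chkM gE E2L 4707328 E2w 1311 60 = true := by decide +kernel

theorem E2m20 : chkM gE E2L 4707328 E2w 1371 54 = true := by decide +kernel

theorem E2m21 : chkM gE E2L 4707328 E2w 1425 66 = true := by decide +kernel

theorem E2m22 : chkM gE E2L 4707328 E2w 1491 412 = true := by decide +kernel

theorem E2m23 : chkM gE E2L 4707328 E2w 1903 63 = true := by decide +kernel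

theorem E2m24 : chkM gE E2L 4707328 E2w 1966 53 = true := by decide +kernel

theorem E2m25 : chkM gE E2L 4707328 E2w 2019 57 = true := by decide +kernel

theorem E2m26 : chkM gE E2L 4707328 E2w 2076 53 = true := by decide +kernel

end Pool.Agent.K9.C
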