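import Pool.Agent.K9.C.E2D

/-! # K9: membership words -/

namespace Pool.Agent.K9.C

set_option maxRecDepth 10000

theorem E2m27 : chkM gE E2L 4707328 E2w 2129 55 = true := by decide +kernel

theorem E2m28 : chkM gE E2L 4707328 E2w 2184 52 = true := by decide +kernel

theorem E2m29 : chkM gE E2L 4707328 E2w 2236 56 = true := by decide +kernel

theorem E2m30 : chkM gE E2L 4707328 E2w 2292 53 = true := by decide +kernel

theorem E2m31 : chkM gE E2L 4707328 E2w 2345 58 = true := by decide +kernel

theorem E2m32 : chkM gE E2L 4707328 E2w 2403 53 = true := by decide +kernel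

theorem E2m33 : chkM gE E2L 4707328 E2w 2456 58 = true := by decide +kernel

theorem E2m34 : chkM gE E2L 4707328 E2w 2514 56 = true := by decide +kernel

theorem E2m35 : chkM gE E2L 4707328 E2w 2570 62 = true := by decide +kernel

theorem E2m36 : chkM gE E2L 4707328 E2w 2632 8 = true := by decide +kernel

end Pool.Agent.K9.C
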