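import Pool.Agent.K9.C.E2D

/-! # K9: peeling of near cells -/

namespace Pool.Agent.K9.C

set_option maxRecDepth 10000

def E2l0 : List (Nat × Tree) :=
  [(1848, (.leaf [(6, 10), (8, 15), (1, 7), (4, 4)])),
    (1870, (.leaf [(6, 10), (8, 15), (1, 7), (4, 4)])),
    (1892, (.leaf [(6, 10), (8, 18), (1, 7), (4, 6)])),
    (1914, (.leaf [(0, 16), (4, 29), (6, 17), (8, 17)])),
    (1936, (.leaf [(0, 39), (4, 23), (6, 18), (8, 19)])),
    (1958, (.leaf [(0, 39), (4, 23), (6, 18), (8, 19)])),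
    (1980, (.leaf [(0, 40), (4, 35), (6, 17), (8, 33)])),
    (2002, (.leaf [(6, 14), (0, 41), (8, 19), (4, 27)])),
    (2024, (.leaf [(6, 12), (0, 41), (8, 40), (4, 15)])),
    (2046, (.leaf [(6, 12), (0, 41), (8, 40), (4, 15)])),
    (2068, (.leaf [(6, 12), (8, 26), (0, 41), (5, 13)])),
    (2090, (.leaf [(6, 12), (8, 38), (0, 41), (4, 18)])),
    (903, (.leaf [(1, 22), (2, 30), (6, 8), (7, 6)])),
    (925, (.leaf [(1, 8), (2, 33), (6, 2), (7, 6)])),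
    (947, (.leaf [(1, 5), (2, 42), (6, 7), (7, 6)])),
    (1805, (.leaf [(6, 10), (8, 15), (1, 7), (4, 4)])),
    (1827, (.leaf [(6, 10), (8, 15), (1, 7), (4, 4)])),
    (1849, (.leaf [(6, 10), (8, 15), (1, 7), (4, 4)])),
    (1871, (.leaf [(6, 10), (8, 15), (1, 7), (4, 4)])),
    (1893, (.leaf [(6, 10), (8, 18), (1, 7), (4, 6)])),
    (1915, (.leaf [(0, 39), (4, 23), (6, 18), (8, 19)])),
    (1937, (.leaf [(0, 39), (4, 23), (6, 18), (8, 19)])),
    (1959, (.leaf [(0, 39), (4, 23), (6, 18), (8, 19)])),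
    (1981, (.leaf [(0, 40), (4, 35), (6, 17), (8, 33)])),
    (2003, (.leaf [(6, 14), (0, 41), (8, 40), (4, 35)])),
    (2025, (.leaf [(6, 14), (0, 41), (8, 37), (4, 29)])),
    (2047, (.leaf [(6, 12), (0, 41), (8, 40), (4, 42)])),
    (2069, (.leaf [(6, 12), (8, 26), (0, 41), (5, 13)])),
    (2091, (.leaf [(6, 12), (8, 38), (0, 41), (4, 18)])),
    (2113, (.leaf [(6, 12), (0, 41), (6, 3), (8, 38)])),
    (2135, (.leaf [(6, 12), (0, 41), (6, 3), (8, 38)])),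
    (2157, (.leaf [(5, 24), (5, 15), (0, 21), (2, 7)])),
    (2179, (.leaf [(1, 46), (5, 37), (5, 3), (0, 20)])),
    (2201, (.leaf [(2, 3), (6, 0), (4, 31), (0, 35)])),
    (2223, (.leaf [(2, 8), (6, 4), (3, 31), (0, 29)])),
    (2245, (.leaf [(2, 12), (6, 13), (2, 18), (0, 38)])),
    (2267, (.leaf [(1, 14), (3, 1), (5, 18), (6, 16)])),
    (90, (.leaf [(7, 25), (2, 19), (7, 18), (8, 39)])),
    (112, (.leaf [(7, 44), (2, 37), (3, 24), (6, 26)])),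
    (134, (.leaf [(7, 40), (2, 40), (3, 44), (6, 26)])),
    (156, (.leaf [(7, 41), (2, 36), (4, 7), (6, 29)])),
    (178, (.leaf [(7, 46), (2, 36), (4, 33), (6, 38)]))]

theorem E2p0 : chkP gE E2L 4707328 E2w 0 0 2 9 E2l0 = true := by decide +kernel

def E2l1 : List (Nat × Tree) :=
  [(200, (.leaf [(8, 1), (2, 36), (4, 5), (7, 6)])),
    (222, (.leaf [(2, 38), (8, 9), (6, 41), (4, 5)])),
    (244, (.leaf [(8, 5), (2, 45), (4, 27), (7, 0)])),
    (266, (.leaf [(2, 15), (2, 31), (8, 7), (7, 6)])),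
    (288, (.leaf [(2, 5), (2, 39), (8, 8), (7, 6)])),
    (816, (.leaf [(1, 12), (6, 11), (2, 4), (8, 46)])),
    (838, (.leaf [(1, 1), (6, 11), (8, 43), (7, 2)])),
    (860, (.leaf [(1, 12), (6, 11), (2, 17), (8, 39)])),
    (882, (.leaf [(1, 12), (6, 11), (2, 17)])),
    (904, (.leaf [(1, 22), (2, 30), (6, 8), (7, 6)])),
    (926, (.leaf [(1, 8), (2, 33), (6, 2), (7, 6)])),
    (948, (.leaf [(1, 5), (2, 42), (6, 7), (7, 6)])),
    (970, (.leaf [(2, 24), (3, 2), (7, 6), (0, 27)])),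
    (992, (.leaf [(1, 22), (2, 30), (6, 11), (6, 38)])),
    (1014, (.leaf [(3, 2), (2, 33), (0, 41), (6, 27)])),
    (1036, (.leaf [(2, 33), (1, 4), (6, 27), (6, 20)])),
    (1058, (.leaf [(0, 43), (2, 32), (6, 44), (1, 27)])),
    (1080, (.leaf [(0, 43), (2, 32), (6, 44), (1, 27)])),
    (1102, (.leaf [(0, 42), (2, 41), (6, 42), (6, 21)])),
    (1124, (.leaf [(2, 32), (0, 41), (6, 27), (4, 12)])),
    (1146, (.leaf [(1, 29), (3, 4), (6, 39), (3, 26)])),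
    (1168, (.leaf [(2, 41), (0, 41), (6, 27), (4, 12)])),
    (1190, (.leaf [(1, 13), (3, 5), (7, 31), (6, 45)])),
    (1212, (.leaf [(1, 21), (3, 10), (7, 33), (6, 43)])),
    (1828, (.leaf [(6, 10), (8, 15), (1, 7), (4, 4)])),
    (1850, (.leaf [(6, 10), (8, 15), (1, 7), (4, 4)])),
    (1872, (.leaf [(6, 10), (8, 18), (1, 7), (4, 6)])),
    (1894, (.leaf [(6, 10), (8, 18), (1, 7), (4, 6)])),
    (1916, (.leaf [(0, 39), (4, 23), (6, 18), (8, 19)])),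
    (1938, (.leaf [(0, 39), (4, 23), (6, 18), (8, 19)])),
    (1960, (.leaf [(0, 39), (4, 23), (6, 18), (8, 19)])),
    (1982, (.leaf [(0, 40), (4, 35), (6, 17), (8, 33)])),
    (2004, (.leaf [(6, 14), (0, 41), (8, 40), (4, 35)])),
    (2026, (.leaf [(6, 14), (0, 41), (8, 37), (4, 29)])),
    (2048, (.leaf [(6, 12), (0, 41), (8, 40), (4, 42)])),
    (2070, (.leaf [(6, 12), (8, 26), (0, 41), (5, 13)])),
    (2092, (.leaf [(6, 18), (0, 42), (4, 28), (8, 40)])),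
    (2114, (.leaf [(6, 17), (0, 41), (4, 28), (8, 44)])),
    (2136, (.leaf [(6, 12), (0, 41), (6, 3), (8, 38)])),
    (2158, (.leaf [(6, 17), (0, 41), (4, 28), (5, 14)])),
    (2180, (.leaf [(1, 44), (6, 5), (2, 22), (0, 26)])),
    (2202, (.leaf [(2, 3), (6, 0), (4, 31), (0, 35)])),
    (2224, (.leaf [(2, 8), (6, 4), (3, 31), (0, 29)]))]

theorem E2p1 : chkP gE E2L 4707328 E2w 2 9 2 102 E2l1 = true := by decide +kernel

def E2l2 : List (Nat × Tree) :=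
  [(2246, (.leaf [(2, 12), (6, 13), (2, 18), (0, 38)])),
    (2268, (.leaf [(1, 14), (3, 1), (5, 18), (6, 16)])),
    (2290, (.leaf [(1, 14), (3, 1), (5, 18), (6, 16)])),
    (2312, (.leaf [(1, 14), (3, 1), (5, 18), (6, 16)])),
    (2334, (.leaf [(2, 44), (6, 15), (1, 3), (8, 28)])),
    (2356, (.leaf [(2, 44), (6, 15), (1, 3), (8, 28)])),
    (2378, (.leaf [(2, 44), (6, 15), (1, 3), (8, 28)])),
    (2400, (.leaf [(2, 28), (6, 6), (1, 11), (2, 14)])),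
    (2422, (.leaf [(2, 28), (6, 6), (1, 11), (2, 14)])),
    (2444, (.leaf [(3, 6), (5, 29), (6, 31), (1, 30)])),
    (2466, (.leaf [(3, 6), (5, 29), (6, 31), (1, 30)])),
    (2488, (.leaf [(3, 6), (5, 29), (6, 31), (1, 30)])),
    (2510, (.leaf [(3, 7), (1, 38), (5, 45), (7, 19)])),
    (2532, (.leaf [(3, 12), (2, 0), (5, 41), (6, 45)])),
    (3, (.leaf [(3, 35), (2, 17), (6, 20), (7, 21)])),
    (25, (.leaf [(6, 30), (2, 29), (6, 20), (8, 6)])),
    (47, (.leaf [(7, 17), (2, 23), (3, 41), (6, 22)])),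
    (69, (.leaf [(2, 23), (7, 17), (3, 41), (6, 22)])),
    (91, (.leaf [(3, 18), (6, 41), (7, 22), (8, 26)])),
    (113, (.leaf [(7, 16), (2, 26), (3, 36), (7, 20)])),
    (135, (.leaf [(7, 40), (2, 40), (3, 44), (6, 26)])),
    (157, (.leaf [(7, 41), (2, 36), (4, 7), (6, 29)])),
    (179, (.leaf [(7, 30), (2, 27), (4, 15), (7, 3)])),
    (201, (.leaf [(8, 1), (2, 36), (4, 5), (7, 6)])),
    (223, (.leaf [(7, 36), (2, 43), (4, 18), (6, 35)])),
    (245, (.leaf [(8, 5), (2, 45), (4, 27), (7, 0)])),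
    (267, (.leaf [(7, 10), (8, 30), (5, 7), (3, 8)])),
    (289, (.leaf [(3, 8), (8, 11), (6, 38), (4, 45)])),
    (311, (.leaf [(7, 45), (3, 22), (4, 34), (6, 40)])),
    (333, (.leaf [(7, 15), (4, 38), (3, 17), (8, 21)])),
    (355, (.leaf [(4, 36), (7, 27), (8, 25), (2, 35)])),
    (377, (.leaf [(4, 26), (7, 34), (8, 37), (2, 29)])),
    (663, (.leaf [(6, 14), (8, 14), (0, 46), (4, 22)])),
    (685, (.leaf [(6, 14), (8, 14), (0, 46), (4, 22)])),
    (707, (.leaf [(6, 12), (8, 22), (1, 1), (4, 30)])),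
    (729, (.leaf [(6, 12), (8, 22), (1, 1), (4, 30)])),
    (751, (.leaf [(8, 40), (1, 4), (7, 6), (6, 1)])),
    (773, (.leaf [(1, 4), (5, 46), (8, 40), (6, 20)])),
    (795, (.leaf [(1, 4), (6, 1), (5, 2), (6, 30)])),
    (817, (.leaf [(1, 4), (6, 1), (8, 40), (6, 41)])),
    (839, (.leaf [(1, 1), (6, 11), (8, 43), (7, 2)])),
    (861, (.leaf [(1, 12), (6, 11), (2, 17), (8, 39)])),
    (883, (.leaf [(1, 4), (5, 27), (8, 13), (7, 3)]))]

theorem E2p2 : chkP gE E2L 4707328 E2w 2 102 3 41 E2l2 = true := by decide +kernel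

def E2l3 : List (Nat × Tree) :=
  [(905, (.leaf [(5, 20), (0, 41), (7, 2), (2, 9)])),
    (927, (.leaf [(1, 8), (2, 33), (6, 2), (7, 6)])),
    (949, (.leaf [(1, 5), (2, 42), (6, 7), (7, 6)])),
    (971, (.leaf [(2, 24), (3, 2), (7, 6), (0, 27)])),
    (993, (.leaf [(1, 4), (2, 24), (6, 20), (6, 38)])),
    (1015, (.leaf [(3, 2), (2, 33), (0, 41), (6, 27)])),
    (1037, (.leaf [(2, 24), (1, 4), (6, 27)])),
    (1059, (.leaf [(0, 43), (2, 32), (6, 44), (1, 27)])),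
    (1081, (.leaf [(0, 42), (2, 41), (6, 42), (6, 21)])),
    (1103, (.leaf [(0, 42), (2, 41), (6, 42), (6, 21)])),
    (1125, (.leaf [(2, 32), (0, 41), (6, 27), (4, 12)])),
    (1147, (.leaf [(1, 29), (3, 4), (6, 39), (3, 26)])),
    (1169, (.leaf [(2, 41), (0, 41), (6, 27), (4, 12)])),
    (1191, (.leaf [(1, 13), (3, 5), (7, 31), (6, 45)])),
    (1213, (.leaf [(1, 21), (3, 10), (7, 33), (6, 43)])),
    (1235, (.leaf [(1, 21), (3, 10), (7, 33), (6, 43)])),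
    (1257, (.leaf [(1, 36), (3, 11), (7, 35), (6, 37)])),
    (1279, (.leaf [(1, 43), (3, 15), (7, 39), (6, 37)])),
    (1301, (.leaf [(1, 43), (3, 15), (7, 39), (6, 37)])),
    (1323, (.leaf [(2, 6), (3, 21), (7, 43), (6, 37)])),
    (1345, (.leaf [(8, 3), (6, 28), (2, 13), (3, 28)])),
    (1367, (.leaf [(8, 3), (6, 28), (2, 13), (3, 28)])),
    (1389, (.leaf [(8, 3), (6, 28), (2, 13), (3, 28)])),
    (1411, (.leaf [(8, 3), (6, 28), (2, 13), (3, 28)])),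
    (1851, (.leaf [(6, 10), (8, 15), (1, 7), (4, 4)])),
    (1873, (.leaf [(6, 10), (8, 18), (1, 7), (4, 6)])),
    (1895, (.leaf [(0, 22), (4, 44), (6, 3), (8, 23)])),
    (1917, (.leaf [(0, 39), (4, 23), (6, 18), (8, 19)])),
    (1939, (.leaf [(0, 39), (4, 23), (6, 18), (8, 19)])),
    (1961, (.leaf [(0, 39), (4, 23), (6, 18), (8, 19)])),
    (1983, (.leaf [(0, 40), (4, 35), (6, 17), (8, 33)])),
    (2005, (.leaf [(6, 14), (0, 41), (8, 40), (4, 35)])),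
    (2027, (.leaf [(6, 14), (0, 41), (8, 37), (4, 29)])),
    (2049, (.leaf [(6, 12), (0, 41), (8, 40), (4, 42)])),
    (2071, (.leaf [(6, 18), (0, 46), (5, 1), (8, 36)])),
    (2093, (.leaf [(6, 18), (0, 42), (4, 28), (8, 40)])),
    (2115, (.leaf [(6, 17), (0, 41), (4, 28), (8, 44)])),
    (2137, (.leaf [(1, 34), (5, 34), (5, 5), (0, 17)])),
    (2159, (.leaf [(6, 17), (0, 41), (4, 28), (5, 14)])),
    (2181, (.leaf [(1, 44), (6, 5), (2, 22), (0, 26)])),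
    (2203, (.leaf [(2, 3), (6, 0), (4, 31), (0, 35)])),
    (2225, (.leaf [(2, 12), (6, 13), (2, 18), (0, 38)])),
    (2247, (.leaf [(2, 12), (6, 13), (2, 18), (0, 38)]))]

theorem E2p3 : chkP gE E2L 4707328 E2w 3 41 3 103 E2l3 = true := by decide +kernel

def E2l4 : List (Nat × Tree) :=
  [(2269, (.leaf [(1, 14), (3, 1), (5, 18), (6, 16)])),
    (2291, (.leaf [(1, 14), (3, 1), (5, 18), (6, 16)])),
    (2313, (.leaf [(1, 14), (3, 1), (5, 18), (6, 16)])),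
    (2335, (.leaf [(2, 44), (6, 15), (1, 3), (8, 28)])),
    (2357, (.leaf [(2, 44), (6, 15), (1, 3), (8, 28)])),
    (2379, (.leaf [(2, 44), (6, 15), (1, 3), (8, 28)])),
    (2401, (.leaf [(2, 28), (6, 6), (1, 11), (2, 14)])),
    (2423, (.leaf [(2, 28), (6, 6), (1, 11), (2, 14)])),
    (2445, (.leaf [(3, 6), (5, 29), (6, 31), (1, 30)])),
    (2467, (.leaf [(3, 6), (5, 29), (6, 31), (1, 30)])),
    (2489, (.leaf [(3, 6), (5, 29), (6, 31), (1, 30)])),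
    (2511, (.leaf [(3, 7), (1, 38), (5, 45), (7, 19)])),
    (2533, (.leaf [(3, 12), (2, 0), (5, 41), (6, 45)])),
    (2555, (.leaf [(3, 19), (2, 11), (6, 45), (5, 43)])),
    (2577, (.leaf [(3, 34), (2, 21), (7, 9), (5, 17)])),
    (2599, (.leaf [(3, 34), (2, 21), (7, 9), (5, 17)])),
    (2621, (.leaf [(3, 34), (2, 21), (7, 9), (5, 17)])),
    (4, (.leaf [(3, 35), (2, 17), (6, 20), (7, 21)])),
    (26, (.leaf [(2, 29), (3, 32), (6, 43), (0, 45)])),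
    (48, (.leaf [(7, 17), (2, 23), (3, 41), (6, 22)])),
    (70, (.leaf [(2, 29), (3, 39), (7, 1), (2, 9)])),
    (92, (.leaf [(7, 14), (2, 38), (4, 0), (2, 2)])),
    (114, (.leaf [(7, 16), (2, 26), (3, 36), (7, 20)])),
    (136, (.leaf [(7, 40), (2, 40), (3, 44), (6, 26)])),
    (158, (.leaf [(7, 41), (2, 36), (4, 7), (6, 29)])),
    (180, (.leaf [(7, 30), (2, 27), (4, 15), (7, 3)])),
    (202, (.leaf [(7, 32), (3, 20), (4, 28), (7, 12)])),
    (224, (.leaf [(7, 36), (2, 43), (4, 18), (6, 35)])),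
    (246, (.leaf [(8, 5), (2, 45), (4, 27), (7, 0)])),
    (268, (.leaf [(7, 10), (8, 30), (5, 7), (3, 8)])),
    (290, (.leaf [(3, 8), (8, 11), (6, 38), (4, 45)])),
    (312, (.leaf [(4, 39), (7, 24), (8, 16), (3, 16)])),
    (334, (.leaf [(4, 36), (7, 27), (8, 25), (2, 35)])),
    (356, (.leaf [(4, 26), (7, 34), (8, 37), (2, 29)])),
    (576, (.leaf [(4, 41), (5, 27), (7, 42), (0, 9)])),
    (598, (.leaf [(8, 10), (0, 11), (5, 20), (5, 1)])),
    (620, (.leaf [(8, 10), (0, 11), (5, 20), (5, 1)])),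
    (642, (.leaf [(6, 14), (8, 14), (0, 46), (4, 22)])),
    (664, (.leaf [(6, 14), (8, 14), (0, 46), (4, 22)])),
    (686, (.leaf [(6, 14), (8, 14), (0, 46), (4, 22)])),
    (708, (.leaf [(6, 12), (8, 22), (1, 1), (4, 30)])),
    (730, (.leaf [(6, 12), (8, 22), (1, 1), (4, 30)]))]

theorem E2p4 : chkP gE E2L 4707328 E2w 3 103 4 34 E2l4 = true := by decide +kernel

def E2l5 : List (Nat × Tree) :=
  [(752, (.leaf [(8, 40), (1, 4), (7, 6), (6, 1)])),
    (774, (.leaf [(1, 4), (5, 46), (8, 40), (6, 20)])),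
    (796, (.leaf [(1, 4), (6, 1), (8, 37), (2, 17)])),
    (818, (.leaf [(1, 4), (6, 1), (8, 40), (6, 41)])),
    (840, (.leaf [(1, 1), (6, 11), (8, 43), (7, 2)])),
    (862, (.leaf [(1, 12), (6, 11), (2, 17), (8, 39)])),
    (884, (.leaf [(1, 4), (5, 27), (8, 13), (7, 3)])),
    (906, (.leaf [(5, 20), (0, 41), (7, 2), (2, 9)])),
    (928, (.leaf [(1, 8), (2, 33), (6, 2), (7, 6)])),
    (950, (.leaf [(1, 5), (2, 42), (6, 7), (7, 6)])),
    (972, (.leaf [(2, 24), (3, 2), (7, 6), (0, 27)])),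
    (994, (.leaf [(1, 4), (2, 24), (6, 20), (6, 38)])),
    (1016, (.leaf [(3, 2), (2, 33), (0, 41), (6, 27)])),
    (1038, (.leaf [(2, 24), (1, 4), (6, 27)])),
    (1060, (.leaf [(0, 43), (2, 32), (6, 44), (1, 27)])),
    (1082, (.leaf [(0, 42), (2, 41), (6, 42), (6, 21)])),
    (1104, (.leaf [(0, 42), (2, 41), (6, 42), (6, 21)])),
    (1126, (.leaf [(2, 32), (0, 41), (6, 27), (4, 12)])),
    (1148, (.leaf [(1, 29), (3, 4), (6, 39), (3, 26)])),
    (1170, (.leaf [(2, 41), (0, 41), (6, 27), (4, 12)])),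
    (1192, (.leaf [(1, 13), (3, 5), (7, 31), (6, 45)])),
    (1214, (.leaf [(1, 21), (3, 10), (7, 33), (6, 43)])),
    (1236, (.leaf [(1, 21), (3, 10), (7, 33), (6, 43)])),
    (1258, (.leaf [(1, 36), (3, 11), (7, 35), (6, 37)])),
    (1280, (.leaf [(1, 43), (3, 15), (7, 39), (6, 37)])),
    (1302, (.leaf [(1, 43), (3, 15), (7, 39), (6, 37)])),
    (1324, (.leaf [(2, 6), (3, 21), (7, 43), (6, 37)])),
    (1346, (.leaf [(8, 3), (6, 28), (2, 13), (3, 28)])),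
    (1368, (.leaf [(8, 3), (6, 28), (2, 13), (3, 28)])),
    (1390, (.leaf [(8, 3), (6, 28), (2, 13), (3, 28)])),
    (1412, (.leaf [(8, 12), (2, 25), (3, 40), (6, 45)])),
    (1434, (.leaf [(8, 12), (2, 25), (3, 40), (6, 45)])),
    (1852, (.leaf [(6, 10), (8, 15), (1, 7), (4, 4)])),
    (1874, (.leaf [(6, 10), (8, 18), (1, 7), (4, 6)])),
    (1896, (.leaf [(0, 22), (4, 44), (6, 3), (8, 23)])),
    (1918, (.leaf [(0, 39), (4, 23), (6, 18), (8, 19)])),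
    (1940, (.leaf [(0, 39), (4, 23), (6, 18), (8, 19)])),
    (1962, (.leaf [(0, 39), (4, 23), (6, 18), (8, 19)])),
    (1984, (.leaf [(0, 40), (4, 35), (6, 17), (8, 33)])),
    (2006, (.leaf [(6, 14), (0, 41), (8, 40), (4, 35)])),
    (2028, (.leaf [(6, 14), (0, 41), (8, 37), (4, 29)])),
    (2050, (.leaf [(6, 17), (1, 11), (8, 38), (4, 44)])),
    (2072, (.leaf [(6, 18), (0, 46), (5, 1), (8, 36)]))]

theorem E2p5 : chkP gE E2L 4707328 E2w 4 34 4 95 E2l5 = true := by decide +kernel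

def E2l6 : List (Nat × Tree) :=
  [(2094, (.leaf [(6, 18), (0, 42), (4, 28), (8, 40)])),
    (2116, (.leaf [(6, 17), (0, 41), (4, 28), (8, 44)])),
    (2138, (.leaf [(1, 34), (5, 34), (5, 5), (0, 17)])),
    (2160, (.leaf [(6, 17), (0, 41), (4, 28), (5, 14)])),
    (2182, (.leaf [(1, 44), (6, 5), (2, 22), (0, 26)])),
    (2204, (.leaf [(2, 3), (6, 0), (4, 31), (0, 35)])),
    (2226, (.leaf [(2, 12), (6, 13), (2, 18), (0, 38)])),
    (2248, (.leaf [(2, 12), (6, 13), (2, 18), (0, 38)])),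
    (2270, (.leaf [(1, 14), (3, 1), (5, 18), (6, 16)])),
    (2292, (.leaf [(1, 14), (3, 1), (5, 18), (6, 16)])),
    (2314, (.leaf [(1, 14), (3, 1), (5, 18), (6, 16)])),
    (2336, (.leaf [(2, 44), (6, 15), (1, 3), (8, 28)])),
    (2358, (.leaf [(2, 44), (6, 15), (1, 3), (8, 28)])),
    (2380, (.leaf [(2, 28), (6, 6), (1, 11), (2, 14)])),
    (2402, (.leaf [(2, 28), (6, 6), (1, 11), (2, 14)])),
    (2424, (.leaf [(2, 28), (6, 6), (1, 11), (2, 14)])),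
    (2446, (.leaf [(3, 6), (5, 29), (6, 31), (1, 30)])),
    (2468, (.leaf [(3, 6), (5, 29), (6, 31), (1, 30)])),
    (2490, (.leaf [(3, 6), (5, 29), (6, 31), (1, 30)])),
    (2512, (.leaf [(3, 7), (1, 38), (5, 45), (7, 19)])),
    (2534, (.leaf [(3, 12), (2, 0), (5, 41), (6, 45)])),
    (2556, (.leaf [(3, 19), (2, 11), (6, 45), (5, 43)])),
    (2578, (.leaf [(3, 34), (2, 21), (7, 9), (5, 17)])),
    (2600, (.leaf [(3, 34), (2, 21), (7, 9), (5, 17)])),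
    (2622, (.leaf [(3, 34), (2, 21), (7, 9), (5, 17)])),
    (5, (.leaf [(3, 35), (2, 17), (6, 20), (7, 21)])),
    (27, (.leaf [(2, 29), (3, 32), (6, 43), (0, 45)])),
    (49, (.leaf [(7, 17), (2, 23), (3, 41), (6, 22)])),
    (71, (.leaf [(2, 29), (3, 39), (7, 1), (2, 9)])),
    (93, (.leaf [(7, 14), (2, 38), (4, 0), (2, 2)])),
    (115, (.leaf [(5, 2), (2, 29), (6, 43), (8, 6)])),
    (137, (.leaf [(7, 40), (2, 40), (3, 44), (6, 26)])),
    (159, (.leaf [(7, 41), (2, 36), (4, 7), (6, 29)])),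
    (181, (.leaf [(7, 30), (2, 27), (4, 15), (7, 3)])),
    (203, (.leaf [(7, 32), (3, 20), (4, 28), (7, 12)])),
    (225, (.leaf [(7, 36), (2, 43), (4, 18), (6, 35)])),
    (247, (.leaf [(8, 5), (2, 45), (4, 27), (7, 0)])),
    (269, (.leaf [(7, 10), (8, 30), (5, 7), (3, 8)])),
    (291, (.leaf [(7, 13), (8, 32), (5, 16), (3, 9)])),
    (313, (.leaf [(4, 39), (7, 24), (8, 16), (3, 16)])),
    (335, (.leaf [(4, 36), (7, 27), (8, 25), (2, 35)])),
    (555, (.leaf [(4, 41), (5, 27), (7, 42), (0, 9)])),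
    (577, (.leaf [(4, 41), (5, 27), (7, 42), (0, 9)]))]

theorem E2p6 : chkP gE E2L 4707328 E2w 4 95 5 27 E2l6 = true := by decide +kernel

def E2l7 : List (Nat × Tree) :=
  [(599, (.leaf [(8, 10), (0, 11), (5, 20), (5, 1)])),
    (621, (.leaf [(8, 10), (0, 11), (5, 20), (5, 1)])),
    (643, (.leaf [(6, 14), (8, 14), (0, 46), (4, 22)])),
    (665, (.leaf [(6, 14), (8, 14), (0, 46), (4, 22)])),
    (687, (.leaf [(6, 14), (8, 14), (0, 46), (4, 22)])),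
    (709, (.leaf [(6, 12), (8, 22), (1, 1), (4, 30)])),
    (731, (.leaf [(6, 12), (8, 22), (1, 1), (4, 30)])),
    (753, (.leaf [(8, 40), (1, 4), (7, 6), (6, 1)])),
    (775, (.leaf [(0, 45), (6, 1), (8, 37), (1, 4)])),
    (797, (.leaf [(1, 4), (6, 1), (8, 37), (2, 17)])),
    (819, (.leaf [(1, 4), (6, 1), (8, 40), (6, 41)])),
    (841, (.leaf [(1, 1), (6, 11), (8, 43), (7, 2)])),
    (863, (.leaf [(0, 46), (6, 12), (8, 40), (6, 26)])),
    (885, (.leaf [(1, 4), (5, 27), (8, 13), (7, 3)])),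
    (907, (.leaf [(5, 20), (0, 41), (7, 2), (2, 9)])),
    (929, (.leaf [(1, 9), (6, 32), (5, 25), (0, 31)])),
    (951, (.leaf [(1, 5), (2, 42), (6, 7), (7, 6)])),
    (973, (.leaf [(2, 24), (3, 2), (7, 6), (0, 27)])),
    (995, (.leaf [(1, 4), (2, 24), (6, 20), (6, 38)])),
    (1017, (.leaf [(2, 24), (0, 41), (6, 30), (5, 20)])),
    (1039, (.leaf [(2, 24), (1, 4), (6, 30), (6, 20)])),
    (1061, (.leaf [(0, 43), (2, 32), (6, 44), (1, 27)])),
    (1083, (.leaf [(0, 42), (2, 41), (6, 42), (6, 21)])),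
    (1105, (.leaf [(0, 42), (2, 41), (6, 42), (6, 21)])),
    (1127, (.leaf [(2, 24), (1, 4), (7, 21), (6, 20)])),
    (1149, (.leaf [(1, 29), (3, 4), (6, 39), (3, 26)])),
    (1171, (.leaf [(2, 41), (0, 41), (6, 27), (4, 12)])),
    (1193, (.leaf [(1, 13), (3, 5), (7, 31), (6, 45)])),
    (1215, (.leaf [(1, 21), (3, 10), (7, 33), (6, 43)])),
    (1237, (.leaf [(1, 21), (3, 10), (7, 33), (6, 43)])),
    (1259, (.leaf [(1, 36), (3, 11), (7, 35), (6, 37)])),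
    (1281, (.leaf [(1, 43), (3, 15), (7, 39), (6, 37)])),
    (1303, (.leaf [(1, 43), (3, 15), (7, 39), (6, 37)])),
    (1325, (.leaf [(2, 6), (3, 21), (7, 43), (6, 37)])),
    (1347, (.leaf [(8, 3), (6, 28), (2, 13), (3, 28)])),
    (1369, (.leaf [(8, 3), (6, 28), (2, 13), (3, 28)])),
    (1391, (.leaf [(8, 3), (6, 28), (2, 13), (3, 28)])),
    (1413, (.leaf [(8, 12), (2, 25), (3, 40), (6, 45)])),
    (1435, (.leaf [(8, 12), (2, 25), (3, 40), (6, 45)])),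
    (1457, (.leaf [(8, 12), (2, 25), (3, 40), (6, 45)])),
    (1875, (.leaf [(6, 10), (8, 18), (1, 7), (4, 6)])),
    (1897, (.leaf [(0, 22), (4, 44), (6, 3), (8, 23)])),
    (1919, (.leaf [(0, 39), (4, 23), (6, 18), (8, 19)]))]

theorem E2p7 : chkP gE E2L 4707328 E2w 5 27 5 88 E2l7 = true := by decide +kernel

def E2l8 : List (Nat × Tree) :=
  [(1941, (.leaf [(0, 39), (4, 23), (6, 18), (8, 19)])),
    (1963, (.leaf [(0, 39), (4, 23), (6, 18), (8, 19)])),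
    (1985, (.leaf [(0, 40), (4, 35), (6, 17), (8, 33)])),
    (2007, (.leaf [(6, 14), (0, 41), (8, 40), (4, 35)])),
    (2029, (.leaf [(6, 14), (0, 41), (8, 37), (4, 29)])),
    (2051, (.leaf [(6, 17), (1, 11), (8, 38), (4, 44)])),
    (2073, (.leaf [(6, 18), (0, 46), (5, 1), (8, 36)])),
    (2095, (.leaf [(6, 18), (0, 42), (4, 28), (8, 40)])),
    (2117, (.leaf [(6, 17), (0, 41), (4, 28), (8, 44)])),
    (2139, (.leaf [(1, 34), (5, 34), (5, 5), (0, 17)])),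
    (2161, (.leaf [(6, 17), (0, 41), (4, 28), (5, 14)])),
    (2183, (.leaf [(1, 44), (6, 5), (2, 22), (0, 26)])),
    (2205, (.leaf [(2, 3), (6, 0), (4, 31), (0, 35)])),
    (2227, (.leaf [(2, 12), (6, 13), (2, 18), (0, 38)])),
    (2249, (.leaf [(2, 12), (6, 13), (2, 18), (0, 38)])),
    (2271, (.leaf [(1, 14), (3, 1), (5, 18), (6, 16)])),
    (2293, (.leaf [(1, 14), (3, 1), (5, 18), (6, 16)])),
    (2315, (.leaf [(2, 44), (6, 15), (1, 3), (8, 28)])),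
    (2337, (.leaf [(2, 44), (6, 15), (1, 3), (8, 28)])),
    (2359, (.leaf [(2, 44), (6, 15), (1, 3), (8, 28)])),
    (2381, (.leaf [(2, 28), (6, 6), (1, 11), (2, 14)])),
    (2403, (.leaf [(2, 28), (6, 6), (1, 11), (2, 14)])),
    (2425, (.leaf [(2, 28), (6, 6), (1, 11), (2, 14)])),
    (2447, (.leaf [(3, 6), (5, 29), (6, 31), (1, 30)])),
    (2469, (.leaf [(3, 6), (5, 29), (6, 31), (1, 30)])),
    (2491, (.leaf [(3, 6), (5, 29), (6, 31), (1, 30)])),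
    (2513, (.leaf [(3, 7), (1, 38), (5, 45), (7, 19)])),
    (2535, (.leaf [(3, 12), (2, 0), (5, 41), (6, 45)])),
    (2557, (.leaf [(3, 19), (2, 11), (6, 45), (5, 43)])),
    (2579, (.leaf [(3, 34), (2, 21), (7, 9), (5, 17)])),
    (2601, (.leaf [(3, 34), (2, 21), (7, 9), (5, 17)])),
    (2623, (.leaf [(3, 34), (2, 21), (7, 9), (5, 17)])),
    (6, (.leaf [(3, 35), (2, 17), (6, 20), (7, 21)])),
    (28, (.leaf [(2, 29), (3, 32), (6, 43), (0, 45)])),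
    (50, (.leaf [(2, 29), (4, 12), (6, 43), (8, 6)])),
    (72, (.leaf [(2, 29), (3, 39), (7, 1), (2, 9)])),
    (94, (.leaf [(7, 14), (2, 38), (4, 0), (2, 2)])),
    (116, (.leaf [(5, 2), (2, 29), (6, 43), (8, 6)])),
    (138, (.leaf [(5, 2), (2, 29), (6, 43), (8, 6)])),
    (160, (.leaf [(7, 41), (2, 36), (4, 7), (6, 29)])),
    (182, (.leaf [(7, 30), (2, 27), (4, 15), (7, 3)])),
    (204, (.leaf [(7, 32), (3, 20), (4, 28), (7, 12)]))]

theorem E2p8 : chkP gE E2L 4707328 E2w 5 88 6 10 E2l8 = true := by decide +kernel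

end Pool.Agent.K9.C
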