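import Pool.Agent.K9.C.E2D

/-! # K9: peeling of near cells -/

namespace Pool.Agent.K9.C

set_option maxRecDepth 10000

def E2l9 : List (Nat × Tree) :=
  [(226, (.leaf [(8, 0), (3, 38), (5, 8), (6, 33)])),
    (248, (.leaf [(8, 5), (2, 45), (4, 27), (7, 0)])),
    (270, (.leaf [(7, 10), (8, 30), (5, 7), (3, 8)])),
    (292, (.leaf [(7, 13), (8, 32), (5, 16), (3, 9)])),
    (314, (.leaf [(4, 39), (7, 24), (8, 16), (3, 16)])),
    (556, (.leaf [(4, 41), (5, 27), (7, 42), (0, 9)])),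
    (578, (.leaf [(4, 41), (5, 27), (7, 42), (0, 9)])),
    (600, (.leaf [(8, 10), (0, 11), (5, 20), (5, 1)])),
    (622, (.leaf [(8, 10), (0, 11), (5, 20), (5, 1)])),
    (644, (.leaf [(6, 14), (8, 14), (0, 46), (4, 22)])),
    (666, (.leaf [(6, 14), (8, 14), (0, 46), (4, 22)])),
    (688, (.leaf [(6, 14), (8, 14), (0, 46), (4, 22)])),
    (710, (.leaf [(6, 12), (8, 22), (1, 1), (4, 30)])),
    (732, (.leaf [(6, 19), (8, 29), (0, 37), (5, 19)])),
    (754, (.leaf [(8, 40), (1, 4), (7, 6), (6, 1)])),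
    (776, (.leaf [(0, 45), (6, 1), (8, 37), (1, 4)])),
    (798, (.leaf [(1, 4), (6, 1), (8, 37), (2, 17)])),
    (820, (.leaf [(1, 4), (6, 1), (8, 40), (6, 41)])),
    (842, (.leaf [(1, 1), (6, 11), (8, 43), (7, 2)])),
    (864, (.leaf [(0, 46), (6, 12), (8, 40), (6, 26)])),
    (886, (.leaf [(0, 46), (6, 14), (8, 39), (6, 26)])),
    (908, (.leaf [(6, 34), (0, 7), (1, 17), (6, 9)])),
    (930, (.leaf [(1, 9), (6, 32), (5, 25), (0, 31)])),
    (952, (.leaf [(6, 36), (4, 10), (0, 18), (1, 32)])),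
    (974, (.leaf [(2, 24), (3, 2), (7, 6), (0, 27)])),
    (996, (.leaf [(1, 4), (2, 24), (6, 20), (6, 38)])),
    (1018, (.leaf [(2, 24), (0, 41), (6, 30), (5, 20)])),
    (1040, (.leaf [(2, 24), (1, 4), (6, 30), (6, 20)])),
    (1062, (.leaf [(0, 43), (2, 32), (6, 44), (1, 27)])),
    (1084, (.leaf [(0, 42), (2, 41), (6, 42), (6, 21)])),
    (1106, (.leaf [(0, 42), (2, 41), (6, 42), (6, 21)])),
    (1128, (.leaf [(2, 24), (1, 4), (7, 21), (6, 20)])),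
    (1150, (.leaf [(1, 29), (3, 4), (6, 39), (3, 26)])),
    (1172, (.leaf [(2, 41), (0, 41), (6, 27), (4, 12)])),
    (1194, (.leaf [(1, 13), (3, 5), (7, 31), (6, 45)])),
    (1216, (.leaf [(1, 21), (3, 10), (7, 33), (6, 43)])),
    (1238, (.leaf [(1, 21), (3, 10), (7, 33), (6, 43)])),
    (1260, (.leaf [(1, 36), (3, 11), (7, 35), (6, 37)])),
    (1282, (.leaf [(1, 43), (3, 15), (7, 39), (6, 37)])),
    (1304, (.leaf [(1, 43), (3, 15), (7, 39), (6, 37)])),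
    (1326, (.leaf [(2, 6), (3, 21), (7, 43), (6, 37)])),
    (1348, (.leaf [(8, 3), (6, 28), (2, 13), (3, 28)])),
    (1370, (.leaf [(8, 3), (6, 28), (2, 13), (3, 28)]))]

theorem E2p9 : chkP gE E2L 4707328 E2w 6 10 6 63 E2l9 = true := by decide +kernel

def E2l10 : List (Nat × Tree) :=
  [(1392, (.leaf [(8, 3), (6, 28), (2, 13), (3, 28)])),
    (1414, (.leaf [(8, 12), (2, 25), (3, 40), (6, 45)])),
    (1436, (.leaf [(8, 12), (2, 25), (3, 40), (6, 45)])),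
    (1458, (.leaf [(8, 12), (2, 25), (3, 40), (6, 45)])),
    (1876, (.leaf [(6, 10), (8, 18), (1, 7), (4, 6)])),
    (1898, (.leaf [(0, 22), (4, 44), (6, 3), (8, 23)])),
    (1920, (.leaf [(0, 39), (4, 23), (6, 18), (8, 19)])),
    (1942, (.leaf [(0, 39), (4, 23), (6, 18), (8, 19)])),
    (1964, (.leaf [(0, 39), (4, 23), (6, 18), (8, 19)])),
    (1986, (.leaf [(0, 40), (4, 35), (6, 17), (8, 33)])),
    (2008, (.leaf [(6, 14), (0, 41), (4, 36), (8, 37)])),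
    (2030, (.leaf [(6, 14), (0, 41), (8, 37), (4, 29)])),
    (2052, (.leaf [(6, 17), (1, 11), (8, 38), (4, 44)])),
    (2074, (.leaf [(6, 18), (0, 46), (5, 1), (8, 36)])),
    (2096, (.leaf [(6, 18), (0, 42), (4, 28), (8, 40)])),
    (2118, (.leaf [(6, 17), (0, 41), (4, 28), (8, 44)])),
    (2140, (.leaf [(1, 34), (5, 34), (5, 5), (0, 17)])),
    (2162, (.leaf [(6, 17), (0, 41), (4, 28), (5, 14)])),
    (2184, (.leaf [(1, 44), (6, 5), (2, 22), (0, 26)])),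
    (2206, (.leaf [(2, 3), (6, 0), (4, 31), (0, 35)])),
    (2228, (.leaf [(2, 12), (6, 13), (2, 18), (0, 38)])),
    (2250, (.leaf [(2, 12), (6, 13), (2, 18), (0, 38)])),
    (2272, (.leaf [(1, 14), (3, 1), (5, 18), (6, 16)])),
    (2294, (.leaf [(1, 14), (3, 1), (5, 18), (6, 16)])),
    (2316, (.leaf [(2, 44), (6, 15), (1, 3), (8, 28)])),
    (2338, (.leaf [(2, 44), (6, 15), (1, 3), (8, 28)])),
    (2360, (.leaf [(2, 44), (6, 15), (1, 3), (8, 28)])),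
    (2382, (.leaf [(2, 28), (6, 6), (1, 11), (2, 14)])),
    (2404, (.leaf [(2, 28), (6, 6), (1, 11), (2, 14)])),
    (2426, (.leaf [(2, 28), (6, 6), (1, 11), (2, 14)])),
    (2448, (.leaf [(3, 6), (5, 29), (6, 31), (1, 30)])),
    (2470, (.leaf [(3, 6), (5, 29), (6, 31), (1, 30)])),
    (2492, (.leaf [(3, 6), (5, 29), (6, 31), (1, 30)])),
    (2514, (.leaf [(3, 7), (1, 38), (5, 45), (7, 19)])),
    (2536, (.leaf [(3, 19), (2, 11), (6, 45), (5, 43)])),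
    (2558, (.leaf [(3, 19), (2, 11), (6, 45), (5, 43)])),
    (2580, (.leaf [(3, 34), (2, 21), (7, 9), (5, 17)])),
    (2602, (.leaf [(3, 34), (2, 21), (7, 9), (5, 17)])),
    (2624, (.leaf [(3, 34), (2, 21), (7, 9), (5, 17)])),
    (7, (.leaf [(3, 35), (2, 17), (6, 20), (7, 21)])),
    (29, (.leaf [(2, 29), (3, 32), (6, 43), (0, 45)])),
    (51, (.leaf [(2, 29), (4, 12), (6, 43), (8, 6)])),
    (73, (.leaf [(2, 29), (3, 39), (7, 1), (2, 9)]))]

theorem E2p10 : chkP gE E2L 4707328 E2w 6 63 7 4 E2l10 = true := by decide +kernel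

def E2l11 : List (Nat × Tree) :=
  [(95, (.leaf [(7, 14), (2, 38), (4, 0), (2, 2)])),
    (117, (.leaf [(5, 2), (2, 29), (6, 43), (8, 6)])),
    (139, (.leaf [(5, 2), (2, 29), (6, 43), (8, 6)])),
    (161, (.leaf [(7, 46), (2, 36), (4, 33), (6, 38)])),
    (183, (.leaf [(7, 30), (2, 27), (4, 15), (7, 3)])),
    (205, (.leaf [(7, 32), (3, 20), (4, 28), (7, 12)])),
    (227, (.leaf [(8, 0), (3, 38), (5, 8), (6, 33)])),
    (249, (.leaf [(5, 6), (7, 6), (1, 42), (3, 0)])),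
    (271, (.leaf [(7, 10), (8, 30), (5, 7), (3, 8)])),
    (293, (.leaf [(7, 13), (8, 32), (5, 16), (3, 9)])),
    (315, (.leaf [(7, 15), (4, 38), (3, 17), (8, 21)])),
    (557, (.leaf [(4, 41), (5, 27), (7, 42), (0, 9)])),
    (579, (.leaf [(4, 41), (5, 27), (7, 42), (0, 9)])),
    (601, (.leaf [(8, 10), (0, 11), (5, 20), (5, 1)])),
    (623, (.leaf [(8, 10), (0, 11), (5, 20), (5, 1)])),
    (645, (.leaf [(6, 14), (8, 14), (0, 46), (4, 22)])),
    (667, (.leaf [(6, 14), (8, 14), (0, 46), (4, 22)])),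
    (689, (.leaf [(6, 14), (8, 14), (0, 46), (4, 22)])),
    (711, (.leaf [(6, 12), (8, 22), (1, 1), (4, 30)])),
    (733, (.leaf [(6, 19), (8, 29), (0, 37), (5, 19)])),
    (755, (.leaf [(8, 40), (1, 4), (7, 6), (6, 1)])),
    (777, (.leaf [(0, 45), (6, 1), (8, 37), (1, 4)])),
    (799, (.leaf [(0, 45), (6, 14), (8, 37), (6, 30)])),
    (821, (.leaf [(1, 4), (6, 1), (8, 40), (6, 41)])),
    (843, (.leaf [(1, 1), (6, 11), (8, 43), (7, 2)])),
    (865, (.leaf [(0, 46), (6, 12), (8, 40), (6, 26)])),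
    (887, (.leaf [(0, 46), (6, 14), (8, 39), (6, 26)])),
    (909, (.leaf [(6, 34), (0, 7), (1, 17), (6, 9)])),
    (931, (.leaf [(1, 9), (6, 32), (5, 25), (0, 31)])),
    (953, (.leaf [(6, 36), (4, 10), (0, 18), (1, 32)])),
    (975, (.leaf [(2, 24), (3, 2), (7, 6), (0, 27)])),
    (997, (.leaf [(1, 4), (2, 24), (6, 20), (6, 38)])),
    (1019, (.leaf [(2, 24), (0, 41), (6, 30), (5, 20)])),
    (1041, (.leaf [(2, 24), (1, 4), (6, 30), (6, 20)])),
    (1063, (.leaf [(0, 43), (2, 32), (6, 44), (1, 27)])),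
    (1085, (.leaf [(0, 42), (2, 41), (6, 42), (6, 21)])),
    (1107, (.leaf [(0, 42), (2, 41), (6, 42), (6, 21)])),
    (1129, (.leaf [(2, 24), (1, 4), (7, 21), (6, 20)])),
    (1151, (.leaf [(1, 29), (3, 4), (6, 39), (3, 26)])),
    (1173, (.leaf [(1, 13), (3, 5), (7, 31), (6, 45)])),
    (1195, (.leaf [(1, 13), (3, 5), (7, 31), (6, 45)])),
    (1217, (.leaf [(1, 21), (3, 10), (7, 33), (6, 43)])),
    (1239, (.leaf [(1, 36), (3, 11), (7, 35), (6, 37)]))]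

theorem E2p11 : chkP gE E2L 4707328 E2w 7 4 7 57 E2l11 = true := by decide +kernel

def E2l12 : List (Nat × Tree) :=
  [(1261, (.leaf [(1, 36), (3, 11), (7, 35), (6, 37)])),
    (1283, (.leaf [(1, 43), (3, 15), (7, 39), (6, 37)])),
    (1305, (.leaf [(1, 43), (3, 15), (7, 39), (6, 37)])),
    (1327, (.leaf [(2, 6), (3, 21), (7, 43), (6, 37)])),
    (1349, (.leaf [(8, 3), (6, 28), (2, 13), (3, 28)])),
    (1371, (.leaf [(8, 3), (6, 28), (2, 13), (3, 28)])),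
    (1393, (.leaf [(8, 3), (6, 28), (2, 13), (3, 28)])),
    (1415, (.leaf [(8, 12), (2, 25), (3, 40), (6, 45)])),
    (1437, (.leaf [(8, 12), (2, 25), (3, 40), (6, 45)])),
    (1459, (.leaf [(8, 12), (2, 25), (3, 40), (6, 45)])),
    (1481, (.leaf [(8, 12), (2, 25), (3, 40), (6, 45)])),
    (1877, (.leaf [(6, 10), (8, 18), (1, 7), (4, 6)])),
    (1899, (.leaf [(0, 22), (4, 44), (6, 3), (8, 23)])),
    (1921, (.leaf [(0, 39), (4, 23), (6, 18), (8, 19)])),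
    (1943, (.leaf [(0, 39), (4, 23), (6, 18), (8, 19)])),
    (1965, (.leaf [(0, 39), (4, 23), (6, 18), (8, 19)])),
    (1987, (.leaf [(0, 40), (4, 35), (6, 17), (8, 33)])),
    (2009, (.leaf [(6, 14), (0, 41), (4, 36), (8, 37)])),
    (2031, (.leaf [(6, 14), (0, 41), (8, 37), (4, 29)])),
    (2053, (.leaf [(6, 17), (1, 11), (8, 38), (4, 44)])),
    (2075, (.leaf [(6, 18), (0, 46), (5, 1), (8, 36)])),
    (2097, (.leaf [(6, 14), (1, 18), (0, 6), (4, 38)])),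
    (2119, (.leaf [(6, 14), (1, 31), (0, 1), (5, 10)])),
    (2141, (.leaf [(1, 34), (5, 34), (5, 5), (0, 17)])),
    (2163, (.leaf [(1, 46), (5, 37), (5, 3), (0, 20)])),
    (2185, (.leaf [(1, 44), (6, 5), (2, 22), (0, 26)])),
    (2207, (.leaf [(2, 8), (6, 4), (3, 31), (0, 29)])),
    (2229, (.leaf [(2, 12), (6, 13), (2, 18), (0, 38)])),
    (2251, (.leaf [(2, 12), (6, 13), (2, 18), (0, 38)])),
    (2273, (.leaf [(1, 14), (3, 1), (5, 18), (6, 16)])),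
    (2295, (.leaf [(1, 14), (3, 1), (5, 18), (6, 16)])),
    (2317, (.leaf [(2, 44), (6, 15), (1, 3), (8, 28)])),
    (2339, (.leaf [(2, 44), (6, 15), (1, 3), (8, 28)])),
    (2361, (.leaf [(2, 44), (6, 15), (1, 3), (8, 28)])),
    (2383, (.leaf [(2, 28), (6, 6), (1, 11), (2, 14)])),
    (2405, (.leaf [(2, 28), (6, 6), (1, 11), (2, 14)])),
    (2427, (.leaf [(2, 28), (6, 6), (1, 11), (2, 14)])),
    (2449, (.leaf [(3, 6), (5, 29), (6, 31), (1, 30)])),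
    (2471, (.leaf [(3, 6), (5, 29), (6, 31), (1, 30)])),
    (2493, (.leaf [(3, 6), (5, 29), (6, 31), (1, 30)])),
    (2515, (.leaf [(3, 7), (1, 38), (5, 45), (7, 19)])),
    (2537, (.leaf [(3, 19), (2, 11), (6, 45), (5, 43)]))]

theorem E2p12 : chkP gE E2L 4707328 E2w 7 57 7 116 E2l12 = true := by decide +kernel

def E2l13 : List (Nat × Tree) :=
  [(2559, (.leaf [(3, 19), (2, 11), (6, 45), (5, 43)])),
    (2581, (.leaf [(3, 34), (2, 21), (7, 9), (5, 17)])),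
    (2603, (.leaf [(3, 34), (2, 21), (7, 9), (5, 17)])),
    (2625, (.leaf [(3, 34), (2, 21), (7, 9), (5, 17)])),
    (8, (.leaf [(3, 35), (2, 17), (6, 20), (7, 21)])),
    (30, (.leaf [(2, 29), (3, 32), (6, 43), (0, 45)])),
    (52, (.leaf [(2, 29), (4, 12), (6, 43), (8, 6)])),
    (74, (.leaf [(2, 29), (7, 1), (4, 20), (7, 38)])),
    (96, (.leaf [(7, 14), (2, 38), (4, 0), (2, 2)])),
    (118, (.leaf [(5, 2), (2, 29), (6, 43), (8, 6)])),
    (140, (.leaf [(5, 2), (2, 29), (6, 43), (8, 6)])),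
    (162, (.leaf [(7, 46), (2, 36), (4, 33), (6, 38)])),
    (184, (.leaf [(7, 2), (8, 2), (3, 25), (4, 40)])),
    (206, (.leaf [(7, 32), (3, 20), (4, 28), (7, 12)])),
    (228, (.leaf [(8, 0), (3, 38), (5, 8), (6, 33)])),
    (250, (.leaf [(5, 6), (7, 6), (1, 42), (3, 0)])),
    (272, (.leaf [(5, 13), (7, 6), (8, 20), (3, 14)])),
    (294, (.leaf [(7, 13), (8, 32), (5, 16), (3, 9)])),
    (558, (.leaf [(4, 41), (5, 27), (7, 42), (0, 9)])),
    (580, (.leaf [(4, 41), (5, 27), (7, 42), (0, 9)])),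
    (602, (.leaf [(8, 10), (0, 11), (5, 20), (5, 1)])),
    (624, (.leaf [(8, 10), (0, 11), (5, 20), (5, 1)])),
    (646, (.leaf [(6, 14), (8, 14), (0, 46), (4, 22)])),
    (668, (.leaf [(6, 14), (8, 14), (0, 46), (4, 22)])),
    (690, (.leaf [(6, 14), (8, 14), (0, 46), (4, 22)])),
    (712, (.leaf [(6, 12), (8, 22), (1, 1), (4, 30)])),
    (734, (.leaf [(6, 19), (8, 29), (0, 37), (5, 19)])),
    (756, (.leaf [(8, 40), (1, 4), (7, 6), (6, 1)])),
    (778, (.leaf [(0, 45), (6, 1), (8, 37), (1, 4)])),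
    (800, (.leaf [(0, 45), (6, 14), (8, 37), (6, 30)])),
    (822, (.leaf [(1, 4), (6, 1), (8, 40), (6, 41)])),
    (844, (.leaf [(1, 1), (6, 11), (8, 43), (7, 2)])),
    (866, (.leaf [(0, 46), (6, 12), (8, 40), (6, 26)])),
    (888, (.leaf [(0, 46), (6, 14), (8, 39), (6, 26)])),
    (910, (.leaf [(6, 34), (0, 7), (1, 17), (6, 9)])),
    (932, (.leaf [(1, 9), (6, 32), (5, 25), (0, 31)])),
    (954, (.leaf [(6, 36), (4, 10), (0, 18), (1, 32)])),
    (976, (.leaf [(2, 24), (3, 2), (7, 6), (0, 27)])),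
    (998, (.leaf [(6, 46), (0, 34), (1, 45), (1, 40)])),
    (1020, (.leaf [(2, 24), (0, 41), (6, 30), (5, 20)])),
    (1042, (.leaf [(2, 24), (1, 4), (6, 30), (6, 20)])),
    (1064, (.leaf [(0, 43), (2, 32), (6, 44), (1, 27)])),
    (1086, (.leaf [(0, 42), (2, 41), (6, 42), (6, 21)]))]

theorem E2p13 : chkP gE E2L 4707328 E2w 7 116 8 50 E2l13 = true := by decide +kernel

def E2l14 : List (Nat × Tree) :=
  [(1108, (.leaf [(0, 42), (2, 41), (6, 42), (6, 21)])),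
    (1130, (.leaf [(2, 24), (1, 4), (7, 21), (6, 20)])),
    (1152, (.leaf [(1, 29), (3, 4), (6, 39), (3, 26)])),
    (1174, (.leaf [(1, 13), (3, 5), (7, 31), (6, 45)])),
    (1196, (.leaf [(1, 13), (3, 5), (7, 31), (6, 45)])),
    (1218, (.leaf [(1, 21), (3, 10), (7, 33), (6, 43)])),
    (1240, (.leaf [(1, 36), (3, 11), (7, 35), (6, 37)])),
    (1262, (.leaf [(1, 36), (3, 11), (7, 35), (6, 37)])),
    (1284, (.leaf [(1, 43), (3, 15), (7, 39), (6, 37)])),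
    (1306, (.leaf [(2, 6), (3, 21), (7, 43), (6, 37)])),
    (1328, (.leaf [(2, 6), (3, 21), (7, 43), (6, 37)])),
    (1350, (.leaf [(8, 3), (6, 28), (2, 13), (3, 28)])),
    (1372, (.leaf [(8, 3), (6, 28), (2, 13), (3, 28)])),
    (1394, (.leaf [(8, 3), (6, 28), (2, 13), (3, 28)])),
    (1416, (.leaf [(8, 12), (2, 25), (3, 40), (6, 45)])),
    (1438, (.leaf [(8, 12), (2, 25), (3, 40), (6, 45)])),
    (1460, (.leaf [(8, 12), (2, 25), (3, 40), (6, 45)])),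
    (1482, (.leaf [(8, 12), (2, 25), (3, 40), (6, 45)])),
    (1900, (.leaf [(0, 30), (4, 17), (5, 31), (8, 27)])),
    (1922, (.leaf [(0, 39), (4, 23), (6, 18), (8, 19)])),
    (1944, (.leaf [(0, 39), (4, 23), (6, 18), (8, 19)])),
    (1966, (.leaf [(0, 40), (4, 35), (6, 17), (8, 33)])),
    (1988, (.leaf [(0, 40), (4, 35), (6, 17), (8, 33)])),
    (2010, (.leaf [(6, 14), (0, 41), (4, 36), (8, 37)])),
    (2032, (.leaf [(6, 14), (0, 41), (8, 37), (4, 29)])),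
    (2054, (.leaf [(6, 17), (1, 11), (8, 38), (4, 44)])),
    (2076, (.leaf [(1, 10), (5, 11), (5, 21), (0, 6)])),
    (2098, (.leaf [(6, 14), (1, 18), (0, 6), (4, 38)])),
    (2120, (.leaf [(6, 14), (1, 31), (0, 1), (5, 10)])),
    (2142, (.leaf [(1, 34), (5, 34), (5, 5), (0, 17)])),
    (2164, (.leaf [(1, 46), (5, 37), (5, 3), (0, 20)])),
    (2186, (.leaf [(1, 44), (6, 5), (2, 22), (0, 26)])),
    (2208, (.leaf [(2, 8), (6, 4), (3, 31), (0, 29)])),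
    (2230, (.leaf [(2, 12), (6, 13), (2, 18), (0, 38)])),
    (2252, (.leaf [(1, 14), (3, 1), (5, 18), (6, 16)])),
    (2274, (.leaf [(1, 14), (3, 1), (5, 18), (6, 16)])),
    (2296, (.leaf [(1, 14), (3, 1), (5, 18), (6, 16)])),
    (2318, (.leaf [(2, 44), (6, 15), (1, 3), (8, 28)])),
    (2340, (.leaf [(2, 44), (6, 15), (1, 3), (8, 28)])),
    (2362, (.leaf [(2, 44), (6, 15), (1, 3), (8, 28)])),
    (2384, (.leaf [(2, 28), (6, 6), (1, 11), (2, 14)])),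
    (2406, (.leaf [(2, 28), (6, 6), (1, 11), (2, 14)])),
    (2428, (.leaf [(2, 28), (6, 6), (1, 11), (2, 14)]))]

theorem E2p14 : chkP gE E2L 4707328 E2w 8 50 8 111 E2l14 = true := by decide +kernel

def E2l15 : List (Nat × Tree) :=
  [(2450, (.leaf [(3, 6), (5, 29), (6, 31), (1, 30)])),
    (2472, (.leaf [(3, 6), (5, 29), (6, 31), (1, 30)])),
    (2494, (.leaf [(3, 6), (5, 29), (6, 31), (1, 30)])),
    (2516, (.leaf [(3, 7), (1, 38), (5, 45), (7, 19)])),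
    (2538, (.leaf [(3, 19), (2, 11), (6, 45), (5, 43)])),
    (2560, (.leaf [(3, 19), (2, 11), (6, 45), (5, 43)])),
    (2582, (.leaf [(3, 34), (2, 21), (7, 9), (5, 17)])),
    (2604, (.leaf [(3, 34), (2, 21), (7, 9), (5, 17)])),
    (2626, (.leaf [(3, 34), (2, 21), (7, 9), (5, 17)])),
    (9, (.leaf [(3, 35), (2, 17), (6, 20), (7, 21)])),
    (31, (.leaf [(3, 42), (6, 24), (7, 26), (2, 29)])),
    (53, (.leaf [(2, 29), (4, 12), (6, 43), (8, 6)])),
    (75, (.leaf [(2, 29), (7, 1), (4, 20), (7, 38)])),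
    (97, (.leaf [(7, 28), (3, 23), (4, 9), (2, 20)])),
    (119, (.leaf [(5, 2), (2, 29), (6, 43), (8, 6)])),
    (141, (.leaf [(5, 2), (2, 29), (6, 43), (8, 6)])),
    (163, (.leaf [(7, 46), (2, 36), (4, 33), (6, 38)])),
    (185, (.leaf [(7, 2), (8, 2), (3, 25), (4, 40)])),
    (207, (.leaf [(7, 4), (8, 4), (3, 27), (4, 45)])),
    (229, (.leaf [(8, 0), (3, 38), (5, 8), (6, 33)])),
    (251, (.leaf [(5, 6), (7, 6), (1, 42), (3, 0)])),
    (273, (.leaf [(5, 13), (7, 6), (8, 20), (3, 14)])),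
    (295, (.leaf [(5, 14), (7, 6), (1, 0), (3, 13)])),
    (559, (.leaf [(4, 41), (5, 27), (7, 42), (0, 9)])),
    (581, (.leaf [(4, 41), (5, 27), (7, 42), (0, 9)])),
    (603, (.leaf [(8, 10), (0, 11), (5, 20), (5, 1)])),
    (625, (.leaf [(6, 14), (8, 14), (0, 46), (4, 22)])),
    (647, (.leaf [(6, 14), (8, 14), (0, 46), (4, 22)])),
    (669, (.leaf [(6, 14), (8, 14), (0, 46), (4, 22)])),
    (691, (.leaf [(6, 14), (8, 14), (0, 46), (4, 22)])),
    (713, (.leaf [(6, 12), (8, 22), (1, 1), (4, 30)])),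
    (735, (.leaf [(6, 19), (8, 29), (0, 37), (5, 19)])),
    (757, (.leaf [(8, 40), (1, 4), (7, 6), (6, 1)])),
    (779, (.leaf [(0, 45), (6, 1), (8, 37), (1, 4)])),
    (801, (.leaf [(0, 45), (6, 14), (8, 37), (6, 30)])),
    (823, (.leaf [(1, 4), (6, 1), (8, 40), (6, 41)])),
    (845, (.leaf [(0, 45), (6, 14), (8, 21), (6, 30)])),
    (867, (.leaf [(0, 46), (6, 12), (8, 40), (6, 26)])),
    (889, (.leaf [(0, 46), (6, 14), (8, 39), (6, 26)])),
    (911, (.leaf [(6, 34), (0, 7), (1, 17), (6, 9)])),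
    (933, (.leaf [(1, 9), (6, 32), (5, 25), (0, 31)])),
    (955, (.leaf [(6, 36), (4, 10), (0, 18), (1, 32)])),
    (977, (.leaf [(2, 24), (3, 2), (7, 6), (0, 27)]))]

theorem E2p15 : chkP gE E2L 4707328 E2w 8 111 9 45 E2l15 = true := by decide +kernel

def E2l16 : List (Nat × Tree) :=
  [(999, (.leaf [(6, 46), (0, 34), (1, 45), (1, 40)])),
    (1021, (.leaf [(2, 24), (0, 41), (6, 30), (5, 20)])),
    (1043, (.leaf [(2, 24), (1, 4), (6, 30), (6, 20)])),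
    (1065, (.leaf [(0, 43), (2, 32), (6, 44), (1, 27)])),
    (1087, (.leaf [(0, 42), (2, 41), (6, 42), (6, 21)])),
    (1109, (.leaf [(2, 24), (1, 4), (7, 21), (6, 20)])),
    (1131, (.leaf [(2, 24), (1, 4), (7, 21), (6, 20)])),
    (1153, (.leaf [(1, 29), (3, 4), (6, 39), (3, 26)])),
    (1175, (.leaf [(1, 13), (3, 5), (7, 31), (6, 45)])),
    (1197, (.leaf [(1, 13), (3, 5), (7, 31), (6, 45)])),
    (1219, (.leaf [(1, 21), (3, 10), (7, 33), (6, 43)])),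
    (1241, (.leaf [(1, 36), (3, 11), (7, 35), (6, 37)])),
    (1263, (.leaf [(1, 36), (3, 11), (7, 35), (6, 37)])),
    (1285, (.leaf [(1, 43), (3, 15), (7, 39), (6, 37)])),
    (1307, (.leaf [(2, 6), (3, 21), (7, 43), (6, 37)])),
    (1329, (.leaf [(2, 6), (3, 21), (7, 43), (6, 37)])),
    (1351, (.leaf [(8, 3), (6, 28), (2, 13), (3, 28)])),
    (1373, (.leaf [(8, 3), (6, 28), (2, 13), (3, 28)])),
    (1395, (.leaf [(8, 3), (6, 28), (2, 13), (3, 28)])),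
    (1417, (.leaf [(8, 12), (2, 25), (3, 40), (6, 45)])),
    (1439, (.leaf [(8, 12), (2, 25), (3, 40), (6, 45)])),
    (1461, (.leaf [(8, 12), (2, 25), (3, 40), (6, 45)])),
    (1483, (.leaf [(8, 12), (2, 25), (3, 40), (6, 45)])),
    (1901, (.leaf [(0, 30), (4, 17), (5, 31), (8, 27)])),
    (1923, (.leaf [(0, 39), (4, 23), (6, 18), (8, 19)])),
    (1945, (.leaf [(0, 39), (4, 23), (6, 18), (8, 19)])),
    (1967, (.leaf [(0, 40), (4, 35), (6, 17), (8, 33)])),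
    (1989, (.leaf [(0, 40), (4, 35), (6, 17), (8, 33)])),
    (2011, (.leaf [(6, 14), (0, 41), (4, 36), (8, 37)])),
    (2033, (.leaf [(6, 14), (0, 41), (8, 37), (4, 29)])),
    (2055, (.leaf [(6, 17), (1, 11), (8, 38), (4, 44)])),
    (2077, (.leaf [(1, 10), (5, 11), (5, 21), (0, 6)])),
    (2099, (.leaf [(6, 14), (1, 18), (0, 6), (4, 38)])),
    (2121, (.leaf [(6, 14), (1, 31), (0, 1), (5, 10)])),
    (2143, (.leaf [(1, 34), (5, 34), (5, 5), (0, 17)])),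
    (2165, (.leaf [(1, 46), (5, 37), (5, 3), (0, 20)])),
    (2187, (.leaf [(1, 44), (6, 5), (2, 22), (0, 26)])),
    (2209, (.leaf [(2, 8), (6, 4), (3, 31), (0, 29)])),
    (2231, (.leaf [(2, 12), (6, 13), (2, 18), (0, 38)])),
    (2253, (.leaf [(1, 14), (3, 1), (5, 18), (6, 16)])),
    (2275, (.leaf [(1, 14), (3, 1), (5, 18), (6, 16)])),
    (2297, (.leaf [(1, 14), (3, 1), (5, 18), (6, 16)]))]

theorem E2p16 : chkP gE E2L 4707328 E2w 9 45 9 105 E2l16 = true := by decide +kernel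

def E2l17 : List (Nat × Tree) :=
  [(2319, (.leaf [(2, 44), (6, 15), (1, 3), (8, 28)])),
    (2341, (.leaf [(2, 44), (6, 15), (1, 3), (8, 28)])),
    (2363, (.leaf [(2, 44), (6, 15), (1, 3), (8, 28)])),
    (2385, (.leaf [(2, 28), (6, 6), (1, 11), (2, 14)])),
    (2407, (.leaf [(2, 28), (6, 6), (1, 11), (2, 14)])),
    (2429, (.leaf [(2, 28), (6, 6), (1, 11), (2, 14)])),
    (2451, (.leaf [(3, 6), (5, 29), (6, 31), (1, 30)])),
    (2473, (.leaf [(3, 6), (5, 29), (6, 31), (1, 30)])),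
    (2495, (.leaf [(3, 6), (5, 29), (6, 31), (1, 30)])),
    (2517, (.leaf [(3, 7), (1, 38), (5, 45), (7, 19)])),
    (2539, (.leaf [(3, 19), (2, 11), (6, 45), (5, 43)])),
    (2561, (.leaf [(3, 19), (2, 11), (6, 45), (5, 43)])),
    (2583, (.leaf [(3, 34), (2, 21), (7, 9), (5, 17)])),
    (2605, (.leaf [(3, 34), (2, 21), (7, 9), (5, 17)])),
    (2627, (.leaf [(3, 34), (2, 21), (7, 9), (5, 17)])),
    (10, (.leaf [(3, 35), (2, 17), (6, 20), (7, 21)])),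
    (32, (.leaf [(3, 42), (6, 24), (7, 26), (2, 29)])),
    (54, (.leaf [(2, 29), (4, 12), (6, 43), (8, 6)])),
    (76, (.leaf [(2, 29), (7, 1), (4, 20), (7, 38)])),
    (98, (.leaf [(7, 28), (3, 23), (4, 9), (2, 20)])),
    (120, (.leaf [(5, 2), (2, 29), (6, 43), (8, 6)])),
    (142, (.leaf [(5, 2), (2, 29), (6, 43), (8, 6)])),
    (164, (.leaf [(7, 46), (2, 36), (4, 33), (6, 38)])),
    (186, (.leaf [(7, 2), (8, 2), (3, 25), (4, 40)])),
    (208, (.leaf [(7, 4), (8, 4), (3, 27), (4, 45)])),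
    (230, (.leaf [(8, 0), (3, 38), (5, 8), (6, 33)])),
    (252, (.leaf [(5, 6), (7, 6), (1, 42), (3, 0)])),
    (274, (.leaf [(5, 13), (7, 6), (8, 20), (3, 14)])),
    (560, (.leaf [(4, 41), (5, 27), (7, 42), (0, 9)])),
    (582, (.leaf [(4, 41), (5, 27), (7, 42), (0, 9)])),
    (604, (.leaf [(8, 10), (0, 11), (5, 20), (5, 1)])),
    (626, (.leaf [(6, 14), (8, 14), (0, 46), (4, 22)])),
    (648, (.leaf [(6, 14), (8, 14), (0, 46), (4, 22)])),
    (670, (.leaf [(6, 14), (8, 14), (0, 46), (4, 22)])),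
    (692, (.leaf [(6, 14), (8, 14), (0, 46), (4, 22)])),
    (714, (.leaf [(6, 12), (8, 22), (1, 1), (4, 30)])),
    (736, (.leaf [(6, 19), (8, 29), (0, 37), (5, 19)])),
    (758, (.leaf [(8, 40), (1, 4), (7, 6), (6, 1)])),
    (780, (.leaf [(8, 43), (1, 15), (5, 38), (7, 6)])),
    (802, (.leaf [(0, 45), (6, 14), (8, 37), (6, 30)])),
    (824, (.leaf [(1, 4), (6, 1), (8, 40), (6, 41)])),
    (846, (.leaf [(0, 45), (6, 14), (8, 21), (6, 30)])),
    (868, (.leaf [(0, 46), (6, 12), (8, 40), (6, 26)]))]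

theorem E2p17 : chkP gE E2L 4707328 E2w 9 105 10 40 E2l17 = true := by decide +kernel

end Pool.Agent.K9.C
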