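import Pool.Agent.K9.C.E2D

/-! # K9: peeling of near cells -/

namespace Pool.Agent.K9.C

set_option maxRecDepth 10000

def E2l18 : List (Nat × Tree) :=
  [(890, (.leaf [(0, 46), (6, 14), (8, 39), (6, 26)])),
    (912, (.leaf [(6, 34), (0, 7), (1, 17), (6, 9)])),
    (934, (.leaf [(7, 6), (0, 14), (1, 19), (6, 1)])),
    (956, (.leaf [(6, 36), (4, 10), (0, 18), (1, 32)])),
    (978, (.leaf [(2, 24), (3, 2), (7, 6), (0, 27)])),
    (1000, (.leaf [(6, 46), (0, 34), (1, 45), (1, 40)])),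
    (1022, (.leaf [(2, 24), (0, 41), (6, 30), (5, 20)])),
    (1044, (.leaf [(0, 43), (2, 32), (6, 44), (1, 27)])),
    (1066, (.leaf [(0, 43), (2, 32), (6, 44), (1, 27)])),
    (1088, (.leaf [(0, 42), (2, 41), (6, 42), (6, 21)])),
    (1110, (.leaf [(2, 24), (1, 4), (7, 21), (6, 20)])),
    (1132, (.leaf [(2, 24), (1, 4), (7, 21), (6, 20)])),
    (1154, (.leaf [(1, 29), (3, 4), (6, 39), (3, 26)])),
    (1176, (.leaf [(1, 13), (3, 5), (7, 31), (6, 45)])),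
    (1198, (.leaf [(1, 13), (3, 5), (7, 31), (6, 45)])),
    (1220, (.leaf [(1, 21), (3, 10), (7, 33), (6, 43)])),
    (1242, (.leaf [(1, 36), (3, 11), (7, 35), (6, 37)])),
    (1264, (.leaf [(1, 36), (3, 11), (7, 35), (6, 37)])),
    (1286, (.leaf [(1, 43), (3, 15), (7, 39), (6, 37)])),
    (1308, (.leaf [(2, 6), (3, 21), (7, 43), (6, 37)])),
    (1330, (.leaf [(2, 6), (3, 21), (7, 43), (6, 37)])),
    (1352, (.leaf [(8, 3), (6, 28), (2, 13), (3, 28)])),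
    (1374, (.leaf [(8, 3), (6, 28), (2, 13), (3, 28)])),
    (1396, (.leaf [(8, 3), (6, 28), (2, 13), (3, 28)])),
    (1418, (.leaf [(8, 12), (2, 25), (3, 40), (6, 45)])),
    (1440, (.leaf [(8, 12), (2, 25), (3, 40), (6, 45)])),
    (1462, (.leaf [(8, 12), (2, 25), (3, 40), (6, 45)])),
    (1484, (.leaf [(8, 12), (2, 25), (3, 40), (6, 45)])),
    (1506, (.leaf [(2, 29), (2, 16), (7, 23), (0, 3)])),
    (1902, (.leaf [(0, 16), (4, 29), (6, 17), (8, 17)])),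
    (1924, (.leaf [(0, 39), (4, 23), (6, 18), (8, 19)])),
    (1946, (.leaf [(0, 39), (4, 23), (6, 18), (8, 19)])),
    (1968, (.leaf [(0, 40), (4, 35), (6, 17), (8, 33)])),
    (1990, (.leaf [(0, 40), (4, 35), (6, 17), (8, 33)])),
    (2012, (.leaf [(6, 14), (0, 41), (4, 36), (8, 37)])),
    (2034, (.leaf [(1, 6), (5, 46), (8, 26), (4, 20)])),
    (2056, (.leaf [(6, 17), (1, 11), (8, 38), (4, 44)])),
    (2078, (.leaf [(1, 10), (5, 11), (5, 21), (0, 6)])),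
    (2100, (.leaf [(6, 14), (1, 18), (0, 6), (4, 38)])),
    (2122, (.leaf [(6, 14), (1, 31), (0, 1), (5, 10)])),
    (2144, (.leaf [(1, 34), (5, 34), (5, 5), (0, 17)])),
    (2166, (.leaf [(1, 46), (5, 37), (5, 3), (0, 20)])),
    (2188, (.leaf [(1, 44), (6, 5), (2, 22), (0, 26)]))]

theorem E2p18 : chkP gE E2L 4707328 E2w 10 40 10 100 E2l18 = true := by decide +kernel

def E2l19 : List (Nat × Tree) :=
  [(2210, (.leaf [(2, 8), (6, 4), (3, 31), (0, 29)])),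
    (2232, (.leaf [(2, 12), (6, 13), (2, 18), (0, 38)])),
    (2254, (.leaf [(1, 14), (3, 1), (5, 18), (6, 16)])),
    (2276, (.leaf [(1, 14), (3, 1), (5, 18), (6, 16)])),
    (2298, (.leaf [(1, 14), (3, 1), (5, 18), (6, 16)])),
    (2320, (.leaf [(2, 44), (6, 15), (1, 3), (8, 28)])),
    (2342, (.leaf [(2, 44), (6, 15), (1, 3), (8, 28)])),
    (2364, (.leaf [(2, 44), (6, 15), (1, 3), (8, 28)])),
    (2386, (.leaf [(2, 28), (6, 6), (1, 11), (2, 14)])),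
    (2408, (.leaf [(2, 28), (6, 6), (1, 11), (2, 14)])),
    (2430, (.leaf [(2, 28), (6, 6), (1, 11), (2, 14)])),
    (2452, (.leaf [(3, 6), (5, 29), (6, 31), (1, 30)])),
    (2474, (.leaf [(3, 6), (5, 29), (6, 31), (1, 30)])),
    (2496, (.leaf [(3, 6), (5, 29), (6, 31), (1, 30)])),
    (2518, (.leaf [(3, 12), (2, 0), (5, 41), (6, 45)])),
    (2540, (.leaf [(3, 19), (2, 11), (6, 45), (5, 43)])),
    (2562, (.leaf [(3, 19), (2, 11), (6, 45), (5, 43)])),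
    (2584, (.leaf [(3, 34), (2, 21), (7, 9), (5, 17)])),
    (2606, (.leaf [(3, 34), (2, 21), (7, 9), (5, 17)])),
    (2628, (.leaf [(3, 34), (2, 21), (7, 9), (5, 17)])),
    (11, (.leaf [(3, 35), (2, 17), (6, 20), (7, 21)])),
    (33, (.leaf [(3, 42), (6, 24), (7, 26), (2, 29)])),
    (55, (.leaf [(2, 29), (6, 43), (4, 16), (7, 29)])),
    (77, (.leaf [(2, 29), (7, 1), (4, 20), (7, 38)])),
    (99, (.leaf [(7, 28), (3, 23), (4, 9), (2, 20)])),
    (121, (.leaf [(5, 2), (2, 29), (6, 43), (8, 6)])),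
    (143, (.leaf [(3, 3), (4, 25), (7, 6), (8, 24)])),
    (165, (.leaf [(7, 46), (2, 36), (4, 33), (6, 38)])),
    (187, (.leaf [(7, 2), (8, 2), (3, 25), (4, 40)])),
    (209, (.leaf [(7, 4), (8, 4), (3, 27), (4, 45)])),
    (231, (.leaf [(8, 0), (3, 38), (5, 8), (6, 33)])),
    (253, (.leaf [(5, 6), (7, 6), (1, 42), (3, 0)])),
    (275, (.leaf [(5, 13), (7, 6), (8, 20), (3, 14)])),
    (539, (.leaf [(5, 46), (7, 37), (0, 12), (4, 1)])),
    (561, (.leaf [(4, 41), (5, 27), (7, 42), (0, 9)])),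
    (583, (.leaf [(4, 41), (5, 27), (7, 42), (0, 9)])),
    (605, (.leaf [(8, 10), (0, 11), (5, 20), (5, 1)])),
    (627, (.leaf [(6, 14), (8, 14), (0, 46), (4, 22)])),
    (649, (.leaf [(6, 14), (8, 14), (0, 46), (4, 22)])),
    (671, (.leaf [(6, 14), (8, 14), (0, 46), (4, 22)])),
    (693, (.leaf [(6, 12), (8, 22), (1, 1), (4, 30)])),
    (715, (.leaf [(6, 12), (8, 22), (1, 1), (4, 30)])),
    (737, (.leaf [(6, 19), (8, 29), (0, 37), (5, 19)]))]

theorem E2p19 : chkP gE E2L 4707328 E2w 10 100 11 34 E2l19 = true := by decide +kernel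

def E2l20 : List (Nat × Tree) :=
  [(759, (.leaf [(8, 40), (1, 4), (7, 6), (6, 1)])),
    (781, (.leaf [(8, 43), (1, 15), (5, 38), (7, 6)])),
    (803, (.leaf [(0, 45), (5, 46), (8, 40), (7, 21)])),
    (825, (.leaf [(1, 4), (6, 1), (8, 40), (6, 41)])),
    (847, (.leaf [(0, 45), (6, 14), (8, 21), (6, 30)])),
    (869, (.leaf [(0, 46), (6, 12), (8, 40), (6, 26)])),
    (891, (.leaf [(0, 45), (5, 46), (8, 21), (6, 30)])),
    (913, (.leaf [(6, 34), (0, 7), (1, 17), (6, 9)])),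
    (935, (.leaf [(7, 6), (0, 14), (1, 19), (6, 1)])),
    (957, (.leaf [(6, 36), (4, 10), (0, 18), (1, 32)])),
    (979, (.leaf [(2, 24), (3, 2), (7, 6), (0, 27)])),
    (1001, (.leaf [(6, 46), (0, 34), (1, 45), (1, 40)])),
    (1023, (.leaf [(2, 24), (0, 41), (6, 30), (5, 20)])),
    (1045, (.leaf [(0, 43), (2, 32), (6, 44), (1, 27)])),
    (1067, (.leaf [(0, 43), (2, 32), (6, 44), (1, 27)])),
    (1089, (.leaf [(0, 42), (2, 41), (6, 42), (6, 21)])),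
    (1111, (.leaf [(2, 24), (1, 4), (7, 21), (6, 20)])),
    (1133, (.leaf [(2, 24), (1, 4), (7, 21), (6, 20)])),
    (1155, (.leaf [(2, 24), (0, 41), (6, 42), (6, 21)])),
    (1177, (.leaf [(1, 13), (3, 5), (7, 31), (6, 45)])),
    (1199, (.leaf [(1, 13), (3, 5), (7, 31), (6, 45)])),
    (1221, (.leaf [(1, 21), (3, 10), (7, 33), (6, 43)])),
    (1243, (.leaf [(1, 36), (3, 11), (7, 35), (6, 37)])),
    (1265, (.leaf [(1, 36), (3, 11), (7, 35), (6, 37)])),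
    (1287, (.leaf [(1, 43), (3, 15), (7, 39), (6, 37)])),
    (1309, (.leaf [(2, 6), (3, 21), (7, 43), (6, 37)])),
    (1331, (.leaf [(2, 6), (3, 21), (7, 43), (6, 37)])),
    (1353, (.leaf [(8, 3), (6, 28), (2, 13), (3, 28)])),
    (1375, (.leaf [(8, 3), (6, 28), (2, 13), (3, 28)])),
    (1397, (.leaf [(8, 3), (6, 28), (2, 13), (3, 28)])),
    (1419, (.leaf [(8, 12), (2, 25), (3, 40), (6, 45)])),
    (1441, (.leaf [(8, 12), (2, 25), (3, 40), (6, 45)])),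
    (1463, (.leaf [(8, 12), (2, 25), (3, 40), (6, 45)])),
    (1485, (.leaf [(8, 12), (2, 25), (3, 40), (6, 45)])),
    (1507, (.leaf [(2, 29), (2, 16), (7, 23), (0, 3)])),
    (1903, (.leaf [(0, 16), (4, 29), (6, 17), (8, 17)])),
    (1925, (.leaf [(0, 39), (4, 23), (6, 18), (8, 19)])),
    (1947, (.leaf [(0, 39), (4, 23), (6, 18), (8, 19)])),
    (1969, (.leaf [(0, 40), (4, 35), (6, 17), (8, 33)])),
    (1991, (.leaf [(0, 40), (4, 35), (6, 17), (8, 33)])),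
    (2013, (.leaf [(0, 44), (4, 19), (5, 42), (0, 0)])),
    (2035, (.leaf [(1, 6), (5, 46), (8, 26), (4, 20)]))]

theorem E2p20 : chkP gE E2L 4707328 E2w 11 34 11 93 E2l20 = true := by decide +kernel

def E2l21 : List (Nat × Tree) :=
  [(2057, (.leaf [(6, 17), (1, 11), (8, 38), (4, 44)])),
    (2079, (.leaf [(1, 10), (5, 11), (5, 21), (0, 6)])),
    (2101, (.leaf [(6, 14), (1, 18), (0, 6), (4, 38)])),
    (2123, (.leaf [(6, 14), (1, 31), (0, 1), (5, 10)])),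
    (2145, (.leaf [(1, 34), (5, 34), (5, 5), (0, 17)])),
    (2167, (.leaf [(1, 46), (5, 37), (5, 3), (0, 20)])),
    (2189, (.leaf [(1, 44), (6, 5), (2, 22), (0, 26)])),
    (2211, (.leaf [(2, 8), (6, 4), (3, 31), (0, 29)])),
    (2233, (.leaf [(2, 12), (6, 13), (2, 18), (0, 38)])),
    (2255, (.leaf [(1, 14), (3, 1), (5, 18), (6, 16)])),
    (2277, (.leaf [(1, 14), (3, 1), (5, 18), (6, 16)])),
    (2299, (.leaf [(1, 14), (3, 1), (5, 18), (6, 16)])),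
    (2321, (.leaf [(2, 44), (6, 15), (1, 3), (8, 28)])),
    (2343, (.leaf [(2, 44), (6, 15), (1, 3), (8, 28)])),
    (2365, (.leaf [(2, 44), (6, 15), (1, 3), (8, 28)])),
    (2387, (.leaf [(2, 28), (6, 6), (1, 11), (2, 14)])),
    (2409, (.leaf [(2, 28), (6, 6), (1, 11), (2, 14)])),
    (2431, (.leaf [(2, 28), (6, 6), (1, 11), (2, 14)])),
    (2453, (.leaf [(3, 6), (5, 29), (6, 31), (1, 30)])),
    (2475, (.leaf [(3, 6), (5, 29), (6, 31), (1, 30)])),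
    (2497, (.leaf [(3, 6), (5, 29), (6, 31), (1, 30)])),
    (2519, (.leaf [(3, 12), (2, 0), (5, 41), (6, 45)])),
    (2541, (.leaf [(3, 19), (2, 11), (6, 45), (5, 43)])),
    (2563, (.leaf [(3, 19), (2, 11), (6, 45), (5, 43)])),
    (2585, (.leaf [(3, 34), (2, 21), (7, 9), (5, 17)])),
    (2607, (.leaf [(3, 34), (2, 21), (7, 9), (5, 17)])),
    (2629, (.leaf [(3, 34), (2, 21), (7, 9), (5, 17)])),
    (12, (.leaf [(3, 37), (6, 23), (7, 5), (2, 29)])),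
    (34, (.leaf [(3, 42), (6, 24), (7, 26), (2, 29)])),
    (56, (.leaf [(2, 29), (6, 43), (4, 16), (7, 29)])),
    (78, (.leaf [(2, 29), (7, 1), (4, 20), (7, 38)])),
    (100, (.leaf [(7, 28), (3, 23), (4, 9), (2, 20)])),
    (122, (.leaf [(5, 2), (2, 29), (6, 43), (8, 6)])),
    (144, (.leaf [(3, 3), (4, 25), (7, 6), (8, 24)])),
    (166, (.leaf [(7, 46), (2, 36), (4, 33), (6, 38)])),
    (188, (.leaf [(7, 2), (8, 2), (3, 25), (4, 40)])),
    (210, (.leaf [(7, 4), (8, 4), (3, 27), (4, 45)])),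
    (232, (.leaf [(8, 0), (3, 38), (5, 8), (6, 33)])),
    (254, (.leaf [(3, 29), (5, 4), (7, 6), (8, 31)])),
    (276, (.leaf [(3, 33), (5, 12), (7, 6), (8, 31)])),
    (540, (.leaf [(5, 46), (7, 37), (0, 12), (4, 1)])),
    (562, (.leaf [(4, 41), (5, 27), (7, 42), (0, 9)])),
    (584, (.leaf [(8, 10), (0, 11), (5, 20), (5, 1)]))]

theorem E2p21 : chkP gE E2L 4707328 E2w 11 93 12 27 E2l21 = true := by decide +kernel

def E2l22 : List (Nat × Tree) :=
  [(606, (.leaf [(8, 10), (0, 11), (5, 20), (5, 1)])),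
    (628, (.leaf [(6, 14), (8, 14), (0, 46), (4, 22)])),
    (650, (.leaf [(6, 14), (8, 14), (0, 46), (4, 22)])),
    (672, (.leaf [(6, 14), (8, 14), (0, 46), (4, 22)])),
    (694, (.leaf [(6, 12), (8, 22), (1, 1), (4, 30)])),
    (716, (.leaf [(6, 12), (8, 22), (1, 1), (4, 30)])),
    (738, (.leaf [(6, 19), (8, 29), (0, 37), (5, 19)])),
    (760, (.leaf [(8, 40), (1, 4), (7, 6), (6, 1)])),
    (782, (.leaf [(8, 43), (1, 15), (5, 38), (7, 6)])),
    (804, (.leaf [(0, 45), (5, 46), (8, 40), (7, 21)])),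
    (826, (.leaf [(1, 4), (6, 1), (8, 40), (6, 41)])),
    (848, (.leaf [(0, 45), (6, 14), (8, 21), (6, 30)])),
    (870, (.leaf [(0, 46), (6, 12), (8, 40), (6, 26)])),
    (892, (.leaf [(0, 45), (5, 46), (8, 21), (6, 30)])),
    (914, (.leaf [(6, 34), (0, 7), (1, 17), (6, 9)])),
    (936, (.leaf [(7, 6), (0, 14), (1, 19), (6, 1)])),
    (958, (.leaf [(6, 36), (4, 10), (0, 18), (1, 32)])),
    (980, (.leaf [(7, 6), (0, 25), (1, 23), (2, 1)])),
    (1002, (.leaf [(6, 46), (0, 34), (1, 45), (1, 40)])),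
    (1024, (.leaf [(2, 24), (0, 41), (6, 30), (5, 20)])),
    (1046, (.leaf [(0, 43), (2, 32), (6, 44), (1, 27)])),
    (1068, (.leaf [(0, 43), (2, 32), (6, 44), (1, 27)])),
    (1090, (.leaf [(0, 42), (2, 41), (6, 42), (6, 21)])),
    (1112, (.leaf [(2, 24), (1, 4), (7, 21), (6, 20)])),
    (1134, (.leaf [(2, 24), (1, 4), (7, 21), (6, 20)])),
    (1156, (.leaf [(2, 24), (0, 41), (6, 42), (6, 21)])),
    (1178, (.leaf [(1, 13), (3, 5), (7, 31), (6, 45)])),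
    (1200, (.leaf [(1, 13), (3, 5), (7, 31), (6, 45)])),
    (1222, (.leaf [(1, 21), (3, 10), (7, 33), (6, 43)])),
    (1244, (.leaf [(1, 36), (3, 11), (7, 35), (6, 37)])),
    (1266, (.leaf [(1, 36), (3, 11), (7, 35), (6, 37)])),
    (1288, (.leaf [(1, 43), (3, 15), (7, 39), (6, 37)])),
    (1310, (.leaf [(2, 6), (3, 21), (7, 43), (6, 37)])),
    (1332, (.leaf [(2, 6), (3, 21), (7, 43), (6, 37)])),
    (1354, (.leaf [(8, 3), (6, 28), (2, 13), (3, 28)])),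
    (1376, (.leaf [(8, 3), (6, 28), (2, 13), (3, 28)])),
    (1398, (.leaf [(8, 3), (6, 28), (2, 13), (3, 28)])),
    (1420, (.leaf [(8, 12), (2, 25), (3, 40), (6, 45)])),
    (1442, (.leaf [(8, 12), (2, 25), (3, 40), (6, 45)])),
    (1464, (.leaf [(8, 12), (2, 25), (3, 40), (6, 45)])),
    (1486, (.leaf [(2, 29), (2, 16), (7, 23), (0, 3)])),
    (1508, (.leaf [(2, 29), (2, 16), (7, 23), (0, 3)])),
    (1926, (.leaf [(0, 39), (4, 23), (6, 18), (8, 19)]))]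

theorem E2p22 : chkP gE E2L 4707328 E2w 12 27 12 88 E2l22 = true := by decide +kernel

def E2l23 : List (Nat × Tree) :=
  [(1948, (.leaf [(0, 39), (4, 23), (6, 18), (8, 19)])),
    (1970, (.leaf [(0, 40), (4, 35), (6, 17), (8, 33)])),
    (1992, (.leaf [(0, 33), (4, 13), (5, 35), (8, 45)])),
    (2014, (.leaf [(0, 44), (4, 19), (5, 42), (0, 0)])),
    (2036, (.leaf [(1, 6), (5, 46), (8, 26), (4, 20)])),
    (2058, (.leaf [(6, 17), (1, 11), (8, 38), (4, 44)])),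
    (2080, (.leaf [(1, 24), (4, 37), (5, 26), (0, 10)])),
    (2102, (.leaf [(1, 31), (5, 0), (5, 22), (0, 15)])),
    (2124, (.leaf [(5, 46), (1, 35), (0, 1), (4, 16)])),
    (2146, (.leaf [(5, 24), (5, 15), (0, 21), (2, 7)])),
    (2168, (.leaf [(1, 46), (5, 37), (5, 3), (0, 20)])),
    (2190, (.leaf [(2, 3), (6, 0), (4, 31), (0, 35)])),
    (2212, (.leaf [(2, 8), (6, 4), (3, 31), (0, 29)])),
    (2234, (.leaf [(2, 12), (6, 13), (2, 18), (0, 38)])),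
    (2256, (.leaf [(1, 14), (3, 1), (5, 18), (6, 16)])),
    (2278, (.leaf [(1, 14), (3, 1), (5, 18), (6, 16)])),
    (2300, (.leaf [(1, 14), (3, 1), (5, 18), (6, 16)])),
    (2322, (.leaf [(2, 44), (6, 15), (1, 3), (8, 28)])),
    (2344, (.leaf [(2, 44), (6, 15), (1, 3), (8, 28)])),
    (2366, (.leaf [(2, 44), (6, 15), (1, 3), (8, 28)])),
    (2388, (.leaf [(2, 28), (6, 6), (1, 11), (2, 14)])),
    (2410, (.leaf [(2, 28), (6, 6), (1, 11), (2, 14)])),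
    (2432, (.leaf [(2, 28), (6, 6), (1, 11), (2, 14)])),
    (2454, (.leaf [(3, 6), (5, 29), (6, 31), (1, 30)])),
    (2476, (.leaf [(3, 6), (5, 29), (6, 31), (1, 30)])),
    (2498, (.leaf [(3, 6), (5, 29), (6, 31), (1, 30)])),
    (2520, (.leaf [(3, 12), (2, 0), (5, 41), (6, 45)])),
    (2542, (.leaf [(3, 19), (2, 11), (6, 45), (5, 43)])),
    (2564, (.leaf [(3, 19), (2, 11), (6, 45), (5, 43)])),
    (2586, (.leaf [(3, 34), (2, 21), (7, 9), (5, 17)])),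
    (2608, (.leaf [(3, 34), (2, 21), (7, 9), (5, 17)])),
    (2630, (.leaf [(3, 34), (2, 21), (7, 9), (5, 17)])),
    (13, (.leaf [(3, 37), (6, 23), (7, 5), (2, 29)])),
    (35, (.leaf [(7, 17), (2, 23), (3, 41), (6, 22)])),
    (57, (.leaf [(3, 43), (6, 25), (7, 11), (2, 29)])),
    (79, (.leaf [(4, 2), (7, 6), (2, 29), (8, 41)])),
    (101, (.leaf [(4, 8), (7, 6), (2, 29), (8, 41)])),
    (123, (.leaf [(5, 2), (2, 29), (6, 43), (8, 6)])),
    (145, (.leaf [(3, 3), (4, 25), (7, 6), (8, 24)])),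
    (167, (.leaf [(7, 46), (2, 36), (4, 33), (6, 38)])),
    (189, (.leaf [(4, 42), (7, 6), (2, 34), (8, 34)])),
    (211, (.leaf [(7, 4), (8, 4), (3, 27), (4, 45)])),
    (233, (.leaf [(8, 0), (3, 38), (5, 8), (6, 33)]))]

theorem E2p23 : chkP gE E2L 4707328 E2w 12 88 13 11 E2l23 = true := by decide +kernel

def E2l24 : List (Nat × Tree) :=
  [(255, (.leaf [(3, 29), (5, 4), (7, 6), (8, 31)])),
    (277, (.leaf [(3, 33), (5, 12), (7, 6), (8, 31)])),
    (541, (.leaf [(5, 46), (7, 37), (0, 12), (4, 1)])),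
    (563, (.leaf [(4, 41), (5, 27), (7, 42), (0, 9)])),
    (585, (.leaf [(8, 10), (0, 11), (5, 20), (5, 1)])),
    (607, (.leaf [(8, 10), (0, 11), (5, 20), (5, 1)])),
    (629, (.leaf [(6, 14), (8, 14), (0, 46), (4, 22)])),
    (651, (.leaf [(6, 14), (8, 14), (0, 46), (4, 22)])),
    (673, (.leaf [(6, 14), (8, 14), (0, 46), (4, 22)])),
    (695, (.leaf [(6, 12), (8, 22), (1, 1), (4, 30)])),
    (717, (.leaf [(6, 12), (8, 22), (1, 1), (4, 30)])),
    (739, (.leaf [(6, 19), (8, 29), (0, 37), (5, 19)])),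
    (761, (.leaf [(8, 44), (1, 25), (5, 28), (7, 7)])),
    (783, (.leaf [(8, 43), (1, 15), (5, 38), (7, 6)])),
    (805, (.leaf [(5, 46), (0, 45), (7, 21), (8, 13)])),
    (827, (.leaf [(1, 1), (6, 11), (8, 43), (7, 2)])),
    (849, (.leaf [(0, 45), (5, 46), (8, 13), (6, 30)])),
    (871, (.leaf [(0, 46), (6, 12), (8, 40), (6, 26)])),
    (893, (.leaf [(0, 45), (5, 46), (8, 21), (6, 30)])),
    (915, (.leaf [(6, 34), (0, 7), (1, 17), (6, 9)])),
    (937, (.leaf [(7, 6), (0, 14), (1, 19), (6, 1)])),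
    (959, (.leaf [(6, 36), (4, 10), (0, 18), (1, 32)])),
    (981, (.leaf [(7, 6), (0, 25), (1, 23), (2, 1)])),
    (1003, (.leaf [(7, 6), (0, 32), (1, 28), (1, 41)])),
    (1025, (.leaf [(2, 24), (0, 41), (6, 30), (5, 20)])),
    (1047, (.leaf [(0, 43), (2, 32), (6, 44), (1, 27)])),
    (1069, (.leaf [(0, 43), (2, 32), (6, 44), (1, 27)])),
    (1091, (.leaf [(0, 42), (2, 41), (6, 42), (6, 21)])),
    (1113, (.leaf [(0, 41), (7, 21), (6, 20), (2, 17)])),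
    (1135, (.leaf [(2, 24), (1, 4), (7, 21), (6, 20)])),
    (1157, (.leaf [(2, 24), (0, 41), (6, 42), (6, 21)])),
    (1179, (.leaf [(1, 13), (3, 5), (7, 31), (6, 45)])),
    (1201, (.leaf [(1, 21), (3, 10), (7, 33), (6, 43)])),
    (1223, (.leaf [(1, 21), (3, 10), (7, 33), (6, 43)])),
    (1245, (.leaf [(1, 36), (3, 11), (7, 35), (6, 37)])),
    (1267, (.leaf [(1, 36), (3, 11), (7, 35), (6, 37)])),
    (1289, (.leaf [(1, 43), (3, 15), (7, 39), (6, 37)])),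
    (1311, (.leaf [(2, 6), (3, 21), (7, 43), (6, 37)])),
    (1333, (.leaf [(2, 6), (3, 21), (7, 43), (6, 37)])),
    (1355, (.leaf [(8, 3), (6, 28), (2, 13), (3, 28)])),
    (1377, (.leaf [(8, 3), (6, 28), (2, 13), (3, 28)])),
    (1399, (.leaf [(8, 3), (6, 28), (2, 13), (3, 28)]))]

theorem E2p24 : chkP gE E2L 4707328 E2w 13 11 13 64 E2l24 = true := by decide +kernel

def E2l25 : List (Nat × Tree) :=
  [(1421, (.leaf [(8, 12), (2, 25), (3, 40), (6, 45)])),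
    (1443, (.leaf [(8, 12), (2, 25), (3, 40), (6, 45)])),
    (1465, (.leaf [(8, 12), (2, 25), (3, 40), (6, 45)])),
    (1487, (.leaf [(2, 29), (2, 16), (7, 23), (0, 3)])),
    (1509, (.leaf [(2, 29), (2, 16), (7, 23), (0, 3)])),
    (1927, (.leaf [(0, 39), (4, 23), (6, 18), (8, 19)])),
    (1949, (.leaf [(0, 39), (4, 23), (6, 18), (8, 19)])),
    (1971, (.leaf [(0, 40), (4, 35), (6, 17), (8, 33)])),
    (1993, (.leaf [(0, 33), (4, 13), (5, 35), (8, 45)])),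
    (2015, (.leaf [(1, 2), (4, 14), (5, 39), (0, 4)])),
    (2037, (.leaf [(1, 6), (5, 46), (8, 26), (4, 20)])),
    (2059, (.leaf [(1, 18), (4, 21), (5, 32), (0, 13)])),
    (2081, (.leaf [(1, 24), (4, 37), (5, 26), (0, 10)])),
    (2103, (.leaf [(1, 31), (5, 0), (5, 22), (0, 15)])),
    (2125, (.leaf [(5, 46), (1, 35), (0, 1), (4, 16)])),
    (2147, (.leaf [(5, 24), (5, 15), (0, 21), (2, 7)])),
    (2169, (.leaf [(1, 46), (5, 37), (5, 3), (0, 20)])),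
    (2191, (.leaf [(2, 3), (6, 0), (4, 31), (0, 35)])),
    (2213, (.leaf [(2, 8), (6, 4), (3, 31), (0, 29)])),
    (2235, (.leaf [(2, 12), (6, 13), (2, 18), (0, 38)])),
    (2257, (.leaf [(1, 14), (3, 1), (5, 18), (6, 16)])),
    (2279, (.leaf [(1, 14), (3, 1), (5, 18), (6, 16)])),
    (2301, (.leaf [(1, 14), (3, 1), (5, 18), (6, 16)])),
    (2323, (.leaf [(2, 44), (6, 15), (1, 3), (8, 28)])),
    (2345, (.leaf [(2, 44), (6, 15), (1, 3), (8, 28)])),
    (2367, (.leaf [(2, 44), (6, 15), (1, 3), (8, 28)])),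
    (2389, (.leaf [(2, 28), (6, 6), (1, 11), (2, 14)])),
    (2411, (.leaf [(2, 28), (6, 6), (1, 11), (2, 14)])),
    (2433, (.leaf [(2, 28), (6, 6), (1, 11), (2, 14)])),
    (2455, (.leaf [(3, 6), (5, 29), (6, 31), (1, 30)])),
    (2477, (.leaf [(3, 6), (5, 29), (6, 31), (1, 30)])),
    (2499, (.leaf [(3, 6), (5, 29), (6, 31), (1, 30)])),
    (2521, (.leaf [(3, 12), (2, 0), (5, 41), (6, 45)])),
    (2543, (.leaf [(3, 19), (2, 11), (6, 45), (5, 43)])),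
    (2565, (.leaf [(3, 34), (2, 21), (7, 9), (5, 17)])),
    (2587, (.leaf [(3, 34), (2, 21), (7, 9), (5, 17)])),
    (2609, (.leaf [(3, 34), (2, 21), (7, 9), (5, 17)])),
    (2631, (.leaf [(3, 34), (2, 21), (7, 9), (5, 17)])),
    (14, (.leaf [(6, 20), (7, 21), (2, 29), (4, 12)])),
    (36, (.leaf [(7, 17), (2, 23), (3, 41), (6, 22)])),
    (58, (.leaf [(3, 45), (6, 24), (7, 8), (2, 29)])),
    (80, (.leaf [(4, 2), (7, 6), (2, 29), (8, 41)])),
    (102, (.leaf [(4, 8), (7, 6), (2, 29), (8, 41)]))]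

theorem E2p25 : chkP gE E2L 4707328 E2w 13 64 14 5 E2l25 = true := by decide +kernel

def E2l26 : List (Nat × Tree) :=
  [(124, (.leaf [(5, 2), (2, 29), (6, 43), (8, 6)])),
    (146, (.leaf [(3, 3), (4, 25), (7, 6), (8, 24)])),
    (168, (.leaf [(7, 46), (2, 36), (4, 33), (6, 38)])),
    (190, (.leaf [(4, 42), (7, 6), (2, 34), (8, 34)])),
    (212, (.leaf [(4, 46), (7, 6), (2, 46), (8, 36)])),
    (234, (.leaf [(8, 0), (3, 38), (5, 8), (6, 33)])),
    (256, (.leaf [(3, 30), (5, 9), (7, 6), (8, 35)])),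
    (542, (.leaf [(4, 41), (5, 27), (7, 42), (0, 9)])),
    (564, (.leaf [(4, 41), (5, 27), (7, 42), (0, 9)])),
    (586, (.leaf [(8, 10), (0, 11), (5, 20), (5, 1)])),
    (608, (.leaf [(8, 10), (0, 11), (5, 20), (5, 1)])),
    (630, (.leaf [(6, 14), (8, 14), (0, 46), (4, 22)])),
    (652, (.leaf [(6, 14), (8, 14), (0, 46), (4, 22)])),
    (674, (.leaf [(6, 14), (8, 14), (0, 46), (4, 22)])),
    (696, (.leaf [(6, 12), (8, 22), (1, 1), (4, 30)])),
    (718, (.leaf [(6, 12), (8, 22), (1, 1), (4, 30)])),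
    (740, (.leaf [(6, 19), (8, 29), (0, 37), (5, 19)])),
    (762, (.leaf [(8, 44), (1, 25), (5, 28), (7, 7)])),
    (784, (.leaf [(8, 42), (1, 20), (5, 36), (7, 6)])),
    (806, (.leaf [(5, 46), (0, 45), (7, 21), (8, 9)])),
    (828, (.leaf [(1, 1), (6, 11), (8, 43), (7, 2)])),
    (850, (.leaf [(0, 45), (5, 46), (8, 13), (6, 30)])),
    (872, (.leaf [(0, 45), (5, 46), (8, 9), (6, 30)])),
    (894, (.leaf [(0, 45), (5, 46), (8, 21), (6, 30)])),
    (916, (.leaf [(6, 34), (0, 7), (1, 17), (6, 9)])),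
    (938, (.leaf [(7, 6), (0, 14), (1, 19), (6, 1)])),
    (960, (.leaf [(6, 36), (4, 10), (0, 18), (1, 32)])),
    (982, (.leaf [(7, 6), (0, 23), (1, 16), (2, 10)])),
    (1004, (.leaf [(7, 6), (0, 32), (1, 28), (1, 41)])),
    (1026, (.leaf [(7, 6), (0, 36), (1, 33), (1, 37)])),
    (1048, (.leaf [(0, 43), (2, 32), (6, 44), (1, 27)])),
    (1070, (.leaf [(0, 43), (2, 32), (6, 44), (1, 27)])),
    (1092, (.leaf [(0, 42), (2, 41), (6, 42), (6, 21)])),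
    (1114, (.leaf [(0, 41), (7, 21), (6, 20), (2, 17)])),
    (1136, (.leaf [(2, 24), (1, 4), (7, 21), (6, 20)])),
    (1158, (.leaf [(2, 24), (0, 41), (6, 42), (6, 21)])),
    (1180, (.leaf [(1, 13), (3, 5), (7, 31), (6, 45)])),
    (1202, (.leaf [(1, 21), (3, 10), (7, 33), (6, 43)])),
    (1224, (.leaf [(1, 21), (3, 10), (7, 33), (6, 43)])),
    (1246, (.leaf [(1, 36), (3, 11), (7, 35), (6, 37)])),
    (1268, (.leaf [(1, 43), (3, 15), (7, 39), (6, 37)])),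
    (1290, (.leaf [(1, 43), (3, 15), (7, 39), (6, 37)])),
    (1312, (.leaf [(2, 6), (3, 21), (7, 43), (6, 37)]))]

theorem E2p26 : chkP gE E2L 4707328 E2w 14 5 14 60 E2l26 = true := by decide +kernel

def E2l27 : List (Nat × Tree) :=
  [(1334, (.leaf [(2, 6), (3, 21), (7, 43), (6, 37)])),
    (1356, (.leaf [(8, 3), (6, 28), (2, 13), (3, 28)])),
    (1378, (.leaf [(8, 3), (6, 28), (2, 13), (3, 28)])),
    (1400, (.leaf [(8, 3), (6, 28), (2, 13), (3, 28)])),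
    (1422, (.leaf [(8, 12), (2, 25), (3, 40), (6, 45)])),
    (1444, (.leaf [(8, 12), (2, 25), (3, 40), (6, 45)])),
    (1466, (.leaf [(8, 12), (2, 25), (3, 40), (6, 45)])),
    (1488, (.leaf [(2, 29), (2, 16), (7, 23), (0, 3)])),
    (1510, (.leaf [(2, 29), (2, 16), (7, 23), (0, 3)])),
    (1532, (.leaf [(2, 29), (2, 16), (7, 23), (0, 3)])),
    (1928, (.leaf [(0, 39), (4, 23), (6, 18), (8, 19)])),
    (1950, (.leaf [(0, 39), (4, 23), (6, 18), (8, 19)])),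
    (1972, (.leaf [(0, 40), (4, 35), (6, 17), (8, 33)])),
    (1994, (.leaf [(1, 2), (3, 46), (5, 30), (0, 2)])),
    (2016, (.leaf [(1, 6), (4, 3), (5, 33), (0, 5)])),
    (2038, (.leaf [(1, 11), (4, 11), (5, 40), (0, 8)])),
    (2060, (.leaf [(1, 18), (4, 21), (5, 32), (0, 13)])),
    (2082, (.leaf [(1, 26), (4, 24), (5, 44), (0, 19)])),
    (2104, (.leaf [(1, 35), (4, 32), (5, 22), (0, 24)])),
    (2126, (.leaf [(1, 39), (4, 43), (5, 23), (0, 28)])),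
    (2148, (.leaf [(5, 24), (5, 15), (0, 21), (2, 7)])),
    (2170, (.leaf [(1, 46), (5, 37), (5, 3), (0, 20)])),
    (2192, (.leaf [(2, 3), (6, 0), (4, 31), (0, 35)])),
    (2214, (.leaf [(2, 8), (6, 4), (3, 31), (0, 29)])),
    (2236, (.leaf [(2, 12), (6, 13), (2, 18), (0, 38)])),
    (2258, (.leaf [(1, 14), (3, 1), (5, 18), (6, 16)])),
    (2280, (.leaf [(1, 14), (3, 1), (5, 18), (6, 16)])),
    (2302, (.leaf [(1, 14), (3, 1), (5, 18), (6, 16)])),
    (2324, (.leaf [(2, 44), (6, 15), (1, 3), (8, 28)])),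
    (2346, (.leaf [(2, 44), (6, 15), (1, 3), (8, 28)])),
    (2368, (.leaf [(2, 44), (6, 15), (1, 3), (8, 28)])),
    (2390, (.leaf [(2, 28), (6, 6), (1, 11), (2, 14)])),
    (2412, (.leaf [(2, 28), (6, 6), (1, 11), (2, 14)])),
    (2434, (.leaf [(2, 28), (6, 6), (1, 11), (2, 14)])),
    (2456, (.leaf [(3, 6), (5, 29), (6, 31), (1, 30)])),
    (2478, (.leaf [(3, 6), (5, 29), (6, 31), (1, 30)])),
    (2500, (.leaf [(3, 7), (1, 38), (5, 45), (7, 19)])),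
    (2522, (.leaf [(3, 12), (2, 0), (5, 41), (6, 45)])),
    (2544, (.leaf [(3, 19), (2, 11), (6, 45), (5, 43)])),
    (2566, (.leaf [(3, 34), (2, 21), (7, 9), (5, 17)])),
    (2588, (.leaf [(3, 34), (2, 21), (7, 9), (5, 17)])),
    (2610, (.leaf [(3, 34), (2, 21), (7, 9), (5, 17)])),
    (2632, (.leaf [(3, 34), (2, 21), (7, 9), (5, 17)]))]

theorem E2p27 : chkP gE E2L 4707328 E2w 14 60 15 0 E2l27 = true := by decide +kernel

end Pool.Agent.K9.C
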