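import Mathlib
import Pool.Agent.K9.Main
import Pool.Agent.K9.C.OKgE
import Pool.Agent.K9.C.E2M0
import Pool.Agent.K9.C.E2M1
import Pool.Agent.K9.C.E2M2
import Pool.Agent.K9.C.E2M3
import Pool.Agent.K9.C.E2P0
import Pool.Agent.K9.C.E2P1
import Pool.Agent.K9.C.E2P2

/-! # K9: a box with far outer points -/

namespace Pool.Agent.K9.C

set_option maxRecDepth 10000

theorem E2all : List.all E2L cokB = true := by decide +kernel

theorem E2mem : MRange gE E2L 4707328 E2w 0 2640 :=
  (MRange.join (MRange.join (MRange.join (MRange.join (MRange.join (MRange.join (MRange.join (MRange.join (MRange.join (MRange.join (MRange.join (MRange.join (MRange.join (MRange.join (MRange.join (MRange.join (MRange.join (MRange.join (MRange.join (MRange.join (MRange.join (MRange.join (MRange.join (MRange.join (MRange.join (MRange.join (MRange.join (MRange.join (MRange.join (MRange.join (MRange.join (MRange.join (MRange.join (MRange.join (MRange.join (MRange.join (mrange_of_chk (b := 57) rfl E2m0)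
    (mrange_of_chk (b := 114) rfl E2m1))
    (mrange_of_chk (b := 165) rfl E2m2))
    (mrange_of_chk (b := 217) rfl E2m3))
    (mrange_of_chk (b := 274) rfl E2m4))
    (mrange_of_chk (b := 568) rfl E2m5))
    (mrange_of_chk (b := 631) rfl E2m6))
    (mrange_of_chk (b := 693) rfl E2m7))
    (mrange_of_chk (b := 754) rfl E2m8))
    (mrange_of_chk (b := 811) rfl E2m9))
    (mrange_of_chk (b := 868) rfl E2m10))
    (mrange_of_chk (b := 921) rfl E2m11))
    (mrange_of_chk (b := 976) rfl E2m12))
    (mrange_of_chk (b := 1029) rfl E2m13))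
    (mrange_of_chk (b := 1086) rfl E2m14))
    (mrange_of_chk (b := 1138) rfl E2m15))
    (mrange_of_chk (b := 1195) rfl E2m16))
    (mrange_of_chk (b := 1251) rfl E2m17))
    (mrange_of_chk (b := 1311) rfl E2m18))
    (mrange_of_chk (b := 1371) rfl E2m19))
    (mrange_of_chk (b := 1425) rfl E2m20))
    (mrange_of_chk (b := 1491) rfl E2m21))
    (mrange_of_chk (b := 1903) rfl E2m22))
    (mrange_of_chk (b := 1966) rfl E2m23))
    (mrange_of_chk (b := 2019) rfl E2m24))
    (mrange_of_chk (b := 2076) rfl E2m25))
    (mrange_of_chk (b := 2129) rfl E2m26))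
    (mrange_of_chk (b := 2184) rfl E2m27))
    (mrange_of_chk (b := 2236) rfl E2m28))
    (mrange_of_chk (b := 2292) rfl E2m29))
    (mrange_of_chk (b := 2345) rfl E2m30))
    (mrange_of_chk (b := 2403) rfl E2m31))
    (mrange_of_chk (b := 2456) rfl E2m32))
    (mrange_of_chk (b := 2514) rfl E2m33))
    (mrange_of_chk (b := 2570) rfl E2m34))
    (mrange_of_chk (b := 2632) rfl E2m35))
    (mrange_of_chk (b := 2640) rfl E2m36))

theorem E2peel : Peel gE E2L 4707328 E2w 0 0 15 0 :=
  (Peel.trans (Peel.trans (Peel.trans (Peel.trans (Peel.trans (Peel.trans (Peel.trans (Peel.trans (Peel.trans (Peel.trans (Peel.trans (Peel.trans (Peel.trans (Peel.trans (Peel.trans (Peel.trans (Peel.trans (Peel.trans (Peel.trans (Peel.trans (Peel.trans (Peel.trans (Peel.trans (Peel.trans (Peel.trans (Peel.trans (Peel.trans (peel_of_chk gE_ok E2all (by norm_num) (by decide) (by decide) E2p0)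
    (peel_of_chk gE_ok E2all (by norm_num) (by decide) (by decide) E2p1))
    (peel_of_chk gE_ok E2all (by norm_num) (by decide) (by decide) E2p2))
    (peel_of_chk gE_ok E2all (by norm_num) (by decide) (by decide) E2p3))
    (peel_of_chk gE_ok E2all (by norm_num) (by decide) (by decide) E2p4))
    (peel_of_chk gE_ok E2all (by norm_num) (by decide) (by decide) E2p5))
    (peel_of_chk gE_ok E2all (by norm_num) (by decide) (by decide) E2p6))
    (peel_of_chk gE_ok E2all (by norm_num) (by decide) (by decide) E2p7))
    (peel_of_chk gE_ok E2all (by norm_num) (by decide) (by decide) E2p8))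
    (peel_of_chk gE_ok E2all (by norm_num) (by decide) (by decide) E2p9))
    (peel_of_chk gE_ok E2all (by norm_num) (by decide) (by decide) E2p10))
    (peel_of_chk gE_ok E2all (by norm_num) (by decide) (by decide) E2p11))
    (peel_of_chk gE_ok E2all (by norm_num) (by decide) (by decide) E2p12))
    (peel_of_chk gE_ok E2all (by norm_num) (by decide) (by decide) E2p13))
    (peel_of_chk gE_ok E2all (by norm_num) (by decide) (by decide) E2p14))
    (peel_of_chk gE_ok E2all (by norm_num) (by decide) (by decide) E2p15))
    (peel_of_chk gE_ok E2all (by norm_num) (by decide) (by decide) E2p16))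
    (peel_of_chk gE_ok E2all (by norm_num) (by decide) (by decide) E2p17))
    (peel_of_chk gE_ok E2all (by norm_num) (by decide) (by decide) E2p18))
    (peel_of_chk gE_ok E2all (by norm_num) (by decide) (by decide) E2p19))
    (peel_of_chk gE_ok E2all (by norm_num) (by decide) (by decide) E2p20))
    (peel_of_chk gE_ok E2all (by norm_num) (by decide) (by decide) E2p21))
    (peel_of_chk gE_ok E2all (by norm_num) (by decide) (by decide) E2p22))
    (peel_of_chk gE_ok E2all (by norm_num) (by decide) (by decide) E2p23))
    (peel_of_chk gE_ok E2all (by norm_num) (by decide) (by decide) E2p24))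
    (peel_of_chk gE_ok E2all (by norm_num) (by decide) (by decide) E2p25))
    (peel_of_chk gE_ok E2all (by norm_num) (by decide) (by decide) E2p26))
    (peel_of_chk gE_ok E2all (by norm_num) (by decide) (by decide) E2p27))

theorem badE2 : Bad 288 576 1728 1984 :=
  bad_of_peel gE_ok (by decide +kernel) (by norm_num) (by norm_num) (by norm_num) (by norm_num)
    (by norm_num) (N := 2640) (kf := 15) (by decide) (by decide +kernel) E2mem E2peel

end Pool.Agent.K9.C
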