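import Pool.Agent.K9.C.E3D

/-! # K9: membership words -/

namespace Pool.Agent.K9.C

set_option maxRecDepth 10000

theorem E3m0 : chkM gE E3L 4984832 E3w 0 47 = true := by decide +kernel

theorem E3m1 : chkM gE E3L 4984832 E3w 47 43 = true := by decide +kernel

theorem E3m2 : chkM gE E3L 4984832 E3w 90 38 = true := by decide +kernel

theorem E3m3 : chkM gE E3L 4984832 E3w 128 41 = true := by decide +kernel

theorem E3m4 : chkM gE E3L 4984832 E3w 169 40 = true := by decide +kernel

theorem E3m5 : chkM gE E3L 4984832 E3w 209 39 = true := by decide +kernel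

theorem E3m6 : chkM gE E3L 4984832 E3w 248 34 = true := by decide +kernel

theorem E3m7 : chkM gE E3L 4984832 E3w 282 37 = true := by decide +kernel

theorem E3m8 : chkM gE E3L 4984832 E3w 319 314 = true := by decide +kernel

end Pool.Agent.K9.C
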