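import Pool.Agent.K9.C.E3D

/-! # K9: membership words -/

namespace Pool.Agent.K9.C

set_option maxRecDepth 10000

theorem E3m9 : chkM gE E3L 4984832 E3w 633 38 = true := by decide +kernel

theorem E3m10 : chkM gE E3L 4984832 E3w 671 39 = true := by decide +kernel

theorem E3m11 : chkM gE E3L 4984832 E3w 710 31 = true := by decide +kernel

theorem E3m12 : chkM gE E3L 4984832 E3w 741 37 = true := by decide +kernel

theorem E3m13 : chkM gE E3L 4984832 E3w 778 40 = true := by decide +kernel

theorem E3m14 : chkM gE E3L 4984832 E3w 818 36 = true := by decide +kernel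

theorem E3m15 : chkM gE E3L 4984832 E3w 854 44 = true := by decide +kernel

theorem E3m16 : chkM gE E3L 4984832 E3w 898 42 = true := by decide +kernel

theorem E3m17 : chkM gE E3L 4984832 E3w 940 44 = true := by decide +kernel

theorem E3m18 : chkM gE E3L 4984832 E3w 984 44 = true := by decide +kernel

end Pool.Agent.K9.C
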