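import Pool.Agent.K9.C.E3D

/-! # K9: membership words -/

namespace Pool.Agent.K9.C

set_option maxRecDepth 10000

theorem E3m19 : chkM gE E3L 4984832 E3w 1028 44 = true := by decide +kernel

theorem E3m20 : chkM gE E3L 4984832 E3w 1072 45 = true := by decide +kernel

theorem E3m21 : chkM gE E3L 4984832 E3w 1117 45 = true := by decide +kernel

theorem E3m22 : chkM gE E3L 4984832 E3w 1162 45 = true := by decide +kernel

theorem E3m23 : chkM gE E3L 4984832 E3w 1207 50 = true := by decide +kernel

theorem E3m24 : chkM gE E3L 4984832 E3w 1257 45 = true := by decide +kernel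

theorem E3m25 : chkM gE E3L 4984832 E3w 1302 45 = true := by decide +kernel

theorem E3m26 : chkM gE E3L 4984832 E3w 1347 45 = true := by decide +kernel

theorem E3m27 : chkM gE E3L 4984832 E3w 1392 43 = true := by decide +kernel

theorem E3m28 : chkM gE E3L 4984832 E3w 1435 42 = true := by decide +kernel

end Pool.Agent.K9.C
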