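import Pool.Agent.K9.C.E3D

/-! # K9: membership words -/

namespace Pool.Agent.K9.C

set_option maxRecDepth 10000

theorem E3m29 : chkM gE E3L 4984832 E3w 1477 36 = true := by decide +kernel

theorem E3m30 : chkM gE E3L 4984832 E3w 1513 40 = true := by decide +kernel

theorem E3m31 : chkM gE E3L 4984832 E3w 1553 38 = true := by decide +kernel

theorem E3m32 : chkM gE E3L 4984832 E3w 1591 39 = true := by decide +kernel

theorem E3m33 : chkM gE E3L 4984832 E3w 1630 35 = true := by decide +kernel

theorem E3m34 : chkM gE E3L 4984832 E3w 1665 37 = true := by decide +kernel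

theorem E3m35 : chkM gE E3L 4984832 E3w 1702 39 = true := by decide +kernel

theorem E3m36 : chkM gE E3L 4984832 E3w 1741 34 = true := by decide +kernel

theorem E3m37 : chkM gE E3L 4984832 E3w 1775 37 = true := by decide +kernel

theorem E3m38 : chkM gE E3L 4984832 E3w 1812 38 = true := by decide +kernel

end Pool.Agent.K9.C
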