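import Pool.Agent.K9.C.E3D

/-! # K9: membership words -/

namespace Pool.Agent.K9.C

set_option maxRecDepth 10000

theorem E3m39 : chkM gE E3L 4984832 E3w 1850 34 = true := by decide +kernel

theorem E3m40 : chkM gE E3L 4984832 E3w 1884 38 = true := by decide +kernel

theorem E3m41 : chkM gE E3L 4984832 E3w 1922 38 = true := by decide +kernel

theorem E3m42 : chkM gE E3L 4984832 E3w 1960 33 = true := by decide +kernel

theorem E3m43 : chkM gE E3L 4984832 E3w 1993 37 = true := by decide +kernel

theorem E3m44 : chkM gE E3L 4984832 E3w 2030 32 = true := by decide +kernel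

theorem E3m45 : chkM gE E3L 4984832 E3w 2062 37 = true := by decide +kernel

theorem E3m46 : chkM gE E3L 4984832 E3w 2099 39 = true := by decide +kernel

theorem E3m47 : chkM gE E3L 4984832 E3w 2138 37 = true := by decide +kernel

theorem E3m48 : chkM gE E3L 4984832 E3w 2175 43 = true := by decide +kernel

end Pool.Agent.K9.C
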