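import Pool.Agent.K9.C.E3D

/-! # K9: membership words -/

namespace Pool.Agent.K9.C

set_option maxRecDepth 10000

theorem E3m49 : chkM gE E3L 4984832 E3w 2218 43 = true := by decide +kernel

theorem E3m50 : chkM gE E3L 4984832 E3w 2261 43 = true := by decide +kernel

theorem E3m51 : chkM gE E3L 4984832 E3w 2304 45 = true := by decide +kernel

theorem E3m52 : chkM gE E3L 4984832 E3w 2349 44 = true := by decide +kernel

theorem E3m53 : chkM gE E3L 4984832 E3w 2393 43 = true := by decide +kernel

theorem E3m54 : chkM gE E3L 4984832 E3w 2436 43 = true := by decide +kernel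

theorem E3m55 : chkM gE E3L 4984832 E3w 2479 43 = true := by decide +kernel

theorem E3m56 : chkM gE E3L 4984832 E3w 2522 44 = true := by decide +kernel

theorem E3m57 : chkM gE E3L 4984832 E3w 2566 46 = true := by decide +kernel

theorem E3m58 : chkM gE E3L 4984832 E3w 2612 28 = true := by decide +kernel

end Pool.Agent.K9.C
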