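import Pool.Agent.K9.C.E3D

/-! # K9: peeling of near cells -/

namespace Pool.Agent.K9.C

set_option maxRecDepth 10000

def E3l0 : List (Nat × Tree) :=
  [(1848, (.leaf [(34, 20), (13, 25), (16, 30), (30, 33)])),
    (1870, (.leaf [(17, 0), (32, 29), (1, 34), (11, 29)])),
    (1892, (.leaf [(17, 13), (32, 40), (1, 29), (12, 0)])),
    (1914, (.leaf [(1, 7), (13, 45), (17, 10), (31, 27)])),
    (1936, (.leaf [(17, 23), (33, 3), (2, 28), (13, 1)])),
    (1958, (.leaf [(14, 30), (1, 16), (32, 16), (17, 11)])),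
    (1980, (.leaf [(14, 30), (1, 16), (32, 16), (17, 36)])),
    (2002, (.leaf [(14, 34), (17, 41), (1, 45), (33, 5)])),
    (2024, (.leaf [(15, 25), (18, 41), (33, 1), (2, 26)])),
    (2046, (.leaf [(14, 1), (17, 28), (33, 38), (2, 9)])),
    (2068, (.leaf [(15, 37), (19, 2), (1, 41), (33, 29)])),
    (2090, (.leaf [(14, 19), (18, 0), (26, 30), (0, 17)])),
    (903, (.node 1146 (.node 1783 (.leaf [(16, 42)]) (.node 1784 (.leaf [(17, 25)]) (.node 1805 (.leaf [(17, 25)]) (.node 1806 (.leaf [(17, 25)]) (.node 1827 (.leaf [(17, 25)]) (.node 1849 (.leaf [(17, 34)]) (.node 1959 (.leaf [(18, 46), (16, 42)]) (.node 1981 (.leaf [(18, 46), (16, 42)]) (.node 2003 (.leaf [(19, 29), (16, 42)]) (.leaf [(22, 41), (11, 4), (1, 13)])))))))))) (.node 1168 (.node 1783 (.leaf [(16, 42)]) (.node 1784 (.leaf [(17, 25)]) (.node 1805 (.leaf [(17, 25)]) (.node 1806 (.leaf [(17, 25)]) (.node 1827 (.leaf [(17, 25)]) (.node 1849 (.leaf [(17, 34)]) (.node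 1959 (.leaf [(18, 46), (16, 42)]) (.node 1981 (.leaf [(18, 46), (16, 42)]) (.node 2003 (.leaf [(19, 29), (16, 42)]) (.leaf [(23, 23), (11, 4), (2, 13)])))))))))) (.node 1190 (.node 1410 (.leaf [(8, 1), (10, 10)]) (.node 1455 (.leaf [(10, 10), (8, 1)]) (.node 1477 (.leaf [(10, 10), (8, 1)]) (.node 1500 (.leaf [(10, 10), (8, 1)]) (.node 1522 (.leaf [(10, 10), (8, 1)]) (.node 1544 (.leaf [(10, 10), (8, 1)]) (.node 1567 (.leaf [(10, 10), (21, 42)]) (.leaf [(21, 5), (24, 19), (9, 5)])))))))) (.node 1191 (.node 1783 (.leaf [(18, 23)]) (.node 1784 (.leaf [(18, 23)]) (.node 1805 (.leaf [(18, 23)]) (.node 1806 (.leaf [(18, 23)]) (.node 1827 (.leaf [(18, 23)]) (.node 1849 (.leaf [(18, 23)]) (.node 1959 (.leaf [(18, 46), (18, 23)]) (.node 1981 (.leaf [(18, 46), (18, 23)]) (.node 2003 (.leaf [(19, 29), (18, 23)]) (.leaf [(24, 18), (11, 4), (2, 22)])))))))))) (.node 1212 (.node 1410 (.leaf [(10, 10), (8, 1)]) (.node 1477 (.leaf [(10, 10), (8,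 1)]) (.node 1544 (.leaf [(10, 10), (8, 1)]) (.leaf [(20, 42), (24, 19), (9, 5)])))) (.node 1213 (.node 1433 (.leaf [(10, 10), (21, 36)]) (.node 1455 (.leaf [(10, 10), (21, 36)]) (.node 1477 (.leaf [(10, 10), (21, 36)]) (.node 1500 (.leaf [(10, 10), (21, 36)]) (.node 1522 (.leaf [(10, 10), (21, 36)]) (.node 1544 (.leaf [(10, 10), (21, 36)]) (.node 1567 (.leaf [(8, 46), (24, 19)]) (.leaf [(20, 28), (24, 19), (9, 39)])))))))) (.node 1214 (.node 1520 (.leaf [(21, 36), (27, 1)]) (.node 1783 (.leaf [(18, 23)]) (.node 1805 (.leaf [(18, 23)]) (.node 1827 (.leaf [(18, 23)]) (.node 1849 (.leaf [(18, 23)]) (.leaf [(22, 12), (21, 22), (1, 25)])))))) (.node 1235 (.node 1477 (.leaf [(22, 12), (21, 36)]) (.node 1544 (.leaf [(22, 12), (21, 36)]) (.leaf [(19, 34), (24, 19), (10, 8)]))) (.node 1257 (.leaf [(24, 44), (12, 4), (2, 16)]) (.node 1279 (.leaf [(12, 4), (24, 44), (18, 23)]) (.node 1805 (.leaf [(4, 17), (17, 27), (14, 28)]) (.node 1827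 (.leaf [(4, 17), (17, 27), (14, 28)]) (.node 1849 (.leaf [(4, 17), (17, 27), (14, 28)]) (.leaf [(22, 12), (3, 22), (20, 41), (16, 9)]))))))))))))))),
    (925, (.node 1168 (.leaf [(23, 28), (11, 9), (1, 28)]) (.node 1190 (.leaf [(11, 9), (23, 28), (18, 13)]) (.node 1212 (.leaf [(11, 9), (23, 28), (18, 13)]) (.node 1213 (.leaf [(11, 9), (23, 28), (18, 13)]) (.node 1235 (.leaf [(11, 9), (23, 28), (18, 13)]) (.node 1257 (.leaf [(11, 9), (23, 28), (18, 13)]) (.node 1279 (.leaf [(11, 9), (23, 28), (18, 23)]) (.node 1805 (.leaf [(4, 23), (17, 25)]) (.node 1827 (.leaf [(4, 23), (17, 25)]) (.node 1849 (.leaf [(4, 17), (17, 27)]) (.leaf [(19, 42), (3, 32), (21, 7), (16, 11)])))))))))))),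
    (947, (.node 1190 (.leaf [(24, 11), (9, 45), (1, 19)]) (.node 1212 (.leaf [(9, 45), (23, 28), (17, 39)]) (.node 1235 (.leaf [(9, 45), (23, 28), (17, 39)]) (.node 1257 (.leaf [(9, 45), (23, 28), (17, 39)]) (.node 1279 (.leaf [(9, 45), (23, 28), (19, 29)]) (.node 1805 (.leaf [(4, 39), (17, 25)]) (.node 1827 (.leaf [(5, 1), (4, 23), (18, 23)]) (.node 1849 (.leaf [(4, 17), (17, 27)]) (.leaf [(16, 33), (3, 46), (21, 26), (16, 19)])))))))))),
    (1673, (.leaf [(12, 36), (31, 21), (34, 17), (6, 16)])),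
    (1695, (.leaf [(12, 46), (31, 30), (34, 16), (7, 21)])),
    (1717, (.leaf [(13, 9), (32, 1), (0, 3), (7, 7)])),
    (1739, (.leaf [(13, 19), (32, 1), (0, 8), (6, 39)])),
    (1761, (.leaf [(14, 32), (32, 20), (0, 23), (9, 8)])),
    (1783, (.leaf [(32, 37), (13, 18), (16, 2), (31, 9)])),
    (1805, (.leaf [(33, 18), (13, 10), (16, 10), (31, 16)])),
    (1827, (.leaf [(33, 42), (13, 2), (16, 6), (31, 24)])),
    (1849, (.leaf [(34, 20), (13, 25), (16, 30), (30, 33)])),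
    (1871, (.leaf [(17, 0), (32, 29), (1, 34), (11, 29)])),
    (1893, (.leaf [(15, 36), (32, 35), (3, 27), (10, 26)])),
    (1915, (.leaf [(1, 7), (13, 45), (17, 10), (31, 27)])),
    (1937, (.leaf [(17, 1), (33, 0), (2, 21), (11, 21)])),
    (1959, (.node 1630 (.leaf [(31, 16), (13, 45), (16, 37)]) (.leaf [(33, 12), (4, 22), (17, 3), (11, 34)]))),
    (1981, (.node 2290 (.leaf [(17, 39), (3, 22), (0, 21)]) (.leaf [(13, 43), (1, 32), (32, 34), (17, 24)]))),
    (2003, (.leaf [(33, 24), (17, 16), (13, 11), (2, 37)])),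
    (2025, (.leaf [(33, 33), (1, 0), (18, 11), (13, 8)])),
    (2047, (.leaf [(33, 36), (0, 30), (18, 10), (13, 5)])),
    (2069, (.leaf [(15, 37), (19, 2), (1, 41), (33, 29)])),
    (2091, (.leaf [(14, 19), (18, 0), (26, 30), (0, 17)])),
    (2113, (.leaf [(17, 12), (0, 16), (13, 29), (20, 26)])),
    (2135, (.leaf [(2, 45), (16, 46), (19, 18), (34, 9)])),
    (2157, (.leaf [(2, 40), (16, 35), (19, 28), (0, 12)])),
    (2179, (.leaf [(2, 32), (18, 16), (19, 27), (0, 0)])),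
    (2201, (.leaf [(18, 34), (2, 16), (20, 27), (16, 22)])),
    (2223, (.leaf [(19, 13), (2, 16), (16, 13), (21, 9)])),
    (2245, (.leaf [(19, 13), (2, 17), (20, 27), (17, 0)]))]

theorem E3p0 : chkP gE E3L 4984832 E3w 0 0 1 103 E3l0 = true := by decide +kernel

def E3l1 : List (Nat × Tree) :=
  [(2267, (.leaf [(6, 1), (16, 27), (20, 29), (1, 46)])),
    (90, (.leaf [(27, 18), (6, 28), (32, 28), (19, 29)])),
    (112, (.leaf [(27, 32), (6, 28), (20, 36), (32, 25)])),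
    (134, (.leaf [(28, 29), (6, 41), (7, 37), (21, 41)])),
    (156, (.leaf [(28, 7), (34, 11), (6, 32), (21, 28)])),
    (178, (.leaf [(29, 13), (6, 25), (9, 26), (22, 35)])),
    (200, (.leaf [(6, 23), (31, 25), (11, 26), (26, 31)])),
    (222, (.leaf [(27, 10), (32, 15), (8, 22), (11, 39)])),
    (244, (.leaf [(30, 35), (6, 24), (11, 5), (24, 25)])),
    (266, (.leaf [(8, 22), (31, 45), (11, 46), (27, 28)])),
    (288, (.leaf [(31, 42), (7, 12), (12, 5), (26, 35)])),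
    (310, (.leaf [(8, 23), (32, 17), (11, 46), (27, 33)])),
    (332, (.leaf [(6, 39), (10, 28), (28, 39), (33, 35)])),
    (838, (.leaf [(5, 26), (17, 27), (20, 25), (0, 38)])),
    (860, (.leaf [(5, 28), (18, 13), (21, 0), (4, 42)])),
    (882, (.leaf [(5, 14), (18, 13), (21, 8), (2, 6)])),
    (904, (.node 1329 (.leaf [(3, 37), (24, 44), (21, 36)]) (.node 1351 (.leaf [(3, 37), (24, 44), (21, 36)]) (.node 1352 (.leaf [(3, 37), (24, 44), (21, 36)]) (.node 1353 (.leaf [(16, 26), (22, 12), (22, 15)]) (.node 1354 (.leaf [(16, 26), (22, 12), (22, 15)]) (.node 1355 (.leaf [(16, 26), (22, 12), (22, 15)]) (.leaf [(18, 19), (23, 18), (3, 38), (14, 12)])))))))),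
    (926, (.node 1124 (.leaf [(22, 37), (17, 39), (13, 41)]) (.node 1146 (.leaf [(12, 4), (22, 41), (18, 13)]) (.node 1168 (.leaf [(12, 4), (23, 8), (18, 13)]) (.node 1190 (.leaf [(12, 4), (23, 11), (18, 13)]) (.node 1191 (.leaf [(12, 4), (23, 11), (18, 13)]) (.node 1212 (.leaf [(12, 4), (23, 11), (18, 13)]) (.node 1213 (.leaf [(12, 4), (23, 11), (18, 13)]) (.leaf [(18, 36), (15, 7), (3, 24), (22, 46)]))))))))),
    (948, (.node 1146 (.leaf [(23, 3), (13, 24), (3, 33)]) (.node 1168 (.leaf [(13, 24), (23, 3), (18, 13)]) (.node 1190 (.leaf [(12, 4), (23, 3), (18, 13)]) (.node 1212 (.leaf [(12, 4), (24, 18), (18, 13)]) (.node 1213 (.leaf [(12, 4), (24, 18), (18, 13)]) (.leaf [(19, 1), (12, 17), (3, 24), (23, 22)]))))))),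
    (970, (.node 1168 (.leaf [(23, 30), (13, 24), (3, 33)]) (.node 1190 (.leaf [(12, 4), (23, 34), (18, 13)]) (.node 1212 (.leaf [(12, 4), (23, 34), (18, 13)]) (.leaf [(19, 11), (12, 17), (3, 19), (23, 34)]))))),
    (992, (.node 1212 (.leaf [(12, 4), (23, 34), (18, 13)]) (.node 1257 (.leaf [(12, 4), (24, 13), (18, 23)]) (.leaf [(21, 21), (4, 15), (21, 16), (16, 12)])))),
    (1014, (.leaf [(23, 37), (5, 37), (10, 16), (19, 15)])),
    (1036, (.leaf [(24, 31), (18, 27), (12, 16), (3, 6)])),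
    (1058, (.leaf [(6, 0), (9, 40), (20, 20), (26, 19)])),
    (1080, (.leaf [(9, 31), (19, 46), (24, 9), (3, 25)])),
    (1102, (.leaf [(9, 16), (20, 10), (24, 46), (4, 7)])),
    (1124, (.leaf [(26, 37), (5, 8), (8, 21), (19, 41)])),
    (1146, (.leaf [(24, 39), (7, 42), (19, 13), (2, 36)])),
    (1168, (.leaf [(25, 38), (8, 25), (19, 22), (2, 24)])),
    (1190, (.leaf [(25, 27), (8, 25), (18, 30), (2, 1)])),
    (1212, (.leaf [(26, 9), (20, 9), (9, 19), (9, 11)])),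
    (1410, (.leaf [(31, 4), (17, 5), (28, 5), (7, 41)])),
    (1432, (.leaf [(8, 45), (31, 15), (22, 45), (26, 36)])),
    (1454, (.leaf [(10, 9), (28, 39), (14, 21), (21, 42)])),
    (1476, (.leaf [(10, 15), (29, 24), (34, 14), (8, 26)])),
    (1498, (.leaf [(10, 15), (15, 3), (29, 24), (22, 34)])),
    (1520, (.leaf [(10, 23), (30, 40), (13, 7), (9, 1)])),
    (1542, (.leaf [(32, 24), (30, 4), (22, 7), (11, 7)])),
    (1564, (.leaf [(32, 24), (30, 4), (22, 7), (11, 7)])),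
    (1586, (.leaf [(8, 30), (32, 30), (28, 10), (11, 10)])),
    (1608, (.leaf [(32, 41), (30, 15), (12, 24), (11, 30)])),
    (1630, (.leaf [(8, 35), (33, 7), (28, 43), (12, 14)])),
    (1652, (.leaf [(8, 41), (33, 16), (29, 19), (12, 32)]))]

theorem E3p1 : chkP gE E3L 4984832 E3w 1 103 2 76 E3l1 = true := by decide +kernel

def E3l2 : List (Nat × Tree) :=
  [(1674, (.leaf [(11, 35), (31, 44), (34, 7), (6, 26)])),
    (1696, (.leaf [(33, 13), (10, 31), (15, 1), (29, 8)])),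
    (1718, (.leaf [(12, 22), (32, 9), (34, 18), (7, 3)])),
    (1740, (.leaf [(33, 34), (11, 11), (15, 24), (29, 37)])),
    (1762, (.leaf [(14, 32), (32, 20), (0, 23), (9, 8)])),
    (1784, (.leaf [(0, 1), (11, 24), (15, 40), (31, 33)])),
    (1806, (.leaf [(34, 12), (12, 25), (15, 34), (30, 26)])),
    (1828, (.leaf [(0, 28), (12, 8), (16, 13), (32, 12)])),
    (1850, (.leaf [(34, 20), (13, 25), (16, 30), (30, 33)])),
    (1872, (.leaf [(1, 4), (12, 42), (16, 22), (32, 8)])),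
    (1894, (.leaf [(15, 36), (32, 35), (3, 27), (10, 26)])),
    (1916, (.leaf [(16, 4), (33, 0), (2, 25), (10, 37)])),
    (1938, (.leaf [(17, 1), (33, 0), (2, 21), (11, 21)])),
    (1960, (.leaf [(13, 33), (2, 3), (33, 6), (16, 44)])),
    (1982, (.leaf [(33, 32), (3, 17), (17, 22), (12, 20)])),
    (2004, (.leaf [(33, 24), (17, 16), (13, 11), (2, 37)])),
    (2026, (.leaf [(33, 33), (1, 0), (18, 11), (13, 8)])),
    (2048, (.leaf [(33, 36), (0, 30), (18, 10), (13, 5)])),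
    (2070, (.leaf [(15, 37), (19, 2), (1, 41), (33, 29)])),
    (2092, (.leaf [(14, 19), (18, 0), (26, 30), (0, 17)])),
    (2114, (.leaf [(17, 12), (0, 16), (13, 29), (20, 26)])),
    (2136, (.leaf [(2, 45), (16, 46), (19, 18), (34, 9)])),
    (2158, (.leaf [(2, 40), (16, 35), (19, 28), (0, 12)])),
    (2180, (.leaf [(2, 32), (18, 16), (19, 27), (0, 0)])),
    (2202, (.leaf [(18, 34), (2, 16), (20, 27), (16, 22)])),
    (2224, (.leaf [(19, 13), (2, 16), (16, 13), (21, 9)])),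
    (2246, (.leaf [(18, 24), (2, 12), (15, 40), (21, 9)])),
    (2268, (.leaf [(6, 1), (16, 27), (20, 29), (1, 46)])),
    (2290, (.leaf [(6, 1), (16, 27), (20, 29), (1, 46)])),
    (2312, (.leaf [(20, 37), (3, 42), (8, 34), (15, 6)])),
    (2334, (.leaf [(20, 37), (3, 42), (8, 34), (15, 6)])),
    (2356, (.leaf [(21, 15), (3, 45), (7, 24), (14, 41)])),
    (2378, (.leaf [(21, 30), (3, 29), (7, 25), (15, 2)])),
    (2400, (.leaf [(17, 35), (19, 35), (22, 25), (3, 26)])),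
    (2422, (.leaf [(6, 35), (18, 26), (22, 38), (2, 18)])),
    (2444, (.leaf [(6, 35), (18, 26), (22, 38), (2, 18)])),
    (2466, (.leaf [(19, 4), (7, 2), (24, 7), (23, 33)])),
    (2488, (.leaf [(7, 12), (19, 19), (24, 45), (20, 39)])),
    (2510, (.leaf [(7, 12), (19, 19), (24, 45), (20, 39)])),
    (2532, (.leaf [(21, 11), (23, 1), (3, 22), (28, 29)])),
    (3, (.leaf [(26, 1), (6, 34), (7, 9), (19, 37)])),
    (25, (.leaf [(25, 41), (6, 22), (33, 37), (4, 28)])),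
    (47, (.leaf [(26, 31), (6, 34), (33, 17), (19, 32)]))]

theorem E3p2 : chkP gE E3L 4984832 E3w 2 76 3 3 E3l2 = true := by decide +kernel

def E3l3 : List (Nat × Tree) :=
  [(69, (.leaf [(26, 23), (6, 23), (32, 10), (18, 23)])),
    (91, (.leaf [(27, 34), (7, 46), (9, 37), (21, 6)])),
    (113, (.leaf [(27, 32), (6, 28), (20, 36), (32, 25)])),
    (135, (.leaf [(28, 29), (6, 41), (7, 37), (21, 41)])),
    (157, (.leaf [(29, 22), (6, 36), (10, 19), (22, 31)])),
    (179, (.leaf [(29, 11), (6, 29), (10, 12), (22, 32)])),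
    (201, (.leaf [(6, 23), (31, 25), (11, 26), (26, 31)])),
    (223, (.leaf [(27, 10), (32, 15), (8, 22), (11, 39)])),
    (245, (.leaf [(27, 28), (32, 36), (6, 39), (11, 1)])),
    (267, (.leaf [(8, 22), (31, 45), (11, 46), (27, 28)])),
    (289, (.leaf [(31, 42), (7, 12), (12, 5), (26, 35)])),
    (311, (.leaf [(7, 14), (31, 42), (12, 5), (27, 21)])),
    (333, (.leaf [(6, 39), (10, 28), (28, 39), (33, 35)])),
    (355, (.leaf [(28, 24), (32, 39), (14, 29), (8, 14)])),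
    (377, (.leaf [(32, 0), (9, 36), (14, 4), (27, 20)])),
    (399, (.leaf [(32, 0), (9, 36), (14, 4), (27, 20)])),
    (421, (.leaf [(12, 26), (30, 31), (0, 25), (7, 4)])),
    (443, (.leaf [(12, 26), (30, 31), (0, 25), (7, 4)])),
    (729, (.leaf [(3, 35), (16, 20), (19, 0), (34, 4)])),
    (751, (.leaf [(4, 21), (33, 19), (19, 33), (14, 43)])),
    (773, (.leaf [(4, 28), (16, 37), (19, 0), (14, 4)])),
    (795, (.leaf [(5, 41), (14, 15), (18, 14), (3, 0)])),
    (817, (.leaf [(4, 28), (18, 14), (14, 15), (21, 9)])),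
    (839, (.leaf [(20, 14), (2, 34), (16, 26), (14, 46)])),
    (861, (.leaf [(4, 29), (18, 31), (20, 11), (5, 17)])),
    (883, (.leaf [(5, 14), (18, 13), (21, 8), (2, 6)])),
    (905, (.leaf [(17, 18), (2, 12), (21, 44), (2, 46)])),
    (927, (.leaf [(20, 16), (23, 6), (4, 40), (15, 39)])),
    (949, (.leaf [(20, 16), (24, 32), (5, 0), (15, 32)])),
    (971, (.leaf [(24, 4), (5, 23), (14, 22), (18, 24)])),
    (993, (.node 1433 (.leaf [(22, 27), (14, 28), (28, 29)]) (.leaf [(24, 1), (5, 33), (14, 2), (18, 34)]))),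
    (1015, (.leaf [(11, 22), (20, 8), (24, 37), (5, 3)])),
    (1037, (.leaf [(24, 31), (18, 27), (12, 16), (3, 6)])),
    (1059, (.leaf [(20, 18), (25, 12), (6, 30), (4, 38)])),
    (1081, (.leaf [(25, 40), (5, 34), (10, 41), (18, 45)])),
    (1103, (.leaf [(9, 16), (20, 10), (24, 46), (4, 7)])),
    (1125, (.leaf [(26, 37), (5, 8), (8, 21), (19, 41)])),
    (1147, (.leaf [(26, 8), (5, 10), (7, 11), (19, 25)])),
    (1169, (.leaf [(25, 38), (8, 25), (19, 22), (2, 24)])),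
    (1191, (.leaf [(27, 22), (1, 6), (7, 32), (20, 27)])),
    (1213, (.leaf [(20, 46), (27, 16), (7, 38), (2, 27)])),
    (1235, (.leaf [(27, 4), (8, 9), (15, 17), (17, 2)])),
    (1257, (.leaf [(7, 8), (26, 18), (11, 38), (0, 14)]))]

theorem E3p3 : chkP gE E3L 4984832 E3w 3 3 3 58 E3l3 = true := by decide +kernel

def E3l4 : List (Nat × Tree) :=
  [(1279, (.leaf [(8, 27), (30, 28), (20, 34), (24, 8)])),
    (1301, (.leaf [(27, 7), (8, 7), (9, 6), (14, 44)])),
    (1323, (.leaf [(7, 19), (27, 13), (9, 30), (1, 30)])),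
    (1345, (.leaf [(6, 42), (31, 1), (21, 38), (25, 3)])),
    (1367, (.leaf [(28, 15), (8, 5), (10, 9), (10, 27)])),
    (1389, (.leaf [(12, 18), (8, 29), (31, 6), (25, 18)])),
    (1411, (.leaf [(31, 4), (17, 5), (28, 5), (7, 41)])),
    (1433, (.leaf [(8, 45), (31, 15), (22, 45), (26, 36)])),
    (1455, (.leaf [(8, 0), (31, 17), (26, 25), (30, 14)])),
    (1477, (.leaf [(10, 15), (29, 24), (34, 14), (8, 26)])),
    (1499, (.leaf [(9, 13), (30, 44), (12, 9), (9, 7)])),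
    (1521, (.leaf [(10, 23), (30, 40), (13, 7), (9, 1)])),
    (1543, (.leaf [(32, 24), (30, 4), (22, 7), (11, 7)])),
    (1565, (.leaf [(32, 24), (30, 4), (22, 7), (11, 7)])),
    (1587, (.leaf [(8, 30), (32, 30), (28, 10), (11, 10)])),
    (1609, (.leaf [(32, 41), (30, 15), (12, 24), (11, 30)])),
    (1631, (.leaf [(8, 35), (33, 7), (28, 43), (12, 14)])),
    (1653, (.leaf [(33, 27), (9, 10), (12, 43), (29, 30)])),
    (1675, (.leaf [(11, 35), (31, 44), (34, 7), (6, 26)])),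
    (1697, (.leaf [(33, 13), (10, 31), (15, 1), (29, 8)])),
    (1719, (.leaf [(12, 22), (32, 9), (34, 18), (7, 3)])),
    (1741, (.leaf [(33, 34), (11, 11), (15, 24), (29, 37)])),
    (1763, (.leaf [(14, 32), (32, 20), (0, 23), (9, 8)])),
    (1785, (.leaf [(0, 1), (11, 24), (15, 40), (31, 33)])),
    (1807, (.leaf [(34, 12), (12, 25), (15, 34), (30, 26)])),
    (1829, (.leaf [(0, 28), (12, 8), (16, 13), (32, 12)])),
    (1851, (.leaf [(14, 42), (32, 45), (2, 17), (9, 41)])),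
    (1873, (.leaf [(1, 4), (12, 42), (16, 22), (32, 8)])),
    (1895, (.leaf [(15, 36), (32, 35), (3, 27), (10, 26)])),
    (1917, (.leaf [(16, 4), (33, 0), (2, 25), (10, 37)])),
    (1939, (.leaf [(17, 1), (33, 0), (2, 21), (11, 21)])),
    (1961, (.leaf [(3, 39), (13, 30), (16, 43), (33, 14)])),
    (1983, (.leaf [(33, 32), (3, 17), (17, 22), (12, 20)])),
    (2005, (.leaf [(33, 15), (11, 32), (17, 31), (4, 6)])),
    (2027, (.leaf [(33, 33), (1, 0), (18, 11), (13, 8)])),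
    (2049, (.leaf [(33, 36), (0, 30), (18, 10), (13, 5)])),
    (2071, (.leaf [(15, 30), (19, 30), (0, 6), (10, 32)])),
    (2093, (.leaf [(14, 19), (18, 0), (26, 30), (0, 17)])),
    (2115, (.leaf [(17, 12), (0, 16), (13, 29), (20, 26)])),
    (2137, (.leaf [(2, 45), (16, 46), (19, 18), (34, 9)])),
    (2159, (.leaf [(2, 40), (16, 35), (19, 28), (0, 12)])),
    (2181, (.leaf [(16, 43), (19, 41), (4, 21), (14, 28)])),
    (2203, (.leaf [(18, 41), (15, 30), (4, 28), (19, 37)]))]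

theorem E3p4 : chkP gE E3L 4984832 E3w 3 58 3 101 E3l4 = true := by decide +kernel

def E3l5 : List (Nat × Tree) :=
  [(2225, (.leaf [(5, 39), (16, 17), (19, 16), (2, 33)])),
    (2247, (.leaf [(18, 24), (2, 12), (15, 40), (21, 9)])),
    (2269, (.leaf [(6, 1), (16, 27), (20, 29), (1, 46)])),
    (2291, (.leaf [(6, 1), (16, 27), (20, 29), (1, 46)])),
    (2313, (.leaf [(20, 37), (3, 42), (8, 34), (15, 6)])),
    (2335, (.leaf [(21, 15), (3, 45), (7, 24), (14, 41)])),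
    (2357, (.leaf [(21, 15), (3, 45), (7, 24), (14, 41)])),
    (2379, (.leaf [(21, 30), (3, 29), (7, 25), (15, 2)])),
    (2401, (.leaf [(17, 35), (19, 35), (22, 25), (3, 26)])),
    (2423, (.leaf [(6, 35), (18, 26), (22, 38), (2, 18)])),
    (2445, (.leaf [(6, 35), (18, 26), (22, 38), (2, 18)])),
    (2467, (.leaf [(19, 4), (7, 2), (24, 7), (23, 33)])),
    (2489, (.leaf [(7, 12), (19, 19), (24, 45), (20, 39)])),
    (2511, (.leaf [(7, 12), (19, 19), (24, 45), (20, 39)])),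
    (2533, (.leaf [(21, 11), (23, 1), (3, 22), (28, 29)])),
    (2555, (.leaf [(20, 2), (7, 6), (5, 45), (25, 45)])),
    (2577, (.leaf [(20, 19), (8, 11), (6, 21), (26, 33)])),
    (2599, (.leaf [(20, 19), (8, 11), (6, 21), (26, 33)])),
    (2621, (.leaf [(20, 45), (9, 0), (26, 40), (27, 11)])),
    (4, (.leaf [(26, 1), (6, 34), (7, 9), (19, 37)])),
    (26, (.leaf [(24, 13), (5, 46), (6, 33), (3, 37)])),
    (48, (.leaf [(26, 31), (6, 34), (33, 17), (19, 32)])),
    (70, (.leaf [(26, 23), (6, 23), (32, 10), (18, 23)])),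
    (92, (.leaf [(27, 34), (7, 46), (9, 37), (21, 6)])),
    (114, (.leaf [(27, 33), (8, 23), (8, 39), (20, 32)])),
    (136, (.leaf [(28, 29), (6, 41), (7, 37), (21, 41)])),
    (158, (.leaf [(29, 22), (6, 36), (10, 19), (22, 31)])),
    (180, (.leaf [(29, 11), (6, 29), (10, 12), (22, 32)])),
    (202, (.leaf [(6, 39), (11, 37), (26, 14), (30, 1)])),
    (224, (.leaf [(27, 10), (32, 15), (8, 22), (11, 39)])),
    (246, (.leaf [(27, 28), (32, 36), (6, 39), (11, 1)])),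
    (268, (.leaf [(7, 22), (12, 11), (27, 14), (30, 25)])),
    (290, (.leaf [(31, 42), (7, 12), (12, 5), (26, 35)])),
    (312, (.leaf [(7, 14), (31, 42), (12, 5), (27, 21)])),
    (334, (.leaf [(28, 20), (33, 2), (14, 20), (7, 31)])),
    (356, (.leaf [(28, 24), (32, 39), (14, 29), (8, 14)])),
    (378, (.leaf [(32, 0), (9, 36), (14, 4), (27, 20)])),
    (400, (.leaf [(12, 26), (30, 31), (0, 25), (7, 4)])),
    (422, (.leaf [(12, 26), (30, 31), (0, 25), (7, 4)])),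
    (642, (.leaf [(16, 37), (33, 26), (4, 11), (12, 3)])),
    (664, (.leaf [(17, 6), (33, 41), (4, 16), (12, 29)])),
    (686, (.leaf [(18, 20), (32, 38), (3, 12), (13, 38)])),
    (708, (.leaf [(18, 46), (32, 46), (3, 23), (14, 11)]))]

theorem E3p5 : chkP gE E3L 4984832 E3w 3 101 4 33 E3l5 = true := by decide +kernel

def E3l6 : List (Nat × Tree) :=
  [(730, (.leaf [(3, 35), (16, 20), (19, 0), (34, 4)])),
    (752, (.leaf [(4, 21), (33, 19), (19, 33), (14, 43)])),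
    (774, (.leaf [(18, 2), (1, 31), (3, 28), (13, 34)])),
    (796, (.leaf [(5, 41), (14, 15), (18, 14), (3, 0)])),
    (818, (.leaf [(4, 28), (18, 14), (14, 15), (21, 9)])),
    (840, (.leaf [(20, 14), (2, 34), (16, 26), (14, 46)])),
    (862, (.leaf [(4, 29), (18, 31), (20, 11), (5, 17)])),
    (884, (.leaf [(5, 14), (18, 13), (21, 8), (2, 6)])),
    (906, (.leaf [(17, 18), (2, 12), (21, 44), (2, 46)])),
    (928, (.leaf [(20, 16), (23, 6), (4, 40), (15, 39)])),
    (950, (.leaf [(20, 15), (23, 38), (4, 19), (15, 31)])),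
    (972, (.leaf [(24, 4), (5, 23), (14, 22), (18, 24)])),
    (994, (.leaf [(4, 15), (4, 28), (21, 9), (26, 28)])),
    (1016, (.leaf [(25, 0), (5, 5), (16, 14), (18, 6)])),
    (1038, (.leaf [(24, 31), (18, 27), (12, 16), (3, 6)])),
    (1060, (.leaf [(20, 18), (25, 12), (6, 30), (4, 38)])),
    (1082, (.leaf [(25, 40), (5, 34), (10, 41), (18, 45)])),
    (1104, (.leaf [(26, 44), (4, 30), (18, 37), (19, 20)])),
    (1126, (.leaf [(26, 37), (5, 8), (8, 21), (19, 41)])),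
    (1148, (.leaf [(26, 8), (5, 10), (7, 11), (19, 25)])),
    (1170, (.leaf [(27, 26), (3, 8), (11, 33), (20, 17)])),
    (1192, (.leaf [(27, 22), (1, 6), (7, 32), (20, 27)])),
    (1214, (.leaf [(20, 46), (27, 16), (7, 38), (2, 27)])),
    (1236, (.leaf [(27, 4), (8, 9), (15, 17), (17, 2)])),
    (1258, (.leaf [(28, 25), (21, 39), (7, 43), (22, 6)])),
    (1280, (.leaf [(8, 27), (30, 28), (20, 34), (24, 8)])),
    (1302, (.leaf [(27, 7), (8, 7), (9, 6), (14, 44)])),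
    (1324, (.leaf [(6, 31), (28, 19), (9, 24), (18, 32)])),
    (1346, (.leaf [(6, 42), (31, 1), (21, 38), (25, 3)])),
    (1368, (.leaf [(28, 15), (8, 5), (10, 9), (10, 27)])),
    (1390, (.leaf [(29, 32), (8, 23), (23, 31), (32, 36)])),
    (1412, (.leaf [(31, 4), (17, 5), (28, 5), (7, 41)])),
    (1434, (.leaf [(8, 45), (31, 15), (22, 45), (26, 36)])),
    (1456, (.leaf [(8, 0), (31, 17), (26, 25), (30, 14)])),
    (1478, (.leaf [(8, 3), (30, 30), (11, 12), (10, 0)])),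
    (1500, (.leaf [(9, 13), (30, 44), (12, 9), (9, 7)])),
    (1522, (.leaf [(8, 6), (31, 12), (27, 38), (1, 26)])),
    (1544, (.leaf [(32, 24), (30, 4), (22, 7), (11, 7)])),
    (1566, (.leaf [(32, 24), (30, 4), (22, 7), (11, 7)])),
    (1588, (.leaf [(8, 30), (32, 30), (28, 10), (11, 10)])),
    (1610, (.leaf [(32, 41), (30, 15), (12, 24), (11, 30)])),
    (1632, (.leaf [(8, 35), (33, 7), (28, 43), (12, 14)])),
    (1654, (.leaf [(33, 27), (9, 10), (12, 43), (29, 30)]))]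

theorem E3p6 : chkP gE E3L 4984832 E3w 4 33 4 76 E3l6 = true := by decide +kernel

def E3l7 : List (Nat × Tree) :=
  [(1676, (.leaf [(11, 35), (31, 44), (34, 7), (6, 26)])),
    (1698, (.leaf [(33, 13), (10, 31), (15, 1), (29, 8)])),
    (1720, (.leaf [(12, 22), (32, 9), (34, 18), (7, 3)])),
    (1742, (.leaf [(33, 34), (11, 11), (15, 24), (29, 37)])),
    (1764, (.leaf [(14, 13), (1, 5), (31, 19), (6, 39)])),
    (1786, (.leaf [(0, 1), (11, 24), (15, 40), (31, 33)])),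
    (1808, (.leaf [(34, 12), (12, 25), (15, 34), (30, 26)])),
    (1830, (.leaf [(0, 28), (12, 8), (16, 13), (32, 12)])),
    (1852, (.leaf [(14, 42), (32, 45), (2, 17), (9, 41)])),
    (1874, (.leaf [(1, 4), (12, 42), (16, 22), (32, 8)])),
    (1896, (.leaf [(15, 36), (32, 35), (3, 27), (10, 26)])),
    (1918, (.leaf [(16, 4), (33, 0), (2, 25), (10, 37)])),
    (1940, (.leaf [(12, 28), (16, 21), (3, 34), (33, 9)])),
    (1962, (.leaf [(3, 39), (13, 30), (16, 43), (33, 14)])),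
    (1984, (.leaf [(4, 5), (13, 17), (16, 38), (33, 30)])),
    (2006, (.leaf [(33, 15), (11, 32), (17, 31), (4, 6)])),
    (2028, (.leaf [(4, 9), (13, 26), (17, 14), (34, 2)])),
    (2050, (.leaf [(4, 18), (14, 8), (17, 21), (34, 6)])),
    (2072, (.leaf [(15, 30), (19, 30), (0, 6), (10, 32)])),
    (2094, (.leaf [(14, 19), (18, 0), (26, 30), (0, 17)])),
    (2116, (.leaf [(17, 12), (0, 16), (13, 29), (20, 26)])),
    (2138, (.leaf [(15, 8), (4, 32), (1, 12), (18, 29)])),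
    (2160, (.leaf [(2, 40), (16, 35), (19, 28), (0, 12)])),
    (2182, (.leaf [(16, 43), (19, 41), (4, 21), (14, 28)])),
    (2204, (.leaf [(18, 41), (15, 30), (4, 28), (19, 37)])),
    (2226, (.leaf [(5, 39), (16, 17), (19, 16), (2, 33)])),
    (2248, (.leaf [(18, 24), (2, 12), (15, 40), (21, 9)])),
    (2270, (.leaf [(6, 1), (16, 27), (20, 29), (1, 46)])),
    (2292, (.leaf [(6, 1), (16, 27), (20, 29), (1, 46)])),
    (2314, (.leaf [(20, 37), (3, 42), (8, 34), (15, 6)])),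
    (2336, (.leaf [(21, 15), (3, 45), (7, 24), (14, 41)])),
    (2358, (.leaf [(21, 15), (3, 45), (7, 24), (14, 41)])),
    (2380, (.leaf [(21, 30), (3, 29), (7, 25), (15, 2)])),
    (2402, (.leaf [(17, 35), (19, 35), (22, 25), (3, 26)])),
    (2424, (.leaf [(6, 35), (18, 26), (22, 38), (2, 18)])),
    (2446, (.leaf [(19, 4), (7, 2), (24, 7), (23, 33)])),
    (2468, (.leaf [(19, 4), (7, 2), (24, 7), (23, 33)])),
    (2490, (.leaf [(7, 12), (19, 19), (24, 45), (20, 39)])),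
    (2512, (.leaf [(7, 12), (19, 19), (24, 45), (20, 39)])),
    (2534, (.leaf [(24, 40), (6, 3), (21, 34), (6, 2)])),
    (2556, (.leaf [(20, 2), (7, 6), (5, 45), (25, 45)])),
    (2578, (.leaf [(20, 19), (8, 11), (6, 21), (26, 33)])),
    (2600, (.leaf [(20, 45), (9, 0), (26, 40), (27, 11)]))]

theorem E3p7 : chkP gE E3L 4984832 E3w 4 76 4 119 E3l7 = true := by decide +kernel

end Pool.Agent.K9.C
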