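import Pool.Agent.K9.C.E3D

/-! # K9: peeling of near cells -/

namespace Pool.Agent.K9.C

set_option maxRecDepth 10000

def E3l8 : List (Nat × Tree) :=
  [(2622, (.leaf [(20, 45), (9, 0), (26, 40), (27, 11)])),
    (5, (.leaf [(26, 1), (6, 34), (7, 9), (19, 37)])),
    (27, (.leaf [(24, 13), (5, 46), (6, 33), (3, 37)])),
    (49, (.leaf [(26, 31), (6, 34), (33, 17), (19, 32)])),
    (71, (.leaf [(10, 4), (26, 24), (21, 37), (28, 42)])),
    (93, (.leaf [(27, 34), (7, 46), (9, 37), (21, 6)])),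
    (115, (.leaf [(27, 33), (8, 23), (8, 39), (20, 32)])),
    (137, (.leaf [(10, 40), (25, 8), (29, 36), (6, 3)])),
    (159, (.leaf [(29, 22), (6, 36), (10, 19), (22, 31)])),
    (181, (.leaf [(29, 11), (6, 29), (10, 12), (22, 32)])),
    (203, (.leaf [(6, 39), (11, 37), (26, 14), (30, 1)])),
    (225, (.leaf [(27, 10), (32, 15), (8, 22), (11, 39)])),
    (247, (.leaf [(27, 28), (32, 36), (6, 39), (11, 1)])),
    (269, (.leaf [(7, 22), (12, 11), (27, 14), (30, 25)])),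
    (291, (.leaf [(31, 42), (7, 12), (12, 5), (26, 35)])),
    (313, (.leaf [(7, 14), (31, 42), (12, 5), (27, 21)])),
    (335, (.leaf [(28, 20), (33, 2), (14, 20), (7, 31)])),
    (357, (.leaf [(28, 24), (32, 39), (14, 29), (8, 14)])),
    (379, (.leaf [(32, 0), (9, 36), (14, 4), (27, 20)])),
    (401, (.leaf [(12, 26), (30, 31), (0, 25), (7, 4)])),
    (643, (.leaf [(16, 37), (33, 26), (4, 11), (12, 3)])),
    (665, (.leaf [(17, 6), (33, 41), (4, 16), (12, 29)])),
    (687, (.leaf [(18, 20), (32, 38), (3, 12), (13, 38)])),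
    (709, (.leaf [(18, 46), (32, 46), (3, 23), (14, 11)])),
    (731, (.leaf [(3, 35), (16, 20), (19, 0), (34, 4)])),
    (753, (.leaf [(18, 9), (0, 39), (3, 7), (13, 23)])),
    (775, (.leaf [(18, 2), (1, 31), (3, 28), (13, 34)])),
    (797, (.leaf [(5, 41), (14, 15), (18, 14), (3, 0)])),
    (819, (.leaf [(20, 22), (0, 44), (4, 44), (15, 5)])),
    (841, (.leaf [(20, 14), (2, 34), (16, 26), (14, 46)])),
    (863, (.leaf [(4, 29), (18, 31), (20, 11), (5, 17)])),
    (885, (.leaf [(22, 14), (1, 36), (6, 2), (15, 42)])),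
    (907, (.leaf [(4, 4), (19, 38), (22, 42), (4, 23)])),
    (929, (.leaf [(23, 13), (3, 20), (19, 12), (16, 7)])),
    (951, (.leaf [(20, 15), (23, 38), (4, 19), (15, 31)])),
    (973, (.leaf [(25, 2), (3, 36), (20, 5), (17, 8)])),
    (995, (.leaf [(4, 15), (4, 28), (21, 9), (26, 28)])),
    (1017, (.leaf [(25, 0), (5, 5), (16, 14), (18, 6)])),
    (1039, (.leaf [(26, 7), (4, 12), (19, 21), (15, 38)])),
    (1061, (.leaf [(20, 18), (25, 12), (6, 30), (4, 38)])),
    (1083, (.leaf [(25, 40), (5, 34), (10, 41), (18, 45)])),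
    (1105, (.leaf [(26, 44), (4, 30), (18, 37), (19, 20)])),
    (1127, (.leaf [(26, 37), (5, 8), (8, 21), (19, 41)]))]

theorem E3p8 : chkP gE E3L 4984832 E3w 4 119 5 52 E3l8 = true := by decide +kernel

def E3l9 : List (Nat × Tree) :=
  [(1149, (.leaf [(26, 8), (5, 10), (7, 11), (19, 25)])),
    (1171, (.leaf [(27, 26), (3, 8), (11, 33), (20, 17)])),
    (1193, (.leaf [(27, 22), (1, 6), (7, 32), (20, 27)])),
    (1215, (.leaf [(20, 46), (27, 16), (7, 38), (2, 27)])),
    (1237, (.leaf [(28, 22), (24, 30), (7, 13), (21, 34)])),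
    (1259, (.leaf [(28, 25), (21, 39), (7, 43), (22, 6)])),
    (1281, (.leaf [(8, 27), (30, 28), (20, 34), (24, 8)])),
    (1303, (.leaf [(6, 19), (28, 0), (30, 42), (21, 11)])),
    (1325, (.leaf [(6, 31), (28, 19), (9, 24), (18, 32)])),
    (1347, (.leaf [(6, 42), (31, 1), (21, 38), (25, 3)])),
    (1369, (.leaf [(29, 32), (6, 34), (23, 31), (31, 46)])),
    (1391, (.leaf [(29, 32), (8, 23), (23, 31), (32, 36)])),
    (1413, (.leaf [(31, 4), (17, 5), (28, 5), (7, 41)])),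
    (1435, (.leaf [(6, 30), (31, 26), (25, 12), (11, 27)])),
    (1457, (.leaf [(8, 0), (31, 17), (26, 25), (30, 14)])),
    (1479, (.leaf [(8, 3), (30, 30), (11, 12), (10, 0)])),
    (1501, (.leaf [(9, 13), (30, 44), (12, 9), (9, 7)])),
    (1523, (.leaf [(8, 6), (31, 12), (27, 38), (1, 26)])),
    (1545, (.leaf [(32, 24), (30, 4), (22, 7), (11, 7)])),
    (1567, (.leaf [(32, 24), (30, 4), (22, 7), (11, 7)])),
    (1589, (.leaf [(8, 30), (32, 30), (28, 10), (11, 10)])),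
    (1611, (.leaf [(32, 41), (30, 15), (12, 24), (11, 30)])),
    (1633, (.leaf [(8, 41), (33, 16), (29, 19), (12, 32)])),
    (1655, (.leaf [(33, 27), (9, 10), (12, 43), (29, 30)])),
    (1677, (.leaf [(33, 21), (9, 28), (10, 45), (29, 20)])),
    (1699, (.leaf [(33, 13), (10, 31), (15, 1), (29, 8)])),
    (1721, (.leaf [(33, 46), (10, 13), (12, 35), (30, 10)])),
    (1743, (.leaf [(33, 34), (11, 11), (15, 24), (29, 37)])),
    (1765, (.leaf [(14, 13), (1, 5), (31, 19), (6, 39)])),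
    (1787, (.leaf [(0, 1), (11, 24), (15, 40), (31, 33)])),
    (1809, (.leaf [(0, 35), (11, 0), (14, 40), (32, 4)])),
    (1831, (.leaf [(0, 28), (12, 8), (16, 13), (32, 12)])),
    (1853, (.leaf [(14, 42), (32, 45), (2, 17), (9, 41)])),
    (1875, (.leaf [(15, 16), (3, 41), (32, 6), (9, 34)])),
    (1897, (.leaf [(15, 36), (32, 35), (3, 27), (10, 26)])),
    (1919, (.leaf [(16, 4), (33, 0), (2, 25), (10, 37)])),
    (1941, (.leaf [(12, 28), (16, 21), (3, 34), (33, 9)])),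
    (1963, (.leaf [(12, 27), (16, 25), (4, 14), (33, 28)])),
    (1985, (.leaf [(4, 5), (13, 17), (16, 38), (33, 30)])),
    (2007, (.leaf [(33, 15), (11, 32), (17, 31), (4, 6)])),
    (2029, (.leaf [(4, 9), (13, 26), (17, 14), (34, 2)])),
    (2051, (.leaf [(4, 18), (14, 8), (17, 21), (34, 6)])),
    (2073, (.leaf [(15, 30), (19, 30), (0, 6), (10, 32)]))]

theorem E3p9 : chkP gE E3L 4984832 E3w 5 52 5 95 E3l9 = true := by decide +kernel

def E3l10 : List (Nat × Tree) :=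
  [(2095, (.leaf [(14, 19), (18, 0), (26, 30), (0, 17)])),
    (2117, (.leaf [(17, 12), (0, 16), (13, 29), (20, 26)])),
    (2139, (.leaf [(15, 8), (4, 32), (1, 12), (18, 29)])),
    (2161, (.leaf [(2, 40), (16, 35), (19, 28), (0, 12)])),
    (2183, (.leaf [(16, 43), (19, 41), (4, 21), (14, 28)])),
    (2205, (.leaf [(18, 41), (15, 30), (4, 28), (19, 37)])),
    (2227, (.leaf [(5, 39), (16, 17), (19, 16), (2, 33)])),
    (2249, (.leaf [(19, 3), (4, 26), (23, 2), (14, 37)])),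
    (2271, (.leaf [(6, 1), (16, 27), (20, 29), (1, 46)])),
    (2293, (.leaf [(6, 1), (16, 27), (20, 29), (1, 46)])),
    (2315, (.leaf [(20, 37), (3, 42), (8, 34), (15, 6)])),
    (2337, (.leaf [(21, 15), (3, 45), (7, 24), (14, 41)])),
    (2359, (.leaf [(21, 15), (3, 45), (7, 24), (14, 41)])),
    (2381, (.leaf [(21, 30), (3, 29), (7, 25), (15, 2)])),
    (2403, (.leaf [(17, 35), (19, 35), (22, 25), (3, 26)])),
    (2425, (.leaf [(6, 35), (18, 26), (22, 38), (2, 18)])),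
    (2447, (.leaf [(19, 4), (7, 2), (24, 7), (23, 33)])),
    (2469, (.leaf [(19, 4), (7, 2), (24, 7), (23, 33)])),
    (2491, (.leaf [(7, 12), (19, 19), (24, 45), (20, 39)])),
    (2513, (.leaf [(7, 12), (19, 19), (24, 45), (20, 39)])),
    (2535, (.leaf [(24, 40), (6, 3), (21, 34), (6, 2)])),
    (2557, (.leaf [(20, 2), (7, 6), (5, 45), (25, 45)])),
    (2579, (.leaf [(20, 19), (8, 11), (6, 21), (26, 33)])),
    (2601, (.leaf [(20, 45), (9, 0), (26, 40), (27, 11)])),
    (2623, (.leaf [(20, 45), (9, 0), (26, 40), (27, 11)])),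
    (6, (.leaf [(26, 1), (6, 34), (7, 9), (19, 37)])),
    (28, (.leaf [(24, 13), (5, 46), (6, 33), (3, 37)])),
    (50, (.leaf [(9, 44), (23, 1), (28, 14), (8, 46)])),
    (72, (.leaf [(10, 4), (26, 24), (21, 37), (28, 42)])),
    (94, (.leaf [(27, 34), (7, 46), (9, 37), (21, 6)])),
    (116, (.leaf [(27, 33), (8, 23), (8, 39), (20, 32)])),
    (138, (.leaf [(10, 40), (25, 8), (29, 36), (6, 3)])),
    (160, (.leaf [(29, 22), (6, 36), (10, 19), (22, 31)])),
    (182, (.leaf [(6, 44), (11, 43), (25, 25), (29, 34)])),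
    (204, (.leaf [(6, 39), (11, 37), (26, 14), (30, 1)])),
    (226, (.leaf [(27, 10), (32, 15), (8, 22), (11, 39)])),
    (248, (.leaf [(8, 15), (12, 38), (26, 41), (30, 24)])),
    (270, (.leaf [(7, 22), (12, 11), (27, 14), (30, 25)])),
    (292, (.leaf [(31, 42), (7, 12), (12, 5), (26, 35)])),
    (314, (.leaf [(14, 0), (27, 30), (31, 46), (7, 39)])),
    (336, (.leaf [(28, 20), (33, 2), (14, 20), (7, 31)])),
    (358, (.leaf [(28, 24), (32, 39), (14, 29), (8, 14)])),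
    (380, (.leaf [(32, 0), (9, 36), (14, 4), (27, 20)]))]

theorem E3p10 : chkP gE E3L 4984832 E3w 5 95 6 29 E3l10 = true := by decide +kernel

def E3l11 : List (Nat × Tree) :=
  [(644, (.leaf [(16, 37), (33, 26), (4, 11), (12, 3)])),
    (666, (.leaf [(17, 6), (33, 41), (4, 16), (12, 29)])),
    (688, (.leaf [(18, 20), (32, 38), (3, 12), (13, 38)])),
    (710, (.leaf [(18, 46), (32, 46), (3, 23), (14, 11)])),
    (732, (.leaf [(3, 35), (16, 20), (19, 0), (34, 4)])),
    (754, (.leaf [(18, 9), (0, 39), (3, 7), (13, 23)])),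
    (776, (.leaf [(18, 2), (1, 31), (3, 28), (13, 34)])),
    (798, (.leaf [(20, 6), (0, 24), (5, 4), (14, 31)])),
    (820, (.leaf [(20, 22), (0, 44), (4, 44), (15, 5)])),
    (842, (.leaf [(20, 14), (2, 34), (16, 26), (14, 46)])),
    (864, (.leaf [(21, 40), (1, 1), (5, 38), (16, 3)])),
    (886, (.leaf [(22, 14), (1, 36), (6, 2), (15, 42)])),
    (908, (.leaf [(4, 4), (19, 38), (22, 42), (4, 23)])),
    (930, (.leaf [(23, 13), (3, 20), (19, 12), (16, 7)])),
    (952, (.leaf [(20, 15), (23, 38), (4, 19), (15, 31)])),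
    (974, (.leaf [(25, 2), (3, 36), (20, 5), (17, 8)])),
    (996, (.leaf [(4, 3), (21, 10), (25, 16), (5, 16)])),
    (1018, (.leaf [(25, 0), (5, 5), (16, 14), (18, 6)])),
    (1040, (.leaf [(26, 7), (4, 12), (19, 21), (15, 38)])),
    (1062, (.leaf [(20, 18), (25, 12), (6, 30), (4, 38)])),
    (1084, (.leaf [(22, 28), (27, 2), (19, 9), (3, 21)])),
    (1106, (.leaf [(26, 44), (4, 30), (18, 37), (19, 20)])),
    (1128, (.leaf [(26, 37), (5, 8), (8, 21), (19, 41)])),
    (1150, (.leaf [(27, 29), (4, 2), (21, 14), (20, 3)])),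
    (1172, (.leaf [(27, 26), (3, 8), (11, 33), (20, 17)])),
    (1194, (.leaf [(27, 22), (1, 6), (7, 32), (20, 27)])),
    (1216, (.leaf [(28, 16), (2, 43), (8, 13), (21, 34)])),
    (1238, (.leaf [(28, 22), (24, 30), (7, 13), (21, 34)])),
    (1260, (.leaf [(28, 25), (21, 39), (7, 43), (22, 6)])),
    (1282, (.leaf [(23, 31), (29, 9), (7, 15), (3, 44)])),
    (1304, (.leaf [(6, 19), (28, 0), (30, 42), (21, 11)])),
    (1326, (.leaf [(6, 31), (28, 19), (9, 24), (18, 32)])),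
    (1348, (.leaf [(30, 9), (24, 15), (8, 12), (1, 33)])),
    (1370, (.leaf [(29, 32), (6, 34), (23, 31), (31, 46)])),
    (1392, (.leaf [(29, 32), (8, 23), (23, 31), (32, 36)])),
    (1414, (.leaf [(31, 4), (17, 5), (28, 5), (7, 41)])),
    (1436, (.leaf [(6, 30), (31, 26), (25, 12), (11, 27)])),
    (1458, (.leaf [(8, 0), (31, 17), (26, 25), (30, 14)])),
    (1480, (.leaf [(8, 3), (30, 30), (11, 12), (10, 0)])),
    (1502, (.leaf [(8, 7), (32, 13), (11, 39), (27, 18)])),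
    (1524, (.leaf [(8, 6), (31, 12), (27, 38), (1, 26)])),
    (1546, (.leaf [(32, 24), (30, 4), (22, 7), (11, 7)]))]

theorem E3p11 : chkP gE E3L 4984832 E3w 6 29 6 71 E3l11 = true := by decide +kernel

def E3l12 : List (Nat × Tree) :=
  [(1568, (.leaf [(32, 24), (30, 4), (22, 7), (11, 7)])),
    (1590, (.leaf [(8, 30), (32, 30), (28, 10), (11, 10)])),
    (1612, (.leaf [(32, 41), (30, 15), (12, 24), (11, 30)])),
    (1634, (.leaf [(8, 41), (33, 16), (29, 19), (12, 32)])),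
    (1656, (.leaf [(33, 27), (9, 10), (12, 43), (29, 30)])),
    (1678, (.leaf [(33, 21), (9, 28), (10, 45), (29, 20)])),
    (1700, (.leaf [(33, 13), (10, 31), (15, 1), (29, 8)])),
    (1722, (.leaf [(33, 46), (10, 13), (12, 35), (30, 10)])),
    (1744, (.leaf [(33, 34), (11, 11), (15, 24), (29, 37)])),
    (1766, (.leaf [(14, 13), (1, 5), (31, 19), (6, 39)])),
    (1788, (.leaf [(0, 1), (11, 24), (15, 40), (31, 33)])),
    (1810, (.leaf [(0, 35), (11, 0), (14, 40), (32, 4)])),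
    (1832, (.leaf [(0, 28), (12, 8), (16, 13), (32, 12)])),
    (1854, (.leaf [(14, 42), (32, 45), (2, 17), (9, 41)])),
    (1876, (.leaf [(15, 16), (3, 41), (32, 6), (9, 34)])),
    (1898, (.leaf [(15, 36), (32, 35), (3, 27), (10, 26)])),
    (1920, (.leaf [(16, 4), (33, 0), (2, 25), (10, 37)])),
    (1942, (.leaf [(12, 28), (16, 21), (3, 34), (33, 9)])),
    (1964, (.leaf [(12, 27), (16, 25), (4, 14), (33, 28)])),
    (1986, (.leaf [(4, 5), (13, 17), (16, 38), (33, 30)])),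
    (2008, (.leaf [(33, 15), (11, 32), (17, 31), (4, 6)])),
    (2030, (.leaf [(4, 9), (13, 26), (17, 14), (34, 2)])),
    (2052, (.leaf [(4, 18), (14, 8), (17, 21), (34, 6)])),
    (2074, (.leaf [(15, 30), (19, 30), (0, 6), (10, 32)])),
    (2096, (.leaf [(14, 19), (18, 0), (26, 30), (0, 17)])),
    (2118, (.leaf [(17, 12), (0, 16), (13, 29), (20, 26)])),
    (2140, (.leaf [(15, 8), (4, 32), (1, 12), (18, 29)])),
    (2162, (.leaf [(33, 23), (15, 19), (18, 7), (2, 0)])),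
    (2184, (.leaf [(16, 43), (19, 41), (4, 21), (14, 28)])),
    (2206, (.leaf [(4, 13), (16, 5), (19, 8), (2, 5)])),
    (2228, (.leaf [(5, 39), (16, 17), (19, 16), (2, 33)])),
    (2250, (.leaf [(19, 3), (4, 26), (23, 2), (14, 37)])),
    (2272, (.leaf [(6, 1), (16, 27), (20, 29), (1, 46)])),
    (2294, (.leaf [(20, 37), (3, 42), (8, 34), (15, 6)])),
    (2316, (.leaf [(20, 37), (3, 42), (8, 34), (15, 6)])),
    (2338, (.leaf [(21, 15), (3, 45), (7, 24), (14, 41)])),
    (2360, (.leaf [(21, 15), (3, 45), (7, 24), (14, 41)])),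
    (2382, (.leaf [(21, 30), (3, 29), (7, 25), (15, 2)])),
    (2404, (.leaf [(17, 35), (19, 35), (22, 25), (3, 26)])),
    (2426, (.leaf [(6, 35), (18, 26), (22, 38), (2, 18)])),
    (2448, (.leaf [(19, 4), (7, 2), (24, 7), (23, 33)])),
    (2470, (.leaf [(19, 4), (7, 2), (24, 7), (23, 33)])),
    (2492, (.leaf [(7, 12), (19, 19), (24, 45), (20, 39)]))]

theorem E3p12 : chkP gE E3L 4984832 E3w 6 71 6 114 E3l12 = true := by decide +kernel

def E3l13 : List (Nat × Tree) :=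
  [(2514, (.leaf [(7, 12), (19, 19), (24, 45), (20, 39)])),
    (2536, (.leaf [(24, 40), (6, 3), (21, 34), (6, 2)])),
    (2558, (.leaf [(20, 19), (8, 11), (6, 21), (26, 33)])),
    (2580, (.leaf [(20, 19), (8, 11), (6, 21), (26, 33)])),
    (2602, (.leaf [(20, 45), (9, 0), (26, 40), (27, 11)])),
    (2624, (.leaf [(20, 45), (9, 0), (26, 40), (27, 11)])),
    (7, (.leaf [(26, 1), (6, 34), (7, 9), (19, 37)])),
    (29, (.leaf [(26, 43), (6, 45), (9, 4), (20, 7)])),
    (51, (.leaf [(9, 44), (23, 1), (28, 14), (8, 46)])),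
    (73, (.leaf [(10, 4), (26, 24), (21, 37), (28, 42)])),
    (95, (.leaf [(27, 34), (7, 46), (9, 37), (21, 6)])),
    (117, (.leaf [(6, 39), (10, 39), (24, 12), (28, 31)])),
    (139, (.leaf [(10, 40), (25, 8), (29, 36), (6, 3)])),
    (161, (.leaf [(29, 22), (6, 36), (10, 19), (22, 31)])),
    (183, (.leaf [(6, 44), (11, 43), (25, 25), (29, 34)])),
    (205, (.leaf [(6, 39), (11, 37), (26, 14), (30, 1)])),
    (227, (.leaf [(27, 10), (32, 15), (8, 22), (11, 39)])),
    (249, (.leaf [(8, 15), (12, 38), (26, 41), (30, 24)])),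
    (271, (.leaf [(7, 22), (12, 11), (27, 14), (30, 25)])),
    (293, (.leaf [(31, 42), (7, 12), (12, 5), (26, 35)])),
    (315, (.leaf [(14, 0), (27, 30), (31, 46), (7, 39)])),
    (337, (.leaf [(28, 20), (33, 2), (14, 20), (7, 31)])),
    (359, (.leaf [(32, 0), (9, 36), (14, 4), (27, 20)])),
    (645, (.leaf [(16, 37), (33, 26), (4, 11), (12, 3)])),
    (667, (.leaf [(17, 6), (33, 41), (4, 16), (12, 29)])),
    (689, (.leaf [(18, 20), (32, 38), (3, 12), (13, 38)])),
    (711, (.leaf [(18, 46), (32, 46), (3, 23), (14, 11)])),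
    (733, (.leaf [(3, 35), (16, 20), (19, 0), (34, 4)])),
    (755, (.leaf [(18, 9), (0, 39), (3, 7), (13, 23)])),
    (777, (.leaf [(20, 1), (34, 19), (5, 12), (14, 23)])),
    (799, (.leaf [(20, 6), (0, 24), (5, 4), (14, 31)])),
    (821, (.leaf [(20, 22), (0, 44), (4, 44), (15, 5)])),
    (843, (.leaf [(20, 14), (2, 34), (16, 26), (14, 46)])),
    (865, (.leaf [(21, 40), (1, 1), (5, 38), (16, 3)])),
    (887, (.leaf [(22, 14), (1, 36), (6, 2), (15, 42)])),
    (909, (.leaf [(4, 4), (19, 38), (22, 42), (4, 23)])),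
    (931, (.leaf [(23, 13), (3, 20), (19, 12), (16, 7)])),
    (953, (.leaf [(24, 20), (2, 23), (18, 44), (16, 18)])),
    (975, (.leaf [(25, 2), (3, 36), (20, 5), (17, 8)])),
    (997, (.leaf [(4, 3), (21, 10), (25, 16), (5, 16)])),
    (1019, (.leaf [(21, 25), (26, 21), (17, 46), (3, 5)])),
    (1041, (.leaf [(26, 7), (4, 12), (19, 21), (15, 38)])),
    (1063, (.leaf [(20, 18), (25, 12), (6, 30), (4, 38)]))]

theorem E3p13 : chkP gE E3L 4984832 E3w 6 114 7 49 E3l13 = true := by decide +kernel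

def E3l14 : List (Nat × Tree) :=
  [(1085, (.leaf [(22, 28), (27, 2), (19, 9), (3, 21)])),
    (1107, (.leaf [(26, 44), (4, 30), (18, 37), (19, 20)])),
    (1129, (.leaf [(26, 37), (5, 8), (8, 21), (19, 41)])),
    (1151, (.leaf [(27, 29), (4, 2), (21, 14), (20, 3)])),
    (1173, (.leaf [(27, 26), (3, 8), (11, 33), (20, 17)])),
    (1195, (.leaf [(27, 22), (1, 6), (7, 32), (20, 27)])),
    (1217, (.leaf [(28, 16), (2, 43), (8, 13), (21, 34)])),
    (1239, (.leaf [(28, 22), (24, 30), (7, 13), (21, 34)])),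
    (1261, (.leaf [(28, 25), (21, 39), (7, 43), (22, 6)])),
    (1283, (.leaf [(23, 31), (29, 9), (7, 15), (3, 44)])),
    (1305, (.leaf [(6, 19), (28, 0), (30, 42), (21, 11)])),
    (1327, (.leaf [(29, 44), (24, 3), (7, 18), (4, 1)])),
    (1349, (.leaf [(30, 9), (24, 15), (8, 12), (1, 33)])),
    (1371, (.leaf [(29, 32), (6, 34), (23, 31), (31, 46)])),
    (1393, (.leaf [(29, 32), (8, 23), (23, 31), (32, 36)])),
    (1415, (.leaf [(34, 0), (30, 5), (25, 33), (8, 36)])),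
    (1437, (.leaf [(6, 30), (31, 26), (25, 12), (11, 27)])),
    (1459, (.leaf [(8, 0), (31, 17), (26, 25), (30, 14)])),
    (1481, (.leaf [(9, 17), (31, 2), (33, 20), (26, 20)])),
    (1503, (.leaf [(8, 7), (32, 13), (11, 39), (27, 18)])),
    (1525, (.leaf [(8, 6), (31, 12), (27, 38), (1, 26)])),
    (1547, (.leaf [(32, 24), (30, 4), (22, 7), (11, 7)])),
    (1569, (.leaf [(32, 24), (30, 4), (22, 7), (11, 7)])),
    (1591, (.leaf [(8, 30), (32, 30), (28, 10), (11, 10)])),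
    (1613, (.leaf [(8, 35), (33, 7), (28, 43), (12, 14)])),
    (1635, (.leaf [(8, 41), (33, 16), (29, 19), (12, 32)])),
    (1657, (.leaf [(33, 27), (9, 10), (12, 43), (29, 30)])),
    (1679, (.leaf [(33, 21), (9, 28), (10, 45), (29, 20)])),
    (1701, (.leaf [(33, 13), (10, 31), (15, 1), (29, 8)])),
    (1723, (.leaf [(33, 46), (10, 13), (12, 35), (30, 10)])),
    (1745, (.leaf [(0, 11), (9, 38), (13, 16), (31, 37)])),
    (1767, (.leaf [(14, 13), (1, 5), (31, 19), (6, 39)])),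
    (1789, (.leaf [(0, 1), (11, 24), (15, 40), (31, 33)])),
    (1811, (.leaf [(0, 35), (11, 0), (14, 40), (32, 4)])),
    (1833, (.leaf [(1, 42), (10, 33), (14, 16), (32, 22)])),
    (1855, (.leaf [(14, 42), (32, 45), (2, 17), (9, 41)])),
    (1877, (.leaf [(15, 16), (3, 41), (32, 6), (9, 34)])),
    (1899, (.leaf [(15, 36), (32, 35), (3, 27), (10, 26)])),
    (1921, (.leaf [(16, 4), (33, 0), (2, 25), (10, 37)])),
    (1943, (.leaf [(12, 28), (16, 21), (3, 34), (33, 9)])),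
    (1965, (.leaf [(12, 27), (16, 25), (4, 14), (33, 28)])),
    (1987, (.leaf [(4, 46), (12, 23), (14, 35), (33, 22)])),
    (2009, (.leaf [(33, 15), (11, 32), (17, 31), (4, 6)]))]

theorem E3p14 : chkP gE E3L 4984832 E3w 7 49 7 92 E3l14 = true := by decide +kernel

def E3l15 : List (Nat × Tree) :=
  [(2031, (.leaf [(4, 9), (13, 26), (17, 14), (34, 2)])),
    (2053, (.leaf [(5, 42), (13, 28), (17, 9), (34, 21)])),
    (2075, (.leaf [(15, 30), (19, 30), (0, 6), (10, 32)])),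
    (2097, (.leaf [(14, 19), (18, 0), (26, 30), (0, 17)])),
    (2119, (.leaf [(4, 33), (14, 6), (17, 44), (0, 26)])),
    (2141, (.leaf [(15, 8), (4, 32), (1, 12), (18, 29)])),
    (2163, (.leaf [(33, 23), (15, 19), (18, 7), (2, 0)])),
    (2185, (.leaf [(16, 43), (19, 41), (4, 21), (14, 28)])),
    (2207, (.leaf [(4, 13), (16, 5), (19, 8), (2, 5)])),
    (2229, (.leaf [(5, 39), (16, 17), (19, 16), (2, 33)])),
    (2251, (.leaf [(19, 3), (4, 26), (23, 2), (14, 37)])),
    (2273, (.leaf [(6, 1), (16, 27), (20, 29), (1, 46)])),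
    (2295, (.leaf [(20, 37), (3, 42), (8, 34), (15, 6)])),
    (2317, (.leaf [(20, 37), (3, 42), (8, 34), (15, 6)])),
    (2339, (.leaf [(21, 15), (3, 45), (7, 24), (14, 41)])),
    (2361, (.leaf [(21, 15), (3, 45), (7, 24), (14, 41)])),
    (2383, (.leaf [(21, 30), (3, 29), (7, 25), (15, 2)])),
    (2405, (.leaf [(17, 35), (19, 35), (22, 25), (3, 26)])),
    (2427, (.leaf [(6, 35), (18, 26), (22, 38), (2, 18)])),
    (2449, (.leaf [(19, 4), (7, 2), (24, 7), (23, 33)])),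
    (2471, (.leaf [(19, 4), (7, 2), (24, 7), (23, 33)])),
    (2493, (.leaf [(7, 12), (19, 19), (24, 45), (20, 39)])),
    (2515, (.leaf [(7, 12), (19, 19), (24, 45), (20, 39)])),
    (2537, (.leaf [(20, 2), (7, 6), (5, 45), (25, 45)])),
    (2559, (.leaf [(20, 19), (8, 11), (6, 21), (26, 33)])),
    (2581, (.leaf [(20, 19), (8, 11), (6, 21), (26, 33)])),
    (2603, (.leaf [(20, 45), (9, 0), (26, 40), (27, 11)])),
    (2625, (.leaf [(20, 45), (9, 0), (26, 40), (27, 11)])),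
    (8, (.leaf [(21, 9), (28, 11), (24, 10), (9, 12)])),
    (30, (.leaf [(26, 43), (6, 45), (9, 4), (20, 7)])),
    (52, (.leaf [(9, 44), (23, 1), (28, 14), (8, 46)])),
    (74, (.leaf [(10, 4), (26, 24), (21, 37), (28, 42)])),
    (96, (.leaf [(27, 34), (7, 46), (9, 37), (21, 6)])),
    (118, (.leaf [(6, 39), (10, 39), (24, 12), (28, 31)])),
    (140, (.leaf [(10, 40), (25, 8), (29, 36), (6, 3)])),
    (162, (.leaf [(7, 10), (11, 15), (25, 1), (28, 40)])),
    (184, (.leaf [(6, 44), (11, 43), (25, 25), (29, 34)])),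
    (206, (.leaf [(6, 39), (11, 37), (26, 14), (30, 1)])),
    (228, (.leaf [(8, 28), (11, 41), (26, 28), (29, 39)])),
    (250, (.leaf [(8, 15), (12, 38), (26, 41), (30, 24)])),
    (272, (.leaf [(7, 22), (12, 11), (27, 14), (30, 25)])),
    (294, (.leaf [(13, 40), (27, 17), (31, 38), (7, 31)])),
    (316, (.leaf [(14, 0), (27, 30), (31, 46), (7, 39)]))]

theorem E3p15 : chkP gE E3L 4984832 E3w 7 92 8 15 E3l15 = true := by decide +kernel

end Pool.Agent.K9.C
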