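import Pool.Agent.K9.C.E3D

/-! # K9: peeling of near cells -/

namespace Pool.Agent.K9.C

set_option maxRecDepth 10000

def E3l16 : List (Nat × Tree) :=
  [(338, (.leaf [(28, 20), (33, 2), (14, 20), (7, 31)])),
    (646, (.leaf [(16, 37), (33, 26), (4, 11), (12, 3)])),
    (668, (.leaf [(17, 6), (33, 41), (4, 16), (12, 29)])),
    (690, (.leaf [(18, 20), (32, 38), (3, 12), (13, 38)])),
    (712, (.leaf [(18, 46), (32, 46), (3, 23), (14, 11)])),
    (734, (.leaf [(3, 35), (16, 20), (19, 0), (34, 4)])),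
    (756, (.leaf [(19, 40), (33, 45), (4, 37), (14, 27)])),
    (778, (.leaf [(20, 1), (34, 19), (5, 12), (14, 23)])),
    (800, (.leaf [(20, 6), (0, 24), (5, 4), (14, 31)])),
    (822, (.leaf [(20, 22), (0, 44), (4, 44), (15, 5)])),
    (844, (.leaf [(21, 13), (0, 46), (5, 27), (15, 22)])),
    (866, (.leaf [(21, 40), (1, 1), (5, 38), (16, 3)])),
    (888, (.leaf [(22, 14), (1, 36), (6, 2), (15, 42)])),
    (910, (.leaf [(23, 15), (2, 4), (17, 37), (15, 42)])),
    (932, (.leaf [(23, 13), (3, 20), (19, 12), (16, 7)])),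
    (954, (.leaf [(24, 20), (2, 23), (18, 44), (16, 18)])),
    (976, (.leaf [(25, 2), (3, 36), (20, 5), (17, 8)])),
    (998, (.leaf [(4, 3), (21, 10), (25, 16), (5, 16)])),
    (1020, (.leaf [(21, 25), (26, 21), (17, 46), (3, 5)])),
    (1042, (.leaf [(26, 7), (4, 12), (19, 21), (15, 38)])),
    (1064, (.leaf [(24, 27), (19, 10), (27, 8), (3, 26)])),
    (1086, (.leaf [(22, 28), (27, 2), (19, 9), (3, 21)])),
    (1108, (.leaf [(26, 44), (4, 30), (18, 37), (19, 20)])),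
    (1130, (.leaf [(24, 36), (20, 21), (27, 35), (3, 28)])),
    (1152, (.leaf [(27, 29), (4, 2), (21, 14), (20, 3)])),
    (1174, (.leaf [(27, 26), (3, 8), (11, 33), (20, 17)])),
    (1196, (.leaf [(27, 45), (4, 35), (12, 10), (20, 40)])),
    (1218, (.leaf [(28, 16), (2, 43), (8, 13), (21, 34)])),
    (1240, (.leaf [(28, 22), (24, 30), (7, 13), (21, 34)])),
    (1262, (.leaf [(28, 25), (21, 39), (7, 43), (22, 6)])),
    (1284, (.leaf [(23, 31), (29, 9), (7, 15), (3, 44)])),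
    (1306, (.leaf [(30, 23), (23, 46), (6, 38), (3, 21)])),
    (1328, (.leaf [(29, 44), (24, 3), (7, 18), (4, 1)])),
    (1350, (.leaf [(30, 9), (24, 15), (8, 12), (1, 33)])),
    (1372, (.leaf [(29, 32), (6, 34), (23, 31), (31, 46)])),
    (1394, (.leaf [(29, 32), (8, 23), (23, 31), (32, 36)])),
    (1416, (.leaf [(34, 0), (30, 5), (25, 33), (8, 36)])),
    (1438, (.leaf [(6, 30), (31, 26), (25, 12), (11, 27)])),
    (1460, (.leaf [(8, 0), (31, 17), (26, 25), (30, 14)])),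
    (1482, (.leaf [(9, 17), (31, 2), (33, 20), (26, 20)])),
    (1504, (.leaf [(8, 7), (32, 13), (11, 39), (27, 18)])),
    (1526, (.leaf [(8, 6), (31, 12), (27, 38), (1, 26)])),
    (1548, (.leaf [(32, 24), (30, 4), (22, 7), (11, 7)]))]

theorem E3p16 : chkP gE E3L 4984832 E3w 8 15 8 71 E3l16 = true := by decide +kernel

def E3l17 : List (Nat × Tree) :=
  [(1570, (.leaf [(32, 24), (30, 4), (22, 7), (11, 7)])),
    (1592, (.leaf [(8, 30), (32, 30), (28, 10), (11, 10)])),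
    (1614, (.leaf [(8, 35), (33, 7), (28, 43), (12, 14)])),
    (1636, (.leaf [(8, 41), (33, 16), (29, 19), (12, 32)])),
    (1658, (.leaf [(33, 27), (9, 10), (12, 43), (29, 30)])),
    (1680, (.leaf [(33, 21), (9, 28), (10, 45), (29, 20)])),
    (1702, (.leaf [(34, 8), (8, 37), (13, 14), (30, 6)])),
    (1724, (.leaf [(33, 46), (10, 13), (12, 35), (30, 10)])),
    (1746, (.leaf [(0, 11), (9, 38), (13, 16), (31, 37)])),
    (1768, (.leaf [(14, 13), (1, 5), (31, 19), (6, 39)])),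
    (1790, (.leaf [(0, 45), (10, 2), (14, 3), (32, 11)])),
    (1812, (.leaf [(0, 35), (11, 0), (14, 40), (32, 4)])),
    (1834, (.leaf [(1, 42), (10, 33), (14, 16), (32, 22)])),
    (1856, (.leaf [(14, 42), (32, 45), (2, 17), (9, 41)])),
    (1878, (.leaf [(15, 16), (3, 41), (32, 6), (9, 34)])),
    (1900, (.leaf [(15, 36), (32, 35), (3, 27), (10, 26)])),
    (1922, (.leaf [(4, 8), (11, 19), (15, 21), (33, 8)])),
    (1944, (.leaf [(12, 28), (16, 21), (3, 34), (33, 9)])),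
    (1966, (.leaf [(12, 27), (16, 25), (4, 14), (33, 28)])),
    (1988, (.leaf [(4, 46), (12, 23), (14, 35), (33, 22)])),
    (2010, (.leaf [(33, 15), (11, 32), (17, 31), (4, 6)])),
    (2032, (.leaf [(4, 9), (13, 26), (17, 14), (34, 2)])),
    (2054, (.leaf [(5, 42), (13, 28), (17, 9), (34, 21)])),
    (2076, (.leaf [(15, 30), (19, 30), (0, 6), (10, 32)])),
    (2098, (.leaf [(14, 19), (18, 0), (26, 30), (0, 17)])),
    (2120, (.leaf [(4, 33), (14, 6), (17, 44), (0, 26)])),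
    (2142, (.leaf [(15, 8), (4, 32), (1, 12), (18, 29)])),
    (2164, (.leaf [(33, 23), (15, 19), (18, 7), (2, 0)])),
    (2186, (.leaf [(16, 43), (19, 41), (4, 21), (14, 28)])),
    (2208, (.leaf [(4, 13), (16, 5), (19, 8), (2, 5)])),
    (2230, (.leaf [(5, 39), (16, 17), (19, 16), (2, 33)])),
    (2252, (.leaf [(19, 3), (4, 26), (23, 2), (14, 37)])),
    (2274, (.leaf [(6, 1), (16, 27), (20, 29), (1, 46)])),
    (2296, (.leaf [(20, 37), (3, 42), (8, 34), (15, 6)])),
    (2318, (.leaf [(20, 37), (3, 42), (8, 34), (15, 6)])),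
    (2340, (.leaf [(21, 15), (3, 45), (7, 24), (14, 41)])),
    (2362, (.leaf [(21, 15), (3, 45), (7, 24), (14, 41)])),
    (2384, (.leaf [(21, 30), (3, 29), (7, 25), (15, 2)])),
    (2406, (.leaf [(6, 35), (18, 26), (22, 38), (2, 18)])),
    (2428, (.leaf [(6, 35), (18, 26), (22, 38), (2, 18)])),
    (2450, (.leaf [(19, 4), (7, 2), (24, 7), (23, 33)])),
    (2472, (.leaf [(19, 4), (7, 2), (24, 7), (23, 33)])),
    (2494, (.leaf [(7, 12), (19, 19), (24, 45), (20, 39)]))]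

theorem E3p17 : chkP gE E3L 4984832 E3w 8 71 8 114 E3l17 = true := by decide +kernel

def E3l18 : List (Nat × Tree) :=
  [(2516, (.leaf [(7, 12), (19, 19), (24, 45), (20, 39)])),
    (2538, (.leaf [(20, 2), (7, 6), (5, 45), (25, 45)])),
    (2560, (.leaf [(20, 19), (8, 11), (6, 21), (26, 33)])),
    (2582, (.leaf [(20, 19), (8, 11), (6, 21), (26, 33)])),
    (2604, (.leaf [(20, 45), (9, 0), (26, 40), (27, 11)])),
    (2626, (.leaf [(20, 45), (9, 0), (26, 40), (27, 11)])),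
    (9, (.leaf [(21, 9), (28, 11), (24, 10), (9, 12)])),
    (31, (.leaf [(26, 43), (6, 45), (9, 4), (20, 7)])),
    (53, (.leaf [(9, 44), (23, 1), (28, 14), (8, 46)])),
    (75, (.leaf [(10, 4), (26, 24), (21, 37), (28, 42)])),
    (97, (.leaf [(6, 37), (10, 14), (23, 44), (27, 40)])),
    (119, (.leaf [(6, 39), (10, 39), (24, 12), (28, 31)])),
    (141, (.leaf [(10, 40), (25, 8), (29, 36), (6, 3)])),
    (163, (.leaf [(7, 10), (11, 15), (25, 1), (28, 40)])),
    (185, (.leaf [(6, 44), (11, 43), (25, 25), (29, 34)])),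
    (207, (.leaf [(6, 39), (11, 37), (26, 14), (30, 1)])),
    (229, (.leaf [(8, 28), (11, 41), (26, 28), (29, 39)])),
    (251, (.leaf [(8, 15), (12, 38), (26, 41), (30, 24)])),
    (273, (.leaf [(9, 21), (13, 21), (26, 46), (30, 36)])),
    (295, (.leaf [(13, 40), (27, 17), (31, 38), (7, 31)])),
    (317, (.leaf [(14, 0), (27, 30), (31, 46), (7, 39)])),
    (339, (.leaf [(28, 20), (33, 2), (14, 20), (7, 31)])),
    (647, (.leaf [(16, 37), (33, 26), (4, 11), (12, 3)])),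
    (669, (.leaf [(17, 6), (33, 41), (4, 16), (12, 29)])),
    (691, (.leaf [(18, 20), (32, 38), (3, 12), (13, 38)])),
    (713, (.leaf [(18, 46), (32, 46), (3, 23), (14, 11)])),
    (735, (.leaf [(19, 24), (33, 25), (4, 17), (14, 18)])),
    (757, (.leaf [(19, 40), (33, 45), (4, 37), (14, 27)])),
    (779, (.leaf [(20, 1), (34, 19), (5, 12), (14, 23)])),
    (801, (.leaf [(20, 6), (0, 24), (5, 4), (14, 31)])),
    (823, (.leaf [(20, 22), (0, 44), (4, 44), (15, 5)])),
    (845, (.leaf [(21, 13), (0, 46), (5, 27), (15, 22)])),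
    (867, (.leaf [(21, 40), (1, 1), (5, 38), (16, 3)])),
    (889, (.leaf [(22, 14), (1, 36), (6, 2), (15, 42)])),
    (911, (.leaf [(23, 15), (2, 4), (17, 37), (15, 42)])),
    (933, (.leaf [(23, 13), (3, 20), (19, 12), (16, 7)])),
    (955, (.leaf [(24, 20), (2, 23), (18, 44), (16, 18)])),
    (977, (.leaf [(25, 2), (3, 36), (20, 5), (17, 8)])),
    (999, (.leaf [(22, 2), (25, 43), (3, 5), (9, 35)])),
    (1021, (.leaf [(21, 25), (26, 21), (17, 46), (3, 5)])),
    (1043, (.leaf [(26, 7), (4, 12), (19, 21), (15, 38)])),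
    (1065, (.leaf [(24, 27), (19, 10), (27, 8), (3, 26)])),
    (1087, (.leaf [(22, 28), (27, 2), (19, 9), (3, 21)]))]

theorem E3p18 : chkP gE E3L 4984832 E3w 8 114 9 50 E3l18 = true := by decide +kernel

def E3l19 : List (Nat × Tree) :=
  [(1109, (.leaf [(26, 44), (4, 30), (18, 37), (19, 20)])),
    (1131, (.leaf [(24, 36), (20, 21), (27, 35), (3, 28)])),
    (1153, (.leaf [(27, 29), (4, 2), (21, 14), (20, 3)])),
    (1175, (.leaf [(27, 26), (3, 8), (11, 33), (20, 17)])),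
    (1197, (.leaf [(27, 45), (4, 35), (12, 10), (20, 40)])),
    (1219, (.leaf [(28, 16), (2, 43), (8, 13), (21, 34)])),
    (1241, (.leaf [(28, 22), (24, 30), (7, 13), (21, 34)])),
    (1263, (.leaf [(28, 25), (21, 39), (7, 43), (22, 6)])),
    (1285, (.leaf [(29, 6), (5, 43), (6, 39), (22, 36)])),
    (1307, (.leaf [(30, 23), (23, 46), (6, 38), (3, 21)])),
    (1329, (.leaf [(29, 44), (24, 3), (7, 18), (4, 1)])),
    (1351, (.leaf [(30, 9), (24, 15), (8, 12), (1, 33)])),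
    (1373, (.leaf [(29, 32), (6, 34), (23, 31), (31, 46)])),
    (1395, (.leaf [(31, 7), (10, 34), (7, 28), (25, 26)])),
    (1417, (.leaf [(34, 0), (30, 5), (25, 33), (8, 36)])),
    (1439, (.leaf [(6, 30), (31, 26), (25, 12), (11, 27)])),
    (1461, (.leaf [(8, 32), (30, 22), (31, 41), (25, 10)])),
    (1483, (.leaf [(9, 17), (31, 2), (33, 20), (26, 20)])),
    (1505, (.leaf [(8, 7), (32, 13), (11, 39), (27, 18)])),
    (1527, (.leaf [(8, 6), (31, 12), (27, 38), (1, 26)])),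
    (1549, (.leaf [(32, 24), (30, 4), (22, 7), (11, 7)])),
    (1571, (.leaf [(32, 24), (30, 4), (22, 7), (11, 7)])),
    (1593, (.leaf [(32, 41), (30, 15), (12, 24), (11, 30)])),
    (1615, (.leaf [(8, 35), (33, 7), (28, 43), (12, 14)])),
    (1637, (.leaf [(8, 41), (33, 16), (29, 19), (12, 32)])),
    (1659, (.leaf [(33, 27), (9, 10), (12, 43), (29, 30)])),
    (1681, (.leaf [(33, 21), (9, 28), (10, 45), (29, 20)])),
    (1703, (.leaf [(34, 8), (8, 37), (13, 14), (30, 6)])),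
    (1725, (.leaf [(33, 46), (10, 13), (12, 35), (30, 10)])),
    (1747, (.leaf [(0, 11), (9, 38), (13, 16), (31, 37)])),
    (1769, (.leaf [(14, 13), (1, 5), (31, 19), (6, 39)])),
    (1791, (.leaf [(0, 45), (10, 2), (14, 3), (32, 11)])),
    (1813, (.leaf [(0, 35), (11, 0), (14, 40), (32, 4)])),
    (1835, (.leaf [(1, 42), (10, 33), (14, 16), (32, 22)])),
    (1857, (.leaf [(2, 35), (10, 21), (15, 9), (32, 31)])),
    (1879, (.leaf [(15, 16), (3, 41), (32, 6), (9, 34)])),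
    (1901, (.leaf [(15, 36), (32, 35), (3, 27), (10, 26)])),
    (1923, (.leaf [(4, 8), (11, 19), (15, 21), (33, 8)])),
    (1945, (.leaf [(4, 41), (10, 43), (15, 0), (33, 11)])),
    (1967, (.leaf [(12, 27), (16, 25), (4, 14), (33, 28)])),
    (1989, (.leaf [(4, 46), (12, 23), (14, 35), (33, 22)])),
    (2011, (.leaf [(33, 15), (11, 32), (17, 31), (4, 6)])),
    (2033, (.leaf [(4, 9), (13, 26), (17, 14), (34, 2)]))]

theorem E3p19 : chkP gE E3L 4984832 E3w 9 50 9 93 E3l19 = true := by decide +kernel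

def E3l20 : List (Nat × Tree) :=
  [(2055, (.leaf [(5, 42), (13, 28), (17, 9), (34, 21)])),
    (2077, (.leaf [(15, 30), (19, 30), (0, 6), (10, 32)])),
    (2099, (.leaf [(14, 19), (18, 0), (26, 30), (0, 17)])),
    (2121, (.leaf [(4, 33), (14, 6), (17, 44), (0, 26)])),
    (2143, (.leaf [(15, 8), (4, 32), (1, 12), (18, 29)])),
    (2165, (.leaf [(33, 23), (15, 19), (18, 7), (2, 0)])),
    (2187, (.leaf [(5, 22), (14, 45), (18, 43), (2, 2)])),
    (2209, (.leaf [(4, 13), (16, 5), (19, 8), (2, 5)])),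
    (2231, (.leaf [(5, 39), (16, 17), (19, 16), (2, 33)])),
    (2253, (.leaf [(19, 3), (4, 26), (23, 2), (14, 37)])),
    (2275, (.leaf [(6, 1), (16, 27), (20, 29), (1, 46)])),
    (2297, (.leaf [(20, 37), (3, 42), (8, 34), (15, 6)])),
    (2319, (.leaf [(20, 37), (3, 42), (8, 34), (15, 6)])),
    (2341, (.leaf [(21, 15), (3, 45), (7, 24), (14, 41)])),
    (2363, (.leaf [(21, 15), (3, 45), (7, 24), (14, 41)])),
    (2385, (.leaf [(21, 30), (3, 29), (7, 25), (15, 2)])),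
    (2407, (.leaf [(6, 35), (18, 26), (22, 38), (2, 18)])),
    (2429, (.leaf [(6, 35), (18, 26), (22, 38), (2, 18)])),
    (2451, (.leaf [(19, 4), (7, 2), (24, 7), (23, 33)])),
    (2473, (.leaf [(19, 4), (7, 2), (24, 7), (23, 33)])),
    (2495, (.leaf [(7, 12), (19, 19), (24, 45), (20, 39)])),
    (2517, (.leaf [(6, 43), (19, 23), (24, 21), (4, 34)])),
    (2539, (.leaf [(20, 2), (7, 6), (5, 45), (25, 45)])),
    (2561, (.leaf [(20, 19), (8, 11), (6, 21), (26, 33)])),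
    (2583, (.leaf [(20, 19), (8, 11), (6, 21), (26, 33)])),
    (2605, (.leaf [(20, 45), (9, 0), (26, 40), (27, 11)])),
    (2627, (.leaf [(20, 45), (9, 0), (26, 40), (27, 11)])),
    (10, (.leaf [(21, 9), (28, 11), (24, 10), (9, 12)])),
    (32, (.leaf [(22, 20), (9, 27), (18, 40), (28, 2)])),
    (54, (.leaf [(9, 44), (23, 1), (28, 14), (8, 46)])),
    (76, (.leaf [(10, 4), (26, 24), (21, 37), (28, 42)])),
    (98, (.leaf [(6, 37), (10, 14), (23, 44), (27, 40)])),
    (120, (.leaf [(6, 39), (10, 39), (24, 12), (28, 31)])),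
    (142, (.leaf [(24, 17), (11, 6), (6, 6), (29, 45)])),
    (164, (.leaf [(7, 10), (11, 15), (25, 1), (28, 40)])),
    (186, (.leaf [(6, 44), (11, 43), (25, 25), (29, 34)])),
    (208, (.leaf [(8, 16), (11, 46), (25, 29), (29, 38)])),
    (230, (.leaf [(8, 40), (12, 13), (26, 17), (29, 40)])),
    (252, (.leaf [(8, 15), (12, 38), (26, 41), (30, 24)])),
    (274, (.leaf [(9, 21), (13, 21), (26, 46), (30, 36)])),
    (296, (.leaf [(13, 40), (27, 17), (31, 38), (7, 31)])),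
    (318, (.leaf [(14, 0), (27, 30), (31, 46), (7, 39)])),
    (340, (.leaf [(28, 24), (32, 39), (14, 29), (8, 14)]))]

theorem E3p20 : chkP gE E3L 4984832 E3w 9 93 10 29 E3l20 = true := by decide +kernel

def E3l21 : List (Nat × Tree) :=
  [(648, (.leaf [(18, 1), (32, 26), (3, 14), (12, 44)])),
    (670, (.leaf [(18, 20), (32, 38), (3, 12), (13, 38)])),
    (692, (.leaf [(18, 46), (32, 46), (3, 23), (14, 11)])),
    (714, (.leaf [(19, 14), (33, 10), (4, 0), (14, 14)])),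
    (736, (.leaf [(19, 24), (33, 25), (4, 17), (14, 18)])),
    (758, (.leaf [(19, 40), (33, 45), (4, 37), (14, 27)])),
    (780, (.leaf [(20, 1), (34, 19), (5, 12), (14, 23)])),
    (802, (.leaf [(20, 6), (0, 24), (5, 4), (14, 31)])),
    (824, (.leaf [(21, 12), (0, 15), (5, 15), (15, 28)])),
    (846, (.leaf [(21, 13), (0, 46), (5, 27), (15, 22)])),
    (868, (.leaf [(21, 40), (1, 1), (5, 38), (16, 3)])),
    (890, (.leaf [(22, 14), (1, 36), (6, 2), (15, 42)])),
    (912, (.leaf [(23, 34), (1, 39), (16, 23), (16, 7)])),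
    (934, (.leaf [(24, 24), (1, 27), (16, 29), (17, 4)])),
    (956, (.leaf [(24, 28), (2, 19), (17, 33), (16, 45)])),
    (978, (.leaf [(25, 2), (3, 36), (20, 5), (17, 8)])),
    (1000, (.leaf [(22, 2), (25, 43), (3, 5), (9, 35)])),
    (1022, (.leaf [(21, 25), (26, 21), (17, 46), (3, 5)])),
    (1044, (.leaf [(25, 13), (3, 30), (18, 15), (6, 7)])),
    (1066, (.leaf [(24, 27), (19, 10), (27, 8), (3, 26)])),
    (1088, (.leaf [(22, 28), (27, 2), (19, 9), (3, 21)])),
    (1110, (.leaf [(27, 24), (3, 30), (24, 40), (19, 36)])),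
    (1132, (.leaf [(24, 36), (20, 21), (27, 35), (3, 28)])),
    (1154, (.leaf [(27, 29), (4, 2), (21, 14), (20, 3)])),
    (1176, (.leaf [(21, 14), (27, 44), (3, 22), (20, 43)])),
    (1198, (.leaf [(27, 45), (4, 35), (12, 10), (20, 40)])),
    (1220, (.leaf [(28, 16), (2, 43), (8, 13), (21, 34)])),
    (1242, (.leaf [(28, 22), (24, 30), (7, 13), (21, 34)])),
    (1264, (.leaf [(28, 41), (5, 11), (6, 39), (22, 35)])),
    (1286, (.leaf [(29, 6), (5, 43), (6, 39), (22, 36)])),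
    (1308, (.leaf [(29, 10), (19, 5), (6, 39), (23, 0)])),
    (1330, (.leaf [(29, 44), (24, 3), (7, 18), (4, 1)])),
    (1352, (.leaf [(30, 9), (24, 15), (8, 12), (1, 33)])),
    (1374, (.leaf [(30, 34), (11, 20), (6, 46), (24, 38)])),
    (1396, (.leaf [(31, 7), (10, 34), (7, 28), (25, 26)])),
    (1418, (.leaf [(34, 0), (30, 5), (25, 33), (8, 36)])),
    (1440, (.leaf [(6, 30), (31, 26), (25, 12), (11, 27)])),
    (1462, (.leaf [(8, 32), (30, 22), (31, 41), (25, 10)])),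
    (1484, (.leaf [(9, 17), (31, 2), (33, 20), (26, 20)])),
    (1506, (.leaf [(8, 7), (32, 13), (11, 39), (27, 18)])),
    (1528, (.leaf [(8, 6), (31, 12), (27, 38), (1, 26)])),
    (1550, (.leaf [(32, 24), (30, 4), (22, 7), (11, 7)])),
    (1572, (.leaf [(32, 24), (30, 4), (22, 7), (11, 7)]))]

theorem E3p21 : chkP gE E3L 4984832 E3w 10 29 10 72 E3l21 = true := by decide +kernel

def E3l22 : List (Nat × Tree) :=
  [(1594, (.leaf [(32, 41), (30, 15), (12, 24), (11, 30)])),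
    (1616, (.leaf [(8, 35), (33, 7), (28, 43), (12, 14)])),
    (1638, (.leaf [(8, 41), (33, 16), (29, 19), (12, 32)])),
    (1660, (.leaf [(33, 27), (9, 10), (12, 43), (29, 30)])),
    (1682, (.leaf [(33, 21), (9, 28), (10, 45), (29, 20)])),
    (1704, (.leaf [(34, 8), (8, 37), (13, 14), (30, 6)])),
    (1726, (.leaf [(0, 22), (8, 20), (13, 0), (31, 32)])),
    (1748, (.leaf [(0, 11), (9, 38), (13, 16), (31, 37)])),
    (1770, (.leaf [(1, 14), (9, 2), (13, 20), (32, 7)])),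
    (1792, (.leaf [(0, 45), (10, 2), (14, 3), (32, 11)])),
    (1814, (.leaf [(2, 10), (9, 42), (14, 9), (32, 22)])),
    (1836, (.leaf [(1, 42), (10, 33), (14, 16), (32, 22)])),
    (1858, (.leaf [(2, 35), (10, 21), (15, 9), (32, 31)])),
    (1880, (.leaf [(3, 13), (10, 24), (15, 12), (32, 42)])),
    (1902, (.leaf [(15, 36), (32, 35), (3, 27), (10, 26)])),
    (1924, (.leaf [(4, 8), (11, 19), (15, 21), (33, 8)])),
    (1946, (.leaf [(4, 41), (10, 43), (15, 0), (33, 11)])),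
    (1968, (.leaf [(12, 27), (16, 25), (4, 14), (33, 28)])),
    (1990, (.leaf [(4, 46), (12, 23), (14, 35), (33, 22)])),
    (2012, (.leaf [(33, 15), (11, 32), (17, 31), (4, 6)])),
    (2034, (.leaf [(5, 29), (12, 15), (15, 14), (0, 9)])),
    (2056, (.leaf [(5, 42), (13, 28), (17, 9), (34, 21)])),
    (2078, (.leaf [(15, 30), (19, 30), (0, 6), (10, 32)])),
    (2100, (.leaf [(13, 13), (5, 2), (0, 41), (17, 26)])),
    (2122, (.leaf [(4, 33), (14, 6), (17, 44), (0, 26)])),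
    (2144, (.leaf [(15, 8), (4, 32), (1, 12), (18, 29)])),
    (2166, (.leaf [(33, 23), (15, 19), (18, 7), (2, 0)])),
    (2188, (.leaf [(5, 22), (14, 45), (18, 43), (2, 2)])),
    (2210, (.leaf [(4, 13), (16, 5), (19, 8), (2, 5)])),
    (2232, (.leaf [(5, 39), (16, 17), (19, 16), (2, 33)])),
    (2254, (.leaf [(19, 3), (4, 26), (23, 2), (14, 37)])),
    (2276, (.leaf [(6, 1), (16, 27), (20, 29), (1, 46)])),
    (2298, (.leaf [(20, 37), (3, 42), (8, 34), (15, 6)])),
    (2320, (.leaf [(20, 37), (3, 42), (8, 34), (15, 6)])),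
    (2342, (.leaf [(21, 15), (3, 45), (7, 24), (14, 41)])),
    (2364, (.leaf [(21, 15), (3, 45), (7, 24), (14, 41)])),
    (2386, (.leaf [(6, 39), (17, 20), (21, 33), (3, 21)])),
    (2408, (.leaf [(6, 35), (18, 26), (22, 38), (2, 18)])),
    (2430, (.leaf [(6, 35), (18, 26), (22, 38), (2, 18)])),
    (2452, (.leaf [(19, 4), (7, 2), (24, 7), (23, 33)])),
    (2474, (.leaf [(19, 4), (7, 2), (24, 7), (23, 33)])),
    (2496, (.leaf [(7, 12), (19, 19), (24, 45), (20, 39)]))]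

theorem E3p22 : chkP gE E3L 4984832 E3w 10 72 10 114 E3l22 = true := by decide +kernel

def E3l23 : List (Nat × Tree) :=
  [(2518, (.leaf [(6, 43), (19, 23), (24, 21), (4, 34)])),
    (2540, (.leaf [(20, 2), (7, 6), (5, 45), (25, 45)])),
    (2562, (.leaf [(20, 19), (8, 11), (6, 21), (26, 33)])),
    (2584, (.leaf [(20, 19), (8, 11), (6, 21), (26, 33)])),
    (2606, (.leaf [(20, 45), (9, 0), (26, 40), (27, 11)])),
    (2628, (.leaf [(20, 45), (9, 0), (26, 40), (27, 11)])),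
    (11, (.leaf [(21, 9), (28, 11), (24, 10), (9, 12)])),
    (33, (.leaf [(22, 20), (9, 27), (18, 40), (28, 2)])),
    (55, (.leaf [(9, 44), (23, 1), (28, 14), (8, 46)])),
    (77, (.leaf [(22, 39), (10, 5), (9, 3), (28, 9)])),
    (99, (.leaf [(6, 43), (10, 20), (23, 21), (27, 46)])),
    (121, (.leaf [(6, 39), (10, 39), (24, 12), (28, 31)])),
    (143, (.leaf [(24, 17), (11, 6), (6, 6), (29, 45)])),
    (165, (.leaf [(7, 33), (11, 14), (24, 23), (29, 0)])),
    (187, (.leaf [(6, 44), (11, 43), (25, 25), (29, 34)])),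
    (209, (.leaf [(8, 16), (11, 46), (25, 29), (29, 38)])),
    (231, (.leaf [(25, 37), (11, 45), (6, 8), (30, 27)])),
    (253, (.leaf [(9, 9), (12, 45), (26, 12), (30, 19)])),
    (275, (.leaf [(9, 21), (13, 21), (26, 46), (30, 36)])),
    (297, (.leaf [(9, 29), (13, 42), (27, 6), (31, 3)])),
    (319, (.leaf [(14, 0), (27, 30), (31, 46), (7, 39)])),
    (649, (.leaf [(18, 1), (32, 26), (3, 14), (12, 44)])),
    (671, (.leaf [(18, 20), (32, 38), (3, 12), (13, 38)])),
    (693, (.leaf [(18, 46), (32, 46), (3, 23), (14, 11)])),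
    (715, (.leaf [(19, 14), (33, 10), (4, 0), (14, 14)])),
    (737, (.leaf [(19, 24), (33, 25), (4, 17), (14, 18)])),
    (759, (.leaf [(19, 40), (33, 45), (4, 37), (14, 27)])),
    (781, (.leaf [(20, 1), (34, 19), (5, 12), (14, 23)])),
    (803, (.leaf [(21, 2), (34, 10), (4, 36), (15, 23)])),
    (825, (.leaf [(21, 12), (0, 15), (5, 15), (15, 28)])),
    (847, (.leaf [(21, 22), (0, 36), (5, 21), (15, 27)])),
    (869, (.leaf [(21, 40), (1, 1), (5, 38), (16, 3)])),
    (891, (.leaf [(23, 8), (1, 17), (5, 36), (15, 46)])),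
    (913, (.leaf [(23, 43), (1, 24), (15, 20), (16, 31)])),
    (935, (.leaf [(24, 24), (1, 27), (16, 29), (17, 4)])),
    (957, (.node 1728 (.leaf [(1, 39), (4, 28), (15, 18)]) (.leaf [(24, 33), (2, 8), (17, 7), (17, 19)]))),
    (979, (.leaf [(25, 17), (2, 20), (17, 45), (17, 30)])),
    (1001, (.node 1771 (.leaf [(3, 20), (15, 18)]) (.node 1772 (.leaf [(3, 0), (33, 37), (15, 18)]) (.leaf [(26, 4), (2, 42), (18, 17), (17, 43)])))),
    (1023, (.leaf [(21, 25), (26, 21), (17, 46), (3, 5)])),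
    (1045, (.leaf [(4, 28), (26, 11), (19, 14), (5, 46)])),
    (1067, (.leaf [(24, 27), (19, 10), (27, 8), (3, 26)])),
    (1089, (.leaf [(22, 28), (27, 2), (19, 9), (3, 21)])),
    (1111, (.leaf [(27, 24), (3, 30), (24, 40), (19, 36)]))]

theorem E3p23 : chkP gE E3L 4984832 E3w 10 114 11 51 E3l23 = true := by decide +kernel

end Pool.Agent.K9.C
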