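import Pool.Agent.K9.C.E3D

/-! # K9: peeling of near cells -/

namespace Pool.Agent.K9.C

set_option maxRecDepth 10000

def E3l24 : List (Nat × Tree) :=
  [(1133, (.leaf [(24, 36), (20, 21), (27, 35), (3, 28)])),
    (1155, (.leaf [(26, 10), (21, 31), (27, 44), (3, 21)])),
    (1177, (.leaf [(27, 44), (4, 2), (21, 28), (6, 34)])),
    (1199, (.leaf [(28, 4), (4, 24), (20, 33), (20, 35)])),
    (1221, (.leaf [(28, 16), (2, 43), (8, 13), (21, 34)])),
    (1243, (.leaf [(28, 30), (4, 43), (7, 29), (21, 46)])),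
    (1265, (.leaf [(28, 41), (5, 11), (6, 39), (22, 35)])),
    (1287, (.leaf [(29, 5), (5, 24), (6, 39), (22, 44)])),
    (1309, (.leaf [(29, 14), (5, 30), (6, 39), (23, 4)])),
    (1331, (.leaf [(29, 44), (24, 3), (7, 18), (4, 1)])),
    (1353, (.leaf [(30, 16), (5, 40), (6, 39), (24, 26)])),
    (1375, (.leaf [(30, 34), (11, 20), (6, 46), (24, 38)])),
    (1397, (.leaf [(31, 7), (10, 34), (7, 28), (25, 26)])),
    (1419, (.leaf [(34, 0), (30, 5), (25, 33), (8, 36)])),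
    (1441, (.leaf [(7, 34), (30, 2), (0, 19), (25, 22)])),
    (1463, (.leaf [(8, 32), (30, 22), (31, 41), (25, 10)])),
    (1485, (.leaf [(9, 17), (31, 2), (33, 20), (26, 20)])),
    (1507, (.leaf [(32, 3), (6, 39), (27, 15), (8, 38)])),
    (1529, (.leaf [(8, 6), (31, 12), (27, 38), (1, 26)])),
    (1551, (.leaf [(32, 24), (30, 4), (22, 7), (11, 7)])),
    (1573, (.leaf [(8, 30), (32, 30), (28, 10), (11, 10)])),
    (1595, (.leaf [(32, 41), (30, 15), (12, 24), (11, 30)])),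
    (1617, (.leaf [(8, 35), (33, 7), (28, 43), (12, 14)])),
    (1639, (.leaf [(8, 41), (33, 16), (29, 19), (12, 32)])),
    (1661, (.leaf [(33, 27), (9, 10), (12, 43), (29, 30)])),
    (1683, (.leaf [(0, 4), (7, 0), (11, 17), (29, 27)])),
    (1705, (.leaf [(34, 8), (8, 37), (13, 14), (30, 6)])),
    (1727, (.leaf [(0, 22), (8, 20), (13, 0), (31, 32)])),
    (1749, (.leaf [(0, 11), (9, 38), (13, 16), (31, 37)])),
    (1771, (.leaf [(1, 14), (9, 2), (13, 20), (32, 7)])),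
    (1793, (.leaf [(0, 45), (10, 2), (14, 3), (32, 11)])),
    (1815, (.leaf [(2, 10), (9, 42), (14, 9), (32, 22)])),
    (1837, (.leaf [(1, 42), (10, 33), (14, 16), (32, 22)])),
    (1859, (.leaf [(2, 35), (10, 21), (15, 9), (32, 31)])),
    (1881, (.leaf [(3, 13), (10, 24), (15, 12), (32, 42)])),
    (1903, (.leaf [(15, 36), (32, 35), (3, 27), (10, 26)])),
    (1925, (.leaf [(4, 8), (11, 19), (15, 21), (33, 8)])),
    (1947, (.leaf [(4, 41), (10, 43), (15, 0), (33, 11)])),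
    (1969, (.leaf [(3, 11), (10, 38), (15, 33), (33, 44)])),
    (1991, (.leaf [(4, 46), (12, 23), (14, 35), (33, 22)])),
    (2013, (.leaf [(33, 15), (11, 32), (17, 31), (4, 6)])),
    (2035, (.leaf [(5, 29), (12, 15), (15, 14), (0, 9)])),
    (2057, (.leaf [(5, 42), (13, 28), (17, 9), (34, 21)]))]

theorem E3p24 : chkP gE E3L 4984832 E3w 11 51 11 94 E3l24 = true := by decide +kernel

def E3l25 : List (Nat × Tree) :=
  [(2079, (.leaf [(15, 30), (19, 30), (0, 6), (10, 32)])),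
    (2101, (.leaf [(13, 13), (5, 2), (0, 41), (17, 26)])),
    (2123, (.leaf [(4, 33), (14, 6), (17, 44), (0, 26)])),
    (2145, (.leaf [(15, 8), (4, 32), (1, 12), (18, 29)])),
    (2167, (.leaf [(33, 23), (15, 19), (18, 7), (2, 0)])),
    (2189, (.leaf [(5, 22), (14, 45), (18, 43), (2, 2)])),
    (2211, (.leaf [(5, 20), (14, 36), (18, 35), (2, 39)])),
    (2233, (.leaf [(5, 39), (16, 17), (19, 16), (2, 33)])),
    (2255, (.leaf [(6, 1), (16, 27), (20, 29), (1, 46)])),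
    (2277, (.leaf [(6, 1), (16, 27), (20, 29), (1, 46)])),
    (2299, (.leaf [(20, 37), (3, 42), (8, 34), (15, 6)])),
    (2321, (.leaf [(20, 37), (3, 42), (8, 34), (15, 6)])),
    (2343, (.leaf [(21, 15), (3, 45), (7, 24), (14, 41)])),
    (2365, (.leaf [(21, 15), (3, 45), (7, 24), (14, 41)])),
    (2387, (.leaf [(6, 39), (17, 20), (21, 33), (3, 21)])),
    (2409, (.leaf [(6, 35), (18, 26), (22, 38), (2, 18)])),
    (2431, (.leaf [(6, 35), (18, 26), (22, 38), (2, 18)])),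
    (2453, (.leaf [(19, 4), (7, 2), (24, 7), (23, 33)])),
    (2475, (.leaf [(19, 4), (7, 2), (24, 7), (23, 33)])),
    (2497, (.leaf [(7, 12), (19, 19), (24, 45), (20, 39)])),
    (2519, (.leaf [(6, 43), (19, 23), (24, 21), (4, 34)])),
    (2541, (.leaf [(20, 2), (7, 6), (5, 45), (25, 45)])),
    (2563, (.leaf [(20, 19), (8, 11), (6, 21), (26, 33)])),
    (2585, (.leaf [(20, 19), (8, 11), (6, 21), (26, 33)])),
    (2607, (.leaf [(20, 45), (9, 0), (26, 40), (27, 11)])),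
    (2629, (.leaf [(20, 45), (9, 0), (26, 40), (27, 11)])),
    (12, (.leaf [(21, 9), (28, 11), (24, 10), (9, 12)])),
    (34, (.leaf [(22, 20), (9, 27), (18, 40), (28, 2)])),
    (56, (.leaf [(21, 42), (9, 43), (9, 20), (27, 43)])),
    (78, (.leaf [(22, 39), (10, 5), (9, 3), (28, 9)])),
    (100, (.leaf [(22, 43), (10, 18), (6, 27), (28, 23)])),
    (122, (.leaf [(23, 11), (10, 29), (6, 15), (28, 38)])),
    (144, (.leaf [(24, 17), (11, 6), (6, 6), (29, 45)])),
    (166, (.node 2454 (.leaf [(6, 39), (19, 43), (23, 5)]) (.leaf [(24, 14), (11, 13), (6, 10), (29, 4)]))),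
    (188, (.node 1728 (.leaf [(8, 10), (11, 2), (31, 36)]) (.leaf [(11, 31), (6, 9), (29, 43), (23, 24)]))),
    (210, (.leaf [(25, 4), (11, 40), (6, 4), (30, 13)])),
    (232, (.node 1772 (.leaf [(8, 44), (11, 44), (32, 7)]) (.leaf [(12, 12), (6, 11), (30, 21), (24, 22)]))),
    (254, (.leaf [(26, 0), (12, 33), (6, 12), (30, 46)])),
    (276, (.leaf [(26, 26), (12, 41), (6, 13), (31, 8)])),
    (298, (.leaf [(26, 32), (13, 22), (6, 17), (31, 14)])),
    (320, (.leaf [(27, 0), (13, 35), (6, 40), (31, 28)])),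
    (650, (.leaf [(18, 1), (32, 26), (3, 14), (12, 44)])),
    (672, (.leaf [(18, 20), (32, 38), (3, 12), (13, 38)]))]

theorem E3p25 : chkP gE E3L 4984832 E3w 11 94 12 31 E3l25 = true := by decide +kernel

def E3l26 : List (Nat × Tree) :=
  [(694, (.leaf [(18, 46), (32, 46), (3, 23), (14, 11)])),
    (716, (.leaf [(19, 14), (33, 10), (4, 0), (14, 14)])),
    (738, (.leaf [(19, 24), (33, 25), (4, 17), (14, 18)])),
    (760, (.leaf [(19, 40), (33, 45), (4, 37), (14, 27)])),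
    (782, (.leaf [(20, 31), (33, 43), (4, 25), (15, 13)])),
    (804, (.leaf [(21, 2), (34, 10), (4, 36), (15, 23)])),
    (826, (.leaf [(21, 12), (0, 15), (5, 15), (15, 28)])),
    (848, (.leaf [(22, 1), (0, 27), (5, 13), (15, 35)])),
    (870, (.leaf [(22, 18), (0, 34), (5, 31), (16, 16)])),
    (892, (.node 2014 (.leaf [(3, 31), (16, 34), (0, 42)]) (.leaf [(23, 10), (1, 8), (5, 32), (16, 32)]))),
    (914, (.node 2036 (.leaf [(3, 43), (16, 40), (1, 10)]) (.leaf [(23, 32), (1, 18), (6, 5), (16, 41)]))),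
    (936, (.leaf [(24, 24), (1, 27), (16, 29), (17, 4)])),
    (958, (.node 2080 (.leaf [(3, 43), (4, 42), (19, 37)]) (.node 2081 (.leaf [(3, 31), (1, 10), (18, 13)]) (.leaf [(1, 43), (16, 29), (18, 42), (24, 35)])))),
    (980, (.node 1728 (.leaf [(1, 31), (31, 36), (15, 3)]) (.node 1729 (.leaf [(1, 31), (29, 18), (14, 21)]) (.leaf [(25, 19), (2, 14), (17, 7), (17, 38)])))),
    (1002, (.node 1354 (.leaf [(4, 28), (29, 33), (25, 8)]) (.node 1376 (.leaf [(4, 28), (30, 8), (25, 41)]) (.node 1398 (.leaf [(4, 11), (30, 8), (25, 41)]) (.node 1420 (.leaf [(29, 42), (3, 1), (23, 45)]) (.leaf [(26, 6), (2, 38), (18, 4), (18, 33)])))))),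
    (1024, (.node 1772 (.leaf [(3, 0), (32, 10), (4, 42)]) (.node 1773 (.leaf [(3, 0), (31, 36), (14, 4)]) (.leaf [(26, 16), (3, 2), (22, 0), (18, 25)])))),
    (1046, (.leaf [(22, 13), (19, 44), (26, 34), (3, 16)])),
    (1068, (.leaf [(24, 27), (19, 10), (27, 8), (3, 26)])),
    (1090, (.leaf [(25, 10), (19, 6), (27, 12), (3, 21)])),
    (1112, (.leaf [(27, 24), (3, 30), (24, 40), (19, 36)])),
    (1134, (.leaf [(24, 36), (20, 21), (27, 35), (3, 28)])),
    (1156, (.leaf [(26, 10), (21, 31), (27, 44), (3, 21)])),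
    (1178, (.leaf [(3, 21), (26, 5), (21, 45), (27, 42)])),
    (1200, (.leaf [(28, 6), (3, 21), (22, 16), (21, 1)])),
    (1222, (.node 1574 (.leaf [(9, 20), (29, 18), (32, 10)]) (.node 1596 (.leaf [(9, 20), (29, 13), (33, 37)]) (.leaf [(28, 21), (3, 21), (7, 44), (21, 43)])))),
    (1244, (.node 1596 (.leaf [(29, 13), (9, 20), (33, 37)]) (.leaf [(28, 34), (3, 21), (9, 20), (22, 4)]))),
    (1266, (.node 1618 (.leaf [(30, 8), (6, 34), (32, 28)]) (.node 1640 (.leaf [(30, 20), (6, 34), (33, 37)]) (.leaf [(28, 45), (3, 21), (7, 29), (22, 40)])))),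
    (1288, (.node 1640 (.leaf [(30, 20), (6, 34), (32, 28)]) (.node 1662 (.leaf [(30, 29), (6, 34), (4, 28)]) (.leaf [(29, 12), (3, 21), (6, 39), (23, 4)])))),
    (1310, (.node 1662 (.leaf [(32, 33), (6, 20), (28, 28)]) (.node 1684 (.leaf [(30, 32), (6, 34), (4, 28)]) (.leaf [(29, 32), (3, 21), (6, 39), (23, 35)])))),
    (1332, (.node 1684 (.leaf [(30, 32), (6, 34), (4, 28)]) (.leaf [(29, 41), (5, 30), (6, 39), (24, 5)]))),
    (1354, (.leaf [(30, 16), (5, 40), (6, 39), (24, 26)])),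
    (1376, (.leaf [(30, 34), (11, 20), (6, 46), (24, 38)])),
    (1398, (.leaf [(31, 7), (10, 34), (7, 28), (25, 26)])),
    (1420, (.leaf [(34, 0), (30, 5), (25, 33), (8, 36)])),
    (1442, (.leaf [(7, 34), (30, 2), (0, 19), (25, 22)])),
    (1464, (.leaf [(8, 32), (30, 22), (31, 41), (25, 10)])),
    (1486, (.leaf [(9, 17), (31, 2), (33, 20), (26, 20)])),
    (1508, (.leaf [(32, 3), (6, 39), (27, 15), (8, 38)])),
    (1530, (.leaf [(8, 6), (31, 12), (27, 38), (1, 26)])),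
    (1552, (.leaf [(32, 24), (30, 4), (22, 7), (11, 7)])),
    (1574, (.leaf [(8, 30), (32, 30), (28, 10), (11, 10)])),
    (1596, (.leaf [(32, 41), (30, 15), (12, 24), (11, 30)])),
    (1618, (.leaf [(8, 35), (33, 7), (28, 43), (12, 14)]))]

theorem E3p26 : chkP gE E3L 4984832 E3w 12 31 12 74 E3l26 = true := by decide +kernel

def E3l27 : List (Nat × Tree) :=
  [(1640, (.leaf [(8, 41), (33, 16), (29, 19), (12, 32)])),
    (1662, (.leaf [(33, 27), (9, 10), (12, 43), (29, 30)])),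
    (1684, (.leaf [(0, 4), (7, 0), (11, 17), (29, 27)])),
    (1706, (.leaf [(34, 8), (8, 37), (13, 14), (30, 6)])),
    (1728, (.leaf [(0, 22), (8, 20), (13, 0), (31, 32)])),
    (1750, (.leaf [(0, 11), (9, 38), (13, 16), (31, 37)])),
    (1772, (.leaf [(1, 14), (9, 2), (13, 20), (32, 7)])),
    (1794, (.leaf [(0, 45), (10, 2), (14, 3), (32, 11)])),
    (1816, (.leaf [(2, 10), (9, 42), (14, 9), (32, 22)])),
    (1838, (.leaf [(1, 42), (10, 33), (14, 16), (32, 22)])),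
    (1860, (.leaf [(2, 35), (10, 21), (15, 9), (32, 31)])),
    (1882, (.leaf [(3, 13), (10, 24), (15, 12), (32, 42)])),
    (1904, (.leaf [(3, 10), (10, 6), (15, 4), (33, 4)])),
    (1926, (.leaf [(4, 8), (11, 19), (15, 21), (33, 8)])),
    (1948, (.leaf [(4, 41), (10, 43), (15, 0), (33, 11)])),
    (1970, (.leaf [(3, 11), (10, 38), (15, 33), (33, 44)])),
    (1992, (.leaf [(3, 10), (10, 35), (15, 45), (34, 15)])),
    (2014, (.leaf [(33, 15), (11, 32), (17, 31), (4, 6)])),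
    (2036, (.leaf [(5, 29), (12, 15), (15, 14), (0, 9)])),
    (2058, (.leaf [(3, 43), (11, 42), (16, 28), (0, 32)])),
    (2080, (.leaf [(15, 30), (19, 30), (0, 6), (10, 32)])),
    (2102, (.leaf [(13, 13), (5, 2), (0, 41), (17, 26)])),
    (2124, (.leaf [(4, 34), (13, 6), (17, 15), (1, 22)])),
    (2146, (.leaf [(15, 8), (4, 32), (1, 12), (18, 29)])),
    (2168, (.leaf [(5, 7), (13, 36), (17, 40), (2, 15)])),
    (2190, (.leaf [(5, 22), (14, 45), (18, 43), (2, 2)])),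
    (2212, (.leaf [(5, 20), (14, 36), (18, 35), (2, 39)])),
    (2234, (.leaf [(5, 39), (16, 17), (19, 16), (2, 33)])),
    (2256, (.leaf [(6, 1), (16, 27), (20, 29), (1, 46)])),
    (2278, (.leaf [(6, 1), (16, 27), (20, 29), (1, 46)])),
    (2300, (.leaf [(20, 37), (3, 42), (8, 34), (15, 6)])),
    (2322, (.leaf [(20, 37), (3, 42), (8, 34), (15, 6)])),
    (2344, (.leaf [(21, 15), (3, 45), (7, 24), (14, 41)])),
    (2366, (.leaf [(21, 30), (3, 29), (7, 25), (15, 2)])),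
    (2388, (.leaf [(6, 39), (17, 20), (21, 33), (3, 21)])),
    (2410, (.leaf [(6, 35), (18, 26), (22, 38), (2, 18)])),
    (2432, (.leaf [(6, 35), (18, 26), (22, 38), (2, 18)])),
    (2454, (.leaf [(19, 4), (7, 2), (24, 7), (23, 33)])),
    (2476, (.leaf [(19, 4), (7, 2), (24, 7), (23, 33)])),
    (2498, (.leaf [(7, 12), (19, 19), (24, 45), (20, 39)])),
    (2520, (.leaf [(6, 43), (19, 23), (24, 21), (4, 34)])),
    (2542, (.leaf [(20, 2), (7, 6), (5, 45), (25, 45)])),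
    (2564, (.leaf [(20, 19), (8, 11), (6, 21), (26, 33)]))]

theorem E3p27 : chkP gE E3L 4984832 E3w 12 74 12 117 E3l27 = true := by decide +kernel

def E3l28 : List (Nat × Tree) :=
  [(2586, (.leaf [(20, 19), (8, 11), (6, 21), (26, 33)])),
    (2608, (.leaf [(20, 45), (9, 0), (26, 40), (27, 11)])),
    (2630, (.leaf [(20, 45), (9, 0), (26, 40), (27, 11)])),
    (13, (.leaf [(21, 9), (28, 11), (24, 10), (9, 12)])),
    (35, (.leaf [(6, 39), (9, 22), (20, 43), (27, 21)])),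
    (57, (.leaf [(21, 42), (9, 43), (9, 20), (27, 43)])),
    (79, (.leaf [(10, 7), (22, 3), (28, 12), (6, 39)])),
    (101, (.leaf [(10, 22), (22, 17), (28, 26), (6, 39)])),
    (123, (.leaf [(10, 36), (23, 9), (28, 46), (6, 39)])),
    (145, (.leaf [(10, 44), (23, 19), (29, 15), (6, 39)])),
    (167, (.node 2433 (.leaf [(6, 39), (18, 39), (22, 30)]) (.leaf [(11, 23), (23, 27), (29, 29), (6, 39)]))),
    (189, (.leaf [(11, 26), (24, 16), (29, 17), (6, 39)])),
    (211, (.node 2477 (.leaf [(18, 39), (6, 34), (26, 1)]) (.leaf [(12, 7), (24, 29), (29, 25), (6, 39)]))),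
    (233, (.node 2499 (.leaf [(19, 29), (6, 34), (26, 43)]) (.leaf [(12, 21), (25, 7), (30, 0), (6, 39)]))),
    (255, (.node 2521 (.leaf [(19, 29), (7, 9), (26, 43)]) (.leaf [(12, 39), (25, 23), (30, 12), (6, 39)]))),
    (277, (.leaf [(13, 12), (26, 2), (30, 38), (6, 39)])),
    (299, (.node 2565 (.leaf [(19, 39), (8, 28), (27, 1)]) (.leaf [(13, 31), (26, 15), (30, 45), (7, 1)]))),
    (321, (.leaf [(14, 5), (26, 38), (31, 13), (7, 26)])),
    (651, (.leaf [(18, 1), (32, 26), (3, 14), (12, 44)])),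
    (673, (.leaf [(18, 20), (32, 38), (3, 12), (13, 38)])),
    (695, (.leaf [(18, 46), (32, 46), (3, 23), (14, 11)])),
    (717, (.leaf [(19, 14), (33, 10), (4, 0), (14, 14)])),
    (739, (.leaf [(19, 24), (33, 25), (4, 17), (14, 18)])),
    (761, (.leaf [(19, 45), (33, 40), (4, 20), (14, 38)])),
    (783, (.leaf [(20, 31), (33, 43), (4, 25), (15, 13)])),
    (805, (.leaf [(21, 2), (34, 10), (4, 36), (15, 23)])),
    (827, (.node 1201 (.leaf [(27, 19), (3, 21), (20, 23)]) (.leaf [(21, 19), (0, 2), (4, 39), (15, 41)]))),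
    (849, (.node 1223 (.leaf [(27, 31), (3, 21), (21, 3)]) (.leaf [(22, 5), (0, 18), (5, 1), (16, 8)]))),
    (871, (.node 1245 (.leaf [(4, 28), (28, 3), (22, 15)]) (.leaf [(22, 23), (0, 31), (5, 18), (16, 24)]))),
    (893, (.node 1267 (.leaf [(4, 28), (28, 32), (22, 21)]) (.leaf [(23, 17), (0, 43), (5, 25), (16, 36)]))),
    (915, (.node 1289 (.leaf [(4, 28), (29, 1), (22, 26)]) (.node 1312 (.leaf [(29, 18), (3, 21), (22, 29)]) (.leaf [(23, 36), (1, 11), (5, 32), (17, 4)])))),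
    (937, (.node 1311 (.leaf [(4, 28), (29, 18), (23, 25)]) (.leaf [(24, 0), (1, 20), (6, 5), (17, 17)]))),
    (959, (.node 1333 (.leaf [(4, 28), (29, 18), (24, 14)]) (.node 1356 (.leaf [(30, 8), (3, 21), (23, 45)]) (.leaf [(24, 41), (1, 35), (16, 29), (17, 29)])))),
    (981, (.node 1355 (.leaf [(4, 28), (30, 8), (24, 18)]) (.node 1377 (.leaf [(4, 11), (30, 8), (25, 41)]) (.node 1378 (.leaf [(30, 20), (3, 21), (24, 43)]) (.leaf [(25, 28), (2, 7), (16, 29), (18, 5)]))))),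
    (1003, (.node 1377 (.leaf [(4, 11), (29, 42), (25, 41)]) (.node 1399 (.leaf [(4, 11), (30, 20), (26, 14)]) (.leaf [(25, 46), (2, 29), (17, 7), (18, 22)])))),
    (1025, (.node 1399 (.leaf [(4, 11), (29, 42), (25, 41)]) (.leaf [(25, 32), (18, 21), (2, 44), (31, 0)]))),
    (1047, (.node 1421 (.leaf [(30, 39), (5, 35), (25, 30)]) (.leaf [(26, 29), (3, 3), (25, 20), (19, 7)]))),
    (1069, (.leaf [(24, 27), (19, 10), (27, 8), (3, 26)])),
    (1091, (.leaf [(25, 10), (19, 6), (27, 12), (3, 21)])),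
    (1113, (.leaf [(27, 24), (3, 30), (24, 40), (19, 36)])),
    (1135, (.leaf [(28, 7), (4, 28), (20, 13), (22, 12)])),
    (1157, (.leaf [(26, 10), (21, 31), (27, 44), (3, 21)])),
    (1179, (.leaf [(28, 29), (4, 28), (20, 44), (24, 10)]))]

theorem E3p28 : chkP gE E3L 4984832 E3w 12 117 13 54 E3l28 = true := by decide +kernel

def E3l29 : List (Nat × Tree) :=
  [(1201, (.leaf [(28, 6), (3, 21), (22, 16), (21, 1)])),
    (1223, (.leaf [(28, 17), (3, 21), (7, 44), (21, 18)])),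
    (1245, (.leaf [(28, 37), (3, 21), (8, 2), (22, 10)])),
    (1267, (.leaf [(28, 44), (3, 21), (7, 29), (22, 8)])),
    (1289, (.leaf [(29, 16), (3, 21), (6, 39), (23, 7)])),
    (1311, (.leaf [(29, 31), (3, 21), (6, 39), (23, 16)])),
    (1333, (.leaf [(30, 3), (3, 21), (6, 39), (23, 40)])),
    (1355, (.leaf [(30, 16), (5, 40), (6, 39), (24, 26)])),
    (1377, (.leaf [(12, 18), (8, 29), (31, 6), (25, 18)])),
    (1399, (.leaf [(31, 7), (10, 34), (7, 28), (25, 26)])),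
    (1421, (.leaf [(31, 11), (9, 25), (7, 16), (25, 39)])),
    (1443, (.leaf [(31, 20), (7, 29), (7, 17), (25, 44)])),
    (1465, (.leaf [(8, 32), (30, 22), (31, 41), (25, 10)])),
    (1487, (.leaf [(31, 39), (6, 39), (26, 39), (8, 4)])),
    (1509, (.leaf [(32, 3), (6, 39), (27, 15), (8, 38)])),
    (1531, (.leaf [(8, 6), (31, 12), (27, 38), (1, 26)])),
    (1553, (.leaf [(32, 24), (30, 4), (22, 7), (11, 7)])),
    (1575, (.leaf [(8, 30), (32, 30), (28, 10), (11, 10)])),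
    (1597, (.leaf [(32, 41), (30, 15), (12, 24), (11, 30)])),
    (1619, (.leaf [(8, 35), (33, 7), (28, 43), (12, 14)])),
    (1641, (.leaf [(8, 41), (33, 16), (29, 19), (12, 32)])),
    (1663, (.leaf [(33, 27), (9, 10), (12, 43), (29, 30)])),
    (1685, (.leaf [(0, 37), (6, 39), (11, 8), (29, 21)])),
    (1707, (.leaf [(1, 9), (6, 39), (11, 18), (31, 18)])),
    (1729, (.leaf [(1, 21), (7, 16), (11, 16), (31, 29)])),
    (1751, (.leaf [(1, 40), (7, 20), (11, 25), (31, 35)])),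
    (1773, (.leaf [(2, 11), (7, 45), (12, 2), (32, 2)])),
    (1795, (.leaf [(2, 31), (8, 18), (12, 31), (32, 14)])),
    (1817, (.leaf [(3, 4), (8, 33), (13, 39), (32, 21)])),
    (1839, (.leaf [(3, 15), (8, 43), (13, 37), (32, 27)])),
    (1861, (.leaf [(2, 35), (10, 21), (15, 9), (32, 31)])),
    (1883, (.leaf [(3, 15), (9, 15), (14, 26), (32, 44)])),
    (1905, (.leaf [(3, 10), (10, 6), (15, 4), (33, 4)])),
    (1927, (.leaf [(3, 15), (9, 46), (15, 10), (34, 1)])),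
    (1949, (.leaf [(4, 41), (10, 43), (15, 0), (33, 11)])),
    (1971, (.leaf [(3, 15), (10, 17), (15, 26), (0, 5)])),
    (1993, (.leaf [(3, 10), (10, 35), (15, 45), (34, 15)])),
    (2015, (.leaf [(33, 15), (11, 32), (17, 31), (4, 6)])),
    (2037, (.leaf [(14, 1), (17, 28), (33, 38), (2, 9)])),
    (2059, (.leaf [(3, 43), (11, 42), (16, 28), (0, 32)])),
    (2081, (.leaf [(15, 30), (19, 30), (0, 6), (10, 32)])),
    (2103, (.leaf [(13, 13), (5, 2), (0, 41), (17, 26)])),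
    (2125, (.leaf [(4, 34), (13, 6), (17, 15), (1, 22)]))]

theorem E3p29 : chkP gE E3L 4984832 E3w 13 54 13 97 E3l29 = true := by decide +kernel

def E3l30 : List (Nat × Tree) :=
  [(2147, (.leaf [(15, 8), (4, 32), (1, 12), (18, 29)])),
    (2169, (.leaf [(5, 7), (13, 36), (17, 40), (2, 15)])),
    (2191, (.leaf [(5, 22), (14, 45), (18, 43), (2, 2)])),
    (2213, (.leaf [(5, 20), (14, 36), (18, 35), (2, 39)])),
    (2235, (.leaf [(5, 39), (16, 17), (19, 16), (2, 33)])),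
    (2257, (.leaf [(6, 1), (16, 27), (20, 29), (1, 46)])),
    (2279, (.leaf [(6, 1), (16, 27), (20, 29), (1, 46)])),
    (2301, (.leaf [(20, 37), (3, 42), (8, 34), (15, 6)])),
    (2323, (.leaf [(20, 37), (3, 42), (8, 34), (15, 6)])),
    (2345, (.leaf [(21, 15), (3, 45), (7, 24), (14, 41)])),
    (2367, (.leaf [(21, 30), (3, 29), (7, 25), (15, 2)])),
    (2389, (.leaf [(6, 39), (17, 20), (21, 33), (3, 21)])),
    (2411, (.leaf [(6, 35), (18, 26), (22, 38), (2, 18)])),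
    (2433, (.leaf [(6, 35), (18, 26), (22, 38), (2, 18)])),
    (2455, (.leaf [(19, 4), (7, 2), (24, 7), (23, 33)])),
    (2477, (.leaf [(7, 12), (19, 19), (24, 45), (20, 39)])),
    (2499, (.leaf [(7, 12), (19, 19), (24, 45), (20, 39)])),
    (2521, (.leaf [(6, 43), (19, 23), (24, 21), (4, 34)])),
    (2543, (.leaf [(20, 2), (7, 6), (5, 45), (25, 45)])),
    (2565, (.leaf [(20, 19), (8, 11), (6, 21), (26, 33)])),
    (2587, (.leaf [(20, 19), (8, 11), (6, 21), (26, 33)])),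
    (2609, (.leaf [(20, 45), (9, 0), (26, 40), (27, 11)])),
    (2631, (.leaf [(20, 45), (9, 0), (26, 40), (27, 11)])),
    (14, (.leaf [(6, 39), (9, 14), (20, 12), (27, 1)])),
    (36, (.node 2302 (.node 1928 (.leaf [(9, 18), (15, 18)]) (.leaf [(6, 39), (14, 39), (19, 39)])) (.leaf [(6, 39), (9, 32), (20, 24), (27, 5)]))),
    (58, (.node 2324 (.leaf [(6, 39), (15, 43), (20, 30)]) (.leaf [(6, 39), (10, 1), (20, 44), (27, 23)]))),
    (80, (.leaf [(10, 11), (21, 17), (27, 39), (6, 39)])),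
    (102, (.node 2368 (.leaf [(6, 39), (16, 42), (21, 20)]) (.leaf [(10, 25), (21, 29), (27, 41), (6, 39)]))),
    (124, (.node 2390 (.leaf [(16, 42), (6, 34), (23, 9)]) (.leaf [(10, 42), (22, 15), (28, 1), (6, 39)]))),
    (146, (.node 2412 (.leaf [(6, 39), (17, 25), (22, 24)]) (.leaf [(10, 46), (22, 21), (28, 13), (6, 39)]))),
    (168, (.node 2434 (.leaf [(6, 39), (17, 34), (22, 33)]) (.leaf [(11, 28), (23, 12), (28, 36), (6, 39)]))),
    (190, (.node 2456 (.leaf [(17, 34), (6, 34), (26, 1)]) (.leaf [(11, 36), (23, 29), (29, 2), (6, 39)]))),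
    (212, (.node 2478 (.leaf [(6, 39), (18, 18), (23, 39)]) (.leaf [(12, 19), (23, 41), (29, 26), (6, 39)]))),
    (234, (.node 2500 (.leaf [(18, 18), (6, 34), (26, 43)]) (.leaf [(12, 30), (24, 34), (29, 46), (6, 39)]))),
    (256, (.node 2522 (.leaf [(18, 39), (7, 9), (26, 43)]) (.leaf [(13, 3), (25, 15), (30, 7), (6, 39)]))),
    (278, (.node 2544 (.node 652 (.leaf [(21, 20), (14, 28)]) (.leaf [(7, 30), (19, 17), (25, 5)])) (.leaf [(13, 27), (25, 31), (30, 18), (6, 39)]))),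
    (300, (.node 2566 (.leaf [(7, 35), (19, 31), (25, 34)]) (.leaf [(13, 44), (25, 42), (30, 41), (7, 14)]))),
    (322, (.node 2588 (.node 696 (.leaf [(20, 36), (14, 39)]) (.leaf [(8, 17), (20, 0), (26, 13)])) (.leaf [(14, 10), (26, 22), (31, 5), (7, 27)]))),
    (652, (.leaf [(18, 1), (32, 26), (3, 14), (12, 44)])),
    (674, (.leaf [(18, 20), (32, 38), (3, 12), (13, 38)])),
    (696, (.leaf [(18, 46), (32, 46), (3, 23), (14, 11)])),
    (718, (.leaf [(19, 14), (33, 10), (4, 0), (14, 14)])),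
    (740, (.leaf [(4, 21), (33, 19), (19, 33), (14, 43)]))]

theorem E3p30 : chkP gE E3L 4984832 E3w 13 97 14 34 E3l30 = true := by decide +kernel

def E3l31 : List (Nat × Tree) :=
  [(762, (.leaf [(20, 4), (33, 31), (4, 10), (15, 11)])),
    (784, (.leaf [(20, 31), (33, 43), (4, 25), (15, 13)])),
    (806, (.node 1180 (.leaf [(27, 25), (3, 21), (20, 13)]) (.leaf [(21, 4), (34, 5), (4, 36), (15, 29)]))),
    (828, (.node 1202 (.leaf [(27, 36), (3, 21), (21, 1)]) (.leaf [(21, 24), (34, 13), (4, 27), (15, 44)]))),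
    (850, (.node 1224 (.leaf [(28, 3), (3, 21), (21, 22)]) (.node 1246 (.leaf [(28, 18), (3, 21), (21, 32)]) (.leaf [(22, 9), (0, 10), (4, 31), (16, 15)])))),
    (872, (.node 1246 (.leaf [(4, 28), (28, 18), (21, 24)]) (.node 1268 (.leaf [(28, 32), (3, 21), (22, 11)]) (.leaf [(22, 26), (0, 20), (4, 45), (16, 32)])))),
    (894, (.node 1268 (.leaf [(4, 28), (28, 32), (22, 9)]) (.node 1290 (.leaf [(29, 1), (3, 21), (22, 27)]) (.leaf [(23, 25), (0, 33), (5, 6), (16, 39)])))),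
    (916, (.node 1290 (.leaf [(4, 28), (29, 1), (22, 26)]) (.node 1312 (.leaf [(4, 28), (29, 18), (23, 25)]) (.leaf [(23, 42), (1, 2), (5, 19), (17, 4)])))),
    (938, (.node 1312 (.leaf [(4, 28), (29, 18), (23, 25)]) (.node 1334 (.leaf [(29, 33), (3, 21), (23, 40)]) (.leaf [(24, 6), (1, 15), (5, 32), (17, 19)])))),
    (960, (.node 1334 (.leaf [(4, 28), (29, 33), (23, 23)]) (.node 1356 (.leaf [(30, 11), (3, 21), (23, 45)]) (.leaf [(24, 42), (1, 23), (5, 44), (17, 30)])))),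
    (982, (.node 1356 (.leaf [(4, 28), (30, 8), (24, 6)]) (.node 1378 (.leaf [(30, 32), (3, 21), (24, 43)]) (.leaf [(25, 30), (1, 44), (16, 0), (17, 43)])))),
    (1004, (.node 301 (.leaf [(25, 35), (30, 43), (3, 18)]) (.leaf [(19, 26), (25, 21), (31, 34), (2, 41)]))),
    (1026, (.node 1400 (.leaf [(30, 29), (5, 30), (25, 26)]) (.node 1422 (.leaf [(31, 10), (5, 30), (25, 36)]) (.leaf [(26, 11), (2, 29), (5, 30), (18, 38)])))),
    (1048, (.node 631 (.leaf [(28, 29), (3, 35), (18, 1)]) (.leaf [(25, 14), (18, 3), (30, 37), (3, 14)]))),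
    (1070, (.leaf [(3, 14), (25, 6), (19, 0), (26, 45)])),
    (1092, (.leaf [(3, 21), (25, 11), (20, 38), (27, 9)])),
    (1114, (.leaf [(27, 24), (3, 30), (24, 40), (19, 36)])),
    (1136, (.leaf [(3, 21), (25, 24), (21, 23), (27, 27)])),
    (1158, (.leaf [(3, 21), (26, 5), (21, 35), (27, 37)])),
    (1180, (.leaf [(28, 29), (4, 28), (21, 2), (24, 10)])),
    (1202, (.leaf [(3, 21), (25, 9), (22, 22), (28, 8)])),
    (1224, (.node 1598 (.leaf [(9, 20), (29, 1), (33, 35)]) (.leaf [(28, 27), (3, 21), (7, 44), (21, 27)]))),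
    (1246, (.leaf [(28, 33), (3, 21), (7, 29), (21, 32)])),
    (1268, (.node 1642 (.leaf [(0, 13), (6, 18), (28, 35)]) (.leaf [(29, 3), (3, 21), (7, 29), (22, 19)]))),
    (1290, (.node 1664 (.node 2038 (.leaf [(4, 28), (7, 37)]) (.leaf [(1, 38), (6, 14), (29, 21)])) (.leaf [(29, 28), (3, 21), (6, 39), (23, 14)]))),
    (1312, (.leaf [(29, 35), (3, 21), (6, 39), (23, 20)])),
    (1334, (.leaf [(30, 3), (3, 21), (6, 39), (23, 40)])),
    (1356, (.leaf [(30, 17), (5, 30), (6, 39), (24, 2)])),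
    (1378, (.leaf [(12, 18), (8, 29), (31, 6), (25, 18)])),
    (1400, (.leaf [(31, 7), (10, 34), (7, 28), (25, 26)])),
    (1422, (.leaf [(31, 11), (9, 25), (7, 16), (25, 39)])),
    (1444, (.leaf [(31, 22), (7, 44), (7, 5), (26, 3)])),
    (1466, (.leaf [(31, 31), (7, 29), (7, 23), (26, 27)])),
    (1488, (.leaf [(31, 40), (6, 39), (26, 42), (7, 36)])),
    (1510, (.leaf [(32, 5), (6, 39), (27, 3), (8, 8)])),
    (1532, (.leaf [(8, 6), (31, 12), (27, 38), (1, 26)])),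
    (1554, (.leaf [(32, 24), (30, 4), (22, 7), (11, 7)])),
    (1576, (.leaf [(8, 30), (32, 30), (28, 10), (11, 10)])),
    (1598, (.leaf [(32, 41), (30, 15), (12, 24), (11, 30)])),
    (1620, (.leaf [(8, 35), (33, 7), (28, 43), (12, 14)])),
    (1642, (.leaf [(8, 41), (33, 16), (29, 19), (12, 32)])),
    (1664, (.leaf [(0, 40), (6, 39), (11, 3), (29, 7)])),
    (1686, (.leaf [(1, 3), (6, 39), (11, 3), (29, 23)]))]

theorem E3p31 : chkP gE E3L 4984832 E3w 14 34 14 77 E3l31 = true := by decide +kernel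

def E3l32 : List (Nat × Tree) :=
  [(1708, (.leaf [(6, 34), (0, 21), (11, 44), (30, 20)])),
    (1730, (.leaf [(1, 37), (6, 39), (12, 1), (31, 23)])),
    (1752, (.leaf [(1, 40), (7, 20), (11, 25), (31, 35)])),
    (1774, (.leaf [(2, 30), (7, 23), (12, 6), (31, 43)])),
    (1796, (.node 2170 (.leaf [(5, 9), (12, 37), (2, 41)]) (.leaf [(3, 9), (7, 40), (12, 34), (32, 18)]))),
    (1818, (.leaf [(3, 9), (8, 19), (13, 4), (32, 19)])),
    (1840, (.leaf [(3, 9), (8, 24), (13, 32), (32, 23)])),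
    (1862, (.leaf [(3, 9), (8, 31), (13, 46), (32, 32)])),
    (1884, (.leaf [(3, 9), (8, 42), (14, 24), (32, 43)])),
    (1906, (.leaf [(3, 9), (9, 23), (14, 25), (33, 39)])),
    (1928, (.leaf [(3, 9), (9, 33), (14, 33), (34, 3)])),
    (1950, (.leaf [(4, 41), (10, 43), (15, 0), (33, 11)])),
    (1972, (.leaf [(3, 9), (10, 3), (15, 15), (0, 7)])),
    (1994, (.leaf [(3, 10), (10, 35), (15, 45), (34, 15)])),
    (2016, (.leaf [(3, 9), (10, 30), (16, 1), (0, 29)])),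
    (2038, (.leaf [(14, 1), (17, 28), (33, 38), (2, 9)])),
    (2060, (.leaf [(3, 43), (11, 42), (16, 28), (0, 32)])),
    (2082, (.leaf [(14, 19), (18, 0), (26, 30), (0, 17)])),
    (2104, (.leaf [(13, 13), (5, 2), (0, 41), (17, 26)])),
    (2126, (.leaf [(4, 34), (13, 6), (17, 15), (1, 22)])),
    (2148, (.leaf [(15, 8), (4, 32), (1, 12), (18, 29)])),
    (2170, (.leaf [(5, 22), (12, 40), (17, 32), (2, 41)])),
    (2192, (.leaf [(5, 20), (13, 15), (17, 42), (3, 9)])),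
    (2214, (.leaf [(6, 39), (14, 7), (18, 12), (3, 14)])),
    (2236, (.leaf [(6, 39), (14, 17), (18, 28), (3, 21)])),
    (2258, (.leaf [(6, 1), (16, 27), (20, 29), (1, 46)])),
    (2280, (.leaf [(6, 1), (16, 27), (20, 29), (1, 46)])),
    (2302, (.leaf [(20, 37), (3, 42), (8, 34), (15, 6)])),
    (2324, (.leaf [(20, 37), (3, 42), (8, 34), (15, 6)])),
    (2346, (.leaf [(21, 15), (3, 45), (7, 24), (14, 41)])),
    (2368, (.leaf [(21, 30), (3, 29), (7, 25), (15, 2)])),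
    (2390, (.leaf [(6, 39), (17, 20), (21, 33), (3, 21)])),
    (2412, (.leaf [(6, 35), (18, 26), (22, 38), (2, 18)])),
    (2434, (.leaf [(6, 35), (18, 26), (22, 38), (2, 18)])),
    (2456, (.leaf [(19, 4), (7, 2), (24, 7), (23, 33)])),
    (2478, (.leaf [(7, 12), (19, 19), (24, 45), (20, 39)])),
    (2500, (.leaf [(7, 12), (19, 19), (24, 45), (20, 39)])),
    (2522, (.leaf [(7, 14), (18, 8), (23, 26), (3, 40)])),
    (2544, (.leaf [(20, 2), (7, 6), (5, 45), (25, 45)])),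
    (2566, (.leaf [(20, 19), (8, 11), (6, 21), (26, 33)])),
    (2588, (.leaf [(20, 19), (8, 11), (6, 21), (26, 33)])),
    (2610, (.leaf [(20, 45), (9, 0), (26, 40), (27, 11)])),
    (2632, (.leaf [(20, 45), (9, 0), (26, 40), (27, 11)]))]

theorem E3p32 : chkP gE E3L 4984832 E3w 14 77 15 0 E3l32 = true := by decide +kernel

end Pool.Agent.K9.C
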