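import Mathlib
import Pool.Agent.K9.Main
import Pool.Agent.K9.C.OKgE
import Pool.Agent.K9.C.E3M0
import Pool.Agent.K9.C.E3M1
import Pool.Agent.K9.C.E3M2
import Pool.Agent.K9.C.E3M3
import Pool.Agent.K9.C.E3M4
import Pool.Agent.K9.C.E3M5
import Pool.Agent.K9.C.E3P0
import Pool.Agent.K9.C.E3P1
import Pool.Agent.K9.C.E3P2
import Pool.Agent.K9.C.E3P3

/-! # K9: a box with far outer points -/

namespace Pool.Agent.K9.C

set_option maxRecDepth 10000

theorem E3all : List.all E3L cokB = true := by decide +kernel

theorem E3mem : MRange gE E3L 4984832 E3w 0 2640 :=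
  (MRange.join (MRange.join (MRange.join (MRange.join (MRange.join (MRange.join (MRange.join (MRange.join (MRange.join (MRange.join (MRange.join (MRange.join (MRange.join (MRange.join (MRange.join (MRange.join (MRange.join (MRange.join (MRange.join (MRange.join (MRange.join (MRange.join (MRange.join (MRange.join (MRange.join (MRange.join (MRange.join (MRange.join (MRange.join (MRange.join (MRange.join (MRange.join (MRange.join (MRange.join (MRange.join (MRange.join (MRange.join (MRange.join (MRange.join (MRange.join (MRange.join (MRange.join (MRange.join (MRange.join (MRange.join (MRange.join (MRange.join (MRange.join (MRange.join (MRange.join (MRange.join (MRange.join (MRange.join (MRange.join (MRange.join (MRange.join (MRange.join (MRange.join (mrange_of_chk (b := 47) rfl E3m0)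
    (mrange_of_chk (b := 90) rfl E3m1))
    (mrange_of_chk (b := 128) rfl E3m2))
    (mrange_of_chk (b := 169) rfl E3m3))
    (mrange_of_chk (b := 209) rfl E3m4))
    (mrange_of_chk (b := 248) rfl E3m5))
    (mrange_of_chk (b := 282) rfl E3m6))
    (mrange_of_chk (b := 319) rfl E3m7))
    (mrange_of_chk (b := 633) rfl E3m8))
    (mrange_of_chk (b := 671) rfl E3m9))
    (mrange_of_chk (b := 710) rfl E3m10))
    (mrange_of_chk (b := 741) rfl E3m11))
    (mrange_of_chk (b := 778) rfl E3m12))
    (mrange_of_chk (b := 818) rfl E3m13))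
    (mrange_of_chk (b := 854) rfl E3m14))
    (mrange_of_chk (b := 898) rfl E3m15))
    (mrange_of_chk (b := 940) rfl E3m16))
    (mrange_of_chk (b := 984) rfl E3m17))
    (mrange_of_chk (b := 1028) rfl E3m18))
    (mrange_of_chk (b := 1072) rfl E3m19))
    (mrange_of_chk (b := 1117) rfl E3m20))
    (mrange_of_chk (b := 1162) rfl E3m21))
    (mrange_of_chk (b := 1207) rfl E3m22))
    (mrange_of_chk (b := 1257) rfl E3m23))
    (mrange_of_chk (b := 1302) rfl E3m24))
    (mrange_of_chk (b := 1347) rfl E3m25))
    (mrange_of_chk (b := 1392) rfl E3m26))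
    (mrange_of_chk (b := 1435) rfl E3m27))
    (mrange_of_chk (b := 1477) rfl E3m28))
    (mrange_of_chk (b := 1513) rfl E3m29))
    (mrange_of_chk (b := 1553) rfl E3m30))
    (mrange_of_chk (b := 1591) rfl E3m31))
    (mrange_of_chk (b := 1630) rfl E3m32))
    (mrange_of_chk (b := 1665) rfl E3m33))
    (mrange_of_chk (b := 1702) rfl E3m34))
    (mrange_of_chk (b := 1741) rfl E3m35))
    (mrange_of_chk (b := 1775) rfl E3m36))
    (mrange_of_chk (b := 1812) rfl E3m37))
    (mrange_of_chk (b := 1850) rfl E3m38))
    (mrange_of_chk (b := 1884) rfl E3m39))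
    (mrange_of_chk (b := 1922) rfl E3m40))
    (mrange_of_chk (b := 1960) rfl E3m41))
    (mrange_of_chk (b := 1993) rfl E3m42))
    (mrange_of_chk (b := 2030) rfl E3m43))
    (mrange_of_chk (b := 2062) rfl E3m44))
    (mrange_of_chk (b := 2099) rfl E3m45))
    (mrange_of_chk (b := 2138) rfl E3m46))
    (mrange_of_chk (b := 2175) rfl E3m47))
    (mrange_of_chk (b := 2218) rfl E3m48))
    (mrange_of_chk (b := 2261) rfl E3m49))
    (mrange_of_chk (b := 2304) rfl E3m50))
    (mrange_of_chk (b := 2349) rfl E3m51))
    (mrange_of_chk (b := 2393) rfl E3m52))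
    (mrange_of_chk (b := 2436) rfl E3m53))
    (mrange_of_chk (b := 2479) rfl E3m54))
    (mrange_of_chk (b := 2522) rfl E3m55))
    (mrange_of_chk (b := 2566) rfl E3m56))
    (mrange_of_chk (b := 2612) rfl E3m57))
    (mrange_of_chk (b := 2640) rfl E3m58))

theorem E3peel : Peel gE E3L 4984832 E3w 0 0 15 0 :=
  (Peel.trans (Peel.trans (Peel.trans (Peel.trans (Peel.trans (Peel.trans (Peel.trans (Peel.trans (Peel.trans (Peel.trans (Peel.trans (Peel.trans (Peel.trans (Peel.trans (Peel.trans (Peel.trans (Peel.trans (Peel.trans (Peel.trans (Peel.trans (Peel.trans (Peel.trans (Peel.trans (Peel.trans (Peel.trans (Peel.trans (Peel.trans (Peel.trans (Peel.trans (Peel.trans (Peel.trans (Peel.trans (peel_of_chk gE_ok E3all (by norm_num) (by decide) (by decide) E3p0)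
    (peel_of_chk gE_ok E3all (by norm_num) (by decide) (by decide) E3p1))
    (peel_of_chk gE_ok E3all (by norm_num) (by decide) (by decide) E3p2))
    (peel_of_chk gE_ok E3all (by norm_num) (by decide) (by decide) E3p3))
    (peel_of_chk gE_ok E3all (by norm_num) (by decide) (by decide) E3p4))
    (peel_of_chk gE_ok E3all (by norm_num) (by decide) (by decide) E3p5))
    (peel_of_chk gE_ok E3all (by norm_num) (by decide) (by decide) E3p6))
    (peel_of_chk gE_ok E3all (by norm_num) (by decide) (by decide) E3p7))
    (peel_of_chk gE_ok E3all (by norm_num) (by decide) (by decide) E3p8))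
    (peel_of_chk gE_ok E3all (by norm_num) (by decide) (by decide) E3p9))
    (peel_of_chk gE_ok E3all (by norm_num) (by decide) (by decide) E3p10))
    (peel_of_chk gE_ok E3all (by norm_num) (by decide) (by decide) E3p11))
    (peel_of_chk gE_ok E3all (by norm_num) (by decide) (by decide) E3p12))
    (peel_of_chk gE_ok E3all (by norm_num) (by decide) (by decide) E3p13))
    (peel_of_chk gE_ok E3all (by norm_num) (by decide) (by decide) E3p14))
    (peel_of_chk gE_ok E3all (by norm_num) (by decide) (by decide) E3p15))
    (peel_of_chk gE_ok E3all (by norm_num) (by decide) (by decide) E3p16))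
    (peel_of_chk gE_ok E3all (by norm_num) (by decide) (by decide) E3p17))
    (peel_of_chk gE_ok E3all (by norm_num) (by decide) (by decide) E3p18))
    (peel_of_chk gE_ok E3all (by norm_num) (by decide) (by decide) E3p19))
    (peel_of_chk gE_ok E3all (by norm_num) (by decide) (by decide) E3p20))
    (peel_of_chk gE_ok E3all (by norm_num) (by decide) (by decide) E3p21))
    (peel_of_chk gE_ok E3all (by norm_num) (by decide) (by decide) E3p22))
    (peel_of_chk gE_ok E3all (by norm_num) (by decide) (by decide) E3p23))
    (peel_of_chk gE_ok E3all (by norm_num) (by decide) (by decide) E3p24))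
    (peel_of_chk gE_ok E3all (by norm_num) (by decide) (by decide) E3p25))
    (peel_of_chk gE_ok E3all (by norm_num) (by decide) (by decide) E3p26))
    (peel_of_chk gE_ok E3all (by norm_num) (by decide) (by decide) E3p27))
    (peel_of_chk gE_ok E3all (by norm_num) (by decide) (by decide) E3p28))
    (peel_of_chk gE_ok E3all (by norm_num) (by decide) (by decide) E3p29))
    (peel_of_chk gE_ok E3all (by norm_num) (by decide) (by decide) E3p30))
    (peel_of_chk gE_ok E3all (by norm_num) (by decide) (by decide) E3p31))
    (peel_of_chk gE_ok E3all (by norm_num) (by decide) (by decide) E3p32))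

theorem badE3 : Bad 0 576 1984 2240 :=
  bad_of_peel gE_ok (by decide +kernel) (by norm_num) (by norm_num) (by norm_num) (by norm_num)
    (by norm_num) (N := 2640) (kf := 15) (by decide) (by decide +kernel) E3mem E3peel

end Pool.Agent.K9.C
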