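import Mathlib
import Pool.Agent.K9.Spec
import Pool.Agent.K9.C.Gr

/-! # K9: the conditions on a grid -/

namespace Pool.Agent.K9.C

set_option maxRecDepth 10000

theorem g4_ok : g4.OK where
  len := by decide +kernel
  J4 := by decide +kernel
  Jh := by decide +kernel
  a0 := by decide +kernel
  ah := by decide +kernel
  aJ := by decide +kernel
  axb := by decide +kernel
  nrm := by decide +kernel
  crs := by decide +kernel
  dot := by decide +kernel
  side := by decide +kernel
  Tlen := by decide +kernel
  T0 := by decide +kernel
  Tlt := by
    have h : ∀ k < g4.T.length, k + 1 < g4.T.length → g4.tt k < g4.tt (k + 1) := by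
      decide +kernel
    intro k hk
    exact h k (by omega) hk
  TK := by decide +kernel
  ang := by decide +kernel

end Pool.Agent.K9.C
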