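import Mathlib
import Pool.Agent.K9.Main
import Pool.Agent.K9.C.OKg0
import Pool.Agent.K9.C.OKg1
import Pool.Agent.K9.C.OKg2
import Pool.Agent.K9.C.OKg3
import Pool.Agent.K9.C.OKg4
import Pool.Agent.K9.C.OKg5
import Pool.Agent.K9.C.B0
import Pool.Agent.K9.C.B1
import Pool.Agent.K9.C.B2
import Pool.Agent.K9.C.B3
import Pool.Agent.K9.C.B4
import Pool.Agent.K9.C.B5
import Pool.Agent.K9.C.B6
import Pool.Agent.K9.C.B7
import Pool.Agent.K9.C.B8
import Pool.Agent.K9.C.B9
import Pool.Agent.K9.C.B10
import Pool.Agent.K9.C.B11
import Pool.Agent.K9.C.B12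
import Pool.Agent.K9.C.B13
import Pool.Agent.K9.C.B14
import Pool.Agent.K9.C.B15
import Pool.Agent.K9.C.B16
import Pool.Agent.K9.C.B17
import Pool.Agent.K9.C.B18
import Pool.Agent.K9.C.B19
import Pool.Agent.K9.C.B20
import Pool.Agent.K9.C.B21
import Pool.Agent.K9.C.B22
import Pool.Agent.K9.C.E1
import Pool.Agent.K9.C.E2
import Pool.Agent.K9.C.E3

/-! # K9: the tree of boxes -/

namespace Pool.Agent.K9.C

set_option maxRecDepth 10000

theorem b0 : Bad 0 576 0 1728 := bad_near (by norm_num) (by norm_num)
theorem b1 : Bad 0 576 1728 2240 := 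
  bad_splity 1984 (bad_splitx 288 badE1 badE2) badE3
theorem b2 : Bad 0 288 2240 2656 := 
  bad_of_chk g5_ok (by decide +kernel) (by norm_num) (by norm_num) (N := 1728) (by decide)
    (MRange.join (MRange.join (MRange.join (MRange.join (MRange.join (MRange.join (MRange.join (MRange.join (MRange.join (MRange.join (MRange.join (MRange.join (MRange.join (MRange.join (MRange.join (mrange_of_chk (b := 93) rfl m2_0)
    (mrange_of_chk (b := 184) rfl m2_1))
    (mrange_of_chk (b := 657) rfl m2_2))
    (mrange_of_chk (b := 745) rfl m2_3))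
    (mrange_of_chk (b := 835) rfl m2_4))
    (mrange_of_chk (b := 927) rfl m2_5))
    (mrange_of_chk (b := 1015) rfl m2_6))
    (mrange_of_chk (b := 1102) rfl m2_7))
    (mrange_of_chk (b := 1182) rfl m2_8))
    (mrange_of_chk (b := 1262) rfl m2_9))
    (mrange_of_chk (b := 1341) rfl m2_10))
    (mrange_of_chk (b := 1419) rfl m2_11))
    (mrange_of_chk (b := 1503) rfl m2_12))
    (mrange_of_chk (b := 1591) rfl m2_13))
    (mrange_of_chk (b := 1680) rfl m2_14))
    (mrange_of_chk (b := 1728) rfl m2_15)) c2
theorem b3 : Bad 288 432 2240 2448 := 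
  bad_of_chk g3_ok (by decide +kernel) (by norm_num) (by norm_num) (N := 960) (by decide)
    (MRange.join (MRange.join (mrange_of_chk (b := 443) rfl m3_0)
    (mrange_of_chk (b := 774) rfl m3_1))
    (mrange_of_chk (b := 960) rfl m3_2)) c3
theorem b4 : Bad 432 576 2240 2448 := 
  bad_of_chk g2_ok (by decide +kernel) (by norm_num) (by norm_num) (N := 624) (by decide)
    (MRange.join (mrange_of_chk (b := 582) rfl m4_0)
    (mrange_of_chk (b := 624) rfl m4_1)) c4
theorem b5 : Bad 288 576 2240 2448 := bad_splitx 432 b3 b4
theorem b6 : Bad 288 576 2448 2656 := 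
  bad_of_chk g3_ok (by decide +kernel) (by norm_num) (by norm_num) (N := 960) (by decide)
    (MRange.join (MRange.join (mrange_of_chk (b := 451) rfl m6_0)
    (mrange_of_chk (b := 773) rfl m6_1))
    (mrange_of_chk (b := 960) rfl m6_2)) c6
theorem b7 : Bad 288 576 2240 2656 := bad_splity 2448 b5 b6
theorem b8 : Bad 0 576 2240 2656 := bad_splitx 288 b2 b7
theorem b9 : Bad 0 288 2656 3072 := 
  bad_of_chk g3_ok (by decide +kernel) (by norm_num) (by norm_num) (N := 960) (by decide)
    (MRange.join (MRange.join (MRange.join (mrange_of_chk (b := 424) rfl m9_0)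
    (mrange_of_chk (b := 619) rfl m9_1))
    (mrange_of_chk (b := 801) rfl m9_2))
    (mrange_of_chk (b := 960) rfl m9_3)) c9
theorem b10 : Bad 288 576 2656 3072 := 
  bad_of_chk g2_ok (by decide +kernel) (by norm_num) (by norm_num) (N := 624) (by decide)
    (MRange.join (mrange_of_chk (b := 550) rfl m10_0)
    (mrange_of_chk (b := 624) rfl m10_1)) c10
theorem b11 : Bad 0 576 2656 3072 := bad_splitx 288 b9 b10
theorem b12 : Bad 0 576 2240 3072 := bad_splity 2656 b8 b11
theorem b13 : Bad 0 288 3072 3584 := 
  bad_of_chk g3_ok (by decide +kernel) (by norm_num) (by norm_num) (N := 960) (by decide)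
    (MRange.join (MRange.join (MRange.join (mrange_of_chk (b := 445) rfl m13_0)
    (mrange_of_chk (b := 650) rfl m13_1))
    (mrange_of_chk (b := 851) rfl m13_2))
    (mrange_of_chk (b := 960) rfl m13_3)) c13
theorem b14 : Bad 288 576 3072 3584 := 
  bad_of_chk g3_ok (by decide +kernel) (by norm_num) (by norm_num) (N := 960) (by decide)
    (MRange.join (MRange.join (mrange_of_chk (b := 477) rfl m14_0)
    (mrange_of_chk (b := 796) rfl m14_1))
    (mrange_of_chk (b := 960) rfl m14_2)) c14
theorem b15 : Bad 0 576 3072 3584 := bad_splitx 288 b13 b14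
theorem b16 : Bad 0 576 3584 4096 := 
  bad_of_chk g3_ok (by decide +kernel) (by norm_num) (by norm_num) (N := 960) (by decide)
    (MRange.join (MRange.join (MRange.join (mrange_of_chk (b := 455) rfl m16_0)
    (mrange_of_chk (b := 669) rfl m16_1))
    (mrange_of_chk (b := 890) rfl m16_2))
    (mrange_of_chk (b := 960) rfl m16_3)) c16
theorem b17 : Bad 0 576 3072 4096 := bad_splity 3584 b15 b16
theorem b18 : Bad 0 576 4096 6144 := 
  bad_of_chk g3_ok (by decide +kernel) (by norm_num) (by norm_num) (N := 960) (by decide)
    (MRange.join (MRange.join (MRange.join (mrange_of_chk (b := 468) rfl m18_0)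
    (mrange_of_chk (b := 698) rfl m18_1))
    (mrange_of_chk (b := 935) rfl m18_2))
    (mrange_of_chk (b := 960) rfl m18_3)) c18
theorem b19 : Bad 0 576 6144 8192 := 
  bad_of_chk g3_ok (by decide +kernel) (by norm_num) (by norm_num) (N := 960) (by decide)
    (MRange.join (MRange.join (mrange_of_chk (b := 601) rfl m19_0)
    (mrange_of_chk (b := 924) rfl m19_1))
    (mrange_of_chk (b := 960) rfl m19_2)) c19
theorem b20 : Bad 0 576 8192 12288 := 
  bad_of_chk g3_ok (by decide +kernel) (by norm_num) (by norm_num) (N := 960) (by decide)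
    (MRange.join (mrange_of_chk (b := 682) rfl m20_0)
    (mrange_of_chk (b := 960) rfl m20_1)) c20
theorem b21 : Bad 0 576 12288 18432 := 
  bad_of_chk g5_ok (by decide +kernel) (by norm_num) (by norm_num) (N := 1728) (by decide)
    (MRange.join (MRange.join (MRange.join (MRange.join (mrange_of_chk (b := 856) rfl m21_0)
    (mrange_of_chk (b := 1109) rfl m21_1))
    (mrange_of_chk (b := 1362) rfl m21_2))
    (mrange_of_chk (b := 1615) rfl m21_3))
    (mrange_of_chk (b := 1728) rfl m21_4)) c21
theorem b256 : Bad 0 576 8192 18432 := bad_splity 12288 b20 b21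
theorem b257 : Bad 0 576 6144 18432 := bad_splity 8192 b19 b256
theorem b258 : Bad 0 576 4096 18432 := bad_splity 6144 b18 b257
theorem b259 : Bad 0 576 3072 18432 := bad_splity 4096 b17 b258
theorem b260 : Bad 0 576 2240 18432 := bad_splity 3072 b12 b259
theorem b261 : Bad 0 576 1728 18432 := bad_splity 2240 b1 b260
theorem b262 : Bad 0 576 0 18432 := bad_splity 1728 b0 b261
theorem b22 : Bad 576 1152 0 1728 := bad_near (by norm_num) (by norm_num)
theorem b23 : Bad 576 864 1728 1984 := bad_near (by norm_num) (by norm_num)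
theorem b24 : Bad 576 864 1984 2240 := 
  bad_of_chk g4_ok (by decide +kernel) (by norm_num) (by norm_num) (N := 1296) (by decide)
    (MRange.join (MRange.join (MRange.join (MRange.join (MRange.join (mrange_of_chk (b := 375) rfl m24_0)
    (mrange_of_chk (b := 526) rfl m24_1))
    (mrange_of_chk (b := 681) rfl m24_2))
    (mrange_of_chk (b := 1063) rfl m24_3))
    (mrange_of_chk (b := 1211) rfl m24_4))
    (mrange_of_chk (b := 1296) rfl m24_5)) c24
theorem b25 : Bad 576 864 1728 2240 := bad_splity 1984 b23 b24
theorem b26 : Bad 864 1152 1728 1984 := bad_near (by norm_num) (by norm_num)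
theorem b27 : Bad 864 1008 1984 2240 := 
  bad_of_chk g2_ok (by decide +kernel) (by norm_num) (by norm_num) (N := 624) (by decide)
    (MRange.join (mrange_of_chk (b := 618) rfl m27_0)
    (mrange_of_chk (b := 624) rfl m27_1)) c27
theorem b28 : Bad 1008 1152 1984 2240 := 
  bad_of_chk g3_ok (by decide +kernel) (by norm_num) (by norm_num) (N := 960) (by decide)
    (MRange.join (MRange.join (mrange_of_chk (b := 413) rfl m28_0)
    (mrange_of_chk (b := 856) rfl m28_1))
    (mrange_of_chk (b := 960) rfl m28_2)) c28
theorem b29 : Bad 864 1152 1984 2240 := bad_splitx 1008 b27 b28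
theorem b30 : Bad 864 1152 1728 2240 := bad_splity 1984 b26 b29
theorem b31 : Bad 576 1152 1728 2240 := bad_splitx 864 b25 b30
theorem b32 : Bad 576 864 2240 2656 := 
  bad_of_chk g3_ok (by decide +kernel) (by norm_num) (by norm_num) (N := 960) (by decide)
    (MRange.join (MRange.join (mrange_of_chk (b := 437) rfl m32_0)
    (mrange_of_chk (b := 812) rfl m32_1))
    (mrange_of_chk (b := 960) rfl m32_2)) c32
theorem b33 : Bad 864 1152 2240 2656 := 
  bad_of_chk g2_ok (by decide +kernel) (by norm_num) (by norm_num) (N := 624) (by decide)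
    (MRange.join (mrange_of_chk (b := 603) rfl m33_0)
    (mrange_of_chk (b := 624) rfl m33_1)) c33
theorem b34 : Bad 576 1152 2240 2656 := bad_splitx 864 b32 b33
theorem b35 : Bad 576 864 2656 3072 := 
  bad_of_chk g2_ok (by decide +kernel) (by norm_num) (by norm_num) (N := 624) (by decide)
    (MRange.join (mrange_of_chk (b := 615) rfl m35_0)
    (mrange_of_chk (b := 624) rfl m35_1)) c35
theorem b36 : Bad 864 1152 2656 3072 := 
  bad_of_chk g2_ok (by decide +kernel) (by norm_num) (by norm_num) (N := 624) (by decide)
    (mrange_of_chk (b := 624) rfl m36_0) c36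
theorem b37 : Bad 576 1152 2656 3072 := bad_splitx 864 b35 b36
theorem b38 : Bad 576 1152 2240 3072 := bad_splity 2656 b34 b37
theorem b39 : Bad 576 1152 3072 3584 := 
  bad_of_chk g2_ok (by decide +kernel) (by norm_num) (by norm_num) (N := 624) (by decide)
    (MRange.join (mrange_of_chk (b := 594) rfl m39_0)
    (mrange_of_chk (b := 624) rfl m39_1)) c39
theorem b40 : Bad 576 1152 3584 4096 := 
  bad_of_chk g2_ok (by decide +kernel) (by norm_num) (by norm_num) (N := 624) (by decide)
    (mrange_of_chk (b := 624) rfl m40_0) c40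
theorem b41 : Bad 576 1152 3072 4096 := bad_splity 3584 b39 b40
theorem b42 : Bad 576 1152 4096 6144 := 
  bad_of_chk g3_ok (by decide +kernel) (by norm_num) (by norm_num) (N := 960) (by decide)
    (MRange.join (MRange.join (mrange_of_chk (b := 493) rfl m42_0)
    (mrange_of_chk (b := 829) rfl m42_1))
    (mrange_of_chk (b := 960) rfl m42_2)) c42
theorem b43 : Bad 576 1152 6144 8192 := 
  bad_of_chk g3_ok (by decide +kernel) (by norm_num) (by norm_num) (N := 960) (by decide)
    (MRange.join (mrange_of_chk (b := 630) rfl m43_0)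
    (mrange_of_chk (b := 960) rfl m43_1)) c43
theorem b44 : Bad 576 1152 8192 12288 := 
  bad_of_chk g3_ok (by decide +kernel) (by norm_num) (by norm_num) (N := 960) (by decide)
    (MRange.join (mrange_of_chk (b := 684) rfl m44_0)
    (mrange_of_chk (b := 960) rfl m44_1)) c44
theorem b45 : Bad 576 1152 12288 18432 := 
  bad_of_chk g5_ok (by decide +kernel) (by norm_num) (by norm_num) (N := 1728) (by decide)
    (MRange.join (MRange.join (MRange.join (MRange.join (mrange_of_chk (b := 876) rfl m45_0)
    (mrange_of_chk (b := 1129) rfl m45_1))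
    (mrange_of_chk (b := 1418) rfl m45_2))
    (mrange_of_chk (b := 1671) rfl m45_3))
    (mrange_of_chk (b := 1728) rfl m45_4)) c45
theorem b263 : Bad 576 1152 8192 18432 := bad_splity 12288 b44 b45
theorem b264 : Bad 576 1152 6144 18432 := bad_splity 8192 b43 b263
theorem b265 : Bad 576 1152 4096 18432 := bad_splity 6144 b42 b264
theorem b266 : Bad 576 1152 3072 18432 := bad_splity 4096 b41 b265
theorem b267 : Bad 576 1152 2240 18432 := bad_splity 3072 b38 b266
theorem b268 : Bad 576 1152 1728 18432 := bad_splity 2240 b31 b267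
theorem b269 : Bad 576 1152 0 18432 := bad_splity 1728 b22 b268
theorem b46 : Bad 1152 2048 0 1728 := bad_near (by norm_num) (by norm_num)
theorem b47 : Bad 1152 1376 1728 1984 := bad_near (by norm_num) (by norm_num)
theorem b48 : Bad 1376 1600 1728 1984 := 
  bad_of_chk g2_ok (by decide +kernel) (by norm_num) (by norm_num) (N := 624) (by decide)
    (mrange_of_chk (b := 624) rfl m48_0) c48
theorem b49 : Bad 1152 1600 1728 1984 := bad_splitx 1376 b47 b48
theorem b50 : Bad 1152 1376 1984 2240 := 
  bad_of_chk g5_ok (by decide +kernel) (by norm_num) (by norm_num) (N := 1728) (by decide)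
    (MRange.join (MRange.join (MRange.join (MRange.join (MRange.join (MRange.join (MRange.join (MRange.join (mrange_of_chk (b := 487) rfl m50_0)
    (mrange_of_chk (b := 591) rfl m50_1))
    (mrange_of_chk (b := 706) rfl m50_2))
    (mrange_of_chk (b := 823) rfl m50_3))
    (mrange_of_chk (b := 1362) rfl m50_4))
    (mrange_of_chk (b := 1469) rfl m50_5))
    (mrange_of_chk (b := 1581) rfl m50_6))
    (mrange_of_chk (b := 1700) rfl m50_7))
    (mrange_of_chk (b := 1728) rfl m50_8)) c50
theorem b51 : Bad 1376 1600 1984 2240 := 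
  bad_of_chk g2_ok (by decide +kernel) (by norm_num) (by norm_num) (N := 624) (by decide)
    (mrange_of_chk (b := 624) rfl m51_0) c51
theorem b52 : Bad 1152 1600 1984 2240 := bad_splitx 1376 b50 b51
theorem b53 : Bad 1152 1600 1728 2240 := bad_splity 1984 b49 b52
theorem b54 : Bad 1600 2048 1728 2240 := 
  bad_of_chk g2_ok (by decide +kernel) (by norm_num) (by norm_num) (N := 624) (by decide)
    (mrange_of_chk (b := 624) rfl m54_0) c54
theorem b55 : Bad 1152 2048 1728 2240 := bad_splitx 1600 b53 b54
theorem b56 : Bad 1152 1600 2240 3072 := 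
  bad_of_chk g2_ok (by decide +kernel) (by norm_num) (by norm_num) (N := 624) (by decide)
    (MRange.join (mrange_of_chk (b := 619) rfl m56_0)
    (mrange_of_chk (b := 624) rfl m56_1)) c56
theorem b57 : Bad 1600 2048 2240 3072 := 
  bad_of_chk g1_ok (by decide +kernel) (by norm_num) (by norm_num) (N := 480) (by decide)
    (mrange_of_chk (b := 480) rfl m57_0) c57
theorem b58 : Bad 1152 2048 2240 3072 := bad_splitx 1600 b56 b57
theorem b59 : Bad 1152 2048 3072 4096 := 
  bad_of_chk g1_ok (by decide +kernel) (by norm_num) (by norm_num) (N := 480) (by decide)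
    (mrange_of_chk (b := 480) rfl m59_0) c59
theorem b60 : Bad 1152 2048 4096 5120 := 
  bad_of_chk g2_ok (by decide +kernel) (by norm_num) (by norm_num) (N := 624) (by decide)
    (mrange_of_chk (b := 624) rfl m60_0) c60
theorem b61 : Bad 1152 2048 5120 6144 := 
  bad_of_chk g2_ok (by decide +kernel) (by norm_num) (by norm_num) (N := 624) (by decide)
    (mrange_of_chk (b := 624) rfl m61_0) c61
theorem b62 : Bad 1152 2048 4096 6144 := bad_splity 5120 b60 b61
theorem b63 : Bad 1152 2048 6144 8192 := 
  bad_of_chk g2_ok (by decide +kernel) (by norm_num) (by norm_num) (N := 624) (by decide)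
    (mrange_of_chk (b := 624) rfl m63_0) c63
theorem b64 : Bad 1152 2048 8192 12288 := 
  bad_of_chk g3_ok (by decide +kernel) (by norm_num) (by norm_num) (N := 960) (by decide)
    (MRange.join (mrange_of_chk (b := 762) rfl m64_0)
    (mrange_of_chk (b := 960) rfl m64_1)) c64
theorem b65 : Bad 1152 2048 12288 15360 := 
  bad_of_chk g3_ok (by decide +kernel) (by norm_num) (by norm_num) (N := 960) (by decide)
    (MRange.join (mrange_of_chk (b := 889) rfl m65_0)
    (mrange_of_chk (b := 960) rfl m65_1)) c65
theorem b66 : Bad 1152 2048 15360 18432 := 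
  bad_of_chk g4_ok (by decide +kernel) (by norm_num) (by norm_num) (N := 1296) (by decide)
    (MRange.join (MRange.join (mrange_of_chk (b := 825) rfl m66_0)
    (mrange_of_chk (b := 1234) rfl m66_1))
    (mrange_of_chk (b := 1296) rfl m66_2)) c66
theorem b67 : Bad 1152 2048 12288 18432 := bad_splity 15360 b65 b66
theorem b270 : Bad 1152 2048 8192 18432 := bad_splity 12288 b64 b67
theorem b271 : Bad 1152 2048 6144 18432 := bad_splity 8192 b63 b270
theorem b272 : Bad 1152 2048 4096 18432 := bad_splity 6144 b62 b271
theorem b273 : Bad 1152 2048 3072 18432 := bad_splity 4096 b59 b272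
theorem b274 : Bad 1152 2048 2240 18432 := bad_splity 3072 b58 b273
theorem b275 : Bad 1152 2048 1728 18432 := bad_splity 2240 b55 b274
theorem b276 : Bad 1152 2048 0 18432 := bad_splity 1728 b46 b275
theorem b68 : Bad 2048 2560 0 864 := bad_near (by norm_num) (by norm_num)
theorem b69 : Bad 2560 2816 0 432 := bad_near (by norm_num) (by norm_num)
theorem b70 : Bad 2816 2944 0 216 := bad_near (by norm_num) (by norm_num)
theorem b71 : Bad 2944 3072 0 216 := 
  bad_of_chk g1_ok (by decide +kernel) (by norm_num) (by norm_num) (N := 480) (by decide)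
    (mrange_of_chk (b := 480) rfl m71_0) c71
theorem b72 : Bad 2816 3072 0 216 := bad_splitx 2944 b70 b71
theorem b73 : Bad 2816 3072 216 432 := 
  bad_of_chk g2_ok (by decide +kernel) (by norm_num) (by norm_num) (N := 624) (by decide)
    (mrange_of_chk (b := 624) rfl m73_0) c73
theorem b74 : Bad 2816 3072 0 432 := bad_splity 216 b72 b73
theorem b75 : Bad 2560 3072 0 432 := bad_splitx 2816 b69 b74
theorem b76 : Bad 2560 2816 432 864 := bad_near (by norm_num) (by norm_num)
theorem b77 : Bad 2816 3072 432 864 := 
  bad_of_chk g2_ok (by decide +kernel) (by norm_num) (by norm_num) (N := 624) (by decide)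
    (mrange_of_chk (b := 624) rfl m77_0) c77
theorem b78 : Bad 2560 3072 432 864 := bad_splitx 2816 b76 b77
theorem b79 : Bad 2560 3072 0 864 := bad_splity 432 b75 b78
theorem b80 : Bad 2048 3072 0 864 := bad_splitx 2560 b68 b79
theorem b81 : Bad 2048 2560 864 1296 := bad_near (by norm_num) (by norm_num)
theorem b82 : Bad 2048 2560 1296 1728 := 
  bad_of_chk g2_ok (by decide +kernel) (by norm_num) (by norm_num) (N := 624) (by decide)
    (mrange_of_chk (b := 624) rfl m82_0) c82
theorem b83 : Bad 2048 2560 864 1728 := bad_splity 1296 b81 b82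
theorem b84 : Bad 2560 3072 864 1296 := 
  bad_of_chk g1_ok (by decide +kernel) (by norm_num) (by norm_num) (N := 480) (by decide)
    (mrange_of_chk (b := 480) rfl m84_0) c84
theorem b85 : Bad 2560 3072 1296 1728 := 
  bad_of_chk g2_ok (by decide +kernel) (by norm_num) (by norm_num) (N := 624) (by decide)
    (mrange_of_chk (b := 624) rfl m85_0) c85
theorem b86 : Bad 2560 3072 864 1728 := bad_splity 1296 b84 b85
theorem b87 : Bad 2048 3072 864 1728 := bad_splitx 2560 b83 b86
theorem b88 : Bad 2048 3072 0 1728 := bad_splity 864 b80 b87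
theorem b89 : Bad 3072 3328 0 216 := 
  bad_of_chk g2_ok (by decide +kernel) (by norm_num) (by norm_num) (N := 624) (by decide)
    (mrange_of_chk (b := 624) rfl m89_0) c89
theorem b90 : Bad 3072 3328 216 432 := 
  bad_of_chk g2_ok (by decide +kernel) (by norm_num) (by norm_num) (N := 624) (by decide)
    (mrange_of_chk (b := 624) rfl m90_0) c90
theorem b91 : Bad 3072 3328 0 432 := bad_splity 216 b89 b90
theorem b92 : Bad 3328 3584 0 432 := 
  bad_of_chk g2_ok (by decide +kernel) (by norm_num) (by norm_num) (N := 624) (by decide)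
    (mrange_of_chk (b := 624) rfl m92_0) c92
theorem b93 : Bad 3072 3584 0 432 := bad_splitx 3328 b91 b92
theorem b94 : Bad 3072 3328 432 864 := 
  bad_of_chk g2_ok (by decide +kernel) (by norm_num) (by norm_num) (N := 624) (by decide)
    (mrange_of_chk (b := 624) rfl m94_0) c94
theorem b95 : Bad 3328 3584 432 864 := 
  bad_of_chk g2_ok (by decide +kernel) (by norm_num) (by norm_num) (N := 624) (by decide)
    (mrange_of_chk (b := 624) rfl m95_0) c95
theorem b96 : Bad 3072 3584 432 864 := bad_splitx 3328 b94 b95
theorem b97 : Bad 3072 3584 0 864 := bad_splity 432 b93 b96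
theorem b98 : Bad 3584 4096 0 864 := 
  bad_of_chk g2_ok (by decide +kernel) (by norm_num) (by norm_num) (N := 624) (by decide)
    (mrange_of_chk (b := 624) rfl m98_0) c98
theorem b99 : Bad 3072 4096 0 864 := bad_splitx 3584 b97 b98
theorem b100 : Bad 3072 3584 864 1296 := 
  bad_of_chk g2_ok (by decide +kernel) (by norm_num) (by norm_num) (N := 624) (by decide)
    (mrange_of_chk (b := 624) rfl m100_0) c100
theorem b101 : Bad 3072 3584 1296 1728 := 
  bad_of_chk g1_ok (by decide +kernel) (by norm_num) (by norm_num) (N := 480) (by decide)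
    (mrange_of_chk (b := 480) rfl m101_0) c101
theorem b102 : Bad 3072 3584 864 1728 := bad_splity 1296 b100 b101
theorem b103 : Bad 3584 4096 864 1728 := 
  bad_of_chk g1_ok (by decide +kernel) (by norm_num) (by norm_num) (N := 480) (by decide)
    (mrange_of_chk (b := 480) rfl m103_0) c103
theorem b104 : Bad 3072 4096 864 1728 := bad_splitx 3584 b102 b103
theorem b105 : Bad 3072 4096 0 1728 := bad_splity 864 b99 b104
theorem b106 : Bad 2048 4096 0 1728 := bad_splitx 3072 b88 b105
theorem b107 : Bad 2048 2560 1728 2240 := 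
  bad_of_chk g1_ok (by decide +kernel) (by norm_num) (by norm_num) (N := 480) (by decide)
    (mrange_of_chk (b := 480) rfl m107_0) c107
theorem b108 : Bad 2560 3072 1728 2240 := 
  bad_of_chk g1_ok (by decide +kernel) (by norm_num) (by norm_num) (N := 480) (by decide)
    (mrange_of_chk (b := 480) rfl m108_0) c108
theorem b109 : Bad 2048 3072 1728 2240 := bad_splitx 2560 b107 b108
theorem b110 : Bad 3072 4096 1728 2240 := 
  bad_of_chk g2_ok (by decide +kernel) (by norm_num) (by norm_num) (N := 624) (by decide)
    (mrange_of_chk (b := 624) rfl m110_0) c110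
theorem b111 : Bad 2048 4096 1728 2240 := bad_splitx 3072 b109 b110
theorem b112 : Bad 2048 3072 2240 3072 := 
  bad_of_chk g1_ok (by decide +kernel) (by norm_num) (by norm_num) (N := 480) (by decide)
    (mrange_of_chk (b := 480) rfl m112_0) c112
theorem b113 : Bad 3072 4096 2240 3072 := 
  bad_of_chk g1_ok (by decide +kernel) (by norm_num) (by norm_num) (N := 480) (by decide)
    (mrange_of_chk (b := 480) rfl m113_0) c113
theorem b114 : Bad 2048 4096 2240 3072 := bad_splitx 3072 b112 b113
theorem b115 : Bad 2048 2560 3072 4096 := 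
  bad_of_chk g0_ok (by decide +kernel) (by norm_num) (by norm_num) (N := 396) (by decide)
    (mrange_of_chk (b := 396) rfl m115_0) c115
theorem b116 : Bad 2560 3072 3072 4096 := 
  bad_of_chk g0_ok (by decide +kernel) (by norm_num) (by norm_num) (N := 396) (by decide)
    (mrange_of_chk (b := 396) rfl m116_0) c116
theorem b117 : Bad 2048 3072 3072 4096 := bad_splitx 2560 b115 b116
theorem b118 : Bad 3072 4096 3072 4096 := 
  bad_of_chk g0_ok (by decide +kernel) (by norm_num) (by norm_num) (N := 396) (by decide)
    (mrange_of_chk (b := 396) rfl m118_0) c118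
theorem b119 : Bad 2048 4096 3072 4096 := bad_splitx 3072 b117 b118
theorem b120 : Bad 2048 3072 4096 6144 := 
  bad_of_chk g2_ok (by decide +kernel) (by norm_num) (by norm_num) (N := 624) (by decide)
    (mrange_of_chk (b := 624) rfl m120_0) c120
theorem b121 : Bad 3072 4096 4096 6144 := 
  bad_of_chk g0_ok (by decide +kernel) (by norm_num) (by norm_num) (N := 396) (by decide)
    (mrange_of_chk (b := 396) rfl m121_0) c121
theorem b122 : Bad 2048 4096 4096 6144 := bad_splitx 3072 b120 b121
theorem b123 : Bad 2048 4096 6144 8192 := 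
  bad_of_chk g3_ok (by decide +kernel) (by norm_num) (by norm_num) (N := 960) (by decide)
    (MRange.join (mrange_of_chk (b := 711) rfl m123_0)
    (mrange_of_chk (b := 960) rfl m123_1)) c123
theorem b124 : Bad 2048 4096 8192 12288 := 
  bad_of_chk g4_ok (by decide +kernel) (by norm_num) (by norm_num) (N := 1296) (by decide)
    (MRange.join (MRange.join (MRange.join (mrange_of_chk (b := 680) rfl m124_0)
    (mrange_of_chk (b := 1034) rfl m124_1))
    (mrange_of_chk (b := 1292) rfl m124_2))
    (mrange_of_chk (b := 1296) rfl m124_3)) c124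
theorem b125 : Bad 2048 4096 12288 18432 := 
  bad_of_chk g5_ok (by decide +kernel) (by norm_num) (by norm_num) (N := 1728) (by decide)
    (MRange.join (MRange.join (MRange.join (MRange.join (mrange_of_chk (b := 861) rfl m125_0)
    (mrange_of_chk (b := 1126) rfl m125_1))
    (mrange_of_chk (b := 1450) rfl m125_2))
    (mrange_of_chk (b := 1703) rfl m125_3))
    (mrange_of_chk (b := 1728) rfl m125_4)) c125
theorem b277 : Bad 2048 4096 8192 18432 := bad_splity 12288 b124 b125
theorem b278 : Bad 2048 4096 6144 18432 := bad_splity 8192 b123 b277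
theorem b279 : Bad 2048 4096 4096 18432 := bad_splity 6144 b122 b278
theorem b280 : Bad 2048 4096 3072 18432 := bad_splity 4096 b119 b279
theorem b281 : Bad 2048 4096 2240 18432 := bad_splity 3072 b114 b280
theorem b282 : Bad 2048 4096 1728 18432 := bad_splity 2240 b111 b281
theorem b283 : Bad 2048 4096 0 18432 := bad_splity 1728 b106 b282
theorem b126 : Bad 4096 6144 0 1728 := 
  bad_of_chk g2_ok (by decide +kernel) (by norm_num) (by norm_num) (N := 624) (by decide)
    (mrange_of_chk (b := 624) rfl m126_0) c126
theorem b127 : Bad 4096 6144 1728 2240 := 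
  bad_of_chk g0_ok (by decide +kernel) (by norm_num) (by norm_num) (N := 396) (by decide)
    (mrange_of_chk (b := 396) rfl m127_0) c127
theorem b128 : Bad 4096 6144 2240 3072 := 
  bad_of_chk g0_ok (by decide +kernel) (by norm_num) (by norm_num) (N := 396) (by decide)
    (mrange_of_chk (b := 396) rfl m128_0) c128
theorem b129 : Bad 4096 6144 3072 4096 := 
  bad_of_chk g2_ok (by decide +kernel) (by norm_num) (by norm_num) (N := 624) (by decide)
    (mrange_of_chk (b := 624) rfl m129_0) c129
theorem b130 : Bad 4096 5120 4096 6144 := 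
  bad_of_chk g2_ok (by decide +kernel) (by norm_num) (by norm_num) (N := 624) (by decide)
    (mrange_of_chk (b := 624) rfl m130_0) c130
theorem b131 : Bad 5120 6144 4096 5120 := 
  bad_of_chk g2_ok (by decide +kernel) (by norm_num) (by norm_num) (N := 624) (by decide)
    (mrange_of_chk (b := 624) rfl m131_0) c131
theorem b132 : Bad 5120 6144 5120 6144 := 
  bad_of_chk g2_ok (by decide +kernel) (by norm_num) (by norm_num) (N := 624) (by decide)
    (mrange_of_chk (b := 624) rfl m132_0) c132
theorem b133 : Bad 5120 6144 4096 6144 := bad_splity 5120 b131 b132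
theorem b134 : Bad 4096 6144 4096 6144 := bad_splitx 5120 b130 b133
theorem b135 : Bad 4096 6144 6144 8192 := 
  bad_of_chk g3_ok (by decide +kernel) (by norm_num) (by norm_num) (N := 960) (by decide)
    (MRange.join (mrange_of_chk (b := 795) rfl m135_0)
    (mrange_of_chk (b := 960) rfl m135_1)) c135
theorem b136 : Bad 4096 6144 8192 10240 := 
  bad_of_chk g3_ok (by decide +kernel) (by norm_num) (by norm_num) (N := 960) (by decide)
    (MRange.join (mrange_of_chk (b := 873) rfl m136_0)
    (mrange_of_chk (b := 960) rfl m136_1)) c136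
theorem b137 : Bad 4096 5120 10240 12288 := 
  bad_of_chk g2_ok (by decide +kernel) (by norm_num) (by norm_num) (N := 624) (by decide)
    (mrange_of_chk (b := 624) rfl m137_0) c137
theorem b138 : Bad 5120 6144 10240 11264 := 
  bad_of_chk g2_ok (by decide +kernel) (by norm_num) (by norm_num) (N := 624) (by decide)
    (mrange_of_chk (b := 624) rfl m138_0) c138
theorem b139 : Bad 5120 6144 11264 12288 := 
  bad_of_chk g1_ok (by decide +kernel) (by norm_num) (by norm_num) (N := 480) (by decide)
    (mrange_of_chk (b := 480) rfl m139_0) c139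
theorem b140 : Bad 5120 6144 10240 12288 := bad_splity 11264 b138 b139
theorem b141 : Bad 4096 6144 10240 12288 := bad_splitx 5120 b137 b140
theorem b142 : Bad 4096 6144 8192 12288 := bad_splity 10240 b136 b141
theorem b143 : Bad 4096 6144 12288 13824 := 
  bad_of_chk g3_ok (by decide +kernel) (by norm_num) (by norm_num) (N := 960) (by decide)
    (MRange.join (mrange_of_chk (b := 939) rfl m143_0)
    (mrange_of_chk (b := 960) rfl m143_1)) c143
theorem b144 : Bad 4096 6144 13824 15360 := 
  bad_of_chk g4_ok (by decide +kernel) (by norm_num) (by norm_num) (N := 1296) (by decide)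
    (MRange.join (MRange.join (mrange_of_chk (b := 820) rfl m144_0)
    (mrange_of_chk (b := 1273) rfl m144_1))
    (mrange_of_chk (b := 1296) rfl m144_2)) c144
theorem b145 : Bad 4096 6144 12288 15360 := bad_splity 13824 b143 b144
theorem b146 : Bad 4096 6144 15360 16896 := 
  bad_of_chk g4_ok (by decide +kernel) (by norm_num) (by norm_num) (N := 1296) (by decide)
    (MRange.join (MRange.join (mrange_of_chk (b := 820) rfl m146_0)
    (mrange_of_chk (b := 1271) rfl m146_1))
    (mrange_of_chk (b := 1296) rfl m146_2)) c146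
theorem b147 : Bad 4096 5120 16896 18432 := 
  bad_of_chk g4_ok (by decide +kernel) (by norm_num) (by norm_num) (N := 1296) (by decide)
    (MRange.join (mrange_of_chk (b := 1002) rfl m147_0)
    (mrange_of_chk (b := 1296) rfl m147_1)) c147
theorem b148 : Bad 5120 6144 16896 17664 := 
  bad_of_chk g4_ok (by decide +kernel) (by norm_num) (by norm_num) (N := 1296) (by decide)
    (MRange.join (mrange_of_chk (b := 1005) rfl m148_0)
    (mrange_of_chk (b := 1296) rfl m148_1)) c148
theorem b149 : Bad 5120 6144 17664 18432 := bad_far (by norm_num)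
theorem b150 : Bad 5120 6144 16896 18432 := bad_splity 17664 b148 b149
theorem b151 : Bad 4096 6144 16896 18432 := bad_splitx 5120 b147 b150
theorem b152 : Bad 4096 6144 15360 18432 := bad_splity 16896 b146 b151
theorem b153 : Bad 4096 6144 12288 18432 := bad_splity 15360 b145 b152
theorem b284 : Bad 4096 6144 8192 18432 := bad_splity 12288 b142 b153
theorem b285 : Bad 4096 6144 6144 18432 := bad_splity 8192 b135 b284
theorem b286 : Bad 4096 6144 4096 18432 := bad_splity 6144 b134 b285
theorem b287 : Bad 4096 6144 3072 18432 := bad_splity 4096 b129 b286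
theorem b288 : Bad 4096 6144 2240 18432 := bad_splity 3072 b128 b287
theorem b289 : Bad 4096 6144 1728 18432 := bad_splity 2240 b127 b288
theorem b290 : Bad 4096 6144 0 18432 := bad_splity 1728 b126 b289
theorem b154 : Bad 6144 8192 0 1728 := 
  bad_of_chk g3_ok (by decide +kernel) (by norm_num) (by norm_num) (N := 960) (by decide)
    (MRange.join (mrange_of_chk (b := 731) rfl m154_0)
    (mrange_of_chk (b := 960) rfl m154_1)) c154
theorem b155 : Bad 6144 8192 1728 2240 := 
  bad_of_chk g2_ok (by decide +kernel) (by norm_num) (by norm_num) (N := 624) (by decide)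
    (mrange_of_chk (b := 624) rfl m155_0) c155
theorem b156 : Bad 6144 8192 2240 3072 := 
  bad_of_chk g3_ok (by decide +kernel) (by norm_num) (by norm_num) (N := 960) (by decide)
    (MRange.join (mrange_of_chk (b := 779) rfl m156_0)
    (mrange_of_chk (b := 960) rfl m156_1)) c156
theorem b157 : Bad 6144 8192 3072 4096 := 
  bad_of_chk g3_ok (by decide +kernel) (by norm_num) (by norm_num) (N := 960) (by decide)
    (MRange.join (mrange_of_chk (b := 797) rfl m157_0)
    (mrange_of_chk (b := 960) rfl m157_1)) c157
theorem b158 : Bad 6144 8192 4096 6144 := 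
  bad_of_chk g3_ok (by decide +kernel) (by norm_num) (by norm_num) (N := 960) (by decide)
    (MRange.join (mrange_of_chk (b := 813) rfl m158_0)
    (mrange_of_chk (b := 960) rfl m158_1)) c158
theorem b159 : Bad 6144 8192 6144 8192 := 
  bad_of_chk g3_ok (by decide +kernel) (by norm_num) (by norm_num) (N := 960) (by decide)
    (MRange.join (mrange_of_chk (b := 889) rfl m159_0)
    (mrange_of_chk (b := 960) rfl m159_1)) c159
theorem b160 : Bad 6144 7168 8192 10240 := 
  bad_of_chk g3_ok (by decide +kernel) (by norm_num) (by norm_num) (N := 960) (by decide)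
    (mrange_of_chk (b := 960) rfl m160_0) c160
theorem b161 : Bad 7168 8192 8192 10240 := 
  bad_of_chk g3_ok (by decide +kernel) (by norm_num) (by norm_num) (N := 960) (by decide)
    (mrange_of_chk (b := 960) rfl m161_0) c161
theorem b162 : Bad 6144 8192 8192 10240 := bad_splitx 7168 b160 b161
theorem b163 : Bad 6144 8192 10240 12288 := 
  bad_of_chk g4_ok (by decide +kernel) (by norm_num) (by norm_num) (N := 1296) (by decide)
    (MRange.join (mrange_of_chk (b := 928) rfl m163_0)
    (mrange_of_chk (b := 1296) rfl m163_1)) c163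
theorem b164 : Bad 6144 8192 8192 12288 := bad_splity 10240 b162 b163
theorem b165 : Bad 6144 8192 12288 13824 := 
  bad_of_chk g3_ok (by decide +kernel) (by norm_num) (by norm_num) (N := 960) (by decide)
    (MRange.join (mrange_of_chk (b := 940) rfl m165_0)
    (mrange_of_chk (b := 960) rfl m165_1)) c165
theorem b166 : Bad 6144 8192 13824 15360 := 
  bad_of_chk g4_ok (by decide +kernel) (by norm_num) (by norm_num) (N := 1296) (by decide)
    (MRange.join (MRange.join (mrange_of_chk (b := 805) rfl m166_0)
    (mrange_of_chk (b := 1289) rfl m166_1))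
    (mrange_of_chk (b := 1296) rfl m166_2)) c166
theorem b167 : Bad 6144 8192 12288 15360 := bad_splity 13824 b165 b166
theorem b168 : Bad 6144 8192 15360 16896 := 
  bad_of_chk g4_ok (by decide +kernel) (by norm_num) (by norm_num) (N := 1296) (by decide)
    (MRange.join (mrange_of_chk (b := 825) rfl m168_0)
    (mrange_of_chk (b := 1296) rfl m168_1)) c168
theorem b169 : Bad 6144 6656 16896 17664 := 
  bad_of_chk g4_ok (by decide +kernel) (by norm_num) (by norm_num) (N := 1296) (by decide)
    (MRange.join (mrange_of_chk (b := 1020) rfl m169_0)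
    (mrange_of_chk (b := 1296) rfl m169_1)) c169
theorem b170 : Bad 6656 7168 16896 17664 := bad_far (by norm_num)
theorem b171 : Bad 6144 7168 16896 17664 := bad_splitx 6656 b169 b170
theorem b172 : Bad 6144 7168 17664 18432 := bad_far (by norm_num)
theorem b173 : Bad 6144 7168 16896 18432 := bad_splity 17664 b171 b172
theorem b174 : Bad 7168 8192 16896 18432 := bad_far (by norm_num)
theorem b175 : Bad 6144 8192 16896 18432 := bad_splitx 7168 b173 b174
theorem b176 : Bad 6144 8192 15360 18432 := bad_splity 16896 b168 b175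
theorem b177 : Bad 6144 8192 12288 18432 := bad_splity 15360 b167 b176
theorem b291 : Bad 6144 8192 8192 18432 := bad_splity 12288 b164 b177
theorem b292 : Bad 6144 8192 6144 18432 := bad_splity 8192 b159 b291
theorem b293 : Bad 6144 8192 4096 18432 := bad_splity 6144 b158 b292
theorem b294 : Bad 6144 8192 3072 18432 := bad_splity 4096 b157 b293
theorem b295 : Bad 6144 8192 2240 18432 := bad_splity 3072 b156 b294
theorem b296 : Bad 6144 8192 1728 18432 := bad_splity 2240 b155 b295
theorem b297 : Bad 6144 8192 0 18432 := bad_splity 1728 b154 b296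
theorem b178 : Bad 8192 12288 0 1728 := 
  bad_of_chk g3_ok (by decide +kernel) (by norm_num) (by norm_num) (N := 960) (by decide)
    (MRange.join (mrange_of_chk (b := 793) rfl m178_0)
    (mrange_of_chk (b := 960) rfl m178_1)) c178
theorem b179 : Bad 8192 12288 1728 2240 := 
  bad_of_chk g3_ok (by decide +kernel) (by norm_num) (by norm_num) (N := 960) (by decide)
    (mrange_of_chk (b := 960) rfl m179_0) c179
theorem b180 : Bad 8192 12288 2240 3072 := 
  bad_of_chk g3_ok (by decide +kernel) (by norm_num) (by norm_num) (N := 960) (by decide)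
    (mrange_of_chk (b := 960) rfl m180_0) c180
theorem b181 : Bad 8192 12288 3072 4096 := 
  bad_of_chk g3_ok (by decide +kernel) (by norm_num) (by norm_num) (N := 960) (by decide)
    (mrange_of_chk (b := 960) rfl m181_0) c181
theorem b182 : Bad 8192 12288 4096 6144 := 
  bad_of_chk g4_ok (by decide +kernel) (by norm_num) (by norm_num) (N := 1296) (by decide)
    (MRange.join (MRange.join (mrange_of_chk (b := 605) rfl m182_0)
    (mrange_of_chk (b := 1112) rfl m182_1))
    (mrange_of_chk (b := 1296) rfl m182_2)) c182
theorem b183 : Bad 8192 10240 6144 8192 := 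
  bad_of_chk g3_ok (by decide +kernel) (by norm_num) (by norm_num) (N := 960) (by decide)
    (mrange_of_chk (b := 960) rfl m183_0) c183
theorem b184 : Bad 10240 11264 6144 7168 := 
  bad_of_chk g2_ok (by decide +kernel) (by norm_num) (by norm_num) (N := 624) (by decide)
    (mrange_of_chk (b := 624) rfl m184_0) c184
theorem b185 : Bad 10240 11264 7168 8192 := 
  bad_of_chk g3_ok (by decide +kernel) (by norm_num) (by norm_num) (N := 960) (by decide)
    (mrange_of_chk (b := 960) rfl m185_0) c185
theorem b186 : Bad 10240 11264 6144 8192 := bad_splity 7168 b184 b185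
theorem b187 : Bad 11264 12288 6144 8192 := 
  bad_of_chk g3_ok (by decide +kernel) (by norm_num) (by norm_num) (N := 960) (by decide)
    (mrange_of_chk (b := 960) rfl m187_0) c187
theorem b188 : Bad 10240 12288 6144 8192 := bad_splitx 11264 b186 b187
theorem b189 : Bad 8192 12288 6144 8192 := bad_splitx 10240 b183 b188
theorem b190 : Bad 8192 10240 8192 10240 := 
  bad_of_chk g4_ok (by decide +kernel) (by norm_num) (by norm_num) (N := 1296) (by decide)
    (MRange.join (mrange_of_chk (b := 910) rfl m190_0)
    (mrange_of_chk (b := 1296) rfl m190_1)) c190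
theorem b191 : Bad 8192 10240 10240 12288 := 
  bad_of_chk g3_ok (by decide +kernel) (by norm_num) (by norm_num) (N := 960) (by decide)
    (MRange.join (mrange_of_chk (b := 954) rfl m191_0)
    (mrange_of_chk (b := 960) rfl m191_1)) c191
theorem b192 : Bad 8192 10240 8192 12288 := bad_splity 10240 b190 b191
theorem b193 : Bad 10240 12288 8192 10240 := 
  bad_of_chk g4_ok (by decide +kernel) (by norm_num) (by norm_num) (N := 1296) (by decide)
    (MRange.join (mrange_of_chk (b := 894) rfl m193_0)
    (mrange_of_chk (b := 1296) rfl m193_1)) c193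
theorem b194 : Bad 10240 12288 10240 12288 := 
  bad_of_chk g4_ok (by decide +kernel) (by norm_num) (by norm_num) (N := 1296) (by decide)
    (MRange.join (mrange_of_chk (b := 897) rfl m194_0)
    (mrange_of_chk (b := 1296) rfl m194_1)) c194
theorem b195 : Bad 10240 12288 8192 12288 := bad_splity 10240 b193 b194
theorem b196 : Bad 8192 12288 8192 12288 := bad_splitx 10240 b192 b195
theorem b197 : Bad 8192 10240 12288 15360 := 
  bad_of_chk g5_ok (by decide +kernel) (by norm_num) (by norm_num) (N := 1728) (by decide)
    (MRange.join (MRange.join (MRange.join (mrange_of_chk (b := 806) rfl m197_0)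
    (mrange_of_chk (b := 1252) rfl m197_1))
    (mrange_of_chk (b := 1509) rfl m197_2))
    (mrange_of_chk (b := 1728) rfl m197_3)) c197
theorem b198 : Bad 10240 12288 12288 15360 := 
  bad_of_chk g5_ok (by decide +kernel) (by norm_num) (by norm_num) (N := 1728) (by decide)
    (MRange.join (MRange.join (MRange.join (mrange_of_chk (b := 807) rfl m198_0)
    (mrange_of_chk (b := 1257) rfl m198_1))
    (mrange_of_chk (b := 1558) rfl m198_2))
    (mrange_of_chk (b := 1728) rfl m198_3)) c198
theorem b199 : Bad 8192 12288 12288 15360 := bad_splitx 10240 b197 b198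
theorem b200 : Bad 8192 9216 15360 16128 := 
  bad_of_chk g4_ok (by decide +kernel) (by norm_num) (by norm_num) (N := 1296) (by decide)
    (MRange.join (mrange_of_chk (b := 1021) rfl m200_0)
    (mrange_of_chk (b := 1296) rfl m200_1)) c200
theorem b201 : Bad 8192 9216 16128 16896 := bad_far (by norm_num)
theorem b202 : Bad 8192 9216 15360 16896 := bad_splity 16128 b200 b201
theorem b203 : Bad 9216 10240 15360 16896 := bad_far (by norm_num)
theorem b204 : Bad 8192 10240 15360 16896 := bad_splitx 9216 b202 b203
theorem b205 : Bad 8192 10240 16896 18432 := bad_far (by norm_num)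
theorem b206 : Bad 8192 10240 15360 18432 := bad_splity 16896 b204 b205
theorem b207 : Bad 10240 12288 15360 18432 := bad_far (by norm_num)
theorem b208 : Bad 8192 12288 15360 18432 := bad_splitx 10240 b206 b207
theorem b209 : Bad 8192 12288 12288 18432 := bad_splity 15360 b199 b208
theorem b298 : Bad 8192 12288 8192 18432 := bad_splity 12288 b196 b209
theorem b299 : Bad 8192 12288 6144 18432 := bad_splity 8192 b189 b298
theorem b300 : Bad 8192 12288 4096 18432 := bad_splity 6144 b182 b299
theorem b301 : Bad 8192 12288 3072 18432 := bad_splity 4096 b181 b300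
theorem b302 : Bad 8192 12288 2240 18432 := bad_splity 3072 b180 b301
theorem b303 : Bad 8192 12288 1728 18432 := bad_splity 2240 b179 b302
theorem b304 : Bad 8192 12288 0 18432 := bad_splity 1728 b178 b303
theorem b210 : Bad 12288 18432 0 1728 := 
  bad_of_chk g4_ok (by decide +kernel) (by norm_num) (by norm_num) (N := 1296) (by decide)
    (MRange.join (mrange_of_chk (b := 787) rfl m210_0)
    (mrange_of_chk (b := 1296) rfl m210_1)) c210
theorem b211 : Bad 12288 18432 1728 2240 := 
  bad_of_chk g3_ok (by decide +kernel) (by norm_num) (by norm_num) (N := 960) (by decide)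
    (mrange_of_chk (b := 960) rfl m211_0) c211
theorem b212 : Bad 12288 18432 2240 3072 := 
  bad_of_chk g3_ok (by decide +kernel) (by norm_num) (by norm_num) (N := 960) (by decide)
    (mrange_of_chk (b := 960) rfl m212_0) c212
theorem b213 : Bad 12288 18432 3072 4096 := 
  bad_of_chk g3_ok (by decide +kernel) (by norm_num) (by norm_num) (N := 960) (by decide)
    (mrange_of_chk (b := 960) rfl m213_0) c213
theorem b214 : Bad 12288 18432 4096 6144 := 
  bad_of_chk g5_ok (by decide +kernel) (by norm_num) (by norm_num) (N := 1728) (by decide)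
    (MRange.join (MRange.join (MRange.join (mrange_of_chk (b := 626) rfl m214_0)
    (mrange_of_chk (b := 1129) rfl m214_1))
    (mrange_of_chk (b := 1401) rfl m214_2))
    (mrange_of_chk (b := 1728) rfl m214_3)) c214
theorem b215 : Bad 12288 15360 6144 8192 := 
  bad_of_chk g4_ok (by decide +kernel) (by norm_num) (by norm_num) (N := 1296) (by decide)
    (MRange.join (mrange_of_chk (b := 856) rfl m215_0)
    (mrange_of_chk (b := 1296) rfl m215_1)) c215
theorem b216 : Bad 15360 16896 6144 8192 := 
  bad_of_chk g5_ok (by decide +kernel) (by norm_num) (by norm_num) (N := 1728) (by decide)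
    (MRange.join (MRange.join (mrange_of_chk (b := 734) rfl m216_0)
    (mrange_of_chk (b := 1291) rfl m216_1))
    (mrange_of_chk (b := 1728) rfl m216_2)) c216
theorem b217 : Bad 16896 18432 6144 8192 := bad_far (by norm_num)
theorem b218 : Bad 15360 18432 6144 8192 := bad_splitx 16896 b216 b217
theorem b219 : Bad 12288 18432 6144 8192 := bad_splitx 15360 b215 b218
theorem b220 : Bad 12288 13824 8192 10240 := 
  bad_of_chk g3_ok (by decide +kernel) (by norm_num) (by norm_num) (N := 960) (by decide)
    (mrange_of_chk (b := 960) rfl m220_0) c220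
theorem b221 : Bad 13824 15360 8192 10240 := 
  bad_of_chk g4_ok (by decide +kernel) (by norm_num) (by norm_num) (N := 1296) (by decide)
    (MRange.join (mrange_of_chk (b := 915) rfl m221_0)
    (mrange_of_chk (b := 1296) rfl m221_1)) c221
theorem b222 : Bad 12288 15360 8192 10240 := bad_splitx 13824 b220 b221
theorem b223 : Bad 12288 13824 10240 12288 := 
  bad_of_chk g4_ok (by decide +kernel) (by norm_num) (by norm_num) (N := 1296) (by decide)
    (MRange.join (mrange_of_chk (b := 930) rfl m223_0)
    (mrange_of_chk (b := 1296) rfl m223_1)) c223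
theorem b224 : Bad 13824 14592 10240 11264 := 
  bad_of_chk g3_ok (by decide +kernel) (by norm_num) (by norm_num) (N := 960) (by decide)
    (mrange_of_chk (b := 960) rfl m224_0) c224
theorem b225 : Bad 14592 15360 10240 11264 := bad_far (by norm_num)
theorem b226 : Bad 13824 15360 10240 11264 := bad_splitx 14592 b224 b225
theorem b227 : Bad 13824 15360 11264 12288 := bad_far (by norm_num)
theorem b228 : Bad 13824 15360 10240 12288 := bad_splity 11264 b226 b227
theorem b229 : Bad 12288 15360 10240 12288 := bad_splitx 13824 b223 b228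
theorem b230 : Bad 12288 15360 8192 12288 := bad_splity 10240 b222 b229
theorem b231 : Bad 15360 15744 8192 8704 := 
  bad_of_chk g3_ok (by decide +kernel) (by norm_num) (by norm_num) (N := 960) (by decide)
    (mrange_of_chk (b := 960) rfl m231_0) c231
theorem b232 : Bad 15744 16128 8192 8704 := bad_far (by norm_num)
theorem b233 : Bad 15360 16128 8192 8704 := bad_splitx 15744 b231 b232
theorem b234 : Bad 15360 16128 8704 9216 := bad_far (by norm_num)
theorem b235 : Bad 15360 16128 8192 9216 := bad_splity 8704 b233 b234
theorem b236 : Bad 16128 16896 8192 9216 := bad_far (by norm_num)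
theorem b237 : Bad 15360 16896 8192 9216 := bad_splitx 16128 b235 b236
theorem b238 : Bad 15360 16896 9216 10240 := bad_far (by norm_num)
theorem b239 : Bad 15360 16896 8192 10240 := bad_splity 9216 b237 b238
theorem b240 : Bad 16896 18432 8192 10240 := bad_far (by norm_num)
theorem b241 : Bad 15360 18432 8192 10240 := bad_splitx 16896 b239 b240
theorem b242 : Bad 15360 18432 10240 12288 := bad_far (by norm_num)
theorem b243 : Bad 15360 18432 8192 12288 := bad_splity 10240 b241 b242
theorem b244 : Bad 12288 18432 8192 12288 := bad_splitx 15360 b230 b243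
theorem b245 : Bad 12288 13056 12288 13824 := 
  bad_of_chk g4_ok (by decide +kernel) (by norm_num) (by norm_num) (N := 1296) (by decide)
    (MRange.join (mrange_of_chk (b := 987) rfl m245_0)
    (mrange_of_chk (b := 1296) rfl m245_1)) c245
theorem b246 : Bad 13056 13824 12288 13824 := bad_far (by norm_num)
theorem b247 : Bad 12288 13824 12288 13824 := bad_splitx 13056 b245 b246
theorem b248 : Bad 12288 13824 13824 15360 := bad_far (by norm_num)
theorem b249 : Bad 12288 13824 12288 15360 := bad_splity 13824 b247 b248
theorem b250 : Bad 13824 15360 12288 15360 := bad_far (by norm_num)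
theorem b251 : Bad 12288 15360 12288 15360 := bad_splitx 13824 b249 b250
theorem b252 : Bad 12288 15360 15360 18432 := bad_far (by norm_num)
theorem b253 : Bad 12288 15360 12288 18432 := bad_splity 15360 b251 b252
theorem b254 : Bad 15360 18432 12288 18432 := bad_far (by norm_num)
theorem b255 : Bad 12288 18432 12288 18432 := bad_splitx 15360 b253 b254
theorem b305 : Bad 12288 18432 8192 18432 := bad_splity 12288 b244 b255
theorem b306 : Bad 12288 18432 6144 18432 := bad_splity 8192 b219 b305
theorem b307 : Bad 12288 18432 4096 18432 := bad_splity 6144 b214 b306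
theorem b308 : Bad 12288 18432 3072 18432 := bad_splity 4096 b213 b307
theorem b309 : Bad 12288 18432 2240 18432 := bad_splity 3072 b212 b308
theorem b310 : Bad 12288 18432 1728 18432 := bad_splity 2240 b211 b309
theorem b311 : Bad 12288 18432 0 18432 := bad_splity 1728 b210 b310
theorem b312 : Bad 8192 18432 0 18432 := bad_splitx 12288 b304 b311
theorem b313 : Bad 6144 18432 0 18432 := bad_splitx 8192 b297 b312
theorem b314 : Bad 4096 18432 0 18432 := bad_splitx 6144 b290 b313
theorem b315 : Bad 2048 18432 0 18432 := bad_splitx 4096 b283 b314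
theorem b316 : Bad 1152 18432 0 18432 := bad_splitx 2048 b276 b315
theorem b317 : Bad 576 18432 0 18432 := bad_splitx 1152 b269 b316
theorem b318 : Bad 0 18432 0 18432 := bad_splitx 576 b262 b317

theorem bad_root : Bad 0 18432 0 18432 := b318

end Pool.Agent.K9.C
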